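import Pool.Agent.Lib.MP_372a40_co.RealM3A

/-! # REALM3: a configuration `(m₃)` of distinct real points and lines has `m ≥ 9` (notes 1.2) -/

open Matrix Finset

set_option linter.unusedSectionVars false
set_option linter.unusedVariables false

namespace Pool.Agent.NCfg

variable {V : Type} [Fintype V] [DecidableEq V]

/-- `S` is the set of points (`cls = true`) and lines (`cls = false`) of a configuration whose incidences are `Γ`. -/
theorem real_m3 (x : V → Vec) (cls : V → Bool) (S : Finset V) (Γ : V → V → Prop)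
    (hsymm : ∀ u v, Γ u v → Γ v u)
    (hΓ : ∀ u v, Γ u v → u ∈ S ∧ v ∈ S ∧ cls u ≠ cls v ∧ x u ⬝ᵥ x v = 0)
    (h3 : ∀ u ∈ S, ∃ a b c, a ≠ b ∧ a ≠ c ∧ b ≠ c ∧ ∀ v, Γ u v ↔ v = a ∨ v = b ∨ v = c)
    (hind : ∀ u ∈ S, ∀ v ∈ S, u ≠ v → cls u = cls v → x u ⨯₃ x v ≠ 0) (hne : S.Nonempty) : 18 ≤ S.card := by
  by_contra hlt
  push Not at hlt
  have hlin : ∀ u v, u ≠ v → ∀ a b, Γ u a → Γ v a → Γ u b → Γ v b → a = b := by
    intro u v huv a b h1 h2 h3' h4
    by_contra hab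
    have e1 := hΓ _ _ h1
    have e2 := hΓ _ _ h2
    have e3 := hΓ _ _ h3'
    have e4 := hΓ _ _ h4
    have c1 : cls u = cls v := by
      have := e1.2.2.1; have := e2.2.2.1
      revert e1 e2; cases cls u <;> cases cls v <;> cases cls a <;> simp
    have c2 : cls a = cls b := by
      have := e1.2.2.1; have := e3.2.2.1
      revert e1 e3; cases cls u <;> cases cls a <;> cases cls b <;> simp
    have hab' := hind a e1.2.1 b e3.2.1 hab c2
    obtain ⟨s, hs⟩ := eq_smul_cross hab' e1.2.2.2 e3.2.2.2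
    obtain ⟨t, ht⟩ := eq_smul_cross hab' e2.2.2.2 e4.2.2.2
    apply hind u e1.1 v e2.1 huv c1
    rw [hs, ht]
    simp
  rcases combi_m3 cls S Γ hsymm (fun u v h => ⟨(hΓ u v h).1, (hΓ u v h).2.1, (hΓ u v h).2.2.1⟩) h3 hlin hne hlt with
    ⟨p, q, hp, hq, hpS, hqS, hi⟩ | ⟨p, q, hp, hq, hpS, hqS, hi⟩
  · exact no_fano (fun i => x (p i)) (fun i => x (q i))
      (fun i j hij => hind _ (hpS i).1 _ (hpS j).1 (fun h => hij (hp h)) (by rw [(hpS i).2, (hpS j).2]))
      (fun i j hij => hind _ (hqS i).1 _ (hqS j).1 (fun h => hij (hq h)) (by rw [(hqS i).2, (hqS j).2]))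
      (fun b a ha => (hΓ _ _ (hi b a ha)).2.2.2)
  · exact no_mk (fun i => x (p i)) (fun i => x (q i))
      (fun i j hij => hind _ (hpS i).1 _ (hpS j).1 (fun h => hij (hp h)) (by rw [(hpS i).2, (hpS j).2]))
      (fun i j hij => hind _ (hqS i).1 _ (hqS j).1 (fun h => hij (hq h)) (by rw [(hqS i).2, (hqS j).2]))
      (fun b a ha => (hΓ _ _ (hi b a ha)).2.2.2)

end Pool.Agent.NCfg
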