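import Pool.Agent.Lib.MP_372a40_co.Support
import Pool.Agent.Lib.MP_372a40_co.RealM3

/-! # BLOB: the support of the stress of an unwanted pair (notes 1.1) -/

open Matrix Finset

set_option linter.unusedSectionVars false
set_option linter.unusedVariables false

namespace Pool.Agent.NCfg

variable {V : Type} [Fintype V] [DecidableEq V]

private theorem blob_cls {G : SimpleGraph V} {cls : V → Bool} {x : V → Vec} (hG : Cubic G cls) {p l : V}
    (hp : cls p = true) (hl : cls l = false) {σ : V → V → ℝ} (hσ : Stress (adde G p l) x σ) {u v : V}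
    (h : σ u v ≠ 0) : cls u ≠ cls v := by
  rcases hσ.supp u v h with h1 | ⟨rfl, rfl⟩ | ⟨rfl, rfl⟩
  · exact hG.bip u v h1
  · rw [hp, hl]; decide
  · rw [hp, hl]; decide

private theorem blob_three {G : SimpleGraph V} {cls : V → Bool} {x : V → Vec} (hG : Cubic G cls) (hx : HRep G cls x)
    {p l : V} (hp : cls p = true) (hl : cls l = false) {σ : V → V → ℝ} (hσ : Stress (adde G p l) x σ) {u : V}
    (hu : u ∈ VS σ) : 3 ≤ (sn σ u).card :=
  three_le_sn (fun u => hx.ne_zero u) hx.ind (fun v hv => blob_cls hG hp hl hσ hv) (hσ.eq u) hu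

private theorem blob_card {G : SimpleGraph V} {cls : V → Bool} {x : V → Vec} (hG : Cubic G cls) (hx : HRep G cls x)
    {p l : V} (hp : cls p = true) (hl : cls l = false) {σ : V → V → ℝ} (hσ : Stress (adde G p l) x σ) {u : V}
    (hu : u ∈ VS σ) (hup : u ≠ p) (hul : u ≠ l) : (sn σ u).card = 3 := by
  refine le_antisymm ?_ (blob_three hG hx hp hl hσ hu)
  rw [← hG.deg u]
  apply card_le_card
  intro v hv
  rw [mem_sn] at hv
  rw [mem_nb]
  rcases hσ.supp u v hv with h1 | ⟨h1, _⟩ | ⟨h1, _⟩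
  · exact h1
  · exact absurd h1 hup
  · exact absurd h1 hul

private theorem blob_ends {G : SimpleGraph V} {x : V → Vec} {p l : V} {a b : V}
    (hab : (a = p ∧ b = l) ∨ (a = l ∧ b = p)) (hpl : p ≠ l) (hna : ¬ G.Adj a b)
    {σ : V → V → ℝ} (hσ : Stress (adde G p l) x σ) (hne : σ a b ≠ 0) (hdeg : (nb G a).card = 3) :
    (sn σ a).card ≤ 4 ∧ ((sn σ a).card = 4 → ∀ v, G.Adj a v → σ a v ≠ 0) ∧
      ((sn σ a).card = 3 → ∃ v, G.Adj a v ∧ σ a v = 0) := by
  have hsub : sn σ a ⊆ insert b (nb G a) := by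
    intro v hv
    rw [mem_sn] at hv
    rw [mem_insert, mem_nb]
    rcases hσ.supp a v hv with h1 | ⟨h1, h2⟩ | ⟨h1, h2⟩
    · exact Or.inr h1
    · left
      rcases hab with ⟨_, h4⟩ | ⟨h3, _⟩
      · rw [h2, h4]
      · exact absurd (h1.symm.trans h3) hpl
    · left
      rcases hab with ⟨h3, _⟩ | ⟨_, h4⟩
      · exact absurd (h3.symm.trans h1) hpl
      · rw [h2, h4]
  have hb : b ∉ nb G a := by rw [mem_nb]; exact hna
  have hc : (insert b (nb G a)).card = 4 := by rw [card_insert_of_notMem hb, hdeg]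
  refine ⟨hc ▸ card_le_card hsub, ?_, ?_⟩
  · intro h4 v hv
    have h5 : sn σ a = insert b (nb G a) := eq_of_subset_of_card_le hsub (by rw [hc, h4])
    have h6 : v ∈ sn σ a := by
      rw [h5, mem_insert, mem_nb]
      exact Or.inr hv
    exact mem_sn.1 h6
  · intro h3
    by_contra hno
    push Not at hno
    have h5 : insert b (nb G a) ⊆ sn σ a := by
      intro v hv
      rw [mem_insert, mem_nb] at hv
      rw [mem_sn]
      rcases hv with rfl | hv
      · exact hne
      · exact hno v hv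
    have h6 := card_le_card h5
    omega

private theorem blob_count {G : SimpleGraph V} {cls : V → Bool} {x : V → Vec} (hG : Cubic G cls) (hx : HRep G cls x)
    {p l : V} (hp : cls p = true) (hl : cls l = false) {σ : V → V → ℝ} (hσ : Stress (adde G p l) x σ)
    (hpS : p ∈ VS σ) (hlS : l ∈ VS σ) :
    ∃ a b : ℕ, 3 * a + (sn σ p).card = 3 * b + (sn σ l).card := by
  classical
  set Pt := (VS σ).filter (fun u => cls u = true) with hPt
  set Ln := (VS σ).filter (fun u => cls u = false) with hLn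
  have hdc := sum_card_bipartiteAbove_eq_sum_card_bipartiteBelow (s := Pt) (t := Ln)
    (fun a b => σ a b ≠ 0)
  have h1 : ∀ a ∈ Pt, (Ln.bipartiteAbove (fun a b => σ a b ≠ 0) a) = sn σ a := by
    intro a ha
    rw [hPt, mem_filter] at ha
    ext v
    rw [mem_bipartiteAbove, hLn, mem_filter, mem_sn, mem_VS]
    constructor
    · exact fun h => h.2
    · intro h
      have h2 := blob_cls hG hp hl hσ h
      rw [ha.2] at h2
      refine ⟨⟨⟨a, ?_⟩, ?_⟩, h⟩
      · rw [hσ.symm]; exact h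
      · cases hc : cls v
        · rfl
        · rw [hc] at h2; exact absurd rfl h2
  have h2 : ∀ b ∈ Ln, (Pt.bipartiteBelow (fun a b => σ a b ≠ 0) b) = sn σ b := by
    intro b hb
    rw [hLn, mem_filter] at hb
    ext v
    rw [mem_bipartiteBelow, hPt, mem_filter, mem_sn, mem_VS]
    constructor
    · intro h
      rw [hσ.symm]; exact h.2
    · intro h
      have h2 := blob_cls hG hp hl hσ h
      rw [hb.2] at h2
      have h3 : σ v b ≠ 0 := by rw [hσ.symm]; exact h
      refine ⟨⟨⟨b, h3⟩, ?_⟩, h3⟩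
      cases hc : cls v
      · rw [hc] at h2; exact absurd rfl h2
      · rfl
  have e1 : ∑ a ∈ Pt, (Ln.bipartiteAbove (fun a b => σ a b ≠ 0) a).card = ∑ a ∈ Pt, (sn σ a).card :=
    sum_congr rfl fun a ha => by rw [h1 a ha]
  have e2 : ∑ b ∈ Ln, (Pt.bipartiteBelow (fun a b => σ a b ≠ 0) b).card = ∑ b ∈ Ln, (sn σ b).card :=
    sum_congr rfl fun b hb => by rw [h2 b hb]
  rw [e1, e2] at hdc
  have hpP : p ∈ Pt := by rw [hPt, mem_filter]; exact ⟨hpS, hp⟩
  have hlL : l ∈ Ln := by rw [hLn, mem_filter]; exact ⟨hlS, hl⟩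
  rw [← sum_erase_add _ _ hpP, ← sum_erase_add _ _ hlL] at hdc
  have e3 : ∑ u ∈ Pt.erase p, (sn σ u).card = ∑ u ∈ Pt.erase p, 3 := by
    refine sum_congr rfl fun u hu => ?_
    rw [mem_erase, hPt, mem_filter] at hu
    exact blob_card hG hx hp hl hσ hu.2.1 hu.1 (fun h => by rw [h, hl] at hu; exact absurd hu.2.2 (by decide))
  have e4 : ∑ u ∈ Ln.erase l, (sn σ u).card = ∑ u ∈ Ln.erase l, 3 := by
    refine sum_congr rfl fun u hu => ?_
    rw [mem_erase, hLn, mem_filter] at hu
    exact blob_card hG hx hp hl hσ hu.2.1 (fun h => by rw [h, hp] at hu; exact absurd hu.2.2 (by decide)) hu.1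
  rw [e3, e4, sum_const, sum_const, smul_eq_mul, smul_eq_mul] at hdc
  exact ⟨(Pt.erase p).card, (Ln.erase l).card, by rw [mul_comm 3, mul_comm 3]; exact hdc⟩

/-- Notes 1.1. Double counting of the stressed pairs at the points and at the lines of `VS σ`; every vertex of `VS σ` other than
`p, l` has exactly 3 stressed pairs, `p` and `l` have 3 or 4, the numbers at `p` and `l` agree (mod 3, hence agree). If both are 4, `VS σ` is closed
under adjacency, so it is everything. If both are 3, apply `real_m3` with `Γ u v := σ u v ≠ 0`; the unstressed neighbour `v` of `p` is not in `VS σ`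
by `full_nb` (`v ≠ l` because `p, l` are not adjacent). -/
theorem blob {G : SimpleGraph V} {cls : V → Bool} {x : V → Vec} (hG : Cubic G cls) (hx : HRep G cls x) {p l : V}
    (hpl : (p, l) ∈ Unw G cls x) {σ : V → V → ℝ} (hσ : Stress (adde G p l) x σ) (hne : σ p l ≠ 0) :
    (VS σ = univ ∧ ∀ u v, G.Adj u v → σ u v ≠ 0) ∨
    (18 ≤ (VS σ).card ∧ (∃ v, G.Adj p v ∧ σ p v = 0 ∧ v ∉ VS σ) ∧ (∃ v, G.Adj l v ∧ σ l v = 0 ∧ v ∉ VS σ)) := by
  classical
  obtain ⟨hp, hl, hna, h0⟩ := mem_Unw.1 hpl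
  have hclpl : cls p ≠ cls l := by rw [hp, hl]; decide
  have hpnl : p ≠ l := fun h => hclpl (by rw [h])
  have hne' : σ l p ≠ 0 := by rw [hσ.symm]; exact hne
  have hpS : p ∈ VS σ := mem_VS.2 ⟨l, hne⟩
  have hlS : l ∈ VS σ := mem_VS.2 ⟨p, hne'⟩
  obtain ⟨hp4, hpf, hpt⟩ := blob_ends (Or.inl ⟨rfl, rfl⟩) hpnl hna hσ hne (hG.deg p)
  obtain ⟨hl4, hlf, hlt⟩ := blob_ends (Or.inr ⟨rfl, rfl⟩) hpnl (fun h => hna h.symm) hσ hne' (hG.deg l)
  have hp3 := blob_three hG hx hp hl hσ hpS
  have hl3 := blob_three hG hx hp hl hσ hlS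
  obtain ⟨a, b, hab⟩ := blob_count hG hx hp hl hσ hpS hlS
  have hcases : ((sn σ p).card = 4 ∧ (sn σ l).card = 4) ∨ ((sn σ p).card = 3 ∧ (sn σ l).card = 3) := by
    omega
  rcases hcases with ⟨h4, h4'⟩ | ⟨h3, h3'⟩
  · left
    have hall : ∀ u ∈ VS σ, ∀ v, G.Adj u v → σ u v ≠ 0 := by
      intro u hu v huv
      by_cases h1 : u = p
      · rw [h1] at huv ⊢
        exact hpf h4 v huv
      · by_cases h2 : u = l
        · rw [h2] at huv ⊢
          exact hlf h4' v huv
        · exact full_nb hG hx hclpl hσ hu h1 h2 v huv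
    have hclosed : ∀ u v, G.Reachable u v → u ∈ VS σ → v ∈ VS σ := by
      intro u v h
      obtain ⟨w⟩ := h
      induction w with
      | nil => exact id
      | cons hadj _ ih =>
        intro hu
        apply ih
        have h5 := hall _ hu _ hadj
        exact mem_VS.2 ⟨_, by rw [hσ.symm]; exact h5⟩
    have huniv : VS σ = univ := by
      ext v
      simp only [mem_univ, iff_true]
      exact hclosed p v (hG.conn.preconnected p v) hpS
    exact ⟨huniv, fun u v huv => hall u (by rw [huniv]; exact mem_univ _) v huv⟩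
  · right
    refine ⟨?_, ?_, ?_⟩
    · refine real_m3 x cls (VS σ) (fun u v => σ u v ≠ 0) (fun u v h => by rw [hσ.symm]; exact h) ?_ ?_ ?_ ⟨p, hpS⟩
      · intro u v h
        refine ⟨mem_VS.2 ⟨v, h⟩, mem_VS.2 ⟨u, by rw [hσ.symm]; exact h⟩, blob_cls hG hp hl hσ h, ?_⟩
        rcases hσ.supp u v h with h1 | ⟨rfl, rfl⟩ | ⟨rfl, rfl⟩
        · exact hx.inc u v h1
        · exact h0
        · rw [dotProduct_comm]; exact h0
      · intro u hu
        have hc : (sn σ u).card = 3 := by
          by_cases h1 : u = p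
          · rw [h1]; exact h3
          · by_cases h2 : u = l
            · rw [h2]; exact h3'
            · exact blob_card hG hx hp hl hσ hu h1 h2
        obtain ⟨a, b, c, hab, hac, hbc, habc⟩ := card_eq_three.1 hc
        refine ⟨a, b, c, hab, hac, hbc, fun v => ?_⟩
        rw [← mem_sn, habc]
        simp only [mem_insert, mem_singleton]
      · exact fun u _ v _ huv hc => hx.ind u v huv hc
    · obtain ⟨v, hv, hv0⟩ := hpt h3
      refine ⟨v, hv, hv0, fun hvS => ?_⟩
      have h5 := full_nb hG hx hclpl hσ hvS (fun h => G.loopless.irrefl p (h ▸ hv)) (fun h => hna (h ▸ hv)) p hv.symm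
      rw [hσ.symm] at h5
      exact h5 hv0
    · obtain ⟨v, hv, hv0⟩ := hlt h3'
      refine ⟨v, hv, hv0, fun hvS => ?_⟩
      have h5 := full_nb hG hx hclpl hσ hvS (fun h => hna (h ▸ hv).symm) (fun h => G.loopless.irrefl l (h ▸ hv)) l hv.symm
      rw [hσ.symm] at h5
      exact h5 hv0

end Pool.Agent.NCfg
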