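import Pool.Agent.Lib.MP_372a40_co.Defs

/-! # BOUNDARY: the tensor boundary identity (notes 0.2, 0.3) -/

open Matrix Finset

set_option linter.unusedSectionVars false
set_option linter.unusedVariables false

namespace Pool.Agent.NCfg

variable {V : Type} [Fintype V] [DecidableEq V]

/-- Boundary identity. Take the equilibrium `∑ v, σ u v • x v = 0` at every `u ∈ X`; for a point `u` (`cls u = true`) multiply
`∑ v, σ u v * (x v ⬝ᵥ b) = 0` by `x u ⬝ᵥ a`; for a line `u` multiply `∑ v, σ u v * (x v ⬝ᵥ a) = 0` by `-(x u ⬝ᵥ b)`; add over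
`u ∈ X`; the terms with both ends in `X` cancel in pairs (`σ` symmetric, supported on pairs of different class). -/
theorem boundary {σ : V → V → ℝ} {cls : V → Bool} {x : V → Vec} (hsymm : ∀ u v, σ u v = σ v u)
    (hbip : ∀ u v, σ u v ≠ 0 → cls u ≠ cls v) (X : Finset V)
    (heq : ∀ u ∈ X, ∑ v, σ u v • x v = 0) (a b : Vec) :
    ∑ e ∈ crossing σ X, σ e.1 e.2 *
      (if cls e.1 = true then (x e.1 ⬝ᵥ a) * (x e.2 ⬝ᵥ b) else -((x e.2 ⬝ᵥ a) * (x e.1 ⬝ᵥ b))) = 0 := by
  classical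
  set T : V → V → ℝ := fun u v =>
    if cls u = true then (x u ⬝ᵥ a) * (x v ⬝ᵥ b) else -((x v ⬝ᵥ a) * (x u ⬝ᵥ b)) with hT
  have hu : ∀ u ∈ X, ∑ v, σ u v * T u v = 0 := by
    intro u hu
    have h1 := heq u hu
    by_cases hc : cls u = true
    · have h2 : (∑ v, σ u v • x v) ⬝ᵥ b = 0 := by rw [h1, zero_dotProduct]
      rw [sum_dotProduct] at h2
      have h3 : ∑ v, σ u v * T u v = (x u ⬝ᵥ a) * ∑ v, (σ u v • x v) ⬝ᵥ b := by
        rw [Finset.mul_sum]
        refine Finset.sum_congr rfl fun v _ => ?_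
        simp only [hT, hc, if_true, smul_dotProduct, smul_eq_mul]
        ring
      rw [h3, h2, mul_zero]
    · have h2 : (∑ v, σ u v • x v) ⬝ᵥ a = 0 := by rw [h1, zero_dotProduct]
      rw [sum_dotProduct] at h2
      have h3 : ∑ v, σ u v * T u v = -(x u ⬝ᵥ b) * ∑ v, (σ u v • x v) ⬝ᵥ a := by
        rw [Finset.mul_sum]
        refine Finset.sum_congr rfl fun v _ => ?_
        simp only [hT, hc, smul_dotProduct, smul_eq_mul]
        simp only [Bool.false_eq_true, if_false]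
        ring
      rw [h3, h2, mul_zero]
  have hsum : ∑ u ∈ X, ∑ v, σ u v * T u v = 0 := Finset.sum_eq_zero hu
  have hanti : ∀ u v, σ u v * T u v = -(σ v u * T v u) := by
    intro u v
    by_cases h0 : σ u v = 0
    · rw [hsymm v u, h0]; ring
    · have hb := hbip u v h0
      rw [hsymm v u]
      cases hcu : cls u <;> cases hcv : cls v
      · rw [hcu, hcv] at hb; exact absurd rfl hb
      · simp only [hT, hcu, hcv, Bool.false_eq_true, if_false, if_true]; ring
      · simp only [hT, hcu, hcv, Bool.false_eq_true, if_false, if_true]; ring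
      · rw [hcu, hcv] at hb; exact absurd rfl hb
  have hinner : ∑ u ∈ X, ∑ v ∈ X, σ u v * T u v = 0 := by
    have h1 : ∑ u ∈ X, ∑ v ∈ X, σ u v * T u v = -∑ u ∈ X, ∑ v ∈ X, σ u v * T u v := by
      conv_lhs => rw [Finset.sum_comm]
      rw [← Finset.sum_neg_distrib]
      refine Finset.sum_congr rfl fun u _ => ?_
      rw [← Finset.sum_neg_distrib]
      exact Finset.sum_congr rfl fun v _ => hanti v u
    linarith
  have hsplit : ∑ u ∈ X, ∑ v, σ u v * T u v =
      ∑ u ∈ X, ∑ v ∈ X, σ u v * T u v + ∑ u ∈ X, ∑ v ∈ Xᶜ, σ u v * T u v := by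
    rw [← Finset.sum_add_distrib]
    refine Finset.sum_congr rfl fun u _ => ?_
    rw [Finset.sum_add_sum_compl]
  have houter : ∑ u ∈ X, ∑ v ∈ Xᶜ, σ u v * T u v = 0 := by
    rw [hsplit, hinner, zero_add] at hsum
    exact hsum
  rw [← Finset.sum_product'] at houter
  rw [← houter]
  unfold crossing
  rw [Finset.sum_filter]
  refine Finset.sum_congr rfl fun e _ => ?_
  by_cases h : σ e.1 e.2 = 0
  · simp [h]
  · rw [if_pos h]

private theorem bd_triple (p q : Vec) :
    p ⬝ᵥ (q ⨯₃ (p ⨯₃ q)) = (p ⨯₃ q) ⬝ᵥ (p ⨯₃ q) := by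
  simp only [cross_apply, vec3_dotProduct]
  simp
  ring

private theorem bd_triple' (q n : Vec) : q ⬝ᵥ (q ⨯₃ n) = 0 := by
  simp only [cross_apply, vec3_dotProduct]
  simp
  ring

/-- The point of a pair. -/
private def bdP (cls : V → Bool) (e : V × V) : V := if cls e.1 = true then e.1 else e.2

/-- The line of a pair. -/
private def bdL (cls : V → Bool) (e : V × V) : V := if cls e.1 = true then e.2 else e.1

private def bdC (cls : V → Bool) (σ : V → V → ℝ) (e : V × V) : ℝ :=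
  if cls e.1 = true then σ e.1 e.2 else -σ e.1 e.2

private theorem bd_sum {σ : V → V → ℝ} {cls : V → Bool} {x : V → Vec}
    (hsymm : ∀ u v, σ u v = σ v u)
    (hbip : ∀ u v, σ u v ≠ 0 → cls u ≠ cls v) (X : Finset V)
    (heq : ∀ u ∈ X, ∑ v, σ u v • x v = 0) (a b : Vec) :
    ∑ e ∈ crossing σ X, bdC cls σ e * ((x (bdP cls e) ⬝ᵥ a) * (x (bdL cls e) ⬝ᵥ b)) = 0 := by
  rw [← boundary hsymm hbip X heq a b]
  refine Finset.sum_congr rfl fun e _ => ?_
  unfold bdC bdP bdL
  split_ifs <;> ring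

private theorem bdC_ne {σ : V → V → ℝ} {cls : V → Bool} {X : Finset V} {e : V × V}
    (he : e ∈ crossing σ X) : bdC cls σ e ≠ 0 := by
  have h := (mem_crossing.1 (show (e.1, e.2) ∈ crossing σ X from he)).2.2
  unfold bdC
  split_ifs
  · exact h
  · exact neg_ne_zero.2 h

private theorem bd_inj {σ : V → V → ℝ} {cls : V → Bool} {X : Finset V} {e f : V × V}
    (he : e ∈ crossing σ X) (hf : f ∈ crossing σ X) (hP : bdP cls e = bdP cls f)
    (hL : bdL cls e = bdL cls f) : e = f := by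
  obtain ⟨e1, e2⟩ := e
  obtain ⟨f1, f2⟩ := f
  obtain ⟨he1, he2, -⟩ := mem_crossing.1 he
  obtain ⟨hf1, hf2, -⟩ := mem_crossing.1 hf
  unfold bdP at hP
  unfold bdL at hL
  simp only at hP hL
  split_ifs at hP hL with h1 h2
  · rw [hP, hL]
  · exact absurd (hP ▸ he1) hf2
  · exact absurd (hP ▸ hf1) he2
  · rw [hP, hL]

private theorem bd_clsP {σ : V → V → ℝ} {cls : V → Bool} {X : Finset V} {e : V × V}
    (hbip : ∀ u v, σ u v ≠ 0 → cls u ≠ cls v)
    (he : e ∈ crossing σ X) : cls (bdP cls e) = true ∧ cls (bdL cls e) = false := by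
  have h := (mem_crossing.1 (show (e.1, e.2) ∈ crossing σ X from he)).2.2
  have hb := hbip _ _ h
  unfold bdP bdL
  cases h1 : cls e.1 <;> cases h2 : cls e.2
  · rw [h1, h2] at hb; exact absurd rfl hb
  · simp [h1, h2]
  · simp [h1, h2]
  · rw [h1, h2] at hb; exact absurd rfl hb

/-- At most two crossing stressed pairs: none.  (One term: a nonzero rank one tensor. Two terms: the two tensors
point ⊗ line would be proportional, so the two points agree and the two lines agree, so the pairs agree.) -/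
theorem cross_le_two {σ : V → V → ℝ} {cls : V → Bool} {x : V → Vec} (hsymm : ∀ u v, σ u v = σ v u)
    (hbip : ∀ u v, σ u v ≠ 0 → cls u ≠ cls v) (hne : ∀ u, x u ≠ 0)
    (hind : ∀ u v, u ≠ v → cls u = cls v → x u ⨯₃ x v ≠ 0) (X : Finset V)
    (heq : ∀ u ∈ X, ∑ v, σ u v • x v = 0) (hc : (crossing σ X).card ≤ 2) : crossing σ X = ∅ := by
  classical
  have hsum := fun a b => bd_sum (x := x) hsymm hbip X heq a b
  have hnn : ∀ u, x u ⬝ᵥ x u ≠ 0 := fun u h0 => hne u (dotProduct_self_eq_zero.mp h0)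
  by_contra hemp
  have hpos : 0 < (crossing σ X).card := Finset.card_pos.2 (Finset.nonempty_iff_ne_empty.2 hemp)
  have h12 : (crossing σ X).card = 1 ∨ (crossing σ X).card = 2 := by omega
  rcases h12 with h1 | h2
  · obtain ⟨e, he⟩ := Finset.card_eq_one.1 h1
    have hmem : e ∈ crossing σ X := by rw [he]; exact Finset.mem_singleton_self e
    have h3 := hsum (x (bdP cls e)) (x (bdL cls e))
    rw [he, Finset.sum_singleton] at h3
    exact mul_ne_zero (bdC_ne hmem) (mul_ne_zero (hnn _) (hnn _)) h3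
  · obtain ⟨e, f, hef, he⟩ := Finset.card_eq_two.1 h2
    have hme : e ∈ crossing σ X := by rw [he]; simp
    have hmf : f ∈ crossing σ X := by rw [he]; simp
    by_cases hP : bdP cls e = bdP cls f
    · have hL : bdL cls e ≠ bdL cls f := fun hL => hef (bd_inj hme hmf hP hL)
      have hcr := hind _ _ hL (by rw [(bd_clsP hbip hme).2, (bd_clsP hbip hmf).2])
      have h3 := hsum (x (bdP cls e)) (x (bdL cls f) ⨯₃ (x (bdL cls e) ⨯₃ x (bdL cls f)))
      rw [he, Finset.sum_pair hef, bd_triple, bd_triple', mul_zero, mul_zero, add_zero] at h3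
      have hn : (x (bdL cls e) ⨯₃ x (bdL cls f)) ⬝ᵥ (x (bdL cls e) ⨯₃ x (bdL cls f)) ≠ 0 :=
        fun h0 => hcr (dotProduct_self_eq_zero.mp h0)
      exact mul_ne_zero (bdC_ne hme) (mul_ne_zero (hnn _) hn) h3
    · have hcr := hind _ _ hP (by rw [(bd_clsP hbip hme).1, (bd_clsP hbip hmf).1])
      have h3 := hsum (x (bdP cls f) ⨯₃ (x (bdP cls e) ⨯₃ x (bdP cls f))) (x (bdL cls e))
      rw [he, Finset.sum_pair hef, bd_triple, bd_triple', zero_mul, mul_zero, add_zero] at h3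
      have hn : (x (bdP cls e) ⨯₃ x (bdP cls f)) ⬝ᵥ (x (bdP cls e) ⨯₃ x (bdP cls f)) ≠ 0 :=
        fun h0 => hcr (dotProduct_self_eq_zero.mp h0)
      exact mul_ne_zero (bdC_ne hme) (mul_ne_zero hn (hnn _)) h3

private theorem bd_three (c1 c2 c3 : ℝ) (hc1 : c1 ≠ 0) (hc2 : c2 ≠ 0)
    (p1 p2 p3 l1 l2 l3 : Vec)
    (hsum : ∀ a b : Vec, c1 * ((p1 ⬝ᵥ a) * (l1 ⬝ᵥ b)) + c2 * ((p2 ⬝ᵥ a) * (l2 ⬝ᵥ b)) +
      c3 * ((p3 ⬝ᵥ a) * (l3 ⬝ᵥ b)) = 0) (hl : l1 ⨯₃ l2 ≠ 0) :
    p1 ⨯₃ p3 = 0 ∧ p2 ⨯₃ p3 = 0 := by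
  have key : ∀ a : Vec, p3 ⬝ᵥ a = 0 → p1 ⬝ᵥ a = 0 ∧ p2 ⬝ᵥ a = 0 := by
    intro a ha
    have h1 : (c1 * (p1 ⬝ᵥ a)) • l1 + (c2 * (p2 ⬝ᵥ a)) • l2 = 0 := by
      set w := (c1 * (p1 ⬝ᵥ a)) • l1 + (c2 * (p2 ⬝ᵥ a)) • l2 with hw
      have h2 : w ⬝ᵥ w = 0 := by
        conv_lhs => rw [hw]
        rw [add_dotProduct, smul_dotProduct, smul_dotProduct, smul_eq_mul, smul_eq_mul]
        have h3 := hsum a w
        rw [ha] at h3
        linarith
      exact dotProduct_self_eq_zero.mp h2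
    obtain ⟨h2, h3⟩ := coeff_zero_of_cross hl h1
    exact ⟨(mul_eq_zero.1 h2).resolve_left hc1, (mul_eq_zero.1 h3).resolve_left hc2⟩
  constructor
  · have h1 := (key (p3 ⨯₃ (p1 ⨯₃ p3)) (bd_triple' _ _)).1
    rw [bd_triple] at h1
    exact dotProduct_self_eq_zero.mp h1
  · have h1 := (key (p3 ⨯₃ (p2 ⨯₃ p3)) (bd_triple' _ _)).2
    rw [bd_triple] at h1
    exact dotProduct_self_eq_zero.mp h1

/-- Exactly three crossing stressed pairs: they share an end. (Write them as (point, line) pairs `(pᵢ, lᵢ)`. If two lines, say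
`l₁ ≠ l₂`, are different then contracting with `a ⟂ p₃` gives `c₁ (p₁·a) l₁ + c₂ (p₂·a) l₂ = 0`, so `p₁, p₂` are
proportional to `p₃`; so all the points are equal. Otherwise all the lines are equal. The common vertex is on one side of `X`.) -/
theorem cross_three {σ : V → V → ℝ} {cls : V → Bool} {x : V → Vec} (hsymm : ∀ u v, σ u v = σ v u)
    (hbip : ∀ u v, σ u v ≠ 0 → cls u ≠ cls v) (hne : ∀ u, x u ≠ 0)
    (hind : ∀ u v, u ≠ v → cls u = cls v → x u ⨯₃ x v ≠ 0) (X : Finset V)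
    (heq : ∀ u ∈ X, ∑ v, σ u v • x v = 0) (hc : (crossing σ X).card = 3) :
    (∃ u ∈ X, ∀ e ∈ crossing σ X, e.1 = u) ∨ (∃ v, v ∉ X ∧ ∀ e ∈ crossing σ X, e.2 = v) := by
  classical
  have hsum := fun a b => bd_sum (x := x) hsymm hbip X heq a b
  obtain ⟨e, f, g, hef, heg, hfg, hS⟩ := Finset.card_eq_three.1 hc
  have hme : e ∈ crossing σ X := by rw [hS]; simp
  have hmf : f ∈ crossing σ X := by rw [hS]; simp
  have hmg : g ∈ crossing σ X := by rw [hS]; simp
  have hsum3 : ∀ a b : Vec,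
      bdC cls σ e * ((x (bdP cls e) ⬝ᵥ a) * (x (bdL cls e) ⬝ᵥ b)) +
      bdC cls σ f * ((x (bdP cls f) ⬝ᵥ a) * (x (bdL cls f) ⬝ᵥ b)) +
      bdC cls σ g * ((x (bdP cls g) ⬝ᵥ a) * (x (bdL cls g) ⬝ᵥ b)) = 0 := by
    intro a b
    have h := hsum a b
    rw [hS, Finset.sum_insert (by simp [hef, heg]), Finset.sum_pair hfg] at h
    linarith
  have claim : ∀ e f g : V × V, e ∈ crossing σ X → f ∈ crossing σ X → g ∈ crossing σ X →
      (∀ a b : Vec,
      bdC cls σ e * ((x (bdP cls e) ⬝ᵥ a) * (x (bdL cls e) ⬝ᵥ b)) +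
      bdC cls σ f * ((x (bdP cls f) ⬝ᵥ a) * (x (bdL cls f) ⬝ᵥ b)) +
      bdC cls σ g * ((x (bdP cls g) ⬝ᵥ a) * (x (bdL cls g) ⬝ᵥ b)) = 0) →
      bdL cls e ≠ bdL cls f → bdP cls e = bdP cls g ∧ bdP cls f = bdP cls g := by
    intro e f g he hf hg h hL
    have h3 := bd_three _ _ _ (bdC_ne he) (bdC_ne hf) _ _ _ _ _ _ h
      (hind _ _ hL (by rw [(bd_clsP hbip he).2, (bd_clsP hbip hf).2]))
    constructor
    · by_contra hP
      exact hind _ _ hP (by rw [(bd_clsP hbip he).1, (bd_clsP hbip hg).1]) h3.1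
    · by_contra hP
      exact hind _ _ hP (by rw [(bd_clsP hbip hf).1, (bd_clsP hbip hg).1]) h3.2
  have hall : (∃ w, ∀ e ∈ crossing σ X, bdP cls e = w) ∨
      (∃ w, ∀ e ∈ crossing σ X, bdL cls e = w) := by
    by_cases h1 : bdL cls e = bdL cls f
    · by_cases h2 : bdL cls e = bdL cls g
      · right
        refine ⟨bdL cls e, fun h hh => ?_⟩
        rw [hS] at hh
        simp only [Finset.mem_insert, Finset.mem_singleton] at hh
        rcases hh with rfl | rfl | rfl
        · rfl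
        · exact h1.symm
        · exact h2.symm
      · left
        obtain ⟨h3, h4⟩ := claim e g f hme hmg hmf (fun a b => by have := hsum3 a b; linarith) h2
        refine ⟨bdP cls f, fun h hh => ?_⟩
        rw [hS] at hh
        simp only [Finset.mem_insert, Finset.mem_singleton] at hh
        rcases hh with rfl | rfl | rfl
        · exact h3
        · rfl
        · exact h4
    · left
      obtain ⟨h3, h4⟩ := claim e f g hme hmf hmg hsum3 h1
      refine ⟨bdP cls g, fun h hh => ?_⟩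
      rw [hS] at hh
      simp only [Finset.mem_insert, Finset.mem_singleton] at hh
      rcases hh with rfl | rfl | rfl
      · exact h3
      · exact h4
      · rfl
  have hfin : ∀ w, (∀ e ∈ crossing σ X, e.1 = w ∨ e.2 = w) →
      (∃ u ∈ X, ∀ e ∈ crossing σ X, e.1 = u) ∨ (∃ v, v ∉ X ∧ ∀ e ∈ crossing σ X, e.2 = v) := by
    intro w hw
    by_cases hwX : w ∈ X
    · left
      refine ⟨w, hwX, fun e he => ?_⟩
      rcases hw e he with h | h
      · exact h
      · exact absurd (h ▸ hwX) (mem_crossing.1 (show (e.1, e.2) ∈ crossing σ X from he)).2.1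
    · right
      refine ⟨w, hwX, fun e he => ?_⟩
      rcases hw e he with h | h
      · exact absurd (h ▸ (mem_crossing.1 (show (e.1, e.2) ∈ crossing σ X from he)).1) hwX
      · exact h
  rcases hall with ⟨w, hw⟩ | ⟨w, hw⟩
  · refine hfin w fun e he => ?_
    have := hw e he
    unfold bdP at this
    split_ifs at this
    · exact Or.inl this
    · exact Or.inr this
  · refine hfin w fun e he => ?_
    have := hw e he
    unfold bdL at this
    split_ifs at this
    · exact Or.inr this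
    · exact Or.inl this

end Pool.Agent.NCfg
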