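import Pool.Agent.Lib.MP_372a40_co.Near

/-! # SUPPORT: local structure of a stress (notes 0.1) -/

open Matrix Finset

set_option linter.unusedSectionVars false
set_option linter.unusedVariables false

namespace Pool.Agent.NCfg

variable {V : Type} [Fintype V] [DecidableEq V]

/-- A vertex carrying stress carries at least three stressed pairs (the vectors involved are pairwise independent). -/
theorem three_le_sn {cls : V → Bool} {x : V → Vec} (hne : ∀ u, x u ≠ 0)
    (hind : ∀ u v, u ≠ v → cls u = cls v → x u ⨯₃ x v ≠ 0) {σ : V → V → ℝ} {u : V}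
    (hbip : ∀ v, σ u v ≠ 0 → cls u ≠ cls v) (heq : ∑ v, σ u v • x v = 0) (hu : u ∈ VS σ) :
    3 ≤ (sn σ u).card := by
  rw [mem_VS] at hu
  obtain ⟨v, hv⟩ := hu
  have hsum : ∑ w ∈ sn σ u, σ u w • x w = 0 := by
    rw [← heq]
    apply Finset.sum_subset (Finset.subset_univ _)
    intro w _ hw
    rw [mem_sn, not_not] at hw
    rw [hw, zero_smul]
  by_contra hcon
  have hvs : v ∈ sn σ u := mem_sn.2 hv
  have hpos : 0 < (sn σ u).card := Finset.card_pos.2 ⟨v, hvs⟩
  have hc : (sn σ u).card = 1 ∨ (sn σ u).card = 2 := by omega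
  rcases hc with hc | hc
  · obtain ⟨w, hw⟩ := Finset.card_eq_one.1 hc
    have hwv : σ u w ≠ 0 := by
      rw [← mem_sn, hw]; exact Finset.mem_singleton_self w
    rw [hw, Finset.sum_singleton] at hsum
    rcases smul_eq_zero.1 hsum with h | h
    · exact hwv h
    · exact hne w h
  · obtain ⟨a, b, hab, hw⟩ := Finset.card_eq_two.1 hc
    have ha : σ u a ≠ 0 := by
      rw [← mem_sn, hw]; simp
    have hb : σ u b ≠ 0 := by
      rw [← mem_sn, hw]; simp
    rw [hw, Finset.sum_pair hab] at hsum
    have hcls : cls a = cls b := by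
      have h1 := hbip a ha
      have h2 := hbip b hb
      cases h3 : cls u <;> cases h4 : cls a <;> cases h5 : cls b <;> simp_all
    exact ha (coeff_zero_of_cross (hind a b hab hcls) hsum).1

private theorem hrep_ne {G : SimpleGraph V} {cls : V → Bool} {x : V → Vec} (hx : HRep G cls x) (u : V) :
    x u ≠ 0 := by
  intro h
  have h1 := hx.aff u
  rw [h] at h1
  cases h2 : cls u
  · rw [h2] at h1
    simp [Aff] at h1
  · rw [h2] at h1
    simp [Aff] at h1

private theorem support_three {G : SimpleGraph V} {cls : V → Bool} {x : V → Vec} (hG : Cubic G cls)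
    (hx : HRep G cls x) {p l : V} {σ : V → V → ℝ} (hpl : cls p ≠ cls l) (hσ : Stress (adde G p l) x σ)
    {u : V} (hu : u ∈ VS σ) : 3 ≤ (sn σ u).card := by
  apply three_le_sn (cls := cls) (x := x) (hrep_ne hx) hx.ind _ (hσ.eq u) hu
  intro v hv
  rcases hσ.supp u v hv with h | ⟨h1, h2⟩ | ⟨h1, h2⟩
  · exact hG.bip u v h
  · rw [h1, h2]; exact hpl
  · rw [h1, h2]; exact hpl.symm

/-- At a vertex different from `p, l` all three edges are stressed. -/
theorem full_nb {G : SimpleGraph V} {cls : V → Bool} {x : V → Vec} (hG : Cubic G cls) (hx : HRep G cls x) {p l : V}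
    {σ : V → V → ℝ} (hpl : cls p ≠ cls l) (hσ : Stress (adde G p l) x σ) {u : V} (hu : u ∈ VS σ) (hup : u ≠ p) (hul : u ≠ l) :
    ∀ v, G.Adj u v → σ u v ≠ 0 := by
  have h3 := support_three hG hx hpl hσ hu
  have hsub : sn σ u ⊆ nb G u := by
    intro v hv
    rw [mem_sn] at hv
    rw [mem_nb]
    rcases hσ.supp u v hv with h | ⟨h1, h2⟩ | ⟨h1, h2⟩
    · exact h
    · exact absurd h1 hup
    · exact absurd h1 hul
  have heq : sn σ u = nb G u := by
    apply Finset.eq_of_subset_of_card_le hsub
    rw [hG.deg u]; exact h3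
  intro v hv
  rw [← mem_sn, heq, mem_nb]
  exact hv

/-- At any vertex carrying stress at most one edge is unstressed. -/
theorem most_nb {G : SimpleGraph V} {cls : V → Bool} {x : V → Vec} (hG : Cubic G cls) (hx : HRep G cls x) {p l : V}
    {σ : V → V → ℝ} (hpl : cls p ≠ cls l) (hσ : Stress (adde G p l) x σ) {u : V} (hu : u ∈ VS σ) :
    ∀ v w, G.Adj u v → G.Adj u w → σ u v = 0 → σ u w = 0 → v = w := by
  intro v w hv hw hv0 hw0
  by_contra hvw
  have h3 := support_three hG hx hpl hσ hu
  -- the possible extra partner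
  have hsub : ∃ z : V, sn σ u ⊆ insert z (((nb G u).erase v).erase w) := by
    by_cases hup : u = p
    · refine ⟨l, ?_⟩
      intro t ht
      rw [mem_sn] at ht
      rcases hσ.supp u t ht with h | ⟨h1, h2⟩ | ⟨h1, h2⟩
      · rw [Finset.mem_insert, Finset.mem_erase, Finset.mem_erase, mem_nb]
        right
        exact ⟨fun h' => ht (h' ▸ hw0), fun h' => ht (h' ▸ hv0), h⟩
      · rw [Finset.mem_insert]; left; exact h2
      · exfalso
        apply hpl
        rw [← hup, h1]
    · refine ⟨p, ?_⟩
      intro t ht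
      rw [mem_sn] at ht
      rcases hσ.supp u t ht with h | ⟨h1, h2⟩ | ⟨h1, h2⟩
      · rw [Finset.mem_insert, Finset.mem_erase, Finset.mem_erase, mem_nb]
        right
        exact ⟨fun h' => ht (h' ▸ hw0), fun h' => ht (h' ▸ hv0), h⟩
      · exact absurd h1 hup
      · rw [Finset.mem_insert]; left; exact h2
  obtain ⟨z, hz⟩ := hsub
  have h4 := Finset.card_le_card hz
  have h5 := Finset.card_insert_le z (((nb G u).erase v).erase w)
  have h6 : (((nb G u).erase v).erase w).card = 1 := by
    rw [Finset.card_erase_of_mem, Finset.card_erase_of_mem, hG.deg u]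
    · exact mem_nb.2 hv
    · rw [Finset.mem_erase]; exact ⟨Ne.symm hvw, mem_nb.2 hw⟩
  omega

end Pool.Agent.NCfg
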