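import Pool.Agent.Lib.MP_372a40_co.Boundary
import Pool.Agent.Lib.MP_372a40_co.Support

/-! # DISJB: two nowhere zero stresses are impossible (notes 1.3 (iv)) -/

open Matrix Finset

set_option linter.unusedSectionVars false
set_option linter.unusedVariables false

namespace Pool.Agent.NCfg

variable {V : Type} [Fintype V] [DecidableEq V]

/-- Select one term of the boundary identity. -/
theorem disjb_select {σ : V → V → ℝ} {cls : V → Bool} {x : V → Vec} (hsymm : ∀ u v, σ u v = σ v u)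
    (hbip : ∀ u v, σ u v ≠ 0 → cls u ≠ cls v) (X : Finset V)
    (heq : ∀ u ∈ X, ∑ v, σ u v • x v = 0) {u0 v0 : V} (hu0 : u0 ∈ X) (hv0 : v0 ∉ X) (h0 : σ u0 v0 ≠ 0) (s t : Vec)
    (hz1 : ∀ u ∈ X, ∀ v, v ∉ X → σ u v ≠ 0 → cls v = cls v0 → (u, v) ≠ (u0, v0) → (x v ⬝ᵥ s) * (x u ⬝ᵥ t) = 0)
    (hz2 : ∀ u ∈ X, ∀ v, v ∉ X → σ u v ≠ 0 → cls u = cls v0 → (x u ⬝ᵥ s) * (x v ⬝ᵥ t) = 0) :
    (x v0 ⬝ᵥ s) * (x u0 ⬝ᵥ t) = 0 := by
  classical
  have hb := boundary (cls := fun v => decide (cls v = cls v0)) (x := x) hsymm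
    (by
      intro u v h
      have := hbip u v h
      revert this
      cases cls u <;> cases cls v <;> cases cls v0 <;> simp) X heq s t
  rw [Finset.sum_eq_single (u0, v0)] at hb
  · have hc : ¬ (cls u0 = cls v0) := hbip _ _ h0
    simp only [hc, decide_false, Bool.false_eq_true, if_false] at hb
    have := (mul_eq_zero.mp hb).resolve_left h0
    linarith
  · rintro ⟨u, v⟩ huv hne
    rw [mem_crossing] at huv
    obtain ⟨hu, hv, hs⟩ := huv
    by_cases hc : cls u = cls v0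
    · simp only [hc, decide_true, if_true]
      rw [hz2 u hu v hv hs hc, mul_zero]
    · simp only [hc, decide_false, Bool.false_eq_true, if_false]
      have hc' : cls v = cls v0 := by
        have := hbip u v hs
        revert this hc
        cases cls u <;> cases cls v <;> cases cls v0 <;> simp
      rw [hz1 u hu v hv hs hc' hne, neg_zero, mul_zero]
  · intro h
    exact absurd (mem_crossing.mpr ⟨hu0, hv0, h0⟩) h

/-- A vector orthogonal to `b` but not to `a`. -/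
theorem disjb_sep {a b : Vec} (h : a ⨯₃ b ≠ 0) : ∃ s : Vec, b ⬝ᵥ s = 0 ∧ a ⬝ᵥ s ≠ 0 := by
  refine ⟨b ⨯₃ (a ⨯₃ b), ?_, ?_⟩
  · simp
  · have e : a ⬝ᵥ (b ⨯₃ (a ⨯₃ b)) = (a ⨯₃ b) ⬝ᵥ (a ⨯₃ b) := by
      simp only [cross_apply, vec3_dotProduct]
      simp
      ring
    rw [e]
    intro h0
    exact h (dotProduct_self_eq_zero.mp h0)

/-- Generic configuration of four outer vertices. -/
theorem disjb_L1 {σ : V → V → ℝ} {cls : V → Bool} {x : V → Vec} (hsymm : ∀ u v, σ u v = σ v u)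
    (hbip : ∀ u v, σ u v ≠ 0 → cls u ≠ cls v) (hne : ∀ u, x u ≠ 0)
    (hind : ∀ u v, u ≠ v → cls u = cls v → x u ⨯₃ x v ≠ 0) (X : Finset V)
    (heq : ∀ u ∈ X, ∑ v, σ u v • x v = 0) {A1 A2 B1 B2 : V} (hA : A1 ≠ A2) (hB : B1 ≠ B2) (hcA : cls A1 = cls A2)
    (hcB : cls B1 = cls B2) (hcAB : cls A1 ≠ cls B1) (hA1 : A1 ∉ X) (hA2 : A2 ∉ X) (hB1 : B1 ∉ X) (hB2 : B2 ∉ X)
    (hcr : ∀ u ∈ X, ∀ v, v ∉ X → σ u v ≠ 0 → (v = A1 ∨ v = A2 ∨ v = B1 ∨ v = B2) ∧ x u ⬝ᵥ x v = 0)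
    (i1 : x A1 ⬝ᵥ x B1 = 0) (i2 : x A2 ⬝ᵥ x B2 = 0)
    (u1 : ∀ u ∈ X, ∀ u' ∈ X, σ u A1 ≠ 0 → σ u' A1 ≠ 0 → u = u')
    (u2 : ∀ u ∈ X, ∀ u' ∈ X, σ u A2 ≠ 0 → σ u' A2 ≠ 0 → u = u')
    {ua ub : V} (hua : ua ∈ X) (hub : ub ∈ X) (hsa : σ ua A1 ≠ 0) (hsb : σ ub A2 ≠ 0) : False := by
  set t : Vec := x B1 ⨯₃ x B2 with ht
  have hBB : x B1 ⨯₃ x B2 ≠ 0 := hind B1 B2 hB hcB
  have hAA : x A1 ⨯₃ x A2 ≠ 0 := hind A1 A2 hA hcA
  have hz2 : ∀ s : Vec, ∀ u ∈ X, ∀ v, v ∉ X → σ u v ≠ 0 → cls u = cls A1 → (x u ⬝ᵥ s) * (x v ⬝ᵥ t) = 0 := by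
    intro s u hu v hv hs hc
    have hcv : cls v ≠ cls A1 := by
      have := hbip u v hs
      rw [← hc]; exact this.symm
    rcases (hcr u hu v hv hs).1 with rfl | rfl | rfl | rfl
    · exact absurd rfl hcv
    · exact absurd hcA.symm hcv
    · rw [ht, dot_self_cross, mul_zero]
    · rw [ht, dot_cross_self, mul_zero]
  -- first term
  have ea : x ua ⬝ᵥ t = 0 := by
    obtain ⟨s, hs1, hs2⟩ := disjb_sep hAA
    have := disjb_select hsymm hbip X heq hua hA1 hsa s t (by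
      intro u hu v hv hs hc hne'
      rcases (hcr u hu v hv hs).1 with rfl | rfl | rfl | rfl
      · exact absurd (by rw [u1 u hu ua hua hs hsa]) hne'
      · rw [hs1, zero_mul]
      · exact absurd hc.symm hcAB
      · exact absurd (hc.symm.trans hcB.symm) hcAB) (hz2 s)
    exact (mul_eq_zero.mp this).resolve_left hs2
  have eb : x ub ⬝ᵥ t = 0 := by
    obtain ⟨s, hs1, hs2⟩ := disjb_sep (cross_comm_ne hAA)
    have := disjb_select hsymm hbip X heq hub hA2 hsb s t (by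
      intro u hu v hv hs hc hne'
      rcases (hcr u hu v hv hs).1 with rfl | rfl | rfl | rfl
      · rw [hs1, zero_mul]
      · exact absurd (by rw [u2 u hu ub hub hs hsb]) hne'
      · exact absurd (hcA.trans hc.symm) hcAB
      · exact absurd (hcA.trans (hc.symm.trans hcB.symm)) hcAB) (by rw [← hcA]; exact hz2 s)
    exact (mul_eq_zero.mp this).resolve_left hs2
  -- directions
  have hca : cls B1 = cls ua := by
    have := hbip _ _ hsa
    revert this hcAB; cases cls ua <;> cases cls A1 <;> cases cls B1 <;> simp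
  have hcb : cls B2 = cls ub := by
    have := hbip _ _ hsb
    rw [← hcA] at this
    rw [← hcB]
    revert this hcAB; cases cls ub <;> cases cls A1 <;> cases cls B1 <;> simp
  have ha : x B1 ⨯₃ x ua ≠ 0 := hind _ _ (by rintro rfl; exact hB1 hua) hca
  have hb : x B2 ⨯₃ x ub ≠ 0 := hind _ _ (by rintro rfl; exact hB2 hub) hcb
  obtain ⟨c1, h1⟩ := eq_smul_cross (c := t) ha (by rw [dotProduct_comm, ht, dot_self_cross]) (by rw [dotProduct_comm]; exact ea)
  obtain ⟨c2, h2⟩ := eq_smul_cross (c := x A1) ha i1 (by rw [dotProduct_comm]; exact (hcr ua hua A1 hA1 hsa).2)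
  obtain ⟨c3, h3⟩ := eq_smul_cross (c := t) hb (by rw [dotProduct_comm, ht, dot_cross_self]) (by rw [dotProduct_comm]; exact eb)
  obtain ⟨c4, h4⟩ := eq_smul_cross (c := x A2) hb i2 (by rw [dotProduct_comm]; exact (hcr ub hub A2 hA2 hsb).2)
  have hc1 : c1 ≠ 0 := by
    rintro rfl; rw [zero_smul] at h1; exact hBB h1
  have hc3 : c3 ≠ 0 := by
    rintro rfl; rw [zero_smul] at h3; exact hBB h3
  have e1 : x A1 = (c2 / c1) • t := by
    rw [h2, h1, smul_smul, div_mul_cancel₀ _ hc1]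
  have e2 : x A2 = (c4 / c3) • t := by
    rw [h4, h3, smul_smul, div_mul_cancel₀ _ hc3]
  apply hAA
  rw [e1, e2]
  simp

theorem disjb_L2 {σ : V → V → ℝ} {cls : V → Bool} {x : V → Vec} (hsymm : ∀ u v, σ u v = σ v u)
    (hbip : ∀ u v, σ u v ≠ 0 → cls u ≠ cls v)
    (hind : ∀ u v, u ≠ v → cls u = cls v → x u ⨯₃ x v ≠ 0) (X : Finset V)
    (heq : ∀ u ∈ X, ∑ v, σ u v • x v = 0) {A B1 B2 : V} (hB : B1 ≠ B2)
    (hcB : cls B1 = cls B2) (hcAB : cls A ≠ cls B1) (hA : A ∉ X) (hB1 : B1 ∉ X)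
    (hcr : ∀ u ∈ X, ∀ v, v ∉ X → σ u v ≠ 0 → (v = A ∨ v = B1 ∨ v = B2))
    (u1 : ∀ u ∈ X, ∀ u' ∈ X, σ u B1 ≠ 0 → σ u' B1 ≠ 0 → u = u')
    {ua : V} (hua : ua ∈ X) (hsa : σ ua B1 ≠ 0) : False := by
  have hc : cls ua = cls A := by
    have := hbip _ _ hsa
    revert this hcAB; cases cls ua <;> cases cls A <;> cases cls B1 <;> simp
  have h1 : x ua ⨯₃ x A ≠ 0 := hind _ _ (by rintro rfl; exact hA hua) hc
  have h2 : x B1 ⨯₃ x B2 ≠ 0 := hind _ _ hB hcB
  obtain ⟨t, ht1, ht2⟩ := disjb_sep h1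
  obtain ⟨s, hs1, hs2⟩ := disjb_sep h2
  have := disjb_select hsymm hbip X heq hua hB1 hsa s t (by
      intro u hu v hv hs hcc hne'
      rcases hcr u hu v hv hs with rfl | rfl | rfl
      · exact absurd hcc hcAB
      · exact absurd (by rw [u1 u hu ua hua hs hsa]) hne'
      · rw [hs1, zero_mul]) (by
      intro u hu v hv hs hcc
      rcases hcr u hu v hv hs with rfl | rfl | rfl
      · rw [ht1, mul_zero]
      · exact absurd hcc (hbip _ _ hs)
      · exact absurd (hcc.trans hcB) (hbip _ _ hs))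
  rcases mul_eq_zero.mp this with h | h
  · exact hs2 h
  · exact ht2 h

theorem disjb_adde_cls {G : SimpleGraph V} {cls : V → Bool} (hG : Cubic G cls) {p l : V} (cp : cls p = true)
    (cl : cls l = false) {u v : V} (h : adde G p l u v) : cls u ≠ cls v := by
  rcases h with h | ⟨rfl, rfl⟩ | ⟨rfl, rfl⟩
  · exact hG.bip _ _ h
  · rw [cp, cl]; simp
  · rw [cp, cl]; simp

/-- The number of partners in `X` of an outer vertex is at most the number of its additional partners. -/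
theorem disjb_K {G : SimpleGraph V} {cls : V → Bool} {x : V → Vec} (hG : Cubic G cls) (hne : ∀ u, x u ≠ 0)
    (hind : ∀ u v, u ≠ v → cls u = cls v → x u ⨯₃ x v ≠ 0) {τ : V → V → ℝ}
    (hbip : ∀ u v, τ u v ≠ 0 → cls u ≠ cls v) (heq : ∀ u, ∑ v, τ u v • x v = 0) {z : V} (hz : z ∈ VS τ)
    (E : Finset V) (hE : ∀ v, τ z v ≠ 0 → G.Adj z v ∨ v ∈ E) :
    ((nb G z).filter (fun v => τ z v = 0)).card ≤ E.card := by
  classical
  have h3 := three_le_sn hne hind (hbip z) (heq z) hz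
  have hsub : sn τ z ⊆ ((nb G z).filter (fun v => ¬ τ z v = 0)) ∪ E := by
    intro v hv
    rw [mem_sn] at hv
    rw [mem_union, mem_filter, mem_nb]
    rcases hE v hv with h | h
    · exact Or.inl ⟨h, hv⟩
    · exact Or.inr h
  have h4 := (Finset.card_le_card hsub).trans (Finset.card_union_le _ _)
  have h5 := Finset.card_filter_add_card_filter_not (s := nb G z) (fun v => τ z v = 0)
  have h6 := hG.deg z
  omega

/-- Notes 1.3 (iv). -/
theorem not_both_univ {G : SimpleGraph V} {cls : V → Bool} {x : V → Vec} (hG : Cubic G cls) (hx : HRep G cls x)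
    {p1 l1 p2 l2 : V} (h1 : (p1, l1) ∈ Unw G cls x) (h2 : (p2, l2) ∈ Unw G cls x)
    (hne : (p1, l1) ≠ (p2, l2)) {σ1 σ2 : V → V → ℝ} (hσ1 : Stress (adde G p1 l1) x σ1) (hne1 : σ1 p1 l1 ≠ 0)
    (hσ2 : Stress (adde G p2 l2) x σ2) (hne2 : σ2 p2 l2 ≠ 0)
    (ha1 : ∀ u v, G.Adj u v → σ1 u v ≠ 0) (ha2 : ∀ u v, G.Adj u v → σ2 u v ≠ 0) : False := by
  classical
  rw [mem_Unw] at h1 h2
  obtain ⟨cp1, cl1, na1, i1⟩ := h1
  obtain ⟨cp2, cl2, na2, i2⟩ := h2
  have hx0 := hx.ne_zero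
  have hind := hx.ind
  have hb1 : ∀ u v, σ1 u v ≠ 0 → cls u ≠ cls v := fun u v h => disjb_adde_cls hG cp1 cl1 (hσ1.supp u v h)
  have hb2 : ∀ u v, σ2 u v ≠ 0 → cls u ≠ cls v := fun u v h => disjb_adde_cls hG cp2 cl2 (hσ2.supp u v h)
  -- the vertex v0
  obtain ⟨v0, hv0⟩ : ((nb G p1).erase l2).Nonempty := by
    rw [← Finset.card_pos]
    have := Finset.pred_card_le_card_erase (s := nb G p1) (a := l2)
    have h3 := hG.deg p1
    omega
  rw [mem_erase, mem_nb] at hv0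
  obtain ⟨hv0l2, hv0p⟩ := hv0
  have cv0 : cls v0 = false := by
    have := hG.bip _ _ hv0p
    rw [cp1] at this
    revert this; cases cls v0 <;> simp
  have hv0l1 : v0 ≠ l1 := by rintro rfl; exact na1 hv0p
  have hv0p1 : v0 ≠ p1 := by rintro rfl; rw [cp1] at cv0; simp at cv0
  have hv0p2 : v0 ≠ p2 := by rintro rfl; rw [cp2] at cv0; simp at cv0
  set lam : ℝ := σ1 v0 p1 / σ2 v0 p1 with hlam
  have n1 : σ1 v0 p1 ≠ 0 := ha1 _ _ hv0p.symm
  have n2 : σ2 v0 p1 ≠ 0 := ha2 _ _ hv0p.symm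
  have hlam0 : lam ≠ 0 := div_ne_zero n1 n2
  set τ : V → V → ℝ := fun u v => σ1 u v - lam * σ2 u v with hτ
  have hτs : ∀ u v, τ u v = τ v u := by
    intro u v; simp only [hτ]; rw [hσ1.symm u v, hσ2.symm u v]
  have hτsupp : ∀ u v, τ u v ≠ 0 → adde G p1 l1 u v ∨ adde G p2 l2 u v := by
    intro u v h
    by_cases h' : σ1 u v = 0
    · right
      apply hσ2.supp
      intro h''
      apply h
      simp only [hτ, h', h'']; ring
    · left; exact hσ1.supp _ _ h'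
  have hτb : ∀ u v, τ u v ≠ 0 → cls u ≠ cls v := by
    intro u v h
    rcases hτsupp u v h with h | h
    · exact disjb_adde_cls hG cp1 cl1 h
    · exact disjb_adde_cls hG cp2 cl2 h
  have hτe : ∀ u, ∑ v, τ u v • x v = 0 := by
    intro u
    have e1 := hσ1.eq u
    have e2 := hσ2.eq u
    simp only [hτ, sub_smul, Finset.sum_sub_distrib, e1, mul_smul, ← Finset.smul_sum, e2, smul_zero, sub_zero]
  -- v0 carries no τ
  have hadj0 : ∀ w, τ v0 w ≠ 0 → G.Adj v0 w := by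
    intro w h
    rcases hτsupp _ _ h with (h | ⟨h, _⟩ | ⟨h, _⟩) | (h | ⟨h, _⟩ | ⟨h, _⟩)
    · exact h
    · exact absurd h hv0p1
    · exact absurd h hv0l1
    · exact h
    · exact absurd h hv0p2
    · exact absurd h hv0l2
  have hv0VS : v0 ∉ VS τ := by
    intro h
    have h3 := disjb_K hG hx0 hind hτb hτe h ∅ (fun v hv => Or.inl (hadj0 v hv))
    have : p1 ∈ (nb G v0).filter (fun v => τ v0 v = 0) := by
      rw [mem_filter, mem_nb]
      refine ⟨hv0p.symm, ?_⟩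
      simp only [hτ, hlam]
      rw [div_mul_cancel₀ _ n2, sub_self]
    have h4 := Finset.card_pos.mpr ⟨_, this⟩
    simp only [Finset.card_empty] at h3
    omega
  -- the special vertices carry τ
  have t1 : τ p1 l1 ≠ 0 := by
    have : σ2 p1 l1 = 0 := by
      by_contra h
      rcases hσ2.supp _ _ h with h | ⟨h, h'⟩ | ⟨h, h'⟩
      · exact na1 h
      · exact hne (by rw [h, h'])
      · rw [h, cl2] at cp1; simp at cp1
    simp only [hτ, this]
    simpa using hne1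
  have t2 : τ p2 l2 ≠ 0 := by
    have : σ1 p2 l2 = 0 := by
      by_contra h
      rcases hσ1.supp _ _ h with h | ⟨h, h'⟩ | ⟨h, h'⟩
      · exact na2 h
      · exact hne (by rw [h, h'])
      · rw [h, cl1] at cp2; simp at cp2
    simp only [hτ, this]
    simpa using ⟨hlam0, hne2⟩
  have sp1 : p1 ∈ VS τ := mem_VS.mpr ⟨_, t1⟩
  have sl1 : l1 ∈ VS τ := mem_VS.mpr ⟨p1, by rw [hτs]; exact t1⟩
  have sp2 : p2 ∈ VS τ := mem_VS.mpr ⟨_, t2⟩
  have sl2 : l2 ∈ VS τ := mem_VS.mpr ⟨p2, by rw [hτs]; exact t2⟩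
  set X : Finset V := (VS τ)ᶜ with hX
  have hXmem : ∀ v, v ∉ X ↔ v ∈ VS τ := by intro v; rw [hX, mem_compl, not_not]
  have hX0 : ∀ u ∈ X, ∀ v, τ v u = 0 := by
    intro u hu v
    by_contra h
    rw [hX, mem_compl] at hu
    exact hu (mem_VS.mpr ⟨v, by rw [hτs]; exact h⟩)
  have op1 := (hXmem p1).mpr sp1
  have ol1 := (hXmem l1).mpr sl1
  have op2 := (hXmem p2).mpr sp2
  have ol2 := (hXmem l2).mpr sl2
  -- edges leaving X
  have hleave : ∀ u ∈ X, ∀ v, v ∉ X → G.Adj u v → v = p1 ∨ v = p2 ∨ v = l1 ∨ v = l2 := by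
    intro u hu v hv huv
    by_contra hcon
    push Not at hcon
    obtain ⟨c1, c2, c3, c4⟩ := hcon
    have h3 := disjb_K hG hx0 hind hτb hτe ((hXmem v).mp hv) ∅ (by
      intro w h
      rcases hτsupp _ _ h with (h | ⟨h, _⟩ | ⟨h, _⟩) | (h | ⟨h, _⟩ | ⟨h, _⟩)
      · exact Or.inl h
      · exact absurd h c1
      · exact absurd h c3
      · exact Or.inl h
      · exact absurd h c2
      · exact absurd h c4)
    have : u ∈ (nb G v).filter (fun w => τ v w = 0) := by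
      rw [mem_filter, mem_nb]
      exact ⟨huv.symm, hX0 u hu v⟩
    have h4 := Finset.card_pos.mpr ⟨_, this⟩
    simp only [Finset.card_empty] at h3
    omega
  have hadjX : ∀ u ∈ X, ∀ v, v ∉ X → σ1 u v ≠ 0 → G.Adj u v := by
    intro u hu v hv h
    rcases hσ1.supp _ _ h with h | ⟨h, _⟩ | ⟨h, _⟩
    · exact h
    · rw [h] at hu; exact absurd hu op1
    · rw [h] at hu; exact absurd hu ol1
  have hcr : ∀ u ∈ X, ∀ v, v ∉ X → σ1 u v ≠ 0 → (v = p1 ∨ v = p2 ∨ v = l1 ∨ v = l2) ∧ x u ⬝ᵥ x v = 0 := by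
    intro u hu v hv h
    have ha := hadjX u hu v hv h
    exact ⟨hleave u hu v hv ha, hx.inc _ _ ha⟩
  -- numbers of neighbours in X
  set K : V → Finset V := fun z => (nb G z).filter (fun v => v ∈ X) with hK
  have hKsub : ∀ z, K z ⊆ (nb G z).filter (fun v => τ z v = 0) := by
    intro z v hv
    simp only [hK, mem_filter, mem_nb] at hv ⊢
    exact ⟨hv.1, hX0 v hv.2 z⟩
  have hKle : ∀ z (E : Finset V), z ∈ VS τ → (∀ v, τ z v ≠ 0 → G.Adj z v ∨ v ∈ E) → (K z).card ≤ E.card := by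
    intro z E hz hE
    exact (Finset.card_le_card (hKsub z)).trans (disjb_K hG hx0 hind hτb hτe hz E hE)
  have hKcr : ∀ e ∈ crossing σ1 X, e.1 ∈ K e.2 ∧ (e.2 = p1 ∨ e.2 = p2 ∨ e.2 = l1 ∨ e.2 = l2) := by
    rintro ⟨u, v⟩ h
    rw [mem_crossing] at h
    obtain ⟨hu, hv, hs⟩ := h
    have ha := hadjX u hu v hv hs
    refine ⟨?_, hleave u hu v hv ha⟩
    simp only [hK, mem_filter, mem_nb]
    exact ⟨ha.symm, hu⟩
  have huniq : ∀ z, z ∉ X → (K z).card ≤ 1 → ∀ u ∈ X, ∀ u' ∈ X, σ1 u z ≠ 0 → σ1 u' z ≠ 0 → u = u' := by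
    intro z hz hc u hu u' hu' h h'
    apply Finset.card_le_one.mp hc
    · simp only [hK, mem_filter, mem_nb]
      exact ⟨(hadjX u hu z hz h).symm, hu⟩
    · simp only [hK, mem_filter, mem_nb]
      exact ⟨(hadjX u' hu' z hz h').symm, hu'⟩
  have hKσ : ∀ z, ∀ u ∈ K z, u ∈ X ∧ σ1 u z ≠ 0 := by
    intro z u hu
    simp only [hK, mem_filter, mem_nb] at hu
    exact ⟨hu.2, ha1 _ _ hu.1.symm⟩
  -- it is enough to bound the number of crossing pairs
  have hfin : ¬ (crossing σ1 X).card ≤ 2 := by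
    intro h
    have h0 := cross_le_two hσ1.symm hb1 hx0 hind X (fun u _ => hσ1.eq u) h
    have hv0X : v0 ∈ X := by rw [hX, mem_compl]; exact hv0VS
    obtain ⟨w⟩ := hG.conn.preconnected v0 p1
    obtain ⟨d, hd, hd1, hd2⟩ := w.exists_boundary_dart (X : Set V) (by exact_mod_cast hv0X) (by exact_mod_cast op1)
    have : (d.fst, d.snd) ∈ crossing σ1 X :=
      mem_crossing.mpr ⟨by exact_mod_cast hd1, by exact_mod_cast hd2, ha1 _ _ d.adj⟩
    rw [h0] at this
    simp at this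
  have hpl : ∀ {p l : V}, cls p = true → cls l = false → p ≠ l := by
    rintro p l hp hl rfl
    rw [hp] at hl; simp at hl
  -- partners of the special vertices
  have part : ∀ z v, τ z v ≠ 0 → G.Adj z v ∨ ((z = p1 ∧ v = l1) ∨ (z = l1 ∧ v = p1)) ∨ ((z = p2 ∧ v = l2) ∨ (z = l2 ∧ v = p2)) := by
    intro z v h
    rcases hτsupp _ _ h with (h | h) | (h | h)
    · exact Or.inl h
    · exact Or.inr (Or.inl h)
    · exact Or.inl h
    · exact Or.inr (Or.inr h)
  -- bounds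
  have Kp1 : p1 ≠ p2 → (K p1).card ≤ 1 := by
    intro hpp
    refine (hKle p1 {l1} sp1 ?_).trans (by simp)
    intro v h
    rcases part _ _ h with h | (⟨_, h⟩ | ⟨h, _⟩) | (⟨h, _⟩ | ⟨h, _⟩)
    · exact Or.inl h
    · right; simp [h]
    · exact absurd h (hpl cp1 cl1)
    · exact absurd h hpp
    · exact absurd h (hpl cp1 cl2)
  have Kp2 : p1 ≠ p2 → (K p2).card ≤ 1 := by
    intro hpp
    refine (hKle p2 {l2} sp2 ?_).trans (by simp)
    intro v h
    rcases part _ _ h with h | (⟨h, _⟩ | ⟨h, _⟩) | (⟨_, h⟩ | ⟨h, _⟩)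
    · exact Or.inl h
    · exact absurd h.symm hpp
    · exact absurd h (hpl cp2 cl1)
    · right; simp [h]
    · exact absurd h (hpl cp2 cl2)
  have Kl1 : l1 ≠ l2 → (K l1).card ≤ 1 := by
    intro hll
    refine (hKle l1 {p1} sl1 ?_).trans (by simp)
    intro v h
    rcases part _ _ h with h | (⟨h, _⟩ | ⟨_, h⟩) | (⟨h, _⟩ | ⟨h, _⟩)
    · exact Or.inl h
    · exact absurd h.symm (hpl cp1 cl1)
    · right; simp [h]
    · exact absurd h.symm (hpl cp2 cl1)
    · exact absurd h hll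
  have Kl2 : l1 ≠ l2 → (K l2).card ≤ 1 := by
    intro hll
    refine (hKle l2 {p2} sl2 ?_).trans (by simp)
    intro v h
    rcases part _ _ h with h | (⟨h, _⟩ | ⟨h, _⟩) | (⟨h, _⟩ | ⟨_, h⟩)
    · exact Or.inl h
    · exact absurd h.symm (hpl cp1 cl2)
    · exact absurd h.symm hll
    · exact absurd h.symm (hpl cp2 cl2)
    · right; simp [h]
  have Kp : (K p1).card ≤ 2 := by
    refine (hKle p1 {l1, l2} sp1 ?_).trans (Finset.card_le_two)
    intro v h
    rcases part _ _ h with h | (⟨_, h⟩ | ⟨h, _⟩) | (⟨_, h⟩ | ⟨h, _⟩)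
    · exact Or.inl h
    · right; simp [h]
    · exact absurd h (hpl cp1 cl1)
    · right; simp [h]
    · exact absurd h (hpl cp1 cl2)
  have Kl : (K l1).card ≤ 2 := by
    refine (hKle l1 {p1, p2} sl1 ?_).trans (Finset.card_le_two)
    intro v h
    rcases part _ _ h with h | (⟨h, _⟩ | ⟨_, h⟩) | (⟨h, _⟩ | ⟨_, h⟩)
    · exact Or.inl h
    · exact absurd h.symm (hpl cp1 cl1)
    · right; simp [h]
    · exact absurd h.symm (hpl cp2 cl1)
    · right; simp [h]
  by_cases hpp : p1 = p2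
  · have hll : l1 ≠ l2 := by
      intro h; exact hne (by rw [hpp, h])
    have hcr' : ∀ u ∈ X, ∀ v, v ∉ X → σ1 u v ≠ 0 → (v = p1 ∨ v = l1 ∨ v = l2) := by
      intro u hu v hv h
      rcases (hcr u hu v hv h).1 with h | h | h | h
      · exact Or.inl h
      · left; rw [h, hpp]
      · exact Or.inr (Or.inl h)
      · exact Or.inr (Or.inr h)
    have e1 : ∀ u ∈ X, ∀ v, v ∉ X → σ1 u v ≠ 0 → v ≠ l1 := by
      rintro u hu v hv h rfl
      exact disjb_L2 hσ1.symm hb1 hind X (fun u _ => hσ1.eq u) hll (cl1.trans cl2.symm) (by rw [cp1, cl1]; simp)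
        op1 ol1 hcr' (huniq _ ol1 (Kl1 hll)) hu h
    have e2 : ∀ u ∈ X, ∀ v, v ∉ X → σ1 u v ≠ 0 → v ≠ l2 := by
      rintro u hu v hv h rfl
      exact disjb_L2 hσ1.symm hb1 hind X (fun u _ => hσ1.eq u) hll.symm (cl2.trans cl1.symm) (by rw [cp1, cl2]; simp)
        op1 ol2 (fun u hu v hv h => by
          rcases hcr' u hu v hv h with h | h | h
          · exact Or.inl h
          · exact Or.inr (Or.inr h)
          · exact Or.inr (Or.inl h)) (huniq _ ol2 (Kl2 hll)) hu h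
    apply hfin
    have hsub : crossing σ1 X ⊆ (K p1) ×ˢ {p1} := by
      rintro ⟨u, v⟩ he
      have hk := hKcr _ he
      rw [mem_crossing] at he
      obtain ⟨hu, hv, hs⟩ := he
      rw [mem_product, mem_singleton]
      rcases hcr' u hu v hv hs with h | h | h
      · exact ⟨by rw [h] at hk; exact hk.1, h⟩
      · exact absurd h (e1 u hu v hv hs)
      · exact absurd h (e2 u hu v hv hs)
    refine (Finset.card_le_card hsub).trans ?_
    rw [Finset.card_product, Finset.card_singleton, mul_one]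
    exact Kp
  by_cases hll : l1 = l2
  · have hcr' : ∀ u ∈ X, ∀ v, v ∉ X → σ1 u v ≠ 0 → (v = l1 ∨ v = p1 ∨ v = p2) := by
      intro u hu v hv h
      rcases (hcr u hu v hv h).1 with h | h | h | h
      · exact Or.inr (Or.inl h)
      · exact Or.inr (Or.inr h)
      · exact Or.inl h
      · left; rw [h, hll]
    have e1 : ∀ u ∈ X, ∀ v, v ∉ X → σ1 u v ≠ 0 → v ≠ p1 := by
      rintro u hu v hv h rfl
      exact disjb_L2 hσ1.symm hb1 hind X (fun u _ => hσ1.eq u) hpp (cp1.trans cp2.symm) (by rw [cp1, cl1]; simp)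
        ol1 op1 hcr' (huniq _ op1 (Kp1 hpp)) hu h
    have e2 : ∀ u ∈ X, ∀ v, v ∉ X → σ1 u v ≠ 0 → v ≠ p2 := by
      rintro u hu v hv h rfl
      exact disjb_L2 hσ1.symm hb1 hind X (fun u _ => hσ1.eq u) (Ne.symm hpp) (cp2.trans cp1.symm) (by rw [cp2, cl1]; simp)
        ol1 op2 (fun u hu v hv h => by
          rcases hcr' u hu v hv h with h | h | h
          · exact Or.inl h
          · exact Or.inr (Or.inr h)
          · exact Or.inr (Or.inl h)) (huniq _ op2 (Kp2 hpp)) hu h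
    apply hfin
    have hsub : crossing σ1 X ⊆ (K l1) ×ˢ {l1} := by
      rintro ⟨u, v⟩ he
      have hk := hKcr _ he
      rw [mem_crossing] at he
      obtain ⟨hu, hv, hs⟩ := he
      rw [mem_product, mem_singleton]
      rcases hcr' u hu v hv hs with h | h | h
      · exact ⟨by rw [h] at hk; exact hk.1, h⟩
      · exact absurd h (e1 u hu v hv hs)
      · exact absurd h (e2 u hu v hv hs)
    refine (Finset.card_le_card hsub).trans ?_
    rw [Finset.card_product, Finset.card_singleton, mul_one]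
    exact Kl
  -- the general case
  have hp12 : (K p1).card + (K p2).card ≤ 1 := by
    have a1 := Kp1 hpp
    have a2 := Kp2 hpp
    by_contra hcon
    have b1 : 0 < (K p1).card := by omega
    have b2 : 0 < (K p2).card := by omega
    obtain ⟨ua, hua⟩ := Finset.card_pos.mp b1
    obtain ⟨ub, hub⟩ := Finset.card_pos.mp b2
    obtain ⟨hua1, hua2⟩ := hKσ _ _ hua
    obtain ⟨hub1, hub2⟩ := hKσ _ _ hub
    exact disjb_L1 hσ1.symm hb1 hx0 hind X (fun u _ => hσ1.eq u) hpp hll (cp1.trans cp2.symm) (cl1.trans cl2.symm)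
      (by rw [cp1, cl1]; simp) op1 op2 ol1 ol2 hcr i1 i2 (huniq _ op1 a1) (huniq _ op2 a2) hua1 hub1 hua2 hub2
  have hl12 : (K l1).card + (K l2).card ≤ 1 := by
    have a1 := Kl1 hll
    have a2 := Kl2 hll
    by_contra hcon
    have b1 : 0 < (K l1).card := by omega
    have b2 : 0 < (K l2).card := by omega
    obtain ⟨ua, hua⟩ := Finset.card_pos.mp b1
    obtain ⟨ub, hub⟩ := Finset.card_pos.mp b2
    obtain ⟨hua1, hua2⟩ := hKσ _ _ hua
    obtain ⟨hub1, hub2⟩ := hKσ _ _ hub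
    refine disjb_L1 hσ1.symm hb1 hx0 hind X (fun u _ => hσ1.eq u) hll hpp (cl1.trans cl2.symm) (cp1.trans cp2.symm)
      (by rw [cp1, cl1]; simp) ol1 ol2 op1 op2 ?_ (by rw [dotProduct_comm]; exact i1) (by rw [dotProduct_comm]; exact i2)
      (huniq _ ol1 a1) (huniq _ ol2 a2) hua1 hub1 hua2 hub2
    intro u hu v hv h
    refine ⟨?_, (hcr u hu v hv h).2⟩
    rcases (hcr u hu v hv h).1 with h | h | h | h
    · exact Or.inr (Or.inr (Or.inl h))
    · exact Or.inr (Or.inr (Or.inr h))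
    · exact Or.inl h
    · exact Or.inr (Or.inl h)
  apply hfin
  have hsub : crossing σ1 X ⊆ ((K p1) ×ˢ {p1} ∪ (K p2) ×ˢ {p2}) ∪ ((K l1) ×ˢ {l1} ∪ (K l2) ×ˢ {l2}) := by
    rintro ⟨u, v⟩ he
    obtain ⟨hk, hv⟩ := hKcr _ he
    simp only at hk hv
    simp only [mem_union, mem_product, mem_singleton]
    rcases hv with h | h | h | h
    · rw [h] at hk; exact Or.inl (Or.inl ⟨hk, h⟩)
    · rw [h] at hk; exact Or.inl (Or.inr ⟨hk, h⟩)
    · rw [h] at hk; exact Or.inr (Or.inl ⟨hk, h⟩)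
    · rw [h] at hk; exact Or.inr (Or.inr ⟨hk, h⟩)
  refine (Finset.card_le_card hsub).trans ?_
  refine (Finset.card_union_le _ _).trans ?_
  have g1 := Finset.card_union_le ((K p1) ×ˢ ({p1} : Finset V)) ((K p2) ×ˢ ({p2} : Finset V))
  have g2 := Finset.card_union_le ((K l1) ×ˢ ({l1} : Finset V)) ((K l2) ×ˢ ({l2} : Finset V))
  simp only [Finset.card_product, Finset.card_singleton, mul_one] at g1 g2
  omega

end Pool.Agent.NCfg
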