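import Pool.Agent.Lib.MP_372a40_co.DisjA
import Pool.Agent.Lib.MP_372a40_co.DisjB

/-! # The supports of the stresses of two unwanted incidences are disjoint (notes 1.3); no sorry here -/

open Matrix Finset

set_option linter.unusedSectionVars false
set_option linter.unusedVariables false

namespace Pool.Agent.NCfg

variable {V : Type} [Fintype V] [DecidableEq V]

theorem disjoint_VS {G : SimpleGraph V} {cls : V → Bool} {x : V → Vec} (hG : Cubic G cls) (hx : HRep G cls x)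
    (hun : Unstressed G x) {p1 l1 p2 l2 : V} (h1 : (p1, l1) ∈ Unw G cls x) (h2 : (p2, l2) ∈ Unw G cls x)
    (hne : (p1, l1) ≠ (p2, l2)) {σ1 σ2 : V → V → ℝ} (hσ1 : Stress (adde G p1 l1) x σ1) (hne1 : σ1 p1 l1 ≠ 0)
    (hσ2 : Stress (adde G p2 l2) x σ2) (hne2 : σ2 p2 l2 ≠ 0) : Disjoint (VS σ1) (VS σ2) := by
  by_contra hmeet
  obtain ⟨e1, e2⟩ := meet_univ hG hx hun h1 h2 hne hσ1 hne1 hσ2 hne2 hmeet
  have b1 := blob hG hx h1 hσ1 hne1
  have b2 := blob hG hx h2 hσ2 hne2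
  rcases b1 with b1 | ⟨_, ⟨v, _, _, hv⟩, _⟩
  · rcases b2 with b2 | ⟨_, ⟨v, _, _, hv⟩, _⟩
    · exact not_both_univ hG hx h1 h2 hne hσ1 hne1 hσ2 hne2 b1.2 b2.2
    · rw [e2] at hv; exact hv (mem_univ _)
  · rw [e1] at hv; exact hv (mem_univ _)

end Pool.Agent.NCfg
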