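import Pool.Agent.Lib.MP_372a40_co.Perturb
import Pool.Agent.Lib.MP_372a40_co.Disjoint

/-! # CASEI (notes, section 1) -/

open Matrix Finset

set_option linter.unusedSectionVars false
set_option linter.unusedVariables false

namespace Pool.Agent.NCfg

variable {V : Type} [Fintype V] [DecidableEq V]

/-- Take an unstressed representation `x` with `(Unw G cls x).card` minimal. By `perturb` every `e ∈ Unw` has a stress `σ_e` on
`adde` with `σ_e e ≠ 0`; the `VS σ_e` are pairwise disjoint by `disjoint_VS`; if there are at least two elements, none is `univ`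
(all are nonempty), so each has at least 18 elements by `blob`; sum up. -/
theorem caseI {G : SimpleGraph V} {cls : V → Bool} (hG : Cubic G cls) {x0 : V → Vec} (hx0 : HRep G cls x0)
    (hun0 : Unstressed G x0) :
    ∃ x, HRep G cls x ∧ ((Unw G cls x).card ≤ 1 ∨ 18 * (Unw G cls x).card ≤ Fintype.card V) := by
  classical
  have hex : ∃ n, ∃ x, HRep G cls x ∧ Unstressed G x ∧ (Unw G cls x).card = n :=
    ⟨_, x0, hx0, hun0, rfl⟩
  obtain ⟨x, hx, hun, hcard⟩ := Nat.find_spec hex
  have hmin : ∀ y, HRep G cls y → Unstressed G y → (Unw G cls x).card ≤ (Unw G cls y).card := by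
    intro y hy huy
    rw [hcard]
    exact Nat.find_min' hex ⟨y, hy, huy, rfl⟩
  have hst : ∀ e ∈ Unw G cls x, ∃ σ, Stress (adde G e.1 e.2) x σ ∧ σ e.1 e.2 ≠ 0 := by
    rintro ⟨p, l⟩ he
    by_contra hcon
    push Not at hcon
    obtain ⟨x', h1, h2, h3⟩ := perturb hG hx hun he hcon
    exact absurd (hmin x' h1 h2) (not_le.2 (Finset.card_lt_card h3))
  refine ⟨x, hx, ?_⟩
  by_cases h1 : (Unw G cls x).card ≤ 1
  · exact Or.inl h1
  right
  push Not at h1
  choose! σ hσ hσne using hst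
  have hdisj : ∀ e ∈ Unw G cls x, ∀ f ∈ Unw G cls x, e ≠ f → Disjoint (VS (σ e)) (VS (σ f)) := by
    rintro ⟨p1, l1⟩ he ⟨p2, l2⟩ hf hne
    exact disjoint_VS hG hx hun he hf hne (hσ _ he) (hσne _ he) (hσ _ hf) (hσne _ hf)
  have h18 : ∀ e ∈ Unw G cls x, 18 ≤ (VS (σ e)).card := by
    intro e he
    obtain ⟨f, hf, hfe⟩ : ∃ f ∈ Unw G cls x, f ≠ e := Finset.exists_mem_ne h1 e
    rcases blob hG hx (p := e.1) (l := e.2) he (hσ e he) (hσne e he) with ⟨h, _⟩ | ⟨h, _⟩
    · exfalso
      have h3 := hdisj f hf e he hfe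
      rw [h] at h3
      have h2 : f.1 ∈ VS (σ f) := mem_VS.2 ⟨f.2, hσne f hf⟩
      exact Finset.disjoint_left.1 h3 h2 (mem_univ _)
    · exact h
  have hsum : ∑ e ∈ Unw G cls x, (VS (σ e)).card ≤ Fintype.card V := by
    rw [← Finset.card_biUnion (fun e he f hf hne => hdisj e he f hf hne)]
    exact Finset.card_le_univ _
  calc 18 * (Unw G cls x).card = ∑ e ∈ Unw G cls x, 18 := by
        rw [Finset.sum_const, smul_eq_mul, mul_comm]
    _ ≤ ∑ e ∈ Unw G cls x, (VS (σ e)).card := Finset.sum_le_sum h18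
    _ ≤ Fintype.card V := hsum

end Pool.Agent.NCfg
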