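import Pool.Agent.Lib.MP_372a40_co.TransAux

/-! # TRANSB: flipping one element of a connected transversal (notes 2.4 (G2)) -/

open Finset

set_option linter.unusedSectionVars false
set_option linter.unusedVariables false

namespace Pool.Agent.NCfg

variable {W : Type} [Fintype W] [DecidableEq W]

theorem transb_bool : ∀ a b : Bool, a ≠ b → a = !b := by decide

theorem transb_not_ne : ∀ a : Bool, a ≠ !a := by decide

theorem transb_fin3 : ∀ i j k : Fin 3, i ≠ j → i ≠ k → j ≠ k → ∀ l : Fin 3, l = i ∨ l = j ∨ l = k := by decide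

/-- (*) A set of nonterminals all of whose outer neighbours are in the pair `i` is empty. -/
theorem transb_star {H : SimpleGraph W} {τ : Fin 3 → Bool → W} (hT : TSys H τ) (i : Fin 3) (a : Bool) (X : Finset W)
    (hX : ∀ l c, τ l c ∉ X) (hnb : ∀ v ∈ X, ∀ w, H.Adj v w → w ∉ X → w = τ i a ∨ w = τ i (!a)) : X = ∅ := by
  classical
  set s := τ i a with hs
  set t := τ i (!a) with ht
  have hst : s ≠ t := by
    intro h
    exact transb_not_ne a (hT.inj _ _ _ _ h).2
  have hds : (nb H s).card ≤ 2 := hT.deg i a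
  have hdt : (nb H t).card ≤ 2 := hT.deg i (!a)
  have h1 : cut H X ≤ (nb H s ∩ X).card + (nb H t ∩ X).card := by
    unfold cut
    calc _ ≤ (((nb H s ∩ X).image (fun u => (u, s))) ∪ ((nb H t ∩ X).image (fun u => (u, t)))).card := by
          apply card_le_card
          intro e he
          simp only [mem_filter, mem_product, mem_compl] at he
          obtain ⟨⟨h1, h2⟩, h3⟩ := he
          simp only [mem_union, mem_image, mem_inter, mem_nb]
          rcases hnb _ h1 _ h3 h2 with h | h
          · left; exact ⟨e.1, ⟨by rw [← h]; exact h3.symm, h1⟩, by rw [← h]⟩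
          · right; exact ⟨e.1, ⟨by rw [← h]; exact h3.symm, h1⟩, by rw [← h]⟩
      _ ≤ _ := (card_union_le _ _).trans (add_le_add card_image_le card_image_le)
  have h2 : cut H (X ∪ {s, t}) ≤ (nb H s \ X).card + (nb H t \ X).card := by
    unfold cut
    calc _ ≤ (((nb H s \ X).image (fun u => (s, u))) ∪ ((nb H t \ X).image (fun u => (t, u)))).card := by
          apply card_le_card
          intro e he
          simp only [mem_filter, mem_product, mem_compl, mem_union, mem_insert, mem_singleton] at he
          obtain ⟨⟨h1, h2⟩, h3⟩ := he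
          push Not at h2
          simp only [mem_union, mem_image, mem_sdiff, mem_nb]
          rcases h1 with h1 | h1 | h1
          · rcases hnb _ h1 _ h3 h2.1 with h | h
            · exact absurd h h2.2.1
            · exact absurd h h2.2.2
          · left; exact ⟨e.2, ⟨by rw [← h1]; exact h3, h2.1⟩, by rw [← h1]⟩
          · right; exact ⟨e.2, ⟨by rw [← h1]; exact h3, h2.1⟩, by rw [← h1]⟩
      _ ≤ _ := (card_union_le _ _).trans (add_le_add card_image_le card_image_le)
  have h3 : tc τ (X ∪ {s, t}) ≤ 2 := by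
    unfold tc
    calc _ ≤ ({s, t} : Finset W).card := by
          apply card_le_card
          intro v hv
          simp only [mem_filter, mem_union] at hv
          obtain ⟨h | h, l, c, rfl⟩ := hv
          · exact absurd h (hX l c)
          · exact h
      _ ≤ 2 := card_le_two
  have h4 : tc τ X = 0 := by
    unfold tc
    rw [card_eq_zero, filter_eq_empty_iff]
    rintro v hv ⟨l, c, rfl⟩
    exact hX l c hv
  have h5 : 4 ≤ cut H (X ∪ {s, t}) + tc τ (X ∪ {s, t}) := by
    apply hT.cut4 _ i
    · cases a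
      · simp [← hs]
      · simp only [Bool.not_true] at ht; simp [← ht]
    · cases a
      · simp only [Bool.not_false] at ht; simp [← ht]
      · simp [← hs]
  have e1 : (nb H s \ X).card + (nb H s ∩ X).card = (nb H s).card := card_sdiff_add_card_inter _ _
  have e2 : (nb H t \ X).card + (nb H t ∩ X).card = (nb H t).card := card_sdiff_add_card_inter _ _
  by_contra hne
  have hpos : 0 < X.card := card_pos.mpr (nonempty_iff_ne_empty.mpr hne)
  by_cases hc : 2 ≤ X.card
  · have := hT.cut3 X hc
    omega
  · have hone : X.card = 1 := by omega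
    obtain ⟨v, rfl⟩ := card_eq_one.mp hone
    have h6 := hT.cut2 v
    have h7 : ¬ (H.Adj s v ∧ H.Adj t v) := by
      rintro ⟨g1, g2⟩
      cases a
      · exact hT.ncom i v ⟨g1, g2⟩
      · exact hT.ncom i v ⟨g2, g1⟩
    have h8 : (nb H s ∩ {v}).card ≤ 1 := (card_le_card inter_subset_right).trans (by simp)
    have h9 : (nb H t ∩ {v}).card ≤ 1 := (card_le_card inter_subset_right).trans (by simp)
    have h10 : (nb H s ∩ {v}).card = 1 := by omega
    have h11 : (nb H t ∩ {v}).card = 1 := by omega
    apply h7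
    obtain ⟨w, hw⟩ := card_pos.mp (by omega : 0 < (nb H s ∩ {v}).card)
    obtain ⟨w', hw'⟩ := card_pos.mp (by omega : 0 < (nb H t ∩ {v}).card)
    simp only [mem_inter, mem_nb, mem_singleton] at hw hw'
    obtain ⟨g1, rfl⟩ := hw
    obtain ⟨g2, rfl⟩ := hw'
    exact ⟨g1, g2⟩

/-- Sufficient condition for the flip at `i` to be connected. -/
theorem transb_flip {H : SimpleGraph W} {τ : Fin 3 → Bool → W} (hT : TSys H τ) (b : Fin 3 → Bool) {i j k : Fin 3}
    (hij : i ≠ j) (hik : i ≠ k) (hjk : j ≠ k) {m m' : W}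
    (hm : (Reg H ({v | ∀ k, v ≠ τ k (!b k)} \ {τ i (b i)})).Reachable (τ j (b j)) m) (ham : H.Adj (τ i (!b i)) m)
    (hm' : (Reg H ({v | ∀ k, v ≠ τ k (!b k)} \ {τ i (b i)})).Reachable (τ k (b k)) m') (ham' : H.Adj (τ i (!b i)) m') :
    ConnB H τ (Function.update b i (!b i)) := by
  have all3 : ∀ l : Fin 3, l = i ∨ l = j ∨ l = k := transb_fin3 i j k hij hik hjk
  have ne : ∀ i a j b, (i ≠ j ∨ a ≠ b) → τ i a ≠ τ j b := by
    intro i a j b h h'
    have := hT.inj _ _ _ _ h'
    tauto
  set D : Set W := {v | ∀ k, v ≠ τ k (!b k)} with hD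
  set D' : Set W := {v | ∀ l, v ≠ τ l (!(Function.update b i (!b i)) l)} with hD'
  have hxD : ∀ l, τ l (b l) ∈ D := by
    intro l q h
    have := hT.inj _ _ _ _ h
    obtain ⟨rfl, h2⟩ := this
    revert h2; cases b l <;> simp
  have hsub : D \ {τ i (b i)} ⊆ D' := by
    rintro v ⟨hv, hvi⟩ l
    by_cases hl : l = i
    · subst hl; simpa using hvi
    · rw [Function.update_of_ne hl]; exact hv l
  have hyD' : τ i (!b i) ∈ D' := by
    intro l
    by_cases hl : l = i
    · subst hl
      simp only [Function.update_self, Bool.not_not]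
      apply ne; right; cases b l <;> simp
    · exact ne _ _ _ _ (Or.inl (Ne.symm hl))
  have hj : (Reg H D').Reachable (τ i (!b i)) (τ j (b j)) := by
    have h1 : m ∈ D \ {τ i (b i)} := transaux_mem ⟨hxD j, ne _ _ _ _ (Or.inl hij.symm)⟩ hm
    exact (transaux_step (SimpleGraph.Reachable.refl _) ham hyD' (hsub h1)).trans ((hm.mono (reg_mono hsub)).symm)
  have hk : (Reg H D').Reachable (τ i (!b i)) (τ k (b k)) := by
    have h1 : m' ∈ D \ {τ i (b i)} := transaux_mem ⟨hxD k, ne _ _ _ _ (Or.inl hik.symm)⟩ hm'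
    exact (transaux_step (SimpleGraph.Reachable.refl _) ham' hyD' (hsub h1)).trans ((hm'.mono (reg_mono hsub)).symm)
  have key : ∀ l, (Reg H D').Reachable (τ i (!b i)) (τ l (Function.update b i (!b i) l)) := by
    intro l
    rcases all3 l with rfl | rfl | rfl
    · rw [Function.update_self]
    · rw [Function.update_of_ne hij.symm]; exact hj
    · rw [Function.update_of_ne hik.symm]; exact hk
  intro l l'
  exact (key l).symm.trans (key l')

/-- The vertices of `C \ (V i ∪ {x i})` : outer neighbours in `D` are `x i`. The set is empty if moreover `y j, y k` are not adjacent to it. -/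
theorem transb_empty {H : SimpleGraph W} {τ : Fin 3 → Bool → W} (hT : TSys H τ) (b : Fin 3 → Bool) (hb : ConnB H τ b)
    {i j : Fin 3} (hij : i ≠ j)
    (hy : ∀ l, l ≠ i → ∀ v, (Reg H {v | ∀ k, v ≠ τ k (!b k)}).Reachable (τ i (b i)) v →
      ¬ (Reg H ({v | ∀ k, v ≠ τ k (!b k)} \ {τ i (b i)})).Reachable (τ j (b j)) v → v ≠ τ i (b i) → ¬ H.Adj (τ l (!b l)) v)
    (hx : ∀ l, l ≠ i → (Reg H ({v | ∀ k, v ≠ τ k (!b k)} \ {τ i (b i)})).Reachable (τ j (b j)) (τ l (b l)))
    (v : W) (hv : (Reg H {v | ∀ k, v ≠ τ k (!b k)}).Reachable (τ i (b i)) v) :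
    (Reg H ({v | ∀ k, v ≠ τ k (!b k)} \ {τ i (b i)})).Reachable (τ j (b j)) v ∨ v = τ i (b i) := by
  classical
  have ne : ∀ i a j b, (i ≠ j ∨ a ≠ b) → τ i a ≠ τ j b := by
    intro i a j b h h'
    have := hT.inj _ _ _ _ h'
    tauto
  set D : Set W := {v | ∀ k, v ≠ τ k (!b k)} with hD
  have hxD : ∀ l, τ l (b l) ∈ D := by
    intro l q h
    have := hT.inj _ _ _ _ h
    obtain ⟨rfl, h2⟩ := this
    revert h2; cases b l <;> simp
  by_contra hcon
  push Not at hcon
  set X : Finset W := univ.filter (fun v => (Reg H D).Reachable (τ i (b i)) v ∧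
    ¬ (Reg H (D \ {τ i (b i)})).Reachable (τ j (b j)) v ∧ v ≠ τ i (b i)) with hX
  have hXmem : ∀ v, v ∈ X ↔ ((Reg H D).Reachable (τ i (b i)) v ∧
    ¬ (Reg H (D \ {τ i (b i)})).Reachable (τ j (b j)) v ∧ v ≠ τ i (b i)) := by
    intro v; simp [hX]
  have hE : X = ∅ := by
    apply transb_star hT i (b i) X
    · intro l c hlc
      rw [hXmem] at hlc
      obtain ⟨h1, h2, h3⟩ := hlc
      have hD1 := transaux_mem (hxD i) h1
      have hc : c = b l := by
        by_contra hc
        have : c = !b l := transb_bool _ _ hc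
        exact hD1 l (by rw [this])
      subst hc
      by_cases hl : l = i
      · subst hl; exact h3 rfl
      · exact h2 (hx l hl)
    · intro v hv w hvw hw
      rw [hXmem] at hv hw
      obtain ⟨h1, h2, h3⟩ := hv
      have hvD := transaux_mem (hxD i) h1
      by_cases hwD : w ∈ D
      · left
        by_contra hwi
        apply hw
        refine ⟨transaux_step h1 hvw hvD hwD, ?_, hwi⟩
        intro h
        exact h2 (transaux_step h hvw.symm ⟨hwD, hwi⟩ ⟨hvD, h3⟩)
      · have : ∃ l, w = τ l (!b l) := by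
          by_contra hh
          push Not at hh
          exact hwD hh
        obtain ⟨l, rfl⟩ := this
        by_cases hl : l = i
        · subst hl; right; rfl
        · exact absurd hvw.symm (hy l hl v h1 h2 h3)
  have : v ∈ X := (hXmem v).mpr ⟨hv, hcon.1, hcon.2⟩
  rw [hE] at this
  exact absurd this (notMem_empty v)

/-- One bad index: `i` bad, `y i` not adjacent to the component of `x k`. -/
theorem transb_bad {H : SimpleGraph W} {τ : Fin 3 → Bool → W} (hT : TSys H τ) (b : Fin 3 → Bool) (hb : ConnB H τ b)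
    (hno : ∀ i, ¬ ConnB H τ (Function.update b i (!b i)))
    {i j k : Fin 3} (hij : i ≠ j) (hik : i ≠ k) (hjk : j ≠ k)
    (hbad : ¬ (Reg H ({v | ∀ k, v ≠ τ k (!b k)} \ {τ i (b i)})).Reachable (τ j (b j)) (τ k (b k)))
    (hyi : ∀ m, (Reg H ({v | ∀ k, v ≠ τ k (!b k)} \ {τ i (b i)})).Reachable (τ k (b k)) m → ¬ H.Adj (τ i (!b i)) m) :
    False := by
  classical
  have all3 : ∀ l : Fin 3, l = i ∨ l = j ∨ l = k := transb_fin3 i j k hij hik hjk
  have ne : ∀ i a j b, (i ≠ j ∨ a ≠ b) → τ i a ≠ τ j b := by
    intro i a j b h h'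
    have := hT.inj _ _ _ _ h'
    tauto
  have hxx : ∀ l l', l ≠ l' → τ l (b l) ≠ τ l' (b l') := fun l l' h => ne _ _ _ _ (Or.inl h)
  set D : Set W := {v | ∀ k, v ≠ τ k (!b k)} with hD
  have hxD : ∀ l, τ l (b l) ∈ D := by
    intro l q h
    have := hT.inj _ _ _ _ h
    obtain ⟨rfl, h2⟩ := this
    revert h2; cases b l <;> simp
  have hC : ∀ l l', (Reg H D).Reachable (τ l (b l)) (τ l' (b l')) := hb
  -- goodness of j and k
  have goodk : (Reg H (D \ {τ k (b k)})).Reachable (τ i (b i)) (τ j (b j)) := by
    rcases yz_cover (hxx i k hik) (hxD i) (hxD k) (hC i j) (hC i k) with h | h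
    · exact h
    · exact absurd h.symm hbad
  have goodj : (Reg H (D \ {τ j (b j)})).Reachable (τ i (b i)) (τ k (b k)) := by
    rcases yz_cover (hxx i j hij) (hxD i) (hxD j) (hC i k) (hC i j) with h | h
    · exact h
    · exact absurd h hbad
  -- y j is not adjacent to the component of x i in D \ x j
  have hyj : ∀ m, (Reg H (D \ {τ j (b j)})).Reachable (τ i (b i)) m → ¬ H.Adj (τ j (!b j)) m := by
    intro m hm ham
    exact hno j (transb_flip hT b hij.symm hjk hik (m := m) (m' := m) hm ham (goodj.symm.trans hm) ham)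
  have hyk : ∀ m, (Reg H (D \ {τ k (b k)})).Reachable (τ i (b i)) m → ¬ H.Adj (τ k (!b k)) m := by
    intro m hm ham
    exact hno k (transb_flip hT b hik.symm hjk.symm hij (m := m) (m' := m) hm ham (goodk.symm.trans hm) ham)
  -- the component of x k in D \ x i is in the component of x k in D \ x j
  have hsub : ∀ v, (Reg H (D \ {τ i (b i)})).Reachable (τ k (b k)) v → (Reg H (D \ {τ j (b j)})).Reachable (τ i (b i)) v := by
    intro v hv
    refine goodj.trans (transaux_closed (A := D \ {τ i (b i)}) ?_ hv)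
    intro w hw
    have hwm := transaux_mem (A := D \ {τ i (b i)}) ⟨hxD k, (hxx k i hik.symm)⟩ hw
    refine ⟨hwm.1, ?_⟩
    rintro rfl
    exact hbad hw.symm
  have hyj' : ∀ m, (Reg H (D \ {τ i (b i)})).Reachable (τ k (b k)) m → ¬ H.Adj (τ j (!b j)) m :=
    fun m hm => hyj m (hsub m hm)
  have hP : ∀ v, (Reg H D).Reachable (τ k (b k)) v →
      (Reg H (D \ {τ k (b k)})).Reachable (τ i (b i)) v ∨ v = τ k (b k) := by
    apply transb_empty hT b hb hik.symm
    · intro l hl v hv hv' hvk
      have hCk : (Reg H (D \ {τ i (b i)})).Reachable (τ k (b k)) v := by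
        rcases yz_cover (hxx i k hik) (hxD i) (hxD k) ((hC i k).trans hv) (hC i k) with h | h
        · exact absurd h hv'
        · exact h
      rcases all3 l with rfl | rfl | rfl
      · exact hyi v hCk
      · exact hyj' v hCk
      · exact absurd rfl hl
    · intro l hl
      rcases all3 l with rfl | rfl | rfl
      · exact SimpleGraph.Reachable.refl _
      · exact goodk
      · exact absurd rfl hl
  have hyk' : ∀ m, (Reg H (D \ {τ i (b i)})).Reachable (τ k (b k)) m → ¬ H.Adj (τ k (!b k)) m := by
    intro m hm ham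
    rcases hP m (hm.mono (reg_mono Set.sdiff_subset)) with h | h
    · exact hyk m h ham
    · subst h; exact hT.nadj _ _ _ _ ham
  -- the component of x k
  set X : Finset W := univ.filter (fun v => (Reg H (D \ {τ i (b i)})).Reachable (τ k (b k)) v) with hX
  have hXmem : ∀ v, v ∈ X ↔ (Reg H (D \ {τ i (b i)})).Reachable (τ k (b k)) v := by intro v; simp [hX]
  have hkX : τ k (b k) ∈ X := (hXmem _).mpr (SimpleGraph.Reachable.refl _)
  have hout : ∀ v ∈ X, ∀ w, H.Adj v w → w ∉ X → w = τ i (b i) := by
    intro v hv w hvw hw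
    rw [hXmem] at hv hw
    have hvm := transaux_mem (A := D \ {τ i (b i)}) ⟨hxD k, (hxx k i hik.symm)⟩ hv
    by_cases hwD : w ∈ D
    · by_contra hwi
      exact hw (transaux_step hv hvw hvm ⟨hwD, hwi⟩)
    · have : ∃ l, w = τ l (!b l) := by
        by_contra hh
        push Not at hh
        exact hwD hh
      obtain ⟨l, rfl⟩ := this
      rcases all3 l with rfl | rfl | rfl
      · exact absurd hvw.symm (hyi v hv)
      · exact absurd hvw.symm (hyj' v hv)
      · exact absurd hvw.symm (hyk' v hv)
  -- a neighbour of x i in the component of x j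
  obtain ⟨u, hu, hui⟩ : ∃ u, (Reg H (D \ {τ i (b i)})).Reachable (τ j (b j)) u ∧ H.Adj (τ i (b i)) u := by
    obtain ⟨u, w, _, hu, hw, hadj, huD, hwD⟩ := transaux_exit (hC j i)
      (fun v => (Reg H (D \ {τ i (b i)})).Reachable (τ j (b j)) v) (SimpleGraph.Reachable.refl _) (by
        intro h
        exact hxx j i hij.symm (transaux_eq (by simp) h))
    refine ⟨u, hu, ?_⟩
    have hum := transaux_mem (A := D \ {τ i (b i)}) ⟨hxD j, (hxx j i hij.symm)⟩ hu
    by_cases hwi : w = τ i (b i)
    · rw [← hwi]; exact hadj.symm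
    · exact absurd (transaux_step hu hadj hum ⟨hwD, hwi⟩) hw
  have huX : u ∉ X := by
    intro h
    rw [hXmem] at h
    exact hbad (hu.trans h.symm)
  have h1 : cut H X ≤ (nb H (τ i (b i)) ∩ X).card := by
    unfold cut
    calc _ ≤ ((nb H (τ i (b i)) ∩ X).image (fun u => (u, τ i (b i)))).card := by
          apply card_le_card
          intro e he
          simp only [mem_filter, mem_product, mem_compl] at he
          obtain ⟨⟨h1, h2⟩, h3⟩ := he
          simp only [mem_image, mem_inter, mem_nb]
          have h := hout _ h1 _ h3 h2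
          exact ⟨e.1, ⟨by rw [← h]; exact h3.symm, h1⟩, by rw [← h]⟩
      _ ≤ _ := card_image_le
  have h2 : (nb H (τ i (b i)) ∩ X).card ≤ 1 := by
    have hd := hT.deg i (b i)
    have hss : nb H (τ i (b i)) ∩ X ⊆ (nb H (τ i (b i))).erase u := by
      intro v hv
      rw [mem_inter] at hv
      rw [mem_erase]
      refine ⟨?_, hv.1⟩
      rintro rfl
      exact huX hv.2
    have hc := card_le_card hss
    rw [card_erase_of_mem (mem_nb.mpr hui)] at hc
    omega
  have h3 : tc τ X ≤ 1 := by
    unfold tc
    calc _ ≤ ({τ k (b k)} : Finset W).card := by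
          apply card_le_card
          intro v hv
          simp only [mem_filter] at hv
          obtain ⟨h, l, c, rfl⟩ := hv
          rw [hXmem] at h
          have hm := transaux_mem (A := D \ {τ i (b i)}) ⟨hxD k, (hxx k i hik.symm)⟩ h
          have hc : c = b l := by
            by_contra hc
            have : c = !b l := transb_bool _ _ hc
            exact hm.1 l (by rw [this])
          subst hc
          rcases all3 l with rfl | rfl | rfl
          · exact absurd rfl hm.2
          · exact absurd h.symm hbad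
          · simp
      _ = 1 := card_singleton _
  have hX1 : X.card ≤ 1 := by
    by_contra hc
    have := hT.cut3 X (by omega)
    omega
  have hXe : X = {τ k (b k)} := by
    apply Finset.eq_singleton_iff_unique_mem.mpr
    refine ⟨hkX, fun v hv => card_le_one.mp hX1 _ hv _ hkX⟩
  have h4 := hT.cut2 (τ k (b k))
  rw [hXe] at h1 h2 h3
  have h5 : 0 < (nb H (τ i (b i)) ∩ {τ k (b k)}).card := by omega
  obtain ⟨w, hw⟩ := card_pos.mp h5
  simp only [mem_inter, mem_nb, mem_singleton] at hw
  obtain ⟨g1, rfl⟩ := hw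
  exact hT.nadj _ _ _ _ g1

/-- (G2) of the notes. `x i = τ i (b i)`, `y i = τ i (!b i)`; `C` = the component of the `x i` in `H \ {y 0, y 1, y 2}`. Suppose no flip is connected.
`i` is good if `x j, x k` are in one component `V i` of `C \ x i`; `P i = C \ (V i ∪ {x i})`.
For good `i`: `y i` is not adjacent to `V i` (otherwise the flip at `i` is connected); `x i` has at most 2 neighbours, at least one in `V i`.
At least two `i` are good.
(*) If `i` is good and all neighbours of `P i` outside `P i` are `x i` or `y i` then `P i = ∅`: otherwise `x i` has exactly one edge to `V i`, one to `P i`; with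
`a` = number of edges between `P i` and `y i`: `cut4` for `P i ∪ {x i, y i}` gives `4 ≤ 1 + (2 - a) + 2`, so `a ≤ 1`; `cut + tc` of `P i` is `1 + a ≤ 2`, so
`P i` is a single vertex (`cut3`), `a = 1` (`cut2`), a common neighbour of `x i, y i`, against `ncom`.
All good: `P i ⊆ V j` for `j ≠ i`, so (*) applies, all `P i` are empty, so `y i` is not adjacent to `C` (terminals are not adjacent), so `C` is everything: contradiction.
One bad, say 0: `C \ x 0` = the components `C₁ ∋ x 1`, `C₂ ∋ x 2`, one edge from `x 0` to each; `y 0` is not adjacent to both (flip at 0), say not to `C₂`;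
`P 2 ⊆ C₂ ⊆ V 1`; so `y 1` is not adjacent to `C₂`; so (*) gives `P 2 = ∅`, so `y 2` is not adjacent to `C₂`; so the only edge leaving `C₂` is the one to `x 0`,
`tc C₂ = 1`, so `C₂ = {x 2}` is adjacent to `x 0`, against `nadj`. -/
theorem flip_connB {H : SimpleGraph W} {τ : Fin 3 → Bool → W} (hT : TSys H τ) (b : Fin 3 → Bool) (hb : ConnB H τ b) :
    ∃ i, ConnB H τ (Function.update b i (!b i)) := by
  classical
  by_contra hno
  push Not at hno
  have ne : ∀ i a j b, (i ≠ j ∨ a ≠ b) → τ i a ≠ τ j b := by
    intro i a j b h h'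
    have := hT.inj _ _ _ _ h'
    tauto
  have hxx : ∀ l l', l ≠ l' → τ l (b l) ≠ τ l' (b l') := fun l l' h => ne _ _ _ _ (Or.inl h)
  have hxD : ∀ l, τ l (b l) ∈ {v | ∀ k, v ≠ τ k (!b k)} := by
    intro l q h
    have := hT.inj _ _ _ _ h
    obtain ⟨rfl, h2⟩ := this
    revert h2; cases b l <;> simp
  have hC : ∀ l l', (Reg H {v | ∀ k, v ≠ τ k (!b k)}).Reachable (τ l (b l)) (τ l' (b l')) := hb
  by_cases hbad : ∃ i j k : Fin 3, i ≠ j ∧ i ≠ k ∧ j ≠ k ∧
      ¬ (Reg H ({v | ∀ k, v ≠ τ k (!b k)} \ {τ i (b i)})).Reachable (τ j (b j)) (τ k (b k))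
  · obtain ⟨i, j, k, hij, hik, hjk, hb1⟩ := hbad
    by_cases hyk : ∀ m, (Reg H ({v | ∀ k, v ≠ τ k (!b k)} \ {τ i (b i)})).Reachable (τ k (b k)) m → ¬ H.Adj (τ i (!b i)) m
    · exact transb_bad hT b hb hno hij hik hjk hb1 hyk
    · push Not at hyk
      obtain ⟨m', hm', ham'⟩ := hyk
      apply transb_bad hT b hb hno hik hij hjk.symm (fun h => hb1 h.symm)
      intro m hm ham
      exact hno i (transb_flip hT b hij hik hjk hm ham hm' ham')
  · push Not at hbad
    -- all good
    have hy : ∀ i j, i ≠ j → ∀ m, (Reg H ({v | ∀ k, v ≠ τ k (!b k)} \ {τ i (b i)})).Reachable (τ j (b j)) m →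
        ¬ H.Adj (τ i (!b i)) m := by
      intro i j hij m hm ham
      obtain ⟨k, hik, hjk⟩ : ∃ k : Fin 3, i ≠ k ∧ j ≠ k := by
        clear * - ; revert i j; decide
      exact hno i (transb_flip hT b hij hik hjk hm ham ((hbad i j k hij hik hjk).symm.trans hm) ham)
    have hP : ∀ i j, i ≠ j → ∀ v, (Reg H {v | ∀ k, v ≠ τ k (!b k)}).Reachable (τ i (b i)) v →
        (Reg H ({v | ∀ k, v ≠ τ k (!b k)} \ {τ i (b i)})).Reachable (τ j (b j)) v ∨ v = τ i (b i) := by
      intro i j hij
      apply transb_empty hT b hb hij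
      · intro l hl v hv hv' hvi
        -- v is reachable from x i in D \ x l
        have h : (Reg H ({v | ∀ k, v ≠ τ k (!b k)} \ {τ l (b l)})).Reachable (τ i (b i)) v := by
          rcases yz_cover (hxx i l (Ne.symm hl)) (hxD i) (hxD l) hv (hC i l) with h | h
          · exact h
          · exfalso
            apply hv'
            by_cases hjl : j = l
            · subst hjl; exact h
            · exact (hbad i j l hij (Ne.symm hl) hjl).trans h
        exact hy l i hl v h
      · intro l hl
        by_cases hjl : j = l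
        · subst hjl; exact SimpleGraph.Reachable.refl _
        · exact hbad i j l hij (Ne.symm hl) hjl
    -- C is closed
    have hclosed : ∀ v, (Reg H {v | ∀ k, v ≠ τ k (!b k)}).Reachable (τ 0 (b 0)) v := by
      intro v
      have hv := hT.conn.preconnected (τ 0 (b 0)) v
      have h' := (SimpleGraph.reachable_iff_reflTransGen _ _).mp hv
      induction h' with
      | refl => exact SimpleGraph.Reachable.refl _
      | @tail u w hab hbc ih =>
        have ih := ih ((SimpleGraph.reachable_iff_reflTransGen _ _).mpr hab)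
        have huD := transaux_mem (hxD 0) ih
        by_cases hwD : w ∈ {v | ∀ k, v ≠ τ k (!b k)}
        · exact transaux_step ih hbc huD hwD
        · exfalso
          have : ∃ l, w = τ l (!b l) := by
            by_contra hh
            push Not at hh
            exact hwD hh
          obtain ⟨l, rfl⟩ := this
          obtain ⟨j, hlj⟩ : ∃ j : Fin 3, l ≠ j := by
            clear * - ; revert l; decide
          rcases hP l j hlj u ((hC l 0).trans ih) with h | h
          · exact hy l j hlj u h hbc.symm
          · subst h; exact hT.nadj _ _ _ _ hbc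
    have := transaux_mem (hxD 0) (hclosed (τ 0 (!b 0)))
    exact this 0 rfl

end Pool.Agent.NCfg
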