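import Pool.Agent.Lib.MP_372a40_co.Star

/-! # TRANSC: the graph `G` without `p`, its neighbours and `l` satisfies `TSys` (notes 2.4 (G0), (a)-(d)) -/

open Finset

set_option linter.unusedSectionVars false
set_option linter.unusedVariables false

namespace Pool.Agent.NCfg

variable {V : Type} [Fintype V] [DecidableEq V]

theorem transC_cut_eq_sum {W : Type} [Fintype W] [DecidableEq W] (G : SimpleGraph W) (Y : Finset W) :
    cut G Y = ∑ v ∈ Y, (nb G v \ Y).card := by
  classical
  unfold cut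
  rw [Finset.card_filter, Finset.sum_product]
  apply Finset.sum_congr rfl
  intro u hu
  rw [← Finset.card_filter]
  apply congrArg Finset.card
  ext w
  simp only [mem_filter, mem_compl, mem_sdiff, mem_nb]
  tauto

/-- Adding a vertex to a set. -/
theorem transC_cut_insert {G : SimpleGraph V} {Y : Finset V} {a : V} (ha : a ∉ Y) (hd : (nb G a).card = 3) :
    cut G (insert a Y) + 2 * (nb G a ∩ Y).card = cut G Y + 3 := by
  classical
  rw [transC_cut_eq_sum, transC_cut_eq_sum, Finset.sum_insert ha]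
  have h1 : nb G a \ insert a Y = nb G a \ Y := by
    ext w
    simp only [mem_sdiff, mem_nb, mem_insert, not_or]
    constructor
    · rintro ⟨h, _, h2⟩; exact ⟨h, h2⟩
    · rintro ⟨h, h2⟩; exact ⟨h, fun e => by subst e; exact G.loopless.irrefl _ h, h2⟩
  have h2 : (nb G a \ Y).card + (nb G a ∩ Y).card = 3 := by
    rw [← hd]; exact Finset.card_sdiff_add_card_inter _ _
  have h3 : ∀ v ∈ Y, (nb G v \ Y).card = (nb G v \ insert a Y).card + (if G.Adj a v then 1 else 0) := by
    intro v hv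
    by_cases hav : G.Adj a v
    · rw [if_pos hav]
      have : nb G v \ Y = insert a (nb G v \ insert a Y) := by
        ext w
        simp only [mem_sdiff, mem_nb, mem_insert, not_or]
        constructor
        · rintro ⟨h, h'⟩
          by_cases e : w = a
          · exact Or.inl e
          · exact Or.inr ⟨h, e, h'⟩
        · rintro (e | ⟨h, _, h'⟩)
          · subst e; exact ⟨hav.symm, ha⟩
          · exact ⟨h, h'⟩
      rw [this, Finset.card_insert_of_notMem]
      simp
    · rw [if_neg hav, add_zero]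
      apply congrArg Finset.card
      ext w
      simp only [mem_sdiff, mem_nb, mem_insert, not_or]
      constructor
      · rintro ⟨h, h'⟩; exact ⟨h, fun e => by subst e; exact hav h.symm, h'⟩
      · rintro ⟨h, _, h'⟩; exact ⟨h, h'⟩
  rw [Finset.sum_congr rfl h3, Finset.sum_add_distrib, h1]
  have h4 : (∑ v ∈ Y, if G.Adj a v then 1 else 0) = (nb G a ∩ Y).card := by
    rw [← Finset.card_filter]
    apply congrArg Finset.card
    ext w
    simp only [mem_filter, mem_inter, mem_nb]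
    tauto
  omega

/-- The facts on the star and `l` that are used. -/
structure TransCData (G : SimpleGraph V) (cls : V → Bool) (p l : V) (n : Fin 3 → V)
    (τ : Fin 3 → Bool → {v : V // v ≠ p ∧ v ≠ l ∧ ∀ k, v ≠ n k}) : Prop where
  cub : Cubic G cls
  adjn : ∀ (v : {v : V // v ≠ p ∧ v ≠ l ∧ ∀ k, v ≠ n k}) (k : Fin 3), G.Adj v.1 (n k) ↔ ∃ a, v = τ k a
  inj : ∀ i a j b, τ i a = τ j b → i = j ∧ a = b
  nadjp : ∀ v : {v : V // v ≠ p ∧ v ≠ l ∧ ∀ k, v ≠ n k}, ¬ G.Adj v.1 p
  pl : p ≠ l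
  pn : ∀ k, p ≠ n k
  ln : ∀ k, l ≠ n k
  nadjln : ∀ k, ¬ G.Adj l (n k)
  nadjlp : ¬ G.Adj l p
  adjpn : ∀ k, G.Adj p (n k)
  ninj : Function.Injective n
  clsn : ∀ k, cls (n k) = cls l
  clspl : cls p ≠ cls l
  clsτ : ∀ k a, cls (τ k a).1 = cls p

theorem transC_data {G : SimpleGraph V} {cls : V → Bool} (hG : Cubic G cls) {p l : V} (hc : cls p ≠ cls l)
    (hpl : ¬ G.Adj p l) {n x y : Fin 3 → V} (hs : IsStar G p n x y)
    (τ : Fin 3 → Bool → {v : V // v ≠ p ∧ v ≠ l ∧ ∀ k, v ≠ n k})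
    (hτf : ∀ k, (τ k false : V) = x k) (hτt : ∀ k, (τ k true : V) = y k) :
    TransCData G cls p l n τ := by
  obtain ⟨hxx, hyy, hxy⟩ := hs.distinct hG
  obtain ⟨hcn, hcx, hcy⟩ := hs.cls_n hG
  have hpn : ∀ k, G.Adj p (n k) := fun k => (hs.nbp _).2 ⟨k, rfl⟩
  have hcnl : ∀ k, cls (n k) = cls l := by
    intro k
    have := hcn k
    revert this hc
    cases cls (n k) <;> cases cls p <;> cases cls l <;> simp
  refine ⟨hG, ?_, ?_, ?_, ?_, ?_, ?_, ?_, ?_, hpn, hs.ninj, hcnl, hc, ?_⟩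
  · intro v k
    rw [SimpleGraph.adj_comm, hs.nbn k v.1]
    constructor
    · rintro (h | h | h)
      · exact absurd h v.2.1
      · exact ⟨false, Subtype.ext (by rw [h, hτf])⟩
      · exact ⟨true, Subtype.ext (by rw [h, hτt])⟩
    · rintro ⟨a, h⟩
      cases a
      · right; left; rw [h, hτf]
      · right; right; rw [h, hτt]
  · intro i a j b h
    have h' : (τ i a : V) = τ j b := by rw [h]
    cases a <;> cases b
    · rw [hτf, hτf] at h'; exact ⟨hxx _ _ h', rfl⟩
    · rw [hτf, hτt] at h'; exact absurd h' (hxy _ _)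
    · rw [hτt, hτf] at h'; exact absurd h'.symm (hxy _ _)
    · rw [hτt, hτt] at h'; exact ⟨hyy _ _ h', rfl⟩
  · intro v h
    obtain ⟨k, hk⟩ := (hs.nbp v.1).1 h.symm
    exact v.2.2.2 k hk
  · rintro rfl; exact hc rfl
  · intro k h; exact G.loopless.irrefl _ (h ▸ hpn k)
  · intro k h; exact hpl (h ▸ hpn k)
  · intro k h
    exact (hG.bip _ _ h) (hcnl k).symm
  · intro h; exact hpl h.symm
  · intro k a
    cases a
    · rw [hτf, hcx]
    · rw [hτt, hcy]

section

variable {G : SimpleGraph V} {cls : V → Bool} {p l : V} {n : Fin 3 → V}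
  {τ : Fin 3 → Bool → {v : V // v ≠ p ∧ v ≠ l ∧ ∀ k, v ≠ n k}}

theorem transC_count (D : TransCData G cls p l n τ) (X : Finset {v : V // v ≠ p ∧ v ≠ l ∧ ∀ k, v ≠ n k}) :
    cut G (X.map (Function.Embedding.subtype _)) =
      cut (G.comap (Subtype.val : {v : V // v ≠ p ∧ v ≠ l ∧ ∀ k, v ≠ n k} → V)) X + tc τ X +
        (nb G l ∩ X.map (Function.Embedding.subtype _)).card := by
  classical
  set H := G.comap (Subtype.val : {v : V // v ≠ p ∧ v ≠ l ∧ ∀ k, v ≠ n k} → V) with hH
  set X' := X.map (Function.Embedding.subtype (fun v : V => v ≠ p ∧ v ≠ l ∧ ∀ k, v ≠ n k)) with hX'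
  have memX' : ∀ w : V, w ∈ X' ↔ ∃ h : (w ≠ p ∧ w ≠ l ∧ ∀ k, w ≠ n k), (⟨w, h⟩ : {v : V // v ≠ p ∧ v ≠ l ∧ ∀ k, v ≠ n k}) ∈ X := by
    intro w
    rw [hX', Finset.mem_map]
    constructor
    · rintro ⟨v, hv, rfl⟩; exact ⟨v.2, hv⟩
    · rintro ⟨h, hw⟩; exact ⟨⟨w, h⟩, hw, rfl⟩
  rw [transC_cut_eq_sum G, transC_cut_eq_sum H]
  rw [hX', Finset.sum_map, ← hX']
  have key : ∀ v ∈ X, (nb G v.1 \ X').card = (nb H v \ X).card + (if ∃ i a, v = τ i a then 1 else 0) +
      (if G.Adj l v.1 then 1 else 0) := by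
    intro v hv
    have hdec : nb G v.1 \ X' = ((nb H v \ X).map (Function.Embedding.subtype _) ∪ (nb G v.1 ∩ univ.image n)) ∪ (nb G v.1 ∩ {l}) := by
      ext w
      simp only [mem_sdiff, mem_nb, mem_union, mem_map, mem_inter, mem_image, mem_univ, true_and, mem_singleton]
      constructor
      · rintro ⟨h1, h2⟩
        by_cases hwl : w = l
        · right; exact ⟨h1, hwl⟩
        left
        by_cases hwn : ∃ k, n k = w
        · right; exact ⟨h1, hwn⟩
        left
        have hwp : w ≠ p := by rintro rfl; exact D.nadjp v h1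
        push Not at hwn
        refine ⟨⟨w, hwp, hwl, fun k => (hwn k).symm⟩, ⟨?_, ?_⟩, rfl⟩
        · exact h1
        · intro h; exact h2 ((memX' w).2 ⟨_, h⟩)
      · rintro ((⟨u, ⟨h1, h2⟩, rfl⟩ | ⟨h1, k, rfl⟩) | ⟨h1, rfl⟩)
        · refine ⟨h1, fun h => ?_⟩
          obtain ⟨h3, h4⟩ := (memX' _).1 h
          exact h2 h4
        · refine ⟨h1, fun h => ?_⟩
          obtain ⟨h3, h4⟩ := (memX' _).1 h
          exact h3.2.2 k rfl
        · refine ⟨h1, fun h => ?_⟩
          obtain ⟨h3, h4⟩ := (memX' _).1 h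
          exact h3.2.1 rfl
    have hd1 : Disjoint ((nb H v \ X).map (Function.Embedding.subtype (fun v : V => v ≠ p ∧ v ≠ l ∧ ∀ k, v ≠ n k))) (nb G v.1 ∩ univ.image n) := by
      rw [Finset.disjoint_left]
      intro w hw hw'
      obtain ⟨u, _, rfl⟩ := Finset.mem_map.1 hw
      obtain ⟨k, _, hk⟩ := Finset.mem_image.1 (Finset.mem_inter.1 hw').2
      exact u.2.2.2 k hk.symm
    have hd2 : Disjoint ((nb H v \ X).map (Function.Embedding.subtype (fun v : V => v ≠ p ∧ v ≠ l ∧ ∀ k, v ≠ n k)) ∪ (nb G v.1 ∩ univ.image n)) (nb G v.1 ∩ {l}) := by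
      rw [Finset.disjoint_left]
      intro w hw hw'
      have hwl : w = l := Finset.mem_singleton.1 (Finset.mem_inter.1 hw').2
      rcases Finset.mem_union.1 hw with h | h
      · obtain ⟨u, _, rfl⟩ := Finset.mem_map.1 h
        exact u.2.2.1 hwl
      · obtain ⟨k, _, hk⟩ := Finset.mem_image.1 (Finset.mem_inter.1 h).2
        exact D.ln k (hwl.symm.trans hk.symm)
    rw [hdec, Finset.card_union_of_disjoint hd2, Finset.card_union_of_disjoint hd1, Finset.card_map]
    congr 1
    · congr 1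
      by_cases ht : ∃ i a, v = τ i a
      · rw [if_pos ht]
        obtain ⟨i, a, ha⟩ := ht
        rw [Finset.card_eq_one]
        refine ⟨n i, ?_⟩
        ext w
        simp only [mem_inter, mem_nb, mem_image, mem_univ, true_and, mem_singleton]
        constructor
        · rintro ⟨h1, k, rfl⟩
          obtain ⟨b, hb⟩ := (D.adjn v k).1 h1
          rw [(D.inj i a k b (ha.symm.trans hb)).1]
        · rintro rfl
          exact ⟨(D.adjn v i).2 ⟨a, ha⟩, i, rfl⟩
      · rw [if_neg ht, Finset.card_eq_zero]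
        ext w
        simp only [mem_inter, mem_nb, mem_image, mem_univ, true_and, notMem_empty, iff_false, not_and]
        rintro h1 ⟨k, rfl⟩
        obtain ⟨b, hb⟩ := (D.adjn v k).1 h1
        exact ht ⟨k, b, hb⟩
    · by_cases hl : G.Adj l v.1
      · rw [if_pos hl, Finset.card_eq_one]
        refine ⟨l, ?_⟩
        ext w
        simp only [mem_inter, mem_nb, mem_singleton]
        constructor
        · exact fun h => h.2
        · rintro rfl; exact ⟨hl.symm, rfl⟩
      · rw [if_neg hl, Finset.card_eq_zero]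
        ext w
        simp only [mem_inter, mem_nb, mem_singleton, notMem_empty, iff_false, not_and]
        rintro h1 rfl
        exact hl h1.symm
  have hs1 : tc τ X = ∑ v ∈ X, (if ∃ i a, v = τ i a then 1 else 0) := by
    unfold tc
    rw [Finset.card_filter]
  have hs2 : (nb G l ∩ X').card = ∑ v ∈ X, (if G.Adj l v.1 then 1 else 0) := by
    rw [← Finset.card_filter, ← Finset.card_map (Function.Embedding.subtype (fun v : V => v ≠ p ∧ v ≠ l ∧ ∀ k, v ≠ n k))]
    apply congrArg Finset.card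
    ext w
    simp only [mem_inter, mem_nb, memX', mem_map, mem_filter]
    constructor
    · rintro ⟨h1, h2, h3⟩; exact ⟨⟨w, h2⟩, ⟨h3, h1⟩, rfl⟩
    · rintro ⟨u, ⟨h1, h2⟩, rfl⟩; exact ⟨h2, u.2, h1⟩
  rw [hs1, hs2]
  rw [← Finset.sum_add_distrib, ← Finset.sum_add_distrib]
  exact Finset.sum_congr rfl key

theorem transC_mem (X : Finset {v : V // v ≠ p ∧ v ≠ l ∧ ∀ k, v ≠ n k}) (w : V) :
    w ∈ X.map (Function.Embedding.subtype _) ↔
      ∃ h : (w ≠ p ∧ w ≠ l ∧ ∀ k, w ≠ n k), (⟨w, h⟩ : {v : V // v ≠ p ∧ v ≠ l ∧ ∀ k, v ≠ n k}) ∈ X := by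
  rw [Finset.mem_map]
  constructor
  · rintro ⟨v, hv, rfl⟩; exact ⟨v.2, hv⟩
  · rintro ⟨h, hw⟩; exact ⟨⟨w, h⟩, hw, rfl⟩

theorem transC_two_le {Y : Finset V} {a b : V} (ha : a ∈ Y) (hb : b ∈ Y) (hab : a ≠ b) : 2 ≤ Y.card := by
  have : ({a, b} : Finset V) ⊆ Y := by
    intro w hw
    rcases Finset.mem_insert.1 hw with h | h
    · rw [h]; exact ha
    · rw [Finset.mem_singleton.1 h]; exact hb
  calc 2 = ({a, b} : Finset V).card := (Finset.card_pair hab).symm
    _ ≤ _ := Finset.card_le_card this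

theorem transC_cut3 (D : TransCData G cls p l n τ)
    (hcut : ∀ X : Finset V, 2 ≤ X.card → 2 ≤ Xᶜ.card → 4 ≤ cut G X)
    (X : Finset {v : V // v ≠ p ∧ v ≠ l ∧ ∀ k, v ≠ n k}) (hX : 2 ≤ X.card) :
    3 ≤ cut (G.comap (Subtype.val : {v : V // v ≠ p ∧ v ≠ l ∧ ∀ k, v ≠ n k} → V)) X + tc τ X := by
  classical
  have hcount := transC_count D X
  set X' := X.map (Function.Embedding.subtype (fun v : V => v ≠ p ∧ v ≠ l ∧ ∀ k, v ≠ n k)) with hX'
  have hcard : X'.card = X.card := Finset.card_map _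
  have hl : l ∉ X' := by
    intro h; obtain ⟨h1, _⟩ := (transC_mem X l).1 h; exact h1.2.1 rfl
  have hp : p ∉ X' := by
    intro h; obtain ⟨h1, _⟩ := (transC_mem X p).1 h; exact h1.1 rfl
  have hn : ∀ k, n k ∉ X' := by
    intro k h; obtain ⟨h1, _⟩ := (transC_mem X (n k)).1 h; exact h1.2.2 k rfl
  have h1 : 4 ≤ cut G X' := by
    apply hcut X' (by omega)
    exact transC_two_le (a := p) (b := n 0) (by simpa using hp) (by simpa using hn 0) (D.pn 0)
  have h2 : 4 ≤ cut G (insert l X') := by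
    apply hcut
    · rw [Finset.card_insert_of_notMem hl]; omega
    · refine transC_two_le (a := p) (b := n 0) ?_ ?_ (D.pn 0)
      · simp only [mem_compl, mem_insert, not_or]; exact ⟨D.pl, hp⟩
      · simp only [mem_compl, mem_insert, not_or]; exact ⟨(D.ln 0).symm, hn 0⟩
  have h3 := transC_cut_insert (G := G) hl (D.cub.deg l)
  omega

theorem transC_cut4 (D : TransCData G cls p l n τ)
    (hcut : ∀ X : Finset V, 2 ≤ X.card → 2 ≤ Xᶜ.card → 4 ≤ cut G X)
    (X : Finset {v : V // v ≠ p ∧ v ≠ l ∧ ∀ k, v ≠ n k}) (i : Fin 3) (hf : τ i false ∈ X) (ht : τ i true ∈ X) :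
    4 ≤ cut (G.comap (Subtype.val : {v : V // v ≠ p ∧ v ≠ l ∧ ∀ k, v ≠ n k} → V)) X + tc τ X := by
  classical
  have hcount := transC_count D X
  set X' := X.map (Function.Embedding.subtype (fun v : V => v ≠ p ∧ v ≠ l ∧ ∀ k, v ≠ n k)) with hX'
  have hcard : X'.card = X.card := Finset.card_map _
  have hl : l ∉ X' := by
    intro h; obtain ⟨h1, _⟩ := (transC_mem X l).1 h; exact h1.2.1 rfl
  have hp : p ∉ X' := by
    intro h; obtain ⟨h1, _⟩ := (transC_mem X p).1 h; exact h1.1 rfl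
  have hn : ∀ k, n k ∉ X' := by
    intro k h; obtain ⟨h1, _⟩ := (transC_mem X (n k)).1 h; exact h1.2.2 k rfl
  have hne : (τ i false : V) ≠ τ i true := by
    intro h
    have := (D.inj i false i true (Subtype.ext h)).2
    exact absurd this (by simp)
  have hmf : (τ i false : V) ∈ X' := (transC_mem X _).2 ⟨(τ i false).2, hf⟩
  have hmt : (τ i true : V) ∈ X' := (transC_mem X _).2 ⟨(τ i true).2, ht⟩
  have hX2 : 2 ≤ X'.card := transC_two_le hmf hmt hne
  have hint : (nb G (n i) ∩ X').card = 2 := by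
    rw [← Finset.card_pair hne]
    apply congrArg Finset.card
    ext w
    simp only [mem_inter, mem_nb, mem_insert, mem_singleton]
    constructor
    · rintro ⟨h1, h2⟩
      obtain ⟨h3, h4⟩ := (transC_mem X w).1 h2
      obtain ⟨a, ha⟩ := (D.adjn ⟨w, h3⟩ i).1 h1.symm
      have : w = (τ i a : V) := congrArg Subtype.val ha
      cases a
      · exact Or.inl this
      · exact Or.inr this
    · rintro (rfl | rfl)
      · exact ⟨((D.adjn (τ i false) i).2 ⟨false, rfl⟩).symm, hmf⟩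
      · exact ⟨((D.adjn (τ i true) i).2 ⟨true, rfl⟩).symm, hmt⟩
  obtain ⟨j, hj⟩ : ∃ j : Fin 3, j ≠ i := by
    by_cases h : i = 0
    · exact ⟨1, by rw [h]; decide⟩
    · exact ⟨0, fun e => h e.symm⟩
  have hnj : n j ≠ n i := fun h => hj (D.ninj h)
  have h1 : 4 ≤ cut G (insert (n i) X') := by
    apply hcut
    · rw [Finset.card_insert_of_notMem (hn i)]; omega
    · refine transC_two_le (a := p) (b := n j) ?_ ?_ (D.pn j)
      · simp only [mem_compl, mem_insert, not_or]; exact ⟨D.pn i, hp⟩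
      · simp only [mem_compl, mem_insert, not_or]; exact ⟨hnj, hn j⟩
  have hl2 : l ∉ insert (n i) X' := by
    simp only [mem_insert, not_or]; exact ⟨D.ln i, hl⟩
  have h2 : 4 ≤ cut G (insert l (insert (n i) X')) := by
    apply hcut
    · rw [Finset.card_insert_of_notMem hl2, Finset.card_insert_of_notMem (hn i)]; omega
    · refine transC_two_le (a := p) (b := n j) ?_ ?_ (D.pn j)
      · simp only [mem_compl, mem_insert, not_or]; exact ⟨D.pl, D.pn i, hp⟩
      · simp only [mem_compl, mem_insert, not_or]; exact ⟨(D.ln j).symm, hnj, hn j⟩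
  have h3 := transC_cut_insert (G := G) (hn i) (D.cub.deg (n i))
  have h4 := transC_cut_insert (G := G) hl2 (D.cub.deg l)
  have h5 : (nb G l ∩ insert (n i) X').card = (nb G l ∩ X').card := by
    apply congrArg Finset.card
    ext w
    simp only [mem_inter, mem_nb, mem_insert]
    constructor
    · rintro ⟨h, rfl | h'⟩
      · exact absurd h (D.nadjln i)
      · exact ⟨h, h'⟩
    · rintro ⟨h, h'⟩; exact ⟨h, Or.inr h'⟩
  omega

theorem transC_cut2 (D : TransCData G cls p l n τ) (v : {v : V // v ≠ p ∧ v ≠ l ∧ ∀ k, v ≠ n k}) :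
    2 ≤ cut (G.comap (Subtype.val : {v : V // v ≠ p ∧ v ≠ l ∧ ∀ k, v ≠ n k} → V)) {v} + tc τ {v} := by
  classical
  have hcount := transC_count D {v}
  have h1 : cut G (({v} : Finset {v : V // v ≠ p ∧ v ≠ l ∧ ∀ k, v ≠ n k}).map (Function.Embedding.subtype _)) = 3 := by
    rw [Finset.map_singleton, transC_cut_eq_sum, Finset.sum_singleton]
    refine Eq.trans ?_ (D.cub.deg v.1)
    apply congrArg Finset.card
    ext w
    simp only [mem_sdiff, mem_nb, mem_singleton, Function.Embedding.subtype_apply]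
    constructor
    · exact fun h => h.1
    · intro h; exact ⟨h, fun e => by subst e; exact G.loopless.irrefl _ h⟩
  have h2 : (nb G l ∩ ({v} : Finset {v : V // v ≠ p ∧ v ≠ l ∧ ∀ k, v ≠ n k}).map (Function.Embedding.subtype _)).card ≤ 1 := by
    rw [Finset.map_singleton]
    exact (Finset.card_le_card Finset.inter_subset_right).trans (by simp)
  omega

theorem transC_tc_le (X : Finset {v : V // v ≠ p ∧ v ≠ l ∧ ∀ k, v ≠ n k}) : tc τ X + tc τ Xᶜ ≤ 6 := by
  classical
  unfold tc
  rw [← Finset.card_union_of_disjoint]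
  · calc _ ≤ (Finset.image (fun q : Fin 3 × Bool => τ q.1 q.2) univ).card := by
          apply Finset.card_le_card
          intro v hv
          rcases Finset.mem_union.1 hv with h | h <;>
          · obtain ⟨i, a, ha⟩ := (Finset.mem_filter.1 h).2
            exact Finset.mem_image.2 ⟨(i, a), Finset.mem_univ _, ha.symm⟩
      _ ≤ _ := Finset.card_image_le.trans (by simp)
  · rw [Finset.disjoint_left]
    intro v hv hv'
    exact (Finset.mem_compl.1 (Finset.mem_filter.1 hv').1) (Finset.mem_filter.1 hv).1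

theorem transC_tc_single (v : {v : V // v ≠ p ∧ v ≠ l ∧ ∀ k, v ≠ n k}) : tc τ {v} ≤ 1 := by
  classical
  unfold tc
  exact (Finset.card_le_card (Finset.filter_subset _ _)).trans (by simp)

theorem transC_closed (D : TransCData G cls p l n τ)
    (hcut : ∀ X : Finset V, 2 ≤ X.card → 2 ≤ Xᶜ.card → 4 ≤ cut G X)
    (Y : Finset {v : V // v ≠ p ∧ v ≠ l ∧ ∀ k, v ≠ n k}) (hne : Y.Nonempty)
    (hcl : ∀ u ∈ Y, ∀ v, (G.comap (Subtype.val : {v : V // v ≠ p ∧ v ≠ l ∧ ∀ k, v ≠ n k} → V)).Adj u v → v ∈ Y) :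
    6 ≤ cut G (Y.map (Function.Embedding.subtype _)) := by
  classical
  set H := G.comap (Subtype.val : {v : V // v ≠ p ∧ v ≠ l ∧ ∀ k, v ≠ n k} → V) with hH
  set Y' := Y.map (Function.Embedding.subtype (fun v : V => v ≠ p ∧ v ≠ l ∧ ∀ k, v ≠ n k)) with hY'
  have hp : p ∉ Y' := by
    intro h; obtain ⟨h1, _⟩ := (transC_mem Y p).1 h; exact h1.1 rfl
  have hn : ∀ k, n k ∉ Y' := by
    intro k h; obtain ⟨h1, _⟩ := (transC_mem Y (n k)).1 h; exact h1.2.2 k rfl
  -- at least two elements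
  obtain ⟨v, hv⟩ := hne
  have hnbv : ∃ w, H.Adj v w := by
    by_contra hno
    push Not at hno
    have hc0 : cut H {v} = 0 := by
      rw [transC_cut_eq_sum, Finset.sum_singleton, Finset.card_eq_zero]
      ext w
      simp only [mem_sdiff, mem_nb, notMem_empty, iff_false, not_and]
      intro h; exact absurd h (hno w)
    have h2 := transC_cut2 D v
    have h3 := transC_tc_single (τ := τ) v
    rw [← hH] at h2
    omega
  obtain ⟨w, hw⟩ := hnbv
  have hwY : w ∈ Y := hcl v hv w hw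
  have hvw : (v : V) ≠ w := by
    intro h
    have hw2 : G.Adj v.1 w.1 := hw
    rw [← h] at hw2
    exact G.loopless.irrefl _ hw2
  have h2 : 2 ≤ Y'.card := transC_two_le ((transC_mem Y v.1).2 ⟨v.2, hv⟩) ((transC_mem Y w.1).2 ⟨w.2, hwY⟩) hvw
  have h4 : 4 ≤ cut G Y' := by
    apply hcut Y' h2
    exact transC_two_le (a := p) (b := n 0) (by simpa using hp) (by simpa using hn 0) (D.pn 0)
  -- divisibility by three
  set A := Y'.filter (fun v => cls v = cls p) with hA
  set B := Y'.filter (fun v => ¬ cls v = cls p) with hB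
  have hBl : ∀ v ∈ B, cls v = cls l := by
    intro v hv
    have h1 := (Finset.mem_filter.1 hv).2
    have h2 := D.clspl
    revert h1 h2
    cases cls v <;> cases cls p <;> cases cls l <;> simp
  have hBsub : ∀ v ∈ B, nb G v ⊆ Y' := by
    intro v hv w hw
    have hw' : G.Adj v w := mem_nb.1 hw
    obtain ⟨h1, h2⟩ := (transC_mem Y v).1 (Finset.mem_filter.1 hv).1
    have hcv := hBl v hv
    have hwp : w ≠ p := by
      intro e; rw [e] at hw'; exact D.nadjp ⟨v, h1⟩ hw'
    have hwl : w ≠ l := by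
      intro e; rw [e] at hw'; exact D.cub.bip _ _ hw' hcv
    have hwn : ∀ k, w ≠ n k := by
      intro k e; rw [e] at hw'; exact D.cub.bip _ _ hw' (hcv.trans (D.clsn k).symm)
    exact (transC_mem Y w).2 ⟨⟨hwp, hwl, hwn⟩, hcl ⟨v, h1⟩ h2 ⟨w, hwp, hwl, hwn⟩ hw'⟩
  have hsum : cut G Y' = ∑ v ∈ A, (nb G v \ Y').card := by
    rw [transC_cut_eq_sum, ← Finset.sum_filter_add_sum_filter_not Y' (fun v => cls v = cls p)]
    have : ∑ v ∈ Y'.filter (fun v => ¬ cls v = cls p), (nb G v \ Y').card = 0 := by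
      apply Finset.sum_eq_zero
      intro v hv
      rw [Finset.card_eq_zero, Finset.sdiff_eq_empty_iff_subset]
      exact hBsub v hv
    rw [this, add_zero]
  have hsumA : cut G Y' + ∑ v ∈ A, (nb G v ∩ Y').card = 3 * A.card := by
    rw [hsum, ← Finset.sum_add_distrib]
    rw [Finset.sum_congr rfl (fun v _ => (Finset.card_sdiff_add_card_inter (nb G v) Y').trans (D.cub.deg v))]
    simp [mul_comm]
  have hdc : ∑ v ∈ A, (nb G v ∩ Y').card = ∑ w ∈ B, (nb G w ∩ Y').card := by
    have e1 : ∀ v ∈ A, (nb G v ∩ Y').card = ∑ w ∈ B, (if G.Adj v w then 1 else 0) := by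
      intro v hv
      rw [← Finset.card_filter]
      apply congrArg Finset.card
      ext w
      simp only [mem_inter, mem_nb, hB, mem_filter]
      constructor
      · rintro ⟨h1, h2⟩
        refine ⟨⟨h2, fun h => ?_⟩, h1⟩
        exact D.cub.bip _ _ h1 ((Finset.mem_filter.1 hv).2.trans h.symm)
      · rintro ⟨⟨h1, _⟩, h2⟩; exact ⟨h2, h1⟩
    have e2 : ∀ w ∈ B, (nb G w ∩ Y').card = ∑ v ∈ A, (if G.Adj v w then 1 else 0) := by
      intro w hw
      rw [← Finset.card_filter]
      apply congrArg Finset.card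
      ext v
      simp only [mem_inter, mem_nb, hA, mem_filter]
      constructor
      · rintro ⟨h1, h2⟩
        refine ⟨⟨h2, ?_⟩, h1.symm⟩
        have h3 := D.cub.bip _ _ h1
        have h4 := (Finset.mem_filter.1 hw).2
        revert h3 h4
        cases cls v <;> cases cls p <;> cases cls w <;> simp
      · rintro ⟨⟨h1, _⟩, h2⟩; exact ⟨h2.symm, h1⟩
    rw [Finset.sum_congr rfl e1, Finset.sum_congr rfl e2, Finset.sum_comm]
  have hB3 : ∑ w ∈ B, (nb G w ∩ Y').card = 3 * B.card := by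
    have e : ∀ w ∈ B, (nb G w ∩ Y').card = 3 := by
      intro w hw
      rw [Finset.inter_eq_left.2 (hBsub w hw)]; exact D.cub.deg w
    rw [Finset.sum_congr rfl e, Finset.sum_const, smul_eq_mul, mul_comm]
  omega

theorem transC_conn (D : TransCData G cls p l n τ)
    (hcut : ∀ X : Finset V, 2 ≤ X.card → 2 ≤ Xᶜ.card → 4 ≤ cut G X) :
    (G.comap (Subtype.val : {v : V // v ≠ p ∧ v ≠ l ∧ ∀ k, v ≠ n k} → V)).Connected := by
  classical
  set H := G.comap (Subtype.val : {v : V // v ≠ p ∧ v ≠ l ∧ ∀ k, v ≠ n k} → V) with hH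
  have : Nonempty {v : V // v ≠ p ∧ v ≠ l ∧ ∀ k, v ≠ n k} := ⟨τ 0 false⟩
  refine SimpleGraph.Connected.mk ?_
  intro u v
  by_contra hnr
  set X : Finset {v : V // v ≠ p ∧ v ≠ l ∧ ∀ k, v ≠ n k} := univ.filter (fun w => H.Reachable u w) with hX
  have hXcl : ∀ a ∈ X, ∀ b, H.Adj a b → b ∈ X := by
    intro a ha b hab
    rw [hX, Finset.mem_filter] at ha ⊢
    exact ⟨mem_univ _, ha.2.trans hab.reachable⟩
  have hXcl' : ∀ a ∈ Xᶜ, ∀ b, H.Adj a b → b ∈ Xᶜ := by
    intro a ha b hab
    rw [Finset.mem_compl] at ha ⊢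
    exact fun hb => ha (hXcl b hb a hab.symm)
  have hu : u ∈ X := by rw [hX, Finset.mem_filter]; exact ⟨mem_univ _, SimpleGraph.Reachable.refl _⟩
  have hv : v ∈ Xᶜ := by
    rw [Finset.mem_compl, hX, Finset.mem_filter]; exact fun h => hnr h.2
  have h1 := transC_closed D hcut X ⟨u, hu⟩ hXcl
  have h2 := transC_closed D hcut Xᶜ ⟨v, hv⟩ hXcl'
  have c1 := transC_count D X
  have c2 := transC_count D Xᶜ
  rw [← hH] at c1 c2
  have z1 : cut H X = 0 := by
    rw [transC_cut_eq_sum]
    apply Finset.sum_eq_zero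
    intro a ha
    rw [Finset.card_eq_zero, Finset.sdiff_eq_empty_iff_subset]
    intro b hb
    exact hXcl a ha b (mem_nb.1 hb)
  have z2 : cut H Xᶜ = 0 := by
    rw [transC_cut_eq_sum]
    apply Finset.sum_eq_zero
    intro a ha
    rw [Finset.card_eq_zero, Finset.sdiff_eq_empty_iff_subset]
    intro b hb
    exact hXcl' a ha b (mem_nb.1 hb)
  have t := transC_tc_le (τ := τ) X
  have e : (nb G l ∩ X.map (Function.Embedding.subtype _)).card + (nb G l ∩ Xᶜ.map (Function.Embedding.subtype _)).card ≤ 3 := by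
    rw [← Finset.card_union_of_disjoint]
    · refine le_trans (Finset.card_le_card (t := nb G l) ?_) (D.cub.deg l).le
      intro w hw
      rcases Finset.mem_union.1 hw with h | h <;> exact (Finset.mem_inter.1 h).1
    · rw [Finset.disjoint_left]
      intro w hw hw'
      obtain ⟨a1, a2⟩ := (transC_mem X w).1 (Finset.mem_inter.1 hw).2
      obtain ⟨b1, b2⟩ := (transC_mem Xᶜ w).1 (Finset.mem_inter.1 hw').2
      exact (Finset.mem_compl.1 b2) a2
  omega

end

/-- The hypotheses `TSys` for `H = G \ {p, l, n 0, n 1, n 2}` and the terminals `x k`, `y k`.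
For `X ⊆ V(H)`: `cut G X = δ(X) + e(X,l)`, `cut G (X ∪ {l}) = δ(X) + 3 - e(X,l)` where `δ(X) = cut H X + tc X`; if `X` contains `x k, y k` then
`cut G (X ∪ {n k}) = cut G X - 1`, same with `l`.  So `2 δ(X) + 3 ≥ 8` for `|X| ≥ 2` and `2 δ(X) + 1 ≥ 8` in the second case.
Connectivity of `H`: if `X` is a union of components of `H`, nonempty and not everything, the edges of `G` leaving `X` go to the `n k`
and to `l`, which are all of the class of `l`; so all of them start at vertices of the class of `p`; double counting of the edges inside `X` gives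
`3 ∣ cut G X`, so `cut G X ≥ 6` (`|X| ≥ 2` because a vertex has at most 2 neighbours among the `n k` and `l`), and the same for the complement of `X` in
`H`; but the total number of edges from `H` to the `n k` and `l` is `6 + 3 = 9`. -/
theorem tsys_of_cut {G : SimpleGraph V} {cls : V → Bool} (hG : Cubic G cls)
    (hcut : ∀ X : Finset V, 2 ≤ X.card → 2 ≤ Xᶜ.card → 4 ≤ cut G X) {p l : V} (hc : cls p ≠ cls l)
    (hpl : ¬ G.Adj p l) {n x y : Fin 3 → V} (hs : IsStar G p n x y)
    (τ : Fin 3 → Bool → {v : V // v ≠ p ∧ v ≠ l ∧ ∀ k, v ≠ n k})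
    (hτf : ∀ k, (τ k false : V) = x k) (hτt : ∀ k, (τ k true : V) = y k) :
    TSys (G.comap (Subtype.val : {v : V // v ≠ p ∧ v ≠ l ∧ ∀ k, v ≠ n k} → V)) τ := by
  classical
  have D := transC_data hG hc hpl hs τ hτf hτt
  refine ⟨transC_conn D hcut, D.inj, ?_, ?_, ?_, transC_cut3 D hcut, transC_cut4 D hcut, transC_cut2 D⟩
  · intro i a j b h
    exact hG.bip _ _ (SimpleGraph.comap_adj.1 h) ((D.clsτ i a).trans (D.clsτ j b).symm)
  · rintro i v ⟨h1, h2⟩
    have h1' : G.Adj (τ i false).1 v.1 := h1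
    have h2' : G.Adj (τ i true).1 v.1 := h2
    have hne : (τ i false : V) ≠ τ i true := by
      intro h
      have := (D.inj i false i true (Subtype.ext h)).2
      exact absurd this (by simp)
    have := hG.no4 _ _ hne v.1 (n i) h1' h2' ((D.adjn (τ i false) i).2 ⟨false, rfl⟩) ((D.adjn (τ i true) i).2 ⟨true, rfl⟩)
    exact v.2.2.2 i this
  · intro i a
    have hsub : (nb (G.comap (Subtype.val : {v : V // v ≠ p ∧ v ≠ l ∧ ∀ k, v ≠ n k} → V)) (τ i a)).map
        (Function.Embedding.subtype _) ⊆ (nb G (τ i a).1).erase (n i) := by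
      intro w hw
      obtain ⟨u, hu, rfl⟩ := Finset.mem_map.1 hw
      rw [Finset.mem_erase]
      have hu1 : (G.comap (Subtype.val : {v : V // v ≠ p ∧ v ≠ l ∧ ∀ k, v ≠ n k} → V)).Adj (τ i a) u := mem_nb.1 hu
      have hu' : G.Adj (τ i a).1 u.1 := hu1
      exact ⟨u.2.2.2 i, mem_nb.2 hu'⟩
    have h1 := Finset.card_le_card hsub
    rw [Finset.card_map, Finset.card_erase_of_mem (mem_nb.2 ((D.adjn (τ i a) i).2 ⟨a, rfl⟩)), hG.deg] at h1
    exact h1

end Pool.Agent.NCfg
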