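import Pool.Agent.Lib.MP_372a40_co.TransA
import Pool.Agent.Lib.MP_372a40_co.TransB
import Pool.Agent.Lib.MP_372a40_co.TransC

/-! # GRAPHLEMMA (notes 2.4) -/

open Finset

set_option linter.unusedSectionVars false
set_option linter.unusedVariables false

namespace Pool.Agent.NCfg

variable {V : Type} [Fintype V] [DecidableEq V]

private theorem glem_conn {G : SimpleGraph V} {p l : V} {n : Fin 3 → V}
    (τ : Fin 3 → Bool → {v : V // v ≠ p ∧ v ≠ l ∧ ∀ k, v ≠ n k}) (e : Equiv.Perm (Fin 3))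
    (b : Fin 3 → Bool)
    (hb : ConnB (G.comap (Subtype.val : {v : V // v ≠ p ∧ v ≠ l ∧ ∀ k, v ≠ n k} → V)) τ b) :
    ConnT G p l (fun k => n (e k)) (fun k => (τ (e k) (b (e k)) : V))
      (fun k => (τ (e k) (!b (e k)) : V)) := by
  intro i j
  have h1 := hb (e i) (e j)
  let f : (Reg (G.comap (Subtype.val : {v : V // v ≠ p ∧ v ≠ l ∧ ∀ k, v ≠ n k} → V))
      {v | ∀ k, v ≠ τ k (!b k)}) →g (Reg G {v | v ≠ p ∧ v ≠ l ∧ (∀ k, v ≠ n (e k)) ∧
        ∀ k, v ≠ (τ (e k) (!b (e k)) : V)}) :=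
    { toFun := Subtype.val
      map_rel' := by
        rintro u v ⟨hadj, hu, hv⟩
        refine ⟨hadj, ⟨u.2.1, u.2.2.1, fun k => u.2.2.2 (e k), fun k h => hu (e k) (Subtype.ext h)⟩,
          ⟨v.2.1, v.2.2.1, fun k => v.2.2.2 (e k), fun k h => hv (e k) (Subtype.ext h)⟩⟩ }
  exact h1.map f

/-- Take the star of `p`, the graph `H` of `tsys_of_cut`, a connected transversal `b` (`exists_connB`) and a flip `i` (`flip_connB`).
Relabel: `x' k = τ k (b k)`, `y' k = τ k (!b k)` and permute the index set so that `i` becomes `2`. -/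
theorem graph_lemma {G : SimpleGraph V} {cls : V → Bool} (hG : Cubic G cls)
    (hcut : ∀ X : Finset V, 2 ≤ X.card → 2 ≤ Xᶜ.card → 4 ≤ cut G X) {p l : V} (hc : cls p ≠ cls l)
    (hpl : ¬ G.Adj p l) : GoodPair G p l := by
  obtain ⟨n, x, y, hs⟩ := exists_star hG p
  obtain ⟨hcn, hcx, hcy⟩ := hs.cls_n hG
  have hx : ∀ k, x k ≠ p ∧ x k ≠ l ∧ ∀ j, x k ≠ n j := fun k =>
    ⟨hs.xp k, fun h => hc (by rw [← hcx k, h]), fun j h => hcn j (by rw [← h, hcx k])⟩
  have hy : ∀ k, y k ≠ p ∧ y k ≠ l ∧ ∀ j, y k ≠ n j := fun k =>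
    ⟨hs.yp k, fun h => hc (by rw [← hcy k, h]), fun j h => hcn j (by rw [← h, hcy k])⟩
  let τ : Fin 3 → Bool → {v : V // v ≠ p ∧ v ≠ l ∧ ∀ k, v ≠ n k} := fun k a =>
    cond a ⟨y k, hy k⟩ ⟨x k, hx k⟩
  have hτf : ∀ k, (τ k false : V) = x k := fun k => rfl
  have hτt : ∀ k, (τ k true : V) = y k := fun k => rfl
  have hT := tsys_of_cut hG hcut hc hpl hs τ hτf hτt
  obtain ⟨b, hb⟩ := exists_connB hT
  obtain ⟨i, hi⟩ := flip_connB hT b hb
  let e : Equiv.Perm (Fin 3) := Equiv.swap 2 i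
  have he2 : e 2 = i := Equiv.swap_apply_left 2 i
  have hek : ∀ k, k ≠ 2 → e k ≠ i := fun k hk h => hk (e.injective (h.trans he2.symm))
  refine ⟨fun k => n (e k), fun k => (τ (e k) (b (e k)) : V), fun k => (τ (e k) (!b (e k)) : V),
    ?_, glem_conn τ e b hb, ?_⟩
  · refine ⟨?_, ?_, ?_, ?_, ?_, ?_⟩
    · intro v
      rw [hs.nbp]
      constructor
      · rintro ⟨k, hk⟩
        exact ⟨e.symm k, by rw [Equiv.apply_symm_apply]; exact hk⟩
      · rintro ⟨k, hk⟩
        exact ⟨e k, hk⟩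
    · intro k v
      show G.Adj (n (e k)) v ↔ v = p ∨ v = (τ (e k) (b (e k)) : V) ∨ v = (τ (e k) (!b (e k)) : V)
      rw [hs.nbn]
      cases b (e k)
      · exact Iff.rfl
      · exact ⟨fun h => h.imp_right Or.symm, fun h => h.imp_right Or.symm⟩
    · exact hs.ninj.comp e.injective
    · intro k
      exact (τ (e k) (b (e k))).2.1
    · intro k
      exact (τ (e k) (!b (e k))).2.1
    · intro k h
      have h1 := (hT.inj _ _ _ _ (Subtype.ext h)).2
      revert h1
      cases b (e k) <;> simp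
  · have h2 := glem_conn τ e _ hi
    convert h2 using 1
    · funext k
      by_cases hk : k = 2
      · subst hk
        rw [Function.update_self, he2, Function.update_self]
        show (τ (e 2) (!b (e 2)) : V) = _
        rw [he2]
      · rw [Function.update_of_ne hk, Function.update_of_ne (hek k hk)]
    · funext k
      by_cases hk : k = 2
      · subst hk
        rw [Function.update_self, he2, Function.update_self, Bool.not_not]
        show (τ (e 2) (b (e 2)) : V) = _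
        rw [he2]
      · rw [Function.update_of_ne hk, Function.update_of_ne (hek k hk)]

end Pool.Agent.NCfg
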