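import Pool.Agent.Lib.MP_372a40_co.Trans

/-! # STAR: the second neighbourhood of a vertex -/

open Finset

set_option linter.unusedSectionVars false
set_option linter.unusedVariables false

namespace Pool.Agent.NCfg

variable {V : Type} [Fintype V] [DecidableEq V]

/-- Existence of the second neighbourhood data. -/
theorem exists_star {G : SimpleGraph V} {cls : V → Bool} (hG : Cubic G cls) (p : V) :
    ∃ n x y : Fin 3 → V, IsStar G p n x y := by
  have e := Finset.equivFinOfCardEq (hG.deg p)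
  let n : Fin 3 → V := fun k => (e.symm k : V)
  have hn : ∀ v, G.Adj p v ↔ ∃ k, v = n k := by
    intro v
    constructor
    · intro h
      refine ⟨e ⟨v, mem_nb.2 h⟩, ?_⟩
      simp [n]
    · rintro ⟨k, rfl⟩
      exact mem_nb.1 (e.symm k).2
  have hninj : Function.Injective n := by
    intro a b hab
    exact e.symm.injective (Subtype.ext hab)
  have key : ∀ k, ∃ a b, a ≠ b ∧ (nb G (n k)).erase p = {a, b} := by
    intro k
    have hp : p ∈ nb G (n k) := mem_nb.2 ((hn (n k)).2 ⟨k, rfl⟩).symm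
    have hc : ((nb G (n k)).erase p).card = 2 := by
      rw [Finset.card_erase_of_mem hp, hG.deg]
    exact Finset.card_eq_two.1 hc
  choose x y hxy hE using key
  have hx : ∀ k, x k ∈ (nb G (n k)).erase p := by
    intro k
    rw [hE k]
    simp
  have hy : ∀ k, y k ∈ (nb G (n k)).erase p := by
    intro k
    rw [hE k]
    simp
  refine ⟨n, x, y, hn, ?_, hninj, ?_, ?_, hxy⟩
  · intro k v
    constructor
    · intro h
      by_cases hv : v = p
      · exact Or.inl hv
      · right
        have h1 : v ∈ (nb G (n k)).erase p := Finset.mem_erase.2 ⟨hv, mem_nb.2 h⟩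
        rw [hE k] at h1
        simpa using h1
    · rintro (rfl | rfl | rfl)
      · exact ((hn (n k)).2 ⟨k, rfl⟩).symm
      · exact mem_nb.1 (Finset.mem_erase.1 (hx k)).2
      · exact mem_nb.1 (Finset.mem_erase.1 (hy k)).2
  · intro k
    exact (Finset.mem_erase.1 (hx k)).1
  · intro k
    exact (Finset.mem_erase.1 (hy k)).1

private theorem star_common {G : SimpleGraph V} {cls : V → Bool} (hG : Cubic G cls) {p : V}
    {n x y : Fin 3 → V} (hs : IsStar G p n x y) {u : V} (hu : u ≠ p) {i j : Fin 3}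
    (h1 : G.Adj (n i) u) (h2 : G.Adj (n j) u) : i = j :=
  hs.ninj (hG.no4 p u hu.symm (n i) (n j) ((hs.nbp _).2 ⟨i, rfl⟩) h1.symm
    ((hs.nbp _).2 ⟨j, rfl⟩) h2.symm)

/-- The six vertices at distance two are distinct. -/
theorem IsStar.distinct {G : SimpleGraph V} {cls : V → Bool} (hG : Cubic G cls) {p : V} {n x y : Fin 3 → V}
    (hs : IsStar G p n x y) :
    (∀ i j, x i = x j → i = j) ∧ (∀ i j, y i = y j → i = j) ∧ (∀ i j, x i ≠ y j) := by
  have hx : ∀ k, G.Adj (n k) (x k) := fun k => (hs.nbn k _).2 (Or.inr (Or.inl rfl))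
  have hy : ∀ k, G.Adj (n k) (y k) := fun k => (hs.nbn k _).2 (Or.inr (Or.inr rfl))
  refine ⟨?_, ?_, ?_⟩
  · intro i j h
    exact star_common hG hs (hs.xp i) (hx i) (h ▸ hx j)
  · intro i j h
    exact star_common hG hs (hs.yp i) (hy i) (h ▸ hy j)
  · intro i j h
    have hij : i = j := star_common hG hs (hs.xp i) (hx i) (h ▸ hy j)
    subst hij
    exact hs.xy i h

/-- Classes. -/
theorem IsStar.cls_n {G : SimpleGraph V} {cls : V → Bool} (hG : Cubic G cls) {p : V} {n x y : Fin 3 → V}
    (hs : IsStar G p n x y) : (∀ k, cls (n k) ≠ cls p) ∧ (∀ k, cls (x k) = cls p) ∧ (∀ k, cls (y k) = cls p) := by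
  have h0 : ∀ k, cls (n k) ≠ cls p := fun k => (hG.bip p (n k) ((hs.nbp _).2 ⟨k, rfl⟩)).symm
  have h1 : ∀ k u, G.Adj (n k) u → cls u = cls p := by
    intro k u hu
    have h2 := hG.bip (n k) u hu
    have h3 := h0 k
    cases h4 : cls (n k) <;> cases h5 : cls u <;> cases h6 : cls p <;> simp_all
  exact ⟨h0, fun k => h1 k _ ((hs.nbn k _).2 (Or.inr (Or.inl rfl))),
    fun k => h1 k _ ((hs.nbn k _).2 (Or.inr (Or.inr rfl)))⟩

end Pool.Agent.NCfg
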