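import Pool.Agent.Lib.MP_372a40_co.Geodesic
import Pool.Agent.Lib.MP_372a40_co.Star

/-! # TRIPOD: from a connected transversal to arms (notes 2.5) -/

open Finset

set_option linter.unusedSectionVars false
set_option linter.unusedVariables false

namespace Pool.Agent.NCfg

variable {V : Type} [Fintype V] [DecidableEq V]

private theorem tri_fin3 {C : Fin 3 → Prop} (h0 : C 0) (h1 : C 1) (h2 : C 2) : ∀ k, C k := by
  intro k; fin_cases k <;> assumption

private theorem tri_third {G : SimpleGraph V} {cls : V → Bool} (hG : Cubic G cls) {u a b : V} (ha : G.Adj u a)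
    (hb : G.Adj u b) (hab : a ≠ b) :
    ∃ m, G.Adj u m ∧ m ≠ a ∧ m ≠ b ∧ ∀ v, G.Adj u v → v = a ∨ v = b ∨ v = m := by
  classical
  have h3 := hG.deg u
  have hs : ({a, b} : Finset V) ⊆ nb G u := by
    intro v hv
    simp only [mem_insert, mem_singleton] at hv
    rcases hv with rfl | rfl
    · exact mem_nb.mpr ha
    · exact mem_nb.mpr hb
  have h1 : (nb G u \ {a, b}).card = 1 := by
    rw [Finset.card_sdiff_of_subset hs, h3, Finset.card_pair hab]
  obtain ⟨m, hm⟩ := Finset.card_eq_one.mp h1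
  have hm' : m ∈ nb G u \ {a, b} := by rw [hm]; simp
  simp only [mem_sdiff, mem_nb, mem_insert, mem_singleton, not_or] at hm'
  refine ⟨m, hm'.1, hm'.2.1, hm'.2.2, ?_⟩
  intro v hv
  by_contra hcon
  push Not at hcon
  have : v ∈ nb G u \ {a, b} := by
    simp only [mem_sdiff, mem_nb, mem_insert, mem_singleton, not_or]
    exact ⟨hv, hcon.1, hcon.2.1⟩
  rw [hm, mem_singleton] at this
  exact hcon.2.2 this

/-- From a connected transversal to arms. -/
theorem exists_arms {G : SimpleGraph V} {cls : V → Bool} (hG : Cubic G cls) {p l : V} {n x y : Fin 3 → V}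
    (hs : IsStar G p n x y) (hc : cls p ≠ cls l) (hpl : ¬ G.Adj p l) (hconn : ConnT G p l n x y) :
    ∃ w, ∃ S : Arms G p w, (∀ k, S.v k 1 = n k) ∧ (∀ k, S.m k 1 = y k) ∧
      (∀ k j, j ≤ S.r k + 1 → S.v k j ≠ l) := by
  classical
  obtain ⟨dx, dy, dxy⟩ := hs.distinct hG
  obtain ⟨cn, cx, cy⟩ := hs.cls_n hG
  have hpn : ∀ k, G.Adj p (n k) := fun k => (hs.nbp _).mpr ⟨k, rfl⟩
  have hnx : ∀ k, G.Adj (n k) (x k) := fun k => (hs.nbn _ _).mpr (Or.inr (Or.inl rfl))
  have hny : ∀ k, G.Adj (n k) (y k) := fun k => (hs.nbn _ _).mpr (Or.inr (Or.inr rfl))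
  set A : Set V := {v | v ≠ p ∧ v ≠ l ∧ ∀ k, v ≠ y k} with hA
  set Γ : SimpleGraph V := Reg G A with hΓ
  have hΓG : ∀ {u v}, Γ.Adj u v → G.Adj u v := fun h => h.1
  have hΓA : ∀ {u v}, Γ.Adj u v → v ∈ A := fun h => h.2.2
  have hnA : ∀ k, n k ∈ A := by
    intro k
    refine ⟨?_, ?_, ?_⟩
    · intro h; exact cn k (by rw [h])
    · intro h; exact hpl (by rw [← h]; exact hpn k)
    · intro j h; exact cn k (by rw [h]; exact cy j)
  have hxA : ∀ k, x k ∈ A := by
    intro k
    refine ⟨hs.xp k, ?_, ?_⟩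
    · intro h; exact hc (by rw [← h]; exact (cx k).symm)
    · intro j; exact dxy k j
  have F1 : ∀ k v, Γ.Adj (n k) v → v = x k := by
    intro k v h
    rcases (hs.nbn k v).mp (hΓG h) with h' | h' | h'
    · exact absurd h' (hΓA h).1
    · exact h'
    · exact absurd h' ((hΓA h).2.2 k)
  have F1' : ∀ k, Γ.Adj (n k) (x k) := fun k => ⟨hnx k, hnA k, hxA k⟩
  have hsub : {v | v ≠ p ∧ v ≠ l ∧ (∀ k, v ≠ n k) ∧ ∀ k, v ≠ y k} ⊆ A := by
    rintro v ⟨h1, h2, _, h4⟩
    exact ⟨h1, h2, h4⟩
  have F2 : ∀ i j, Γ.Reachable (n i) (n j) := by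
    intro i j
    exact ((F1' i).reachable.trans ((hconn i j).mono (reg_mono hsub))).trans (F1' j).symm.reachable
  -- the path P
  obtain ⟨M0, P, P0, PM, Plt, Padj, Pinj, Pch, -, P2⟩ := exists_geodesic Γ (n 0) {n 1} ⟨n 1, rfl, F2 0 1⟩
  have PM' : P M0 = n 1 := PM
  have hM0 : 0 < M0 := by
    rcases Nat.eq_zero_or_pos M0 with h | h
    · rw [h, P0] at PM'
      exact absurd (hs.ninj PM') (by decide)
    · exact h
  have PA : ∀ i, i ≤ M0 → P i ∈ A := by
    intro i hi
    rcases Nat.eq_zero_or_pos i with h | h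
    · rw [h, P0]; exact hnA 0
    · obtain ⟨j, rfl⟩ : ∃ j, i = j + 1 := ⟨i - 1, by omega⟩
      exact hΓA (Padj j (by omega))
  have Pinj' : ∀ i j, i ≤ M0 → j ≤ M0 → P i = P j → i = j := by
    intro i j hi hj h
    rcases Nat.lt_trichotomy i j with h' | h' | h'
    · exact absurd h (Pinj i j h' hj)
    · exact h'
    · exact absurd h.symm (Pinj j i h' hi)
  have Pin : ∀ i, 0 < i → i < M0 → ∀ k, P i ≠ n k := by
    intro i h1 h2 k h
    have e1 := F1 k (P (i + 1)) (by rw [← h]; exact Padj i h2)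
    have e2 := F1 k (P (i - 1)) (by
      have := Padj (i - 1) (by omega)
      rw [show i - 1 + 1 = i by omega, h] at this
      exact this.symm)
    have := Pinj' (i + 1) (i - 1) (by omega) (by omega) (e1.trans e2.symm)
    omega
  -- the walk Q
  obtain ⟨M1, Q, Q0, QM, Qlt, Qadj, Qinj, Qch, Qb, -⟩ :=
    exists_geodesic Γ (n 2) {v | ∃ i, i ≤ M0 ∧ v = P i} ⟨n 0, ⟨0, by omega, P0.symm⟩, F2 2 0⟩
  obtain ⟨i0, hi0, QM'⟩ := QM
  have hM1 : 0 < M1 := by
    rcases Nat.eq_zero_or_pos M1 with h | h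
    · exfalso
      rw [h, Q0] at QM'
      rcases Nat.eq_zero_or_pos i0 with h0 | h0
      · rw [h0, P0] at QM'
        exact absurd (hs.ninj QM') (by decide)
      · by_cases h1 : i0 = M0
        · rw [h1, PM'] at QM'
          exact absurd (hs.ninj QM') (by decide)
        · exact Pin i0 h0 (by omega) 2 QM'.symm
    · exact h
  have QA : ∀ i, i ≤ M1 → Q i ∈ A := by
    intro i hi
    rcases Nat.eq_zero_or_pos i with h | h
    · rw [h, Q0]; exact hnA 2
    · obtain ⟨j, rfl⟩ : ∃ j, i = j + 1 := ⟨i - 1, by omega⟩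
      exact hΓA (Qadj j (by omega))
  have Qinj' : ∀ i j, i ≤ M1 → j ≤ M1 → Q i = Q j → i = j := by
    intro i j hi hj h
    rcases Nat.lt_trichotomy i j with h' | h' | h'
    · exact absurd h (Qinj i j h' hj)
    · exact h'
    · exact absurd h.symm (Qinj j i h' hi)
  have QP : ∀ a, a < M1 → ∀ i, i ≤ M0 → Q a ≠ P i := fun a ha i hi h => Qlt a ha ⟨i, hi, h⟩
  have Qin : ∀ i, 0 < i → i < M1 → ∀ k, Q i ≠ n k := by
    intro i h1 h2 k h
    have e1 := F1 k (Q (i + 1)) (by rw [← h]; exact Qadj i h2)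
    have e2 := F1 k (Q (i - 1)) (by
      have := Qadj (i - 1) (by omega)
      rw [show i - 1 + 1 = i by omega, h] at this
      exact this.symm)
    have := Qinj' (i + 1) (i - 1) (by omega) (by omega) (e1.trans e2.symm)
    omega
  have Qlast : Γ.Adj (Q (M1 - 1)) (P i0) := by
    have := Qadj (M1 - 1) (by omega)
    rw [show M1 - 1 + 1 = M1 by omega, QM'] at this
    exact this
  have P1x : P 1 = x 0 := F1 0 _ (by have := Padj 0 hM0; rw [P0] at this; exact this)
  have PMx : P (M0 - 1) = x 1 := F1 1 _ (by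
    have := Padj (M0 - 1) (by omega)
    rw [show M0 - 1 + 1 = M0 by omega, PM'] at this
    exact this.symm)
  have hi0pos : 0 < i0 := by
    rcases Nat.eq_zero_or_pos i0 with h | h
    · exfalso
      rw [h, P0] at Qlast
      have := F1 0 _ Qlast.symm
      exact QP (M1 - 1) (by omega) 1 (by omega) (this.trans P1x.symm)
    · exact h
  have hi0lt : i0 < M0 := by
    rcases Nat.lt_or_ge i0 M0 with h | h
    · exact h
    · exfalso
      have h' : i0 = M0 := by omega
      rw [h', PM'] at Qlast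
      have := F1 1 _ Qlast.symm
      exact QP (M1 - 1) (by omega) (M0 - 1) (by omega) (this.trans PMx.symm)
  -- adjacency in `G` of vertices of `A`
  have toΓ : ∀ {u v}, G.Adj u v → u ∈ A → v ∈ A → Γ.Adj u v := fun h h1 h2 => ⟨h, h1, h2⟩
  -- the key fact
  have K : ∀ a, a < M1 → ∀ i, i ≤ M0 → G.Adj (Q a) (P i) → a + 1 = M1 ∧ i = i0 := by
    intro a ha i hi h
    have hΓ1 : Γ.Adj (Q a) (P i) := toΓ h (QA a (by omega)) (PA i hi)
    have h1 := Qb a (by omega) (P i) ⟨i, hi, rfl⟩ hΓ1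
    have ha' : a + 1 = M1 := by omega
    refine ⟨ha', ?_⟩
    by_contra hne
    have ha'' : M1 - 1 = a := by omega
    rw [ha''] at Qlast
    have b1 := P2 i i0 (Q a) hi hi0 hΓ1.symm Qlast
    have b2 := P2 i0 i (Q a) hi0 hi Qlast.symm hΓ1
    have c1 := hG.bip _ _ h
    have c2 := hG.bip _ _ (hΓG Qlast)
    have cc : cls (P i) = cls (P i0) := by
      revert c1 c2; cases cls (Q a) <;> cases cls (P i) <;> cases cls (P i0) <;> simp
    have nadj : ¬ G.Adj (P i) (P i0) := fun h => hG.bip _ _ h cc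
    have adjP : ∀ j, j < M0 → G.Adj (P j) (P (j + 1)) := fun j hj => hΓG (Padj j hj)
    rcases Nat.lt_or_ge i i0 with hlt | hge
    · have : i0 = i + 2 := by
        rcases Nat.lt_or_ge i0 (i + 2) with h' | h'
        · exfalso
          have : i0 = i + 1 := by omega
          exact nadj (by rw [this]; exact adjP i (by omega))
        · omega
      have e := hG.no4 (P i) (P i0) (fun h => hne (Pinj' _ _ hi hi0 h)) (Q a) (P (i + 1)) h.symm (hΓG Qlast).symm
        (adjP i (by omega)) (by rw [this]; exact (adjP (i + 1) (by omega)).symm)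
      exact QP a ha (i + 1) (by omega) e
    · have : i = i0 + 2 := by
        rcases Nat.lt_or_ge i (i0 + 2) with h' | h'
        · exfalso
          have : i = i0 + 1 := by omega
          exact nadj (by rw [this]; exact (adjP i0 (by omega)).symm)
        · omega
      have e := hG.no4 (P i) (P i0) (fun h => hne (Pinj' _ _ hi hi0 h)) (Q a) (P (i0 + 1)) h.symm (hΓG Qlast).symm
        (by rw [this]; exact (adjP (i0 + 1) (by omega)).symm) (adjP i0 (by omega))
      exact QP a ha (i0 + 1) (by omega) e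
  have adjP : ∀ j, j < M0 → G.Adj (P j) (P (j + 1)) := fun j hj => hΓG (Padj j hj)
  have adjQ : ∀ j, j < M1 → G.Adj (Q j) (Q (j + 1)) := fun j hj => hΓG (Qadj j hj)
  have Pnp : ∀ i, 0 < i → i < M0 → ¬ G.Adj (P i) p := by
    intro i h1 h2 h
    obtain ⟨k, hk⟩ := (hs.nbp _).mp h.symm
    exact Pin i h1 h2 k hk
  have Qnp : ∀ i, 0 < i → i < M1 → ¬ G.Adj (Q i) p := by
    intro i h1 h2 h
    obtain ⟨k, hk⟩ := (hs.nbp _).mp h.symm
    exact Qin i h1 h2 k hk
  have Pnep : ∀ i, i ≤ M0 → P i ≠ p := fun i hi => (PA i hi).1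
  have Qnep : ∀ i, i ≤ M1 → Q i ≠ p := fun i hi => (QA i hi).1
  -- the arms
  let r : Fin 3 → ℕ := ![i0, M0 - i0, M1]
  let v : Fin 3 → ℕ → V := fun k j =>
    Nat.casesOn j p (fun t => (![P, fun t => P (M0 - t), Q] : Fin 3 → ℕ → V) k t)
  have r0 : r 0 = i0 := rfl
  have r1 : r 1 = M0 - i0 := rfl
  have r2 : r 2 = M1 := rfl
  have vz : ∀ k, v k 0 = p := fun k => rfl
  have v0s : ∀ t, v 0 (t + 1) = P t := fun t => rfl
  have v1s : ∀ t, v 1 (t + 1) = P (M0 - t) := fun t => rfl
  have v2s : ∀ t, v 2 (t + 1) = Q t := fun t => rfl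
  have vone : ∀ k, v k 1 = n k := by
    refine tri_fin3 ?_ ?_ ?_
    · exact P0
    · exact PM'
    · exact Q0
  have hr : ∀ k, 1 ≤ r k := by
    refine tri_fin3 ?_ ?_ ?_
    · exact hi0pos
    · rw [r1]; omega
    · exact hM1
  have vw : ∀ k, v k (r k + 1) = P i0 := by
    refine tri_fin3 ?_ ?_ ?_
    · exact rfl
    · rw [r1, v1s]; congr 1; omega
    · exact QM'
  have Z : ∀ k j, j ≤ r k + 1 → v k j = p ∨ (∃ i, i ≤ M0 ∧ v k j = P i) ∨ (∃ b, b < M1 ∧ v k j = Q b) := by
    intro k j hj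
    rcases Nat.eq_zero_or_pos j with h | h
    · left; rw [h]; exact vz k
    · obtain ⟨t, rfl⟩ : ∃ t, j = t + 1 := ⟨j - 1, by omega⟩
      right
      have ht : t ≤ r k := by omega
      revert ht
      refine tri_fin3 (C := fun k => t ≤ r k → ((∃ i, i ≤ M0 ∧ v k (t + 1) = P i) ∨ (∃ b, b < M1 ∧ v k (t + 1) = Q b)))
        ?_ ?_ ?_ k
      · intro ht
        rw [r0] at ht
        exact Or.inl ⟨t, by omega, rfl⟩
      · intro ht
        exact Or.inl ⟨M0 - t, by omega, rfl⟩
      · intro ht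
        rw [r2] at ht
        rcases Nat.lt_or_ge t M1 with h' | h'
        · exact Or.inr ⟨t, h', rfl⟩
        · have : t = M1 := by omega
          left
          exact ⟨i0, hi0, by rw [this]; exact QM'⟩
  have adj : ∀ k j, j ≤ r k → G.Adj (v k j) (v k (j + 1)) := by
    intro k j hj
    rcases Nat.eq_zero_or_pos j with h | h
    · rw [h, vz]
      show G.Adj p (v k 1)
      rw [vone]; exact hpn k
    · obtain ⟨t, rfl⟩ : ∃ t, j = t + 1 := ⟨j - 1, by omega⟩
      have ht : t < r k := by omega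
      revert ht
      refine tri_fin3 (C := fun k => t < r k → G.Adj (v k (t + 1)) (v k (t + 1 + 1))) ?_ ?_ ?_ k
      · intro ht
        rw [r0] at ht
        exact adjP t (by omega)
      · intro ht
        rw [r1] at ht
        rw [v1s, v1s]
        have := adjP (M0 - (t + 1)) (by omega)
        rw [show M0 - (t + 1) + 1 = M0 - t by omega] at this
        exact this.symm
      · intro ht
        rw [r2] at ht
        exact adjQ t ht
  -- the two neighbours on the arm are different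
  have hne2 : ∀ k j, 1 ≤ j → j ≤ r k → v k (j - 1) ≠ v k (j + 1) := by
    intro k j hj1 hj
    obtain ⟨t, rfl⟩ : ∃ t, j = t + 1 := ⟨j - 1, by omega⟩
    rw [show t + 1 - 1 = t by omega]
    have ht : t < r k := by omega
    revert ht
    rcases Nat.eq_zero_or_pos t with h | h
    · subst h
      refine tri_fin3 (C := fun k => 0 < r k → v k 0 ≠ v k (0 + 1 + 1)) ?_ ?_ ?_ k
      · intro ht
        exact (Pnep 1 (by omega)).symm
      · intro ht
        exact (Pnep (M0 - 1) (by omega)).symm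
      · intro ht
        exact (Qnep 1 (by omega)).symm
    · obtain ⟨q, rfl⟩ : ∃ q, t = q + 1 := ⟨t - 1, by omega⟩
      refine tri_fin3 (C := fun k => q + 1 < r k → v k (q + 1) ≠ v k (q + 1 + 1 + 1)) ?_ ?_ ?_ k
      · intro ht h'
        rw [r0] at ht
        have := Pinj' q (q + 1 + 1) (by omega) (by omega) h'
        omega
      · intro ht h'
        rw [r1] at ht
        have := Pinj' (M0 - q) (M0 - (q + 1 + 1)) (by omega) (by omega) h'
        omega
      · intro ht h'
        rw [r2] at ht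
        have := Qinj' q (q + 1 + 1) (by omega) (by omega) h'
        omega
  have hm : ∀ k j, ∃ m, 1 ≤ j → j ≤ r k → G.Adj (v k j) m ∧ m ≠ v k (j - 1) ∧ m ≠ v k (j + 1) ∧
      ∀ u, G.Adj (v k j) u → u = v k (j - 1) ∨ u = v k (j + 1) ∨ u = m := by
    intro k j
    by_cases hj : 1 ≤ j ∧ j ≤ r k
    · obtain ⟨m, h1, h2, h3, h4⟩ := tri_third hG (u := v k j) (a := v k (j - 1)) (b := v k (j + 1))
        (by
          have := adj k (j - 1) (by omega)
          rw [show j - 1 + 1 = j by omega] at this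
          exact this.symm) (adj k j hj.2) (hne2 k j hj.1 hj.2)
      exact ⟨m, fun _ _ => ⟨h1, h2, h3, h4⟩⟩
    · exact ⟨p, fun h1 h2 => absurd ⟨h1, h2⟩ hj⟩
  choose m hm using hm
  -- `m` is off the arms
  have mout : ∀ k j, 1 ≤ j → j ≤ r k → ∀ k' j', j' ≤ r k' + 1 → m k j ≠ v k' j' := by
    intro k j hj1 hj k' j' hj' heq
    obtain ⟨h1, h2, h3, -⟩ := hm k j hj1 hj
    have hZ := Z k' j' hj'
    rw [← heq] at hZ
    generalize m k j = z at h1 h2 h3 hZ
    clear heq
    obtain ⟨t, rfl⟩ : ∃ t, j = t + 1 := ⟨j - 1, by omega⟩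
    rw [show t + 1 - 1 = t by omega] at h2
    have ht : t < r k := by omega
    revert ht h1 h2 h3
    refine tri_fin3 (C := fun k => G.Adj (v k (t + 1)) z → z ≠ v k t → z ≠ v k (t + 1 + 1) → t < r k → False) ?_ ?_ ?_ k
    · intro h1 h2 h3 ht
      rw [r0] at ht
      rw [v0s] at h1 h3
      rcases hZ with h | ⟨i, hi, h⟩ | ⟨b, hb, h⟩
      · rcases Nat.eq_zero_or_pos t with h' | h'
        · exact h2 (by rw [h, h', vz])
        · exact Pnp t h' (by omega) (by rw [← h]; exact h1)
      · rw [h] at h1 h2 h3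
        rcases Pch t i (by omega) hi (toΓ h1 (PA t (by omega)) (PA i hi)) with h' | h'
        · apply h2; rw [h', v0s]
        · apply h3; rw [h']
      · rw [h] at h1
        have := (K b hb t (by omega) h1.symm).2
        omega
    · intro h1 h2 h3 ht
      rw [r1] at ht
      rw [v1s] at h1 h3
      rcases hZ with h | ⟨i, hi, h⟩ | ⟨b, hb, h⟩
      · rcases Nat.eq_zero_or_pos t with h' | h'
        · exact h2 (by rw [h, h', vz])
        · exact Pnp (M0 - t) (by omega) (by omega) (by rw [← h]; exact h1)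
      · rw [h] at h1 h2 h3
        rcases Pch (M0 - t) i (by omega) hi (toΓ h1 (PA (M0 - t) (by omega)) (PA i hi)) with h' | h'
        · apply h3; congr 1; omega
        · apply h2
          obtain ⟨q, rfl⟩ : ∃ q, t = q + 1 := ⟨t - 1, by omega⟩
          rw [v1s]; congr 1; omega
      · rw [h] at h1
        have := (K b hb (M0 - t) (by omega) h1.symm).2
        omega
    · intro h1 h2 h3 ht
      rw [r2] at ht
      rw [v2s] at h1 h3
      rcases hZ with h | ⟨i, hi, h⟩ | ⟨b, hb, h⟩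
      · rcases Nat.eq_zero_or_pos t with h' | h'
        · exact h2 (by rw [h, h', vz])
        · exact Qnp t h' (by omega) (by rw [← h]; exact h1)
      · rw [h] at h1
        obtain ⟨k1, k2⟩ := K t ht i hi h1
        apply h3
        rw [h, k2, k1, QM']
      · rw [h] at h1 h2 h3
        rcases Qch t b (by omega) (by omega) (toΓ h1 (QA t (by omega)) (QA b (by omega))) with h' | h'
        · apply h2; rw [h', v2s]
        · apply h3; rw [h']
  have vne : ∀ k j, 1 ≤ j → j ≤ r k → v k j ≠ p ∧ v k j ≠ P i0 := by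
    intro k j hj1 hj
    obtain ⟨t, rfl⟩ : ∃ t, j = t + 1 := ⟨j - 1, by omega⟩
    have ht : t < r k := by omega
    revert ht
    refine tri_fin3 (C := fun k => t < r k → v k (t + 1) ≠ p ∧ v k (t + 1) ≠ P i0) ?_ ?_ ?_ k
    · intro ht
      rw [r0] at ht
      refine ⟨Pnep t (by omega), fun h => ?_⟩
      have := Pinj' t i0 (by omega) hi0 h
      omega
    · intro ht
      rw [r1] at ht
      refine ⟨Pnep (M0 - t) (by omega), fun h => ?_⟩
      have := Pinj' (M0 - t) i0 (by omega) hi0 h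
      omega
    · intro ht
      rw [r2] at ht
      exact ⟨Qnep t (by omega), QP t ht i0 hi0⟩
  have inj : ∀ k j k' j', 1 ≤ j → j ≤ r k → 1 ≤ j' → j' ≤ r k' → v k j = v k' j' → k = k' ∧ j = j' := by
    intro k j k' j' hj1 hj hj1' hj'
    obtain ⟨t, rfl⟩ : ∃ t, j = t + 1 := ⟨j - 1, by omega⟩
    obtain ⟨t', rfl⟩ : ∃ t', j' = t' + 1 := ⟨j' - 1, by omega⟩
    have ht : t < r k := by omega
    have ht' : t' < r k' := by omega
    revert ht ht'
    refine tri_fin3 (C := fun k => t < r k → t' < r k' → v k (t + 1) = v k' (t' + 1) → k = k' ∧ t + 1 = t' + 1)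
      ?_ ?_ ?_ k
    · refine tri_fin3 (C := fun k' => t < r 0 → t' < r k' → v 0 (t + 1) = v k' (t' + 1) → 0 = k' ∧ t + 1 = t' + 1)
        ?_ ?_ ?_ k'
      · intro h1 h2 h
        rw [r0] at h1 h2
        have := Pinj' t t' (by omega) (by omega) h
        exact ⟨rfl, by omega⟩
      · intro h1 h2 h
        rw [r0] at h1
        rw [r1] at h2
        have := Pinj' t (M0 - t') (by omega) (by omega) h
        omega
      · intro h1 h2 h
        rw [r0] at h1
        exact absurd h.symm (QP t' h2 t (by omega))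
    · refine tri_fin3 (C := fun k' => t < r 1 → t' < r k' → v 1 (t + 1) = v k' (t' + 1) → 1 = k' ∧ t + 1 = t' + 1)
        ?_ ?_ ?_ k'
      · intro h1 h2 h
        rw [r1] at h1
        rw [r0] at h2
        have := Pinj' (M0 - t) t' (by omega) (by omega) h
        omega
      · intro h1 h2 h
        rw [r1] at h1 h2
        have := Pinj' (M0 - t) (M0 - t') (by omega) (by omega) h
        exact ⟨rfl, by omega⟩
      · intro h1 h2 h
        exact absurd h.symm (QP t' h2 (M0 - t) (by omega))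
    · refine tri_fin3 (C := fun k' => t < r 2 → t' < r k' → v 2 (t + 1) = v k' (t' + 1) → 2 = k' ∧ t + 1 = t' + 1)
        ?_ ?_ ?_ k'
      · intro h1 h2 h
        rw [r0] at h2
        exact absurd h (QP t h1 t' (by omega))
      · intro h1 h2 h
        exact absurd h (QP t h1 (M0 - t') (by omega))
      · intro h1 h2 h
        rw [r2] at h1 h2
        have := Qinj' t t' (by omega) (by omega) h
        exact ⟨rfl, by omega⟩
  have nbw : ∀ u, G.Adj (P i0) u → ∃ k, u = v k (r k) := by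
    intro u hu
    have e0 : v 0 (r 0) = P (i0 - 1) := by
      rw [r0]
      obtain ⟨t, rfl⟩ : ∃ t, i0 = t + 1 := ⟨i0 - 1, by omega⟩
      rfl
    have e1 : v 1 (r 1) = P (i0 + 1) := by
      rw [r1]
      obtain ⟨t, ht⟩ : ∃ t, M0 - i0 = t + 1 := ⟨M0 - i0 - 1, by omega⟩
      rw [ht, v1s]; congr 1; omega
    have e2 : v 2 (r 2) = Q (M1 - 1) := by
      rw [r2]
      obtain ⟨t, rfl⟩ : ∃ t, M1 = t + 1 := ⟨M1 - 1, by omega⟩
      rfl
    have a0 : G.Adj (P i0) (P (i0 - 1)) := by
      have := adjP (i0 - 1) (by omega)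
      rw [show i0 - 1 + 1 = i0 by omega] at this
      exact this.symm
    have a1 : G.Adj (P i0) (P (i0 + 1)) := adjP i0 hi0lt
    have a2 : G.Adj (P i0) (Q (M1 - 1)) := (hΓG Qlast).symm
    have d01 : P (i0 - 1) ≠ P (i0 + 1) := by
      intro h
      have := Pinj' _ _ (by omega) (by omega) h
      omega
    obtain ⟨z, hz1, hz2, hz3, hz4⟩ := tri_third hG a0 a1 d01
    have hzQ : Q (M1 - 1) = z := by
      rcases hz4 _ a2 with h | h | h
      · exact absurd h (QP _ (by omega) _ (by omega))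
      · exact absurd h (QP _ (by omega) _ (by omega))
      · exact h
    rcases hz4 _ hu with h | h | h
    · exact ⟨0, by rw [e0, h]⟩
    · exact ⟨1, by rw [e1, h]⟩
    · exact ⟨2, by rw [e2, hzQ, h]⟩
  have pw : p ≠ P i0 := (Pnep i0 hi0).symm
  have hm1 : ∀ k, m k 1 = y k := by
    intro k
    obtain ⟨h1, h2, h3, -⟩ := hm k 1 le_rfl (hr k)
    rw [vone] at h1
    rcases (hs.nbn k _).mp h1 with h | h | h
    · exact absurd h h2
    · exfalso
      apply h3
      rw [h]
      symm
      apply F1 k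
      have ha := adj k 1 (hr k)
      rw [vone] at ha
      refine toΓ ha (hnA k) ?_
      rcases Z k (1 + 1) (by have := hr k; omega) with h' | ⟨i, hi, h'⟩ | ⟨b, hb, h'⟩
      · exfalso
        exact hne2 k 1 le_rfl (hr k) h'.symm
      · rw [h']; exact PA i hi
      · rw [h']; exact QA b (by omega)
    · exact h
  refine ⟨P i0, ⟨r, v, m, hr, vz, vw, adj, ?_, ?_, mout, inj, vne, pw, ?_, nbw⟩, vone, hm1, ?_⟩
  · intro k j h1 h2 u hu
    exact (hm k j h1 h2).2.2.2 u hu
  · intro k j h1 h2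
    exact (hm k j h1 h2).1
  · intro u hu
    obtain ⟨k, hk⟩ := (hs.nbp u).mp hu
    exact ⟨k, by rw [vone, hk]⟩
  · intro k j hj
    rcases Z k j hj with h | ⟨i, hi, h⟩ | ⟨b, hb, h⟩
    · show v k j ≠ l
      rw [h]; rintro rfl; exact hc rfl
    · show v k j ≠ l
      rw [h]; exact (PA i hi).2.1
    · show v k j ≠ l
      rw [h]; exact (QA b (by omega)).2.1

end Pool.Agent.NCfg
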