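import Pool.Agent.Lib.MP_372a40_co.ThetaLocal
import Pool.Agent.Lib.MP_372a40_co.GraphLemma
import Pool.Agent.Lib.MP_372a40_co.Tripod

/-! # CASEII (notes 2.6) -/

open Matrix Finset Topology

set_option linter.unusedSectionVars false
set_option linter.unusedVariables false

namespace Pool.Agent.NCfg

variable {V : Type} [Fintype V] [DecidableEq V]

/-- both triples of far neighbours cannot be dependent -/
private theorem c2_contra {G : SimpleGraph V} {cls : V → Bool} {X : V → Vec} (hG : Cubic G cls)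
    (hX : HRep G cls X) {p : V} {n x y : Fin 3 → V} (hs : IsStar G p n x y)
    (h1 : X (y 0) ⬝ᵥ (X (y 1) ⨯₃ X (y 2)) = 0) (h2 : X (y 0) ⬝ᵥ (X (y 1) ⨯₃ X (x 2)) = 0) :
    False := by
  have hpn : ∀ k, G.Adj p (n k) := fun k => (hs.nbp _).2 ⟨k, rfl⟩
  have hnp : ∀ k, G.Adj (n k) p := fun k => (hpn k).symm
  have hnx : ∀ k, G.Adj (n k) (x k) := fun k => (hs.nbn k _).2 (Or.inr (Or.inl rfl))
  have hny : ∀ k, G.Adj (n k) (y k) := fun k => (hs.nbn k _).2 (Or.inr (Or.inr rfl))
  have hcls : ∀ {a b c : V}, G.Adj a b → G.Adj a c → cls b = cls c := by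
    intro a b c h1 h2
    have e1 := hG.bip a b h1
    have e2 := hG.bip a c h2
    cases h : cls a <;> cases h' : cls b <;> cases h'' : cls c <;> simp_all
  have hn02 : n 0 ≠ n 2 := fun h => by have := hs.ninj h; simp at this
  have hy01 : y 0 ≠ y 1 := by
    intro h
    have hn01 : n 0 ≠ n 1 := fun h => by have := hs.ninj h; simp at this
    have h3 : G.Adj (n 1) (y 0) := by rw [h]; exact hny 1
    exact hs.yp 0 (hG.no4 (n 0) (n 1) hn01 p (y 0) (hnp 0) (hnp 1) (hny 0) h3).symm
  have hpcls : ∀ k, cls (y k) = cls p := fun k => hcls (hny k) (hnp k)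
  -- the plane of `x 2`, `y 2`
  have hxy := hX.ind (x 2) (y 2) (hs.xy 2) (hcls (hnx 2) (hny 2))
  have hN := hX.ind (y 0) (y 1) hy01 ((hpcls 0).trans (hpcls 1).symm)
  have e1 : (X (y 0) ⨯₃ X (y 1)) ⬝ᵥ X (x 2) = 0 := by
    rw [← h2]
    simp only [cross_apply, vec3_dotProduct, Matrix.cons_val_zero, Matrix.cons_val_one,
      Matrix.cons_val_two, Matrix.head_cons, Matrix.tail_cons, Matrix.cons_val]
    ring
  have e2 : (X (y 0) ⨯₃ X (y 1)) ⬝ᵥ X (y 2) = 0 := by
    rw [← h1]
    simp only [cross_apply, vec3_dotProduct, Matrix.cons_val_zero, Matrix.cons_val_one,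
      Matrix.cons_val_two, Matrix.head_cons, Matrix.tail_cons, Matrix.cons_val]
    ring
  obtain ⟨s, hs'⟩ := eq_smul_cross hxy e1 e2
  obtain ⟨t, ht⟩ := eq_smul_cross hxy (hX.inc _ _ (hnx 2)) (hX.inc _ _ (hny 2))
  have hs0 : s ≠ 0 := by
    rintro rfl
    rw [zero_smul] at hs'
    exact hN hs'
  have e3 : (X (x 2) ⨯₃ X (y 2)) ⬝ᵥ X (y 0) = 0 := by
    have h3 : (X (y 0) ⨯₃ X (y 1)) ⬝ᵥ X (y 0) = 0 := by
      rw [dotProduct_comm]
      exact dot_self_cross _ _
    rw [hs', smul_dotProduct, smul_eq_mul] at h3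
    exact (mul_eq_zero.1 h3).resolve_left hs0
  have e4 : X (n 2) ⬝ᵥ X (y 0) = 0 := by rw [ht, smul_dotProduct, e3, smul_zero]
  have hpy := hX.ind p (y 0) (hs.yp 0).symm (hpcls 0).symm
  obtain ⟨a, ha⟩ := eq_smul_cross hpy (hX.inc _ _ (hnp 2)) e4
  obtain ⟨b, hb⟩ := eq_smul_cross hpy (hX.inc _ _ (hnp 0)) (hX.inc _ _ (hny 0))
  apply hX.ind (n 0) (n 2) hn02 (hcls (hpn 0) (hpn 2))
  rw [ha, hb]
  simp only [map_smul, LinearMap.smul_apply, cross_self, smul_zero]

theorem caseII {G : SimpleGraph V} {cls : V → Bool} (hG : Cubic G cls)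
    (hall : ∀ x, HRep G cls x → ¬ Unstressed G x) {x0 : V → Vec} (hx0 : HRep G cls x0) :
    ∃ x, HRep G cls x ∧ Unw G cls x = ∅ := by
  classical
  -- a representation with the minimal number of unwanted incidences
  have hex : ∃ m : ℕ, ∃ X, HRep G cls X ∧ (Unw G cls X).card = m := ⟨_, x0, hx0, rfl⟩
  obtain ⟨X, hX, hXm⟩ := Nat.find_spec hex
  have hmin : ∀ X', HRep G cls X' → ¬ Unw G cls X' ⊂ Unw G cls X := by
    intro X' hX' hlt
    have h1 := Finset.card_lt_card hlt
    rw [hXm] at h1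
    exact Nat.find_min hex h1 ⟨X', hX', rfl⟩
  refine ⟨X, hX, ?_⟩
  by_contra hne
  obtain ⟨⟨p, l⟩, hpl⟩ := Finset.nonempty_iff_ne_empty.2 hne
  obtain ⟨hp, hl, hnadj, hzero⟩ := mem_Unw.1 hpl
  have hc : cls p ≠ cls l := by rw [hp, hl]; decide
  obtain ⟨n, x, y, hs, hc1, hc2⟩ :=
    graph_lemma hG (fun Y h1 h2 => cut_ge_four hG hX (hall X hX) Y h1 h2) hc hnadj
  have key : ∀ x y : Fin 3 → V, IsStar G p n x y → ConnT G p l n x y →
      X (y 0) ⬝ᵥ (X (y 1) ⨯₃ X (y 2)) = 0 := by
    intro x y hs hconn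
    by_contra hne
    obtain ⟨w, S, -, hm, hlS⟩ := exists_arms hG hs hc hnadj hconn
    obtain ⟨X', hX', hlt⟩ := theta_local hG hall hX S hlS hpl (by rw [hm, hm, hm]; exact hne)
    exact hmin X' hX' hlt
  have hs2 : IsStar G p n (Function.update x 2 (y 2)) (Function.update y 2 (x 2)) := by
    refine ⟨hs.nbp, ?_, hs.ninj, ?_, ?_, ?_⟩
    · intro k v
      by_cases hk : k = 2
      · subst hk
        simp only [Function.update_self]
        rw [hs.nbn 2 v]
        tauto
      · simp only [Function.update_of_ne hk]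
        exact hs.nbn k v
    · intro k
      by_cases hk : k = 2
      · subst hk
        simp only [Function.update_self]
        exact hs.yp 2
      · simp only [Function.update_of_ne hk]
        exact hs.xp k
    · intro k
      by_cases hk : k = 2
      · subst hk
        simp only [Function.update_self]
        exact hs.xp 2
      · simp only [Function.update_of_ne hk]
        exact hs.yp k
    · intro k
      by_cases hk : k = 2
      · subst hk
        simp only [Function.update_self]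
        exact (hs.xy 2).symm
      · simp only [Function.update_of_ne hk]
        exact hs.xy k
  have h1 := key x y hs hc1
  have h2 := key _ _ hs2 hc2
  simp only [Function.update_self, Function.update_of_ne (show (0 : Fin 3) ≠ 2 by decide),
    Function.update_of_ne (show (1 : Fin 3) ≠ 2 by decide)] at h2
  exact c2_contra hG hX hs h1 h2

end Pool.Agent.NCfg
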