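import Mathlib

/-! # Configurations and their representations in the Euclidean plane (statement level definitions) -/

namespace Pool.Agent.NCfg

/-- A combinatorial configuration: every line is incident with exactly 3 points, every point with exactly 3 lines, two distinct
points share at most one line. -/
structure Config (P L : Type) where
  inc : P → L → Prop
  line_three : ∀ l, {p | inc p l}.ncard = 3
  point_three : ∀ p, {l | inc p l}.ncard = 3
  linear : ∀ p q, p ≠ q → ∀ l m, inc p l → inc q l → inc p m → inc q m → l = m

namespace Config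

variable {P L : Type}

/-- The Levi (incidence) graph. -/
def levi (C : Config P L) : SimpleGraph (P ⊕ L) where
  Adj u v := (∃ p l, u = Sum.inl p ∧ v = Sum.inr l ∧ C.inc p l) ∨ (∃ p l, u = Sum.inr l ∧ v = Sum.inl p ∧ C.inc p l)
  symm := ⟨by
    rintro u v (⟨p, l, rfl, rfl, h⟩ | ⟨p, l, rfl, rfl, h⟩)
    · exact Or.inr ⟨p, l, rfl, rfl, h⟩
    · exact Or.inl ⟨p, l, rfl, rfl, h⟩⟩
  loopless := ⟨by
    rintro u (⟨p, l, h1, h2, _⟩ | ⟨p, l, h1, h2, _⟩) <;> simp_all⟩

/-- Connected: the Levi graph is connected. -/
def Connected (C : Config P L) : Prop := C.levi.Connected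

/-- The Euclidean plane. -/
abbrev Plane := EuclideanSpace ℝ (Fin 2)

/-- A representation: distinct points, distinct straight lines, all incidences of `C` hold. -/
structure Rep (C : Config P L) where
  pt : P → Plane
  ln : L → AffineSubspace ℝ Plane
  pt_inj : Function.Injective pt
  ln_inj : Function.Injective ln
  ln_nonempty : ∀ l, ((ln l : Set Plane)).Nonempty
  ln_dim : ∀ l, Module.finrank ℝ (ln l).direction = 1
  inc_mem : ∀ p l, C.inc p l → pt p ∈ ln l

/-- The number of unwanted incidences of a representation. -/
noncomputable def Rep.unwanted {C : Config P L} (R : C.Rep) : ℕ :=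
  {e : P × L | R.pt e.1 ∈ R.ln e.2 ∧ ¬ C.inc e.1 e.2}.ncard

/-- `u(C)`: the least number of unwanted incidences of a representation. -/
noncomputable def u (C : Config P L) : ℕ := sInf (Set.range fun R : C.Rep => R.unwanted)

end Config

/-- There are connected representable configurations `(n₃)` with `n` arbitrarily large and `u(C) ≥ c n`. -/
def Forced (c : ℝ) : Prop :=
  ∀ N : ℕ, ∃ n ≥ N, ∃ C : Config (Fin n) (Fin n), C.Connected ∧ Nonempty C.Rep ∧ c * n ≤ C.u

end Pool.Agent.NCfg
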