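import Mathlib

/-!
# Forced unwanted incidences of (n_3) configurations: definitions

Everything except the last section (the statement level definitions) is about a finite graph `G` on `V` with a
two-colouring `cls : V → Bool` (`true` = point, `false` = line) and a map `x : V → Vec` (homogeneous coordinates).
-/

open Matrix Finset

set_option linter.unusedSectionVars false
set_option linter.unusedVariables false

namespace Pool.Agent.NCfg

/-- Vectors of `ℝ³` (homogeneous coordinates of points and of lines). -/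
abbrev Vec := Fin 3 → ℝ

section Graph

variable {V : Type} [Fintype V] [DecidableEq V]

/-- The finset of neighbours. -/
noncomputable def nb (G : SimpleGraph V) (v : V) : Finset V := by
  classical exact univ.filter (fun w => G.Adj v w)

@[simp] theorem mem_nb {G : SimpleGraph V} {v w : V} : w ∈ nb G v ↔ G.Adj v w := by
  classical simp [nb]

/-- Connected cubic bipartite graph without 4-cycles: the Levi graph of a connected `(n_3)` configuration. -/
structure Cubic (G : SimpleGraph V) (cls : V → Bool) : Prop where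
  bip : ∀ u v, G.Adj u v → cls u ≠ cls v
  deg : ∀ v, (nb G v).card = 3
  no4 : ∀ u v, u ≠ v → ∀ a b, G.Adj u a → G.Adj v a → G.Adj u b → G.Adj v b → a = b
  conn : G.Connected

/-- The vector is that of an affine point (class `true`) / of a line different from the line at infinity (class `false`). -/
def Aff : Bool → Vec → Prop
  | true, x => x 2 ≠ 0
  | false, x => x 0 ≠ 0 ∨ x 1 ≠ 0

/-- `x` is a (homogeneous, affine) representation of the coloured graph. -/
structure HRep (G : SimpleGraph V) (cls : V → Bool) (x : V → Vec) : Prop where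
  inc : ∀ u v, G.Adj u v → x u ⬝ᵥ x v = 0
  ind : ∀ u v, u ≠ v → cls u = cls v → x u ⨯₃ x v ≠ 0
  aff : ∀ v, Aff (cls v) (x v)

/-- The set of unwanted incidences. -/
noncomputable def Unw (G : SimpleGraph V) (cls : V → Bool) (x : V → Vec) : Finset (V × V) := by
  classical exact univ.filter (fun e : V × V =>
    cls e.1 = true ∧ cls e.2 = false ∧ ¬ G.Adj e.1 e.2 ∧ x e.1 ⬝ᵥ x e.2 = 0)

theorem mem_Unw {G : SimpleGraph V} {cls : V → Bool} {x : V → Vec} {p l : V} :
    (p, l) ∈ Unw G cls x ↔ cls p = true ∧ cls l = false ∧ ¬ G.Adj p l ∧ x p ⬝ᵥ x l = 0 := by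
  classical simp [Unw]

/-- `σ` is a self-stress carried by the edges `A`. -/
structure Stress (A : V → V → Prop) (x : V → Vec) (σ : V → V → ℝ) : Prop where
  symm : ∀ u v, σ u v = σ v u
  supp : ∀ u v, σ u v ≠ 0 → A u v
  eq : ∀ u, ∑ v, σ u v • x v = 0

/-- No nonzero stress on the edges of `G`. -/
def Unstressed (G : SimpleGraph V) (x : V → Vec) : Prop :=
  ∀ σ, Stress G.Adj x σ → ∀ u v, σ u v = 0

/-- The edges of `G` together with the pair `{p, l}`. -/
def adde (G : SimpleGraph V) (p l : V) : V → V → Prop :=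
  fun u v => G.Adj u v ∨ (u = p ∧ v = l) ∨ (u = l ∧ v = p)

/-- The vertices carrying the stress. -/
noncomputable def VS (σ : V → V → ℝ) : Finset V := by
  classical exact univ.filter (fun u => ∃ v, σ u v ≠ 0)

@[simp] theorem mem_VS {σ : V → V → ℝ} {u : V} : u ∈ VS σ ↔ ∃ v, σ u v ≠ 0 := by
  classical simp [VS]

/-- The nonzero partners of `u`. -/
noncomputable def sn (σ : V → V → ℝ) (u : V) : Finset V := by
  classical exact univ.filter (fun v => σ u v ≠ 0)

@[simp] theorem mem_sn {σ : V → V → ℝ} {u v : V} : v ∈ sn σ u ↔ σ u v ≠ 0 := by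
  classical simp [sn]

/-- Crossing stressed pairs of a vertex set. -/
noncomputable def crossing (σ : V → V → ℝ) (X : Finset V) : Finset (V × V) := by
  classical exact (X ×ˢ Xᶜ).filter (fun e => σ e.1 e.2 ≠ 0)

theorem mem_crossing {σ : V → V → ℝ} {X : Finset V} {u v : V} :
    (u, v) ∈ crossing σ X ↔ u ∈ X ∧ v ∉ X ∧ σ u v ≠ 0 := by
  classical simp [crossing, and_assoc]

/-- Number of edges leaving `X`. -/
noncomputable def cut (G : SimpleGraph V) (X : Finset V) : ℕ := by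
  classical exact ((X ×ˢ Xᶜ).filter (fun e => G.Adj e.1 e.2)).card

/-- The graph `G` restricted to the vertices of `A` (on the same vertex type). -/
def Reg {W : Type} (G : SimpleGraph W) (A : Set W) : SimpleGraph W where
  Adj u v := G.Adj u v ∧ u ∈ A ∧ v ∈ A
  symm := ⟨fun _ _ h => ⟨h.1.symm, h.2.2, h.2.1⟩⟩
  loopless := ⟨fun u h => G.loopless.irrefl u h.1⟩

theorem reg_adj {W : Type} {G : SimpleGraph W} {A : Set W} {u v : W} :
    (Reg G A).Adj u v ↔ G.Adj u v ∧ u ∈ A ∧ v ∈ A := Iff.rfl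

theorem reg_mono {W : Type} {G : SimpleGraph W} {A B : Set W} (h : A ⊆ B) : Reg G A ≤ Reg G B :=
  fun _ _ hab => ⟨hab.1, h hab.2.1, h hab.2.2⟩

/-- The neighbourhood of radius two of `p`: the neighbours of `p` are the `n k`, the neighbours of `n k` are `p, x k, y k`. -/
structure IsStar (G : SimpleGraph V) (p : V) (n x y : Fin 3 → V) : Prop where
  nbp : ∀ v, G.Adj p v ↔ ∃ k, v = n k
  nbn : ∀ k v, G.Adj (n k) v ↔ v = p ∨ v = x k ∨ v = y k
  ninj : Function.Injective n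
  xp : ∀ k, x k ≠ p
  yp : ∀ k, y k ≠ p
  xy : ∀ k, x k ≠ y k

/-- The transversal `x` is connected for `p`, avoiding `l`. -/
def ConnT (G : SimpleGraph V) (p l : V) (n x y : Fin 3 → V) : Prop :=
  ∀ i j, (Reg G {v | v ≠ p ∧ v ≠ l ∧ (∀ k, v ≠ n k) ∧ ∀ k, v ≠ y k}).Reachable (x i) (x j)

/-- Two connected transversals for `p` avoiding `l` that differ exactly at the index `2`. -/
def GoodPair (G : SimpleGraph V) (p l : V) : Prop :=
  ∃ n x y : Fin 3 → V, IsStar G p n x y ∧ ConnT G p l n x y ∧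
    ConnT G p l n (Function.update x 2 (y 2)) (Function.update y 2 (x 2))

/-- Three internally disjoint induced paths (arms) from `p` to `w`:
`v k 0 = p, v k 1, ..., v k (r k), v k (r k + 1) = w`; `m k j` is the third neighbour of `v k j`. -/
structure Arms (G : SimpleGraph V) (p w : V) where
  r : Fin 3 → ℕ
  v : Fin 3 → ℕ → V
  m : Fin 3 → ℕ → V
  hr : ∀ k, 1 ≤ r k
  v0 : ∀ k, v k 0 = p
  vw : ∀ k, v k (r k + 1) = w
  adj : ∀ k j, j ≤ r k → G.Adj (v k j) (v k (j + 1))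
  nbv : ∀ k j, 1 ≤ j → j ≤ r k → ∀ u, G.Adj (v k j) u → u = v k (j - 1) ∨ u = v k (j + 1) ∨ u = m k j
  moff : ∀ k j, 1 ≤ j → j ≤ r k → G.Adj (v k j) (m k j)
  mout : ∀ k j, 1 ≤ j → j ≤ r k → ∀ k' j', j' ≤ r k' + 1 → m k j ≠ v k' j'
  inj : ∀ k j k' j', 1 ≤ j → j ≤ r k → 1 ≤ j' → j' ≤ r k' → v k j = v k' j' → k = k' ∧ j = j'
  vne : ∀ k j, 1 ≤ j → j ≤ r k → v k j ≠ p ∧ v k j ≠ w
  pw : p ≠ w
  nbp : ∀ u, G.Adj p u → ∃ k, u = v k 1
  nbw : ∀ u, G.Adj w u → ∃ k, u = v k (r k)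

end Graph

/-- The cubic form `det (A₀ q, A₁ q, A₂ q)`. -/
def Fdet (A : Fin 3 → (Vec →ₗ[ℝ] Vec)) (q : Vec) : ℝ := A 0 q ⬝ᵥ (A 1 q ⨯₃ A 2 q)

/-- Its derivative at `q` in the direction `d`. -/
def dFdet (A : Fin 3 → (Vec →ₗ[ℝ] Vec)) (q d : Vec) : ℝ :=
  A 0 d ⬝ᵥ (A 1 q ⨯₃ A 2 q) + A 0 q ⬝ᵥ (A 1 d ⨯₃ A 2 q) + A 0 q ⬝ᵥ (A 1 q ⨯₃ A 2 d)

/-! ### Elementary facts on `ℝ³` used everywhere -/

theorem cross_comm_ne {a b : Vec} (h : a ⨯₃ b ≠ 0) : b ⨯₃ a ≠ 0 := by
  intro h'; apply h; rw [← neg_cross]; rw [h', neg_zero]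

theorem left_ne_of_cross {a b : Vec} (h : a ⨯₃ b ≠ 0) : a ≠ 0 := by
  rintro rfl; apply h; simp

theorem right_ne_of_cross {a b : Vec} (h : a ⨯₃ b ≠ 0) : b ≠ 0 := by
  rintro rfl; apply h; simp

/-- If `a, b` are independent, a combination vanishing has zero coefficients. -/
theorem coeff_zero_of_cross {a b : Vec} (h : a ⨯₃ b ≠ 0) {s t : ℝ} (hst : s • a + t • b = 0) : s = 0 ∧ t = 0 := by
  have h1 : s • (a ⨯₃ b) = 0 := by
    have : (s • a + t • b) ⨯₃ b = 0 := by rw [hst]; simp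
    simpa using this
  have h2 : t • (a ⨯₃ b) = 0 := by
    have : a ⨯₃ (s • a + t • b) = 0 := by rw [hst]; simp
    simpa using this
  exact ⟨(smul_eq_zero.mp h1).resolve_right h, (smul_eq_zero.mp h2).resolve_right h⟩

/-- A vector orthogonal to two independent vectors is a multiple of their cross product. -/
theorem eq_smul_cross {a b c : Vec} (h : a ⨯₃ b ≠ 0) (ha : c ⬝ᵥ a = 0) (hb : c ⬝ᵥ b = 0) :
    ∃ t : ℝ, c = t • (a ⨯₃ b) := by
  set n := a ⨯₃ b with hn
  have hnn : n ⬝ᵥ n ≠ 0 := by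
    intro h0; exact h (dotProduct_self_eq_zero.mp h0)
  refine ⟨(c ⬝ᵥ n) / (n ⬝ᵥ n), ?_⟩
  have key : (n ⬝ᵥ n) • c = (c ⬝ᵥ n) • n := by
    have e : ∀ i, ((n ⬝ᵥ n) • c) i - ((c ⬝ᵥ n) • n) i = (c ⬝ᵥ b) * (n ⨯₃ a) i - (c ⬝ᵥ a) * (n ⨯₃ b) i := by
      intro i
      rw [hn]
      simp only [cross_apply, vec3_dotProduct, Pi.smul_apply, smul_eq_mul]
      fin_cases i <;> simp <;> ring
    ext i
    have := e i
    rw [ha, hb] at this
    linarith
  rw [div_eq_inv_mul, mul_smul, ← key, smul_smul, inv_mul_cancel₀ hnn, one_smul]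

end Pool.Agent.NCfg
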