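import Pool.Agent.Lib.MP_372a40_co.Config
import Pool.Agent.Lib.MP_372a40_co.Defs

/-! # CONVB: from Euclidean representations to homogeneous coordinates -/

open Matrix Finset

set_option linter.unusedSectionVars false
set_option linter.unusedVariables false

namespace Pool.Agent.NCfg

variable {P L : Type} [Fintype P] [Fintype L] [DecidableEq P] [DecidableEq L]

/-- Coordinates of an affine line of the plane: its points are the zeros of a linear equation. -/
private theorem convB_line (A : AffineSubspace ℝ Config.Plane) (hne : (A : Set Config.Plane).Nonempty)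
    (hd : Module.finrank ℝ A.direction = 1) :
    ∃ s t c : ℝ, (s ≠ 0 ∨ t ≠ 0) ∧ ∀ q : Config.Plane, q ∈ A ↔ t * q 0 - s * q 1 + c = 0 := by
  obtain ⟨b, hb⟩ := hne
  obtain ⟨v, hv0, hv⟩ := finrank_eq_one_iff'.mp hd
  have hv0' : (v : Config.Plane) ≠ 0 := fun h => hv0 (Subtype.ext h)
  set w : Config.Plane := (v : Config.Plane) with hw
  have hw0 : w 0 ≠ 0 ∨ w 1 ≠ 0 := by
    by_contra hcon
    push Not at hcon
    apply hv0'
    ext i
    fin_cases i
    · simpa using hcon.1
    · simpa using hcon.2
  refine ⟨w 0, w 1, w 0 * b 1 - w 1 * b 0, hw0, fun q => ?_⟩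
  have h1 : q ∈ A ↔ q -ᵥ b ∈ A.direction := (AffineSubspace.vsub_right_mem_direction_iff_mem hb q).symm
  rw [h1]
  constructor
  · intro h
    obtain ⟨r, hr⟩ := hv ⟨q -ᵥ b, h⟩
    have hr' : r • w = q -ᵥ b := congrArg Subtype.val hr
    have e0 : r * w 0 = q 0 - b 0 := by
      have := congrArg (fun z : Config.Plane => z 0) hr'
      simpa using this
    have e1 : r * w 1 = q 1 - b 1 := by
      have := congrArg (fun z : Config.Plane => z 1) hr'
      simpa using this
    have e0' : q 0 = r * w 0 + b 0 := by linarith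
    have e1' : q 1 = r * w 1 + b 1 := by linarith
    rw [e0', e1']
    ring
  · intro h
    have key : ∃ r : ℝ, q -ᵥ b = r • w := by
      rcases hw0 with h0 | h0
      · refine ⟨(q 0 - b 0) / w 0, ?_⟩
        ext i
        fin_cases i
        · simp
          field_simp
        · simp
          field_simp
          linarith
      · refine ⟨(q 1 - b 1) / w 1, ?_⟩
        ext i
        fin_cases i
        · simp
          field_simp
          linarith
        · simp
          field_simp
    obtain ⟨r, hr⟩ := key
    rw [hr]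
    exact A.direction.smul_mem r v.2

/-- From a Euclidean representation to homogeneous coordinates: point `(a, b)` to `![a, b, 1]`, a line through `(a,b)` with direction
spanned by `(s,t)` to `![t, -s, s*b - t*a]`. -/
theorem Config.toHRep' (C : Config P L) (R : C.Rep) : ∃ x, HRep C.levi Sum.isLeft x ∧
    ∀ p l, R.pt p ∈ R.ln l ↔ x (Sum.inl p) ⬝ᵥ x (Sum.inr l) = 0 := by
  classical
  choose s t c hst hmem using fun l => convB_line (R.ln l) (R.ln_nonempty l) (R.ln_dim l)
  let x : P ⊕ L → Vec := Sum.elim (fun p => ![R.pt p 0, R.pt p 1, 1]) (fun l => ![t l, - s l, c l])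
  have hxl : ∀ p, x (Sum.inl p) = ![R.pt p 0, R.pt p 1, 1] := fun p => rfl
  have hxr : ∀ l, x (Sum.inr l) = ![t l, - s l, c l] := fun l => rfl
  have hdot : ∀ p l, R.pt p ∈ R.ln l ↔ x (Sum.inl p) ⬝ᵥ x (Sum.inr l) = 0 := by
    intro p l
    rw [hmem l, hxl, hxr]
    simp only [dotProduct, Fin.sum_univ_three, Matrix.cons_val_zero, Matrix.cons_val_one, Matrix.cons_val]
    constructor
    · intro h; linarith
    · intro h; linarith
  refine ⟨x, ⟨?_, ?_, ?_⟩, hdot⟩
  · rintro u v (⟨p, l, rfl, rfl, h⟩ | ⟨p, l, rfl, rfl, h⟩)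
    · exact (hdot p l).mp (R.inc_mem p l h)
    · rw [dotProduct_comm]
      exact (hdot p l).mp (R.inc_mem p l h)
  · rintro (p | l) (p' | l') hne hcls h0
    · rw [hxl, hxl, cross_apply] at h0
      have e0 := congrFun h0 0
      have e1 := congrFun h0 1
      simp at e0 e1
      apply hne
      congr 1
      apply R.pt_inj
      ext i
      fin_cases i
      · simp; linarith
      · simp; linarith
    · simp at hcls
    · simp at hcls
    · rw [hxr, hxr, cross_apply] at h0
      have e0 := congrFun h0 0
      have e1 := congrFun h0 1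
      have e2 := congrFun h0 2
      simp at e0 e1 e2
      apply hne
      congr 1
      apply R.ln_inj
      have main : ∀ (s1 t1 c1 s2 t2 c2 a b : ℝ), (s1 ≠ 0 ∨ t1 ≠ 0) → s1 * c2 = c1 * s2 → c1 * t2 = t1 * c2 →
          t1 * s2 = s1 * t2 → t1 * a - s1 * b + c1 = 0 → t2 * a - s2 * b + c2 = 0 := by
        intro s1 t1 c1 s2 t2 c2 a b hst1 h1 h2 h3 h4
        rcases hst1 with h | h
        · have : s1 * (t2 * a - s2 * b + c2) = 0 := by linear_combination s2 * h4 - a * h3 + h1
          exact (mul_eq_zero.mp this).resolve_left h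
        · have : t1 * (t2 * a - s2 * b + c2) = 0 := by linear_combination t2 * h4 - h2 - b * h3
          exact (mul_eq_zero.mp this).resolve_left h
      ext q
      rw [hmem l, hmem l']
      constructor
      · exact main _ _ _ _ _ _ _ _ (hst l) (by linarith) (by linarith) (by linarith)
      · exact main _ _ _ _ _ _ _ _ (hst l') (by linarith) (by linarith) (by linarith)
  · rintro (p | l)
    · show x (Sum.inl p) 2 ≠ 0
      rw [hxl]
      simp
    · show x (Sum.inr l) 0 ≠ 0 ∨ x (Sum.inr l) 1 ≠ 0
      rw [hxr]
      simp only [Matrix.cons_val_zero, Matrix.cons_val_one, ne_eq, neg_eq_zero]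
      exact (hst l).symm

end Pool.Agent.NCfg
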