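import Pool.Agent.Lib.MP_372a40_co.Config
import Pool.Agent.Lib.MP_372a40_co.Defs

/-! # CONVC: from homogeneous coordinates to Euclidean representations -/

open Matrix Finset

set_option linter.unusedSectionVars false
set_option linter.unusedVariables false

namespace Pool.Agent.NCfg

variable {P L : Type} [Fintype P] [Fintype L] [DecidableEq P] [DecidableEq L]

/-- linear form `z ↦ v 0 * z 0 + v 1 * z 1` -/
private noncomputable def cform (v : Vec) : Config.Plane →ₗ[ℝ] ℝ where
  toFun z := v 0 * z 0 + v 1 * z 1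
  map_add' a b := by
    simp only [PiLp.add_apply]; ring
  map_smul' c a := by
    simp only [PiLp.smul_apply, smul_eq_mul, RingHom.id_apply]; ring

private theorem cform_apply (v : Vec) (z : Config.Plane) : cform v z = v 0 * z 0 + v 1 * z 1 := rfl

/-- base point of the line -/
private noncomputable def cbase (v : Vec) : Config.Plane :=
  WithLp.toLp 2 ![-(v 2) / (v 0 ^ 2 + v 1 ^ 2) * v 0, -(v 2) / (v 0 ^ 2 + v 1 ^ 2) * v 1]

private theorem cbase_zero (v : Vec) : cbase v 0 = -(v 2) / (v 0 ^ 2 + v 1 ^ 2) * v 0 := rfl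
private theorem cbase_one (v : Vec) : cbase v 1 = -(v 2) / (v 0 ^ 2 + v 1 ^ 2) * v 1 := rfl

private theorem csq_ne {v : Vec} (hv : v 0 ≠ 0 ∨ v 1 ≠ 0) : v 0 ^ 2 + v 1 ^ 2 ≠ 0 := by
  rcases hv with h | h
  · have : 0 < v 0 ^ 2 := by positivity
    have : 0 ≤ v 1 ^ 2 := by positivity
    linarith
  · have : 0 < v 1 ^ 2 := by positivity
    have : 0 ≤ v 0 ^ 2 := by positivity
    linarith

private noncomputable def cline (v : Vec) : AffineSubspace ℝ Config.Plane :=
  AffineSubspace.mk' (cbase v) (LinearMap.ker (cform v))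

private theorem cform_base {v : Vec} (hv : v 0 ≠ 0 ∨ v 1 ≠ 0) : cform v (cbase v) = - v 2 := by
  rw [cform_apply, cbase_zero, cbase_one]
  have := csq_ne hv
  field_simp
  ring

private theorem mem_cline {v : Vec} (hv : v 0 ≠ 0 ∨ v 1 ≠ 0) (z : Config.Plane) :
    z ∈ cline v ↔ v 0 * z 0 + v 1 * z 1 + v 2 = 0 := by
  rw [cline, AffineSubspace.mem_mk', LinearMap.mem_ker, vsub_eq_sub, map_sub, cform_base hv, cform_apply]
  constructor <;> intro h <;> linarith

private theorem cdim {v : Vec} (hv : v 0 ≠ 0 ∨ v 1 ≠ 0) : Module.finrank ℝ (cline v).direction = 1 := by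
  rw [cline, AffineSubspace.direction_mk']
  have h1 := LinearMap.finrank_range_add_finrank_ker (cform v)
  have h2 : Module.finrank ℝ Config.Plane = 2 := by simp
  have h3 : LinearMap.range (cform v) = ⊤ := by
    rw [LinearMap.range_eq_top]
    intro y
    have hs := csq_ne hv
    refine ⟨WithLp.toLp 2 ![y / (v 0 ^ 2 + v 1 ^ 2) * v 0, y / (v 0 ^ 2 + v 1 ^ 2) * v 1], ?_⟩
    rw [cform_apply]
    change v 0 * (y / (v 0 ^ 2 + v 1 ^ 2) * v 0) + v 1 * (y / (v 0 ^ 2 + v 1 ^ 2) * v 1) = y
    field_simp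
  rw [h3, h2, finrank_top, Module.finrank_self] at h1
  omega

/-- From homogeneous coordinates to a Euclidean representation with the same unwanted incidences: `x` with `x 2 ≠ 0` to
`(x 0 / x 2, x 1 / x 2)`, the line `v` to `{ (a,b) | v 0 * a + v 1 * b + v 2 = 0 }`. -/
theorem Config.ofHRep (C : Config P L) {x : P ⊕ L → Vec} (hx : HRep C.levi Sum.isLeft x) :
    ∃ R : C.Rep, R.unwanted = (Unw C.levi Sum.isLeft x).card := by
  have hp : ∀ p : P, x (Sum.inl p) 2 ≠ 0 := fun p => hx.aff (Sum.inl p)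
  have hl : ∀ l : L, x (Sum.inr l) 0 ≠ 0 ∨ x (Sum.inr l) 1 ≠ 0 := fun l => hx.aff (Sum.inr l)
  set pt : P → Config.Plane := fun p =>
    WithLp.toLp 2 ![x (Sum.inl p) 0 / x (Sum.inl p) 2, x (Sum.inl p) 1 / x (Sum.inl p) 2] with hpt
  have pt0 : ∀ p, pt p 0 = x (Sum.inl p) 0 / x (Sum.inl p) 2 := fun p => rfl
  have pt1 : ∀ p, pt p 1 = x (Sum.inl p) 1 / x (Sum.inl p) 2 := fun p => rfl
  have hmem : ∀ p l, pt p ∈ cline (x (Sum.inr l)) ↔ x (Sum.inl p) ⬝ᵥ x (Sum.inr l) = 0 := by
    intro p l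
    rw [mem_cline (hl l), pt0, pt1, vec3_dotProduct]
    have h2 := hp p
    have e : x (Sum.inr l) 0 * (x (Sum.inl p) 0 / x (Sum.inl p) 2) +
        x (Sum.inr l) 1 * (x (Sum.inl p) 1 / x (Sum.inl p) 2) + x (Sum.inr l) 2 =
        (x (Sum.inl p) 0 * x (Sum.inr l) 0 + x (Sum.inl p) 1 * x (Sum.inr l) 1 +
          x (Sum.inl p) 2 * x (Sum.inr l) 2) / x (Sum.inl p) 2 := by
      field_simp
    rw [e, div_eq_zero_iff]
    constructor
    · rintro (h | h)
      · exact h
      · exact absurd h h2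
    · exact fun h => Or.inl h
  have hptinj : Function.Injective pt := by
    intro p q hpq
    by_contra hne
    apply hx.ind (Sum.inl p) (Sum.inl q) (fun h => hne (Sum.inl.inj h)) rfl
    have h0 : pt p 0 = pt q 0 := by rw [hpq]
    have h1 : pt p 1 = pt q 1 := by rw [hpq]
    rw [pt0, pt0, div_eq_div_iff (hp p) (hp q)] at h0
    rw [pt1, pt1, div_eq_div_iff (hp p) (hp q)] at h1
    have hp2 := hp p
    have e2 : x (Sum.inl p) 0 * x (Sum.inl q) 1 - x (Sum.inl p) 1 * x (Sum.inl q) 0 = 0 := by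
      have : x (Sum.inl p) 2 * (x (Sum.inl p) 0 * x (Sum.inl q) 1 - x (Sum.inl p) 1 * x (Sum.inl q) 0) = 0 := by
        linear_combination x (Sum.inl p) 1 * h0 - x (Sum.inl p) 0 * h1
      exact (mul_eq_zero.1 this).resolve_left hp2
    rw [cross_apply]
    ext i
    fin_cases i
    · simp; linarith
    · simp; linarith
    · simp; linarith
  have hlninj : Function.Injective (fun l => cline (x (Sum.inr l))) := by
    intro l m hlm
    by_contra hne
    apply hx.ind (Sum.inr l) (Sum.inr m) (fun h => hne (Sum.inr.inj h)) rfl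
    set v := x (Sum.inr l) with hv
    set w := x (Sum.inr m) with hw
    -- two points on the line
    set a : Config.Plane := cbase v with ha
    set b : Config.Plane := WithLp.toLp 2 ![cbase v 0 - v 1, cbase v 1 + v 0] with hb
    have hav : a ∈ cline v := by
      rw [mem_cline (hl l)]
      have := cform_base (hl l)
      rw [cform_apply] at this
      linarith
    have hbv : b ∈ cline v := by
      rw [mem_cline (hl l)]
      have := cform_base (hl l)
      rw [cform_apply] at this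
      change v 0 * (cbase v 0 - v 1) + v 1 * (cbase v 1 + v 0) + v 2 = 0
      linarith
    have hlm' : cline v = cline w := hlm
    have haw : a ∈ cline w := hlm' ▸ hav
    have hbw : b ∈ cline w := hlm' ▸ hbv
    rw [mem_cline (hl l)] at hav hbv
    rw [mem_cline (hl m)] at haw hbw
    set u1 : Vec := ![a 0, a 1, 1] with hu1
    set u2 : Vec := ![b 0, b 1, 1] with hu2
    have hcross : u1 ⨯₃ u2 ≠ 0 := by
      intro h
      have e0 := congrFun h 0
      have e1 := congrFun h 1
      rw [cross_apply] at e0 e1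
      have hb0 : b 0 = a 0 - v 1 := rfl
      have hb1 : b 1 = a 1 + v 0 := rfl
      simp [hu1, hu2, hb0, hb1] at e0 e1
      rcases hl l with h' | h'
      · apply h'; linarith
      · apply h'; linarith
    have o1 : v ⬝ᵥ u1 = 0 := by
      rw [vec3_dotProduct]; simp [hu1]; linarith
    have o2 : v ⬝ᵥ u2 = 0 := by
      rw [vec3_dotProduct]; simp [hu2]; linarith
    have o3 : w ⬝ᵥ u1 = 0 := by
      rw [vec3_dotProduct]; simp [hu1]; linarith
    have o4 : w ⬝ᵥ u2 = 0 := by
      rw [vec3_dotProduct]; simp [hu2]; linarith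
    obtain ⟨t, ht⟩ := eq_smul_cross hcross o1 o2
    obtain ⟨s, hs⟩ := eq_smul_cross hcross o3 o4
    rw [ht, hs]
    simp
  refine ⟨⟨pt, fun l => cline (x (Sum.inr l)), hptinj, hlninj, ?_, fun l => cdim (hl l), ?_⟩, ?_⟩
  · intro l
    exact ⟨cbase _, AffineSubspace.self_mem_mk' _ _⟩
  · intro p l hpl
    rw [hmem]
    exact hx.inc _ _ (Or.inl ⟨p, l, rfl, rfl, hpl⟩)
  · unfold Config.Rep.unwanted
    rw [← Set.ncard_coe_finset]
    have himg : ((Unw C.levi Sum.isLeft x : Finset _) : Set ((P ⊕ L) × (P ⊕ L))) =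
        (fun e : P × L => ((Sum.inl e.1 : P ⊕ L), (Sum.inr e.2 : P ⊕ L))) ''
          {e : P × L | pt e.1 ∈ cline (x (Sum.inr e.2)) ∧ ¬ C.inc e.1 e.2} := by
      ext ⟨u, w⟩
      rw [Finset.mem_coe, mem_Unw, Set.mem_image]
      constructor
      · rintro ⟨h1, h2, h3, h4⟩
        rcases u with p | l
        · rcases w with q | m
          · simp at h2
          · refine ⟨(p, m), ⟨(hmem p m).2 h4, ?_⟩, rfl⟩
            intro hinc
            exact h3 (Or.inl ⟨p, m, rfl, rfl, hinc⟩)
        · simp at h1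
      · rintro ⟨⟨p, m⟩, ⟨h1, h2⟩, he⟩
        rw [Prod.mk.injEq] at he
        obtain ⟨rfl, rfl⟩ := he
        refine ⟨rfl, rfl, ?_, (hmem p m).1 h1⟩
        rintro (⟨p', l', h3, h4, h5⟩ | ⟨p', l', h3, h4, h5⟩)
        · rw [Sum.inl.injEq] at h3
          rw [Sum.inr.injEq] at h4
          subst h3; subst h4
          exact h2 h5
        · exact absurd h3 (by simp)
    rw [himg, Set.ncard_image_of_injective]
    rintro ⟨p, l⟩ ⟨q, m⟩ h
    simp only [Prod.mk.injEq, Sum.inl.injEq, Sum.inr.injEq] at h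
    rw [h.1, h.2]

end Pool.Agent.NCfg
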