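import Pool.Agent.Lib.MP_372a40_co.ConvA
import Pool.Agent.Lib.MP_372a40_co.ConvB
import Pool.Agent.Lib.MP_372a40_co.ConvC

/-! # Euclidean representations and homogeneous coordinates; no sorry here -/

open Matrix Finset

set_option linter.unusedSectionVars false
set_option linter.unusedVariables false

namespace Pool.Agent.NCfg

variable {P L : Type} [Fintype P] [Fintype L] [DecidableEq P] [DecidableEq L]

theorem Config.toHRep (C : Config P L) (R : C.Rep) : ∃ x, HRep C.levi Sum.isLeft x := by
  obtain ⟨x, hx, _⟩ := C.toHRep' R
  exact ⟨x, hx⟩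

end Pool.Agent.NCfg
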