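import Pool.Agent.Lib.MP_372a40_co.Config
import Pool.Agent.Lib.MP_372a40_co.Defs

/-! # CONVA: the Levi graph of a connected configuration -/

open Matrix Finset

set_option linter.unusedSectionVars false
set_option linter.unusedVariables false

namespace Pool.Agent.NCfg

variable {P L : Type} [Fintype P] [Fintype L] [DecidableEq P] [DecidableEq L]

private theorem levi_lr (C : Config P L) (p : P) (l : L) : C.levi.Adj (Sum.inl p) (Sum.inr l) ↔ C.inc p l := by
  constructor
  · rintro (⟨p', l', h1, h2, h⟩ | ⟨p', l', h1, h2, h⟩)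
    · rw [Sum.inl.injEq] at h1
      rw [Sum.inr.injEq] at h2
      rw [h1, h2]; exact h
    · exact absurd h1 (by simp)
  · intro h
    exact Or.inl ⟨p, l, rfl, rfl, h⟩

private theorem levi_rl (C : Config P L) (p : P) (l : L) : C.levi.Adj (Sum.inr l) (Sum.inl p) ↔ C.inc p l := by
  rw [SimpleGraph.adj_comm]
  exact levi_lr C p l

private theorem levi_ll (C : Config P L) (p q : P) : ¬ C.levi.Adj (Sum.inl p) (Sum.inl q) := by
  rintro (⟨p', l', h1, h2, h⟩ | ⟨p', l', h1, h2, h⟩)
  · exact absurd h2 (by simp)
  · exact absurd h1 (by simp)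

private theorem levi_rr (C : Config P L) (l m : L) : ¬ C.levi.Adj (Sum.inr l) (Sum.inr m) := by
  rintro (⟨p', l', h1, h2, h⟩ | ⟨p', l', h1, h2, h⟩)
  · exact absurd h1 (by simp)
  · exact absurd h2 (by simp)

/-- The Levi graph of a connected configuration. -/
theorem Config.cubic (C : Config P L) (hC : C.Connected) : Cubic C.levi Sum.isLeft := by
  refine ⟨?_, ?_, ?_, hC⟩
  · rintro (p | l) (q | m) h
    · exact absurd h (levi_ll C p q)
    · simp
    · simp
    · exact absurd h (levi_rr C l m)
  · rintro (p | l)
    · have h1 : (nb C.levi (Sum.inl p) : Set (P ⊕ L)) = Sum.inr '' {l | C.inc p l} := by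
        ext v
        rw [Finset.mem_coe, mem_nb]
        constructor
        · intro h
          rcases v with q | l
          · exact absurd h (levi_ll C p q)
          · exact ⟨l, (levi_lr C p l).1 h, rfl⟩
        · rintro ⟨l, hl, rfl⟩
          exact (levi_lr C p l).2 hl
      rw [← Set.ncard_coe_finset, h1, Set.ncard_image_of_injective _ Sum.inr_injective]
      exact C.point_three p
    · have h1 : (nb C.levi (Sum.inr l) : Set (P ⊕ L)) = Sum.inl '' {p | C.inc p l} := by
        ext v
        rw [Finset.mem_coe, mem_nb]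
        constructor
        · intro h
          rcases v with q | m
          · exact ⟨q, (levi_rl C q l).1 h, rfl⟩
          · exact absurd h (levi_rr C l m)
        · rintro ⟨q, hq, rfl⟩
          exact (levi_rl C q l).2 hq
      rw [← Set.ncard_coe_finset, h1, Set.ncard_image_of_injective _ Sum.inl_injective]
      exact C.line_three l
  · rintro (p | l) (q | m) huv (a | a) (b | b) h1 h2 h3 h4
    · exact absurd h1 (levi_ll C _ _)
    · exact absurd h1 (levi_ll C _ _)
    · exact absurd h3 (levi_ll C _ _)
    · have := C.linear p q (fun h => huv (by rw [h])) a b ((levi_lr C _ _).1 h1) ((levi_lr C _ _).1 h2)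
        ((levi_lr C _ _).1 h3) ((levi_lr C _ _).1 h4)
      rw [this]
    · exact absurd h1 (levi_ll C _ _)
    · exact absurd h1 (levi_ll C _ _)
    · exact absurd h2 (levi_rr C _ _)
    · exact absurd h2 (levi_rr C _ _)
    · exact absurd h2 (levi_ll C _ _)
    · exact absurd h2 (levi_ll C _ _)
    · exact absurd h1 (levi_rr C _ _)
    · exact absurd h1 (levi_rr C _ _)
    · by_contra hne
      have hab : a ≠ b := fun h => hne (by rw [h])
      have := C.linear a b hab l m ((levi_rl C _ _).1 h1) ((levi_rl C _ _).1 h3)
        ((levi_rl C _ _).1 h2) ((levi_rl C _ _).1 h4)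
      exact huv (by rw [this])
    · exact absurd h3 (levi_rr C _ _)
    · exact absurd h1 (levi_rr C _ _)
    · exact absurd h1 (levi_rr C _ _)

end Pool.Agent.NCfg
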