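import Pool.Agent.Lib.MP_372a40_co.Defs

/-! # CUBICFORM: the cubic lemma (notes 2.2) -/

open Matrix Finset

set_option linter.unusedSectionVars false
set_option linter.unusedVariables false

namespace Pool.Agent.NCfg

/-- The trilinear form. -/
private def cfT (A : Fin 3 → (Vec →ₗ[ℝ] Vec)) (a b c : Vec) : ℝ := A 0 a ⬝ᵥ (A 1 b ⨯₃ A 2 c)

private theorem cfT_add1 (A : Fin 3 → (Vec →ₗ[ℝ] Vec)) (a a' b c : Vec) :
    cfT A (a + a') b c = cfT A a b c + cfT A a' b c := by
  unfold cfT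
  rw [map_add, add_dotProduct]

private theorem cfT_add2 (A : Fin 3 → (Vec →ₗ[ℝ] Vec)) (a b b' c : Vec) :
    cfT A a (b + b') c = cfT A a b c + cfT A a b' c := by
  unfold cfT
  rw [map_add, LinearMap.map_add₂, dotProduct_add]

private theorem cfT_add3 (A : Fin 3 → (Vec →ₗ[ℝ] Vec)) (a b c c' : Vec) :
    cfT A a b (c + c') = cfT A a b c + cfT A a b c' := by
  unfold cfT
  rw [map_add, map_add, dotProduct_add]

private theorem cfT_smul1 (A : Fin 3 → (Vec →ₗ[ℝ] Vec)) (s : ℝ) (a b c : Vec) :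
    cfT A (s • a) b c = s * cfT A a b c := by
  unfold cfT
  rw [map_smul, smul_dotProduct, smul_eq_mul]

private theorem cfT_smul2 (A : Fin 3 → (Vec →ₗ[ℝ] Vec)) (s : ℝ) (a b c : Vec) :
    cfT A a (s • b) c = s * cfT A a b c := by
  unfold cfT
  rw [map_smul, LinearMap.map_smul₂, dotProduct_smul, smul_eq_mul]

private theorem cfT_smul3 (A : Fin 3 → (Vec →ₗ[ℝ] Vec)) (s : ℝ) (a b c : Vec) :
    cfT A a b (s • c) = s * cfT A a b c := by
  unfold cfT
  rw [map_smul, map_smul, dotProduct_smul, smul_eq_mul]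

private theorem cf_F (A : Fin 3 → (Vec →ₗ[ℝ] Vec)) (q : Vec) : Fdet A q = cfT A q q q := rfl

private theorem cf_dF (A : Fin 3 → (Vec →ₗ[ℝ] Vec)) (q d : Vec) :
    dFdet A q d = cfT A d q q + cfT A q d q + cfT A q q d := rfl

/-- The polarisation in `u`, `y` of the quadratic form `H u = dF u q0`. -/
private def cfD (A : Fin 3 → (Vec →ₗ[ℝ] Vec)) (q0 u y : Vec) : ℝ :=
  cfT A q0 u y + cfT A q0 y u + cfT A u q0 y + cfT A y q0 u + cfT A u y q0 + cfT A y u q0

private theorem cf_expand (A : Fin 3 → (Vec →ₗ[ℝ] Vec)) (q0 u : Vec) (z s : ℝ) :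
    Fdet A (z • q0 + s • u) = z ^ 3 * Fdet A q0 + z ^ 2 * s * dFdet A q0 u +
      z * s ^ 2 * dFdet A u q0 + s ^ 3 * Fdet A u := by
  simp only [cf_F, cf_dF, cfT_add1, cfT_add2, cfT_add3, cfT_smul1, cfT_smul2, cfT_smul3]
  ring

private theorem cf_dexpand (A : Fin 3 → (Vec →ₗ[ℝ] Vec)) (q0 u : Vec) (z s : ℝ) :
    dFdet A (z • q0 + s • u) q0 = 3 * z ^ 2 * Fdet A q0 + 2 * z * s * dFdet A q0 u +
      s ^ 2 * dFdet A u q0 := by
  simp only [cf_F, cf_dF, cfT_add1, cfT_add2, cfT_add3, cfT_smul1, cfT_smul2, cfT_smul3]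
  ring

private theorem cf_dexpand2 (A : Fin 3 → (Vec →ₗ[ℝ] Vec)) (q0 u y : Vec) (s : ℝ) :
    dFdet A (q0 + s • u) y = dFdet A q0 y + s * cfD A q0 u y + s ^ 2 * dFdet A u y := by
  simp only [cf_F, cf_dF, cfD, cfT_add1, cfT_add2, cfT_add3, cfT_smul1, cfT_smul2, cfT_smul3]
  ring

private theorem cf_H (A : Fin 3 → (Vec →ₗ[ℝ] Vec)) (q0 u y : Vec) (t : ℝ) :
    dFdet A (u + t • y) q0 = dFdet A u q0 + t * cfD A q0 u y + t ^ 2 * dFdet A y q0 := by
  simp only [cf_F, cf_dF, cfD, cfT_add1, cfT_add2, cfT_add3, cfT_smul1, cfT_smul2, cfT_smul3]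
  ring

private theorem cf_f (A : Fin 3 → (Vec →ₗ[ℝ] Vec)) (u y : Vec) (t : ℝ) :
    Fdet A (u + t • y) = Fdet A u + t * dFdet A u y + t ^ 2 * dFdet A y u + t ^ 3 * Fdet A y := by
  simp only [cf_F, cf_dF, cfD, cfT_add1, cfT_add2, cfT_add3, cfT_smul1, cfT_smul2, cfT_smul3]
  ring

private theorem cf_df (A : Fin 3 → (Vec →ₗ[ℝ] Vec)) (u y : Vec) (t : ℝ) :
    dFdet A (u + t • y) y = dFdet A u y + 2 * t * dFdet A y u + 3 * t ^ 2 * Fdet A y := by
  simp only [cf_F, cf_dF, cfD, cfT_add1, cfT_add2, cfT_add3, cfT_smul1, cfT_smul2, cfT_smul3]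
  ring

private theorem cf_lin (A : Fin 3 → (Vec →ₗ[ℝ] Vec)) (q a b c : Vec) (r s t : ℝ) :
    dFdet A q (r • a + s • b + t • c) = r * dFdet A q a + s * dFdet A q b + t * dFdet A q c := by
  simp only [cf_F, cf_dF, cfD, cfT_add1, cfT_add2, cfT_add3, cfT_smul1, cfT_smul2, cfT_smul3]
  ring

private theorem cf_self (A : Fin 3 → (Vec →ₗ[ℝ] Vec)) (q : Vec) :
    dFdet A q q = 3 * Fdet A q := by
  simp only [cf_F, cf_dF]
  ring

private theorem cf_B (B : Vec →ₗ[ℝ] Vec →ₗ[ℝ] ℝ) (u v q : Vec) (h t f : ℝ) :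
    B (h • (u + t • v) + (-f) • q) (h • (u + t • v) + (-f) • q) =
      h ^ 2 * (B u u + t * (B u v + B v u) + t ^ 2 * B v v) -
      h * f * ((B u q + B q u) + t * (B v q + B q v)) + f ^ 2 * B q q := by
  simp only [map_add, map_smul, LinearMap.add_apply, LinearMap.smul_apply, smul_eq_mul]
  ring

/-- The main step: the coefficient `dF (u) (v)` vanishes. -/
private theorem cf_pair (A : Fin 3 → (Vec →ₗ[ℝ] Vec)) (q0 : Vec) {ι : Type} [Fintype ι]
    (B : ι → (Vec →ₗ[ℝ] Vec →ₗ[ℝ] ℝ)) (hF : Fdet A q0 = 0) (hdF : ∀ d, dFdet A q0 d = 0)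
    (hB : ∀ i, B i q0 q0 ≠ 0)
    (hstar : ∀ q, Fdet A q = 0 → (∀ i, B i q q ≠ 0) → ∀ d, dFdet A q d = 0)
    (u v : Vec) (hu : Fdet A u = 0) (hv : Fdet A v = 0) (hHu : dFdet A u q0 ≠ 0)
    (hHv : dFdet A v q0 ≠ 0) : dFdet A u v = 0 := by
  classical
  set a := dFdet A u v with ha
  set b := dFdet A v u with hb
  set h0 := dFdet A u q0 with hh0
  set h1 := cfD A q0 u v with hh1
  set h2 := dFdet A v q0 with hh2
  -- the polynomials
  set h : Polynomial ℝ := Polynomial.C h0 + Polynomial.C h1 * Polynomial.X +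
    Polynomial.C h2 * Polynomial.X ^ 2 with hh
  set f : Polynomial ℝ := Polynomial.C a * Polynomial.X + Polynomial.C b * Polynomial.X ^ 2
    with hf
  set g : ι → Polynomial ℝ := fun l =>
    h ^ 2 * (Polynomial.C (B l u u) + Polynomial.X * Polynomial.C (B l u v + B l v u) +
      Polynomial.X ^ 2 * Polynomial.C (B l v v)) -
    h * f * (Polynomial.C (B l u q0 + B l q0 u) +
      Polynomial.X * Polynomial.C (B l v q0 + B l q0 v)) +
    f ^ 2 * Polynomial.C (B l q0 q0) with hg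
  have heh : ∀ t, h.eval t = dFdet A (u + t • v) q0 := by
    intro t
    rw [cf_H]
    simp only [hh, Polynomial.eval_add, Polynomial.eval_mul, Polynomial.eval_C,
      Polynomial.eval_X, Polynomial.eval_pow]
    ring
  have hef : ∀ t, f.eval t = Fdet A (u + t • v) := by
    intro t
    rw [cf_f, hu, hv]
    simp only [hf, Polynomial.eval_add, Polynomial.eval_mul, Polynomial.eval_C,
      Polynomial.eval_X, Polynomial.eval_pow]
    ring
  have heg : ∀ l t, (g l).eval t =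
      B l (h.eval t • (u + t • v) + (-(f.eval t)) • q0)
        (h.eval t • (u + t • v) + (-(f.eval t)) • q0) := by
    intro l t
    rw [cf_B]
    simp only [hg, Polynomial.eval_add, Polynomial.eval_sub, Polynomial.eval_mul,
      Polynomial.eval_C, Polynomial.eval_X, Polynomial.eval_pow]
  have hprod : h * ∏ l, g l = 0 := by
    refine Polynomial.funext fun t => ?_
    rw [Polynomial.eval_zero, Polynomial.eval_mul, Polynomial.eval_prod]
    by_contra hne
    have hn1 : h.eval t ≠ 0 := left_ne_zero_of_mul hne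
    have hn2 : ∏ l, (g l).eval t ≠ 0 := right_ne_zero_of_mul hne
    have hn3 : ∀ l, (g l).eval t ≠ 0 := fun l => (Finset.prod_ne_zero_iff.1 hn2) l (mem_univ l)
    set q := h.eval t • (u + t • v) + (-(f.eval t)) • q0 with hq
    have hq' : q = (-(f.eval t)) • q0 + h.eval t • (u + t • v) := by rw [hq, add_comm]
    have hFq : Fdet A q = 0 := by
      rw [hq', cf_expand, hF, hdF, ← heh t, ← hef t]
      ring
    have hdq := hstar q hFq (fun l => by rw [← heg l t]; exact hn3 l) q0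
    rw [hq', cf_dexpand, hF, hdF, ← heh t] at hdq
    apply hn1
    have : h.eval t ^ 3 = 0 := by linarith
    exact pow_eq_zero_iff (three_ne_zero) |>.1 this
  have hhne : h ≠ 0 := by
    intro h00
    have : h.eval 0 = 0 := by rw [h00, Polynomial.eval_zero]
    rw [heh] at this
    simp only [zero_smul, add_zero] at this
    exact hHu this
  obtain ⟨l, -, hl⟩ := Finset.prod_eq_zero_iff.1 ((mul_eq_zero.1 hprod).resolve_left hhne)
  -- a complex root of h
  obtain ⟨z, hz⟩ : ∃ z : ℂ, (h0 : ℂ) + h1 * z + h2 * z ^ 2 = 0 := by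
    have hdeg : (h.map (algebraMap ℝ ℂ)).degree ≠ 0 := by
      rw [Polynomial.degree_map]
      have : h.degree = 2 := by
        rw [hh]
        have e : Polynomial.C h0 + Polynomial.C h1 * Polynomial.X +
          Polynomial.C h2 * Polynomial.X ^ 2 = Polynomial.C h2 * Polynomial.X ^ 2 +
            Polynomial.C h1 * Polynomial.X + Polynomial.C h0 := by ring
        rw [e]
        exact Polynomial.degree_quadratic hHv
      rw [this]
      norm_num
    obtain ⟨z, hz⟩ := IsAlgClosed.exists_root _ hdeg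
    refine ⟨z, ?_⟩
    have := hz
    simp only [Polynomial.IsRoot, hh, Polynomial.map_add, Polynomial.map_mul, Polynomial.map_C,
      Polynomial.map_X, Polynomial.map_pow, Polynomial.eval_add, Polynomial.eval_mul,
      Polynomial.eval_C, Polynomial.eval_X, Polynomial.eval_pow] at this
    simpa using this
  have hfz : (a : ℂ) * z + b * z ^ 2 = 0 := by
    have h3 : (g l).eval₂ (algebraMap ℝ ℂ) z = 0 := by rw [hl, Polynomial.eval₂_zero]
    have h4 : h.eval₂ (algebraMap ℝ ℂ) z = 0 := by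
      simp only [hh, Polynomial.eval₂_add, Polynomial.eval₂_mul, Polynomial.eval₂_C,
        Polynomial.eval₂_X, Polynomial.eval₂_pow]
      simpa using hz
    have h5 : f.eval₂ (algebraMap ℝ ℂ) z = a * z + b * z ^ 2 := by
      simp only [hf, Polynomial.eval₂_add, Polynomial.eval₂_mul, Polynomial.eval₂_C,
        Polynomial.eval₂_X, Polynomial.eval₂_pow]
      simp
    simp only [hg, Polynomial.eval₂_add, Polynomial.eval₂_sub, Polynomial.eval₂_mul,
      Polynomial.eval₂_pow, h4, Polynomial.eval₂_C] at h3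
    rw [h5] at h3
    have h6 : ((a : ℂ) * z + b * z ^ 2) ^ 2 * (algebraMap ℝ ℂ) (B l q0 q0) = 0 := by
      linear_combination h3
    have h7 : (algebraMap ℝ ℂ) (B l q0 q0) ≠ 0 := by
      rw [Ne, map_eq_zero_iff _ (algebraMap ℝ ℂ).injective]
      exact hB l
    exact pow_eq_zero_iff (two_ne_zero) |>.1 ((mul_eq_zero.1 h6).resolve_right h7)
  have hz0 : z ≠ 0 := by
    rintro rfl
    apply hHu
    have : (h0 : ℂ) = 0 := by simpa using hz
    exact_mod_cast this
  have habz : (a : ℂ) + b * z = 0 := by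
    have : z * ((a : ℂ) + b * z) = 0 := by linear_combination hfz
    exact (mul_eq_zero.1 this).resolve_left hz0
  by_contra ha0
  have hb0 : b ≠ 0 := by
    intro hb0
    rw [hb0] at habz
    apply ha0
    have : (a : ℂ) = 0 := by simpa using habz
    exact_mod_cast this
  set τ : ℝ := -a / b with hτ
  have hbτ : b * τ = -a := by rw [hτ]; field_simp
  have hzτ : z = (τ : ℂ) := by
    have hbc : (b : ℂ) ≠ 0 := by exact_mod_cast hb0
    have : (b : ℂ) * z = b * (τ : ℂ) := by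
      have h3 : (b : ℂ) * (τ : ℂ) = -a := by exact_mod_cast hbτ
      rw [h3]
      linear_combination habz
    exact mul_left_cancel₀ hbc this
  have hHτ : dFdet A (u + τ • v) q0 = 0 := by
    rw [cf_H]
    rw [hzτ] at hz
    have h3 : h0 + h1 * τ + h2 * τ ^ 2 = 0 := by exact_mod_cast hz
    linarith
  have hFτ : Fdet A (u + τ • v) = 0 := by
    rw [cf_f, hu, hv]
    have : τ * (a + b * τ) = 0 := by rw [hbτ]; ring
    linarith
  -- small s
  have hev : ∀ᶠ s : ℝ in nhds 0, ∀ i, B i (q0 + s • (u + τ • v)) (q0 + s • (u + τ • v)) ≠ 0 := by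
    rw [Filter.eventually_all]
    intro i
    have hcont : Continuous (fun s : ℝ => B i (q0 + s • (u + τ • v)) (q0 + s • (u + τ • v))) := by
      have e : (fun s : ℝ => B i (q0 + s • (u + τ • v)) (q0 + s • (u + τ • v))) =
          fun s : ℝ => B i q0 q0 + s * (B i q0 (u + τ • v) + B i (u + τ • v) q0) +
            s ^ 2 * B i (u + τ • v) (u + τ • v) := by
        funext s
        simp only [map_add, map_smul, LinearMap.add_apply, LinearMap.smul_apply, smul_eq_mul]
        ring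
      rw [e]
      fun_prop
    have h3 := hcont.tendsto 0
    simp only [zero_smul, add_zero] at h3
    exact h3.eventually_ne (hB i)
  rw [Metric.eventually_nhds_iff] at hev
  obtain ⟨ε, hε, hev⟩ := hev
  have hzero : ∀ s : ℝ, 0 < s → s < ε → cfD A q0 (u + τ • v) v +
      s * dFdet A (u + τ • v) v = 0 := by
    intro s hs hsε
    have h3 := hev (y := s) (by rw [Real.dist_eq, sub_zero, abs_of_pos hs]; exact hsε)
    have h4 : Fdet A (q0 + s • (u + τ • v)) = 0 := by
      have h5 := cf_expand A q0 (u + τ • v) 1 s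
      rw [one_smul] at h5
      rw [h5, hF, hdF, hHτ, hFτ]
      ring
    have h5 := hstar _ h4 h3 v
    rw [cf_dexpand2, hdF] at h5
    have h6 : s * (cfD A q0 (u + τ • v) v + s * dFdet A (u + τ • v) v) = 0 := by
      linarith
    exact (mul_eq_zero.1 h6).resolve_left hs.ne'
  have h3 := hzero (ε / 2) (by positivity) (by linarith)
  have h4 := hzero (ε / 4) (by positivity) (by linarith)
  have h5 : dFdet A (u + τ • v) v = 0 := by
    have : (ε / 4) * dFdet A (u + τ • v) v = 0 := by linarith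
    exact (mul_eq_zero.1 this).resolve_left (by positivity)
  rw [cf_df, hv] at h5
  apply ha0
  have : 2 * τ * b = -(2 * a) := by
    have : τ * b = -a := by rw [mul_comm]; exact hbτ
    linarith
  linarith

/-- Notes 2.2.  `F (z • q0 + s • u) = z * s^2 * H u + s^3 * F u` with the quadratic form
`H u = A₀ q0 · (A₁ u × A₂ u) + A₀ u · (A₁ q0 × A₂ u) + A₀ u · (A₁ u × A₂ q0)`, because `F q0 = 0` and `dF q0 = 0`. Since `F (y k) = 0`
(`A k (y k) = 0`), the claim is `H (y k) = 0` for some `k`. -/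
theorem cubic_lemma (A : Fin 3 → (Vec →ₗ[ℝ] Vec)) (q0 : Vec) {ι : Type} [Fintype ι]
    (B : ι → (Vec →ₗ[ℝ] Vec →ₗ[ℝ] ℝ)) (hF : Fdet A q0 = 0) (hdF : ∀ d, dFdet A q0 d = 0)
    (hB : ∀ i, B i q0 q0 ≠ 0)
    (hstar : ∀ q, Fdet A q = 0 → (∀ i, B i q q ≠ 0) → ∀ d, dFdet A q d = 0)
    (y : Fin 3 → Vec) (hy : ∀ k, A k (y k) = 0) (hli : y 0 ⬝ᵥ (y 1 ⨯₃ y 2) ≠ 0)
    (h01 : q0 ⬝ᵥ (y 0 ⨯₃ y 1) ≠ 0) (h02 : q0 ⬝ᵥ (y 0 ⨯₃ y 2) ≠ 0) (h12 : q0 ⬝ᵥ (y 1 ⨯₃ y 2) ≠ 0) :
    ∃ k, ∀ s : ℝ, Fdet A (q0 + s • y k) = 0 := by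
  have hFy : ∀ k, Fdet A (y k) = 0 := by
    intro k
    unfold Fdet
    fin_cases k
    · have := hy 0
      simp only [Fin.zero_eta, Fin.isValue]
      rw [this, zero_dotProduct]
    · have := hy 1
      simp only [Fin.mk_one, Fin.isValue]
      rw [this, LinearMap.map_zero₂, dotProduct_zero]
    · have := hy 2
      simp only [Fin.reduceFinMk, Fin.isValue]
      rw [this, map_zero, dotProduct_zero]
  have hs : ∀ k, dFdet A (y k) q0 = 0 → ∀ s : ℝ, Fdet A (q0 + s • y k) = 0 := by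
    intro k hk s
    have h5 := cf_expand A q0 (y k) 1 s
    rw [one_smul] at h5
    rw [h5, hF, hdF, hk, hFy]
    ring
  by_contra hcon
  push Not at hcon
  have hH : ∀ k, dFdet A (y k) q0 ≠ 0 := by
    intro k hk
    obtain ⟨s, hs'⟩ := hcon k
    exact hs' (hs k hk s)
  have h1 := cf_pair A q0 B hF hdF hB hstar (y 0) (y 1) (hFy 0) (hFy 1) (hH 0) (hH 1)
  have h2 := cf_pair A q0 B hF hdF hB hstar (y 0) (y 2) (hFy 0) (hFy 2) (hH 0) (hH 2)
  -- Cramer
  set D := y 0 ⬝ᵥ (y 1 ⨯₃ y 2) with hD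
  have hq : D • q0 = (q0 ⬝ᵥ (y 1 ⨯₃ y 2)) • y 0 + (q0 ⬝ᵥ (y 2 ⨯₃ y 0)) • y 1 +
      (q0 ⬝ᵥ (y 0 ⨯₃ y 1)) • y 2 := by
    rw [hD]
    ext i
    simp only [cross_apply, vec3_dotProduct, Pi.smul_apply, Pi.add_apply, smul_eq_mul]
    fin_cases i <;> simp <;> ring
  have h3 : dFdet A (y 0) (D • q0) = 0 := by
    rw [hq, cf_lin, h1, h2, cf_self, hFy]
    ring
  have h4 : dFdet A (y 0) (D • q0) = D * dFdet A (y 0) q0 := by
    simp only [cf_dF, cfT_smul1, cfT_smul2, cfT_smul3]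
    ring
  rw [h4] at h3
  exact hH 0 ((mul_eq_zero.1 h3).resolve_left hli)

end Pool.Agent.NCfg
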