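import Pool.Agent.Lib.MP_372a40_co.Boundary
import Pool.Agent.Lib.MP_372a40_co.Blob

/-! # DISJA: supports that meet are everything (notes 1.3 (i), (ii), (iii)) -/

open Matrix Finset

set_option linter.unusedSectionVars false
set_option linter.unusedVariables false

namespace Pool.Agent.NCfg

variable {V : Type} [Fintype V] [DecidableEq V]

private theorem disjA_restrict {G : SimpleGraph V} {x : V → Vec} (hun : Unstressed G x) {p l : V}
    {σ : V → V → ℝ} (hσ : Stress (adde G p l) x σ) (Y : Finset V) (hp : p ∉ Y) (hl : l ∉ Y)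
    (hY : ∀ u ∈ Y, ∀ v, v ∉ Y → σ u v = 0) : ∀ u ∈ Y, ∀ v, σ u v = 0 := by
  classical
  have hst : Stress G.Adj x (fun u v => if u ∈ Y ∧ v ∈ Y then σ u v else 0) := by
    refine ⟨fun u v => ?_, fun u v h => ?_, fun u => ?_⟩
    · by_cases h : u ∈ Y ∧ v ∈ Y
      · rw [if_pos h, if_pos h.symm, hσ.symm]
      · rw [if_neg h, if_neg (fun h' => h h'.symm)]
    · by_cases h1 : u ∈ Y ∧ v ∈ Y
      · rw [if_pos h1] at h
        rcases hσ.supp u v h with h2 | ⟨h2, _⟩ | ⟨_, h2⟩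
        · exact h2
        · rw [h2] at h1; exact absurd h1.1 hp
        · rw [h2] at h1; exact absurd h1.2 hp
      · rw [if_neg h1] at h
        exact absurd rfl h
    · by_cases hu : u ∈ Y
      · rw [← hσ.eq u]
        refine Finset.sum_congr rfl fun v _ => ?_
        by_cases hv : v ∈ Y
        · rw [if_pos ⟨hu, hv⟩]
        · rw [if_neg (fun h => hv h.2), hY u hu v hv]
      · refine Finset.sum_eq_zero fun v _ => ?_
        rw [if_neg (fun h => hu h.1), zero_smul]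
  intro u hu v
  by_cases hv : v ∈ Y
  · have := hun _ hst u v
    rwa [if_pos ⟨hu, hv⟩] at this
  · exact hY u hu v hv

/-- Notes 1.3 (i): a set not crossed by stressed pairs is disjoint from `VS σ` or contains it.  (`p ∈ X ↔ l ∈ X` since `σ p l ≠ 0`. The restriction
of `σ` to the pairs inside `X`, resp. inside the complement, whichever does not contain `p, l`, is a stress on `G`, so it is zero.) -/
theorem closed_set {G : SimpleGraph V} {cls : V → Bool} {x : V → Vec} (hG : Cubic G cls) (hx : HRep G cls x)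
    (hun : Unstressed G x) {p l : V} (hpl : (p, l) ∈ Unw G cls x) {σ : V → V → ℝ} (hσ : Stress (adde G p l) x σ)
    (hne : σ p l ≠ 0) (X : Finset V) (hX : crossing σ X = ∅) : Disjoint X (VS σ) ∨ VS σ ⊆ X := by
  have hcr : ∀ u ∈ X, ∀ v, v ∉ X → σ u v = 0 := by
    intro u hu v hv
    by_contra h
    have : (u, v) ∈ crossing σ X := mem_crossing.2 ⟨hu, hv, h⟩
    rw [hX] at this
    exact absurd this (Finset.notMem_empty _)
  have hpl' : p ∈ X ↔ l ∈ X := by
    constructor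
    · intro h
      by_contra h'
      exact hne (hcr p h l h')
    · intro h
      by_contra h'
      apply hne
      rw [hσ.symm]
      exact hcr l h p h'
  by_cases hp : p ∈ X
  · right
    have h1 := disjA_restrict hun hσ Xᶜ (by simpa using hp) (by simpa using hpl'.1 hp)
      (by
        intro u hu v hv
        rw [hσ.symm]
        exact hcr v (by simpa using hv) u (by simpa using hu))
    intro u hu
    by_contra h2
    obtain ⟨v, hv⟩ := mem_VS.1 hu
    exact hv (h1 u (by simpa using h2) v)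
  · left
    have h1 := disjA_restrict hun hσ X hp (fun h => hp (hpl'.2 h)) hcr
    rw [Finset.disjoint_left]
    intro u hu hu'
    obtain ⟨v, hv⟩ := mem_VS.1 hu'
    exact hv (h1 u hu v)

private theorem disjA_ne {G : SimpleGraph V} {cls : V → Bool} {x : V → Vec} (hx : HRep G cls x)
    (u : V) : x u ≠ 0 := by
  intro h
  have h1 := hx.aff u
  rw [h] at h1
  cases hc : cls u
  · rw [hc] at h1
    rcases h1 with h1 | h1 <;> exact h1 rfl
  · rw [hc] at h1
    exact h1 rfl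

private theorem disjA_bip {G : SimpleGraph V} {cls : V → Bool} {x : V → Vec} (hG : Cubic G cls)
    {p l : V} (hpl : cls p ≠ cls l) {σ : V → V → ℝ} (hσ : Stress (adde G p l) x σ) (u v : V)
    (h : σ u v ≠ 0) : cls u ≠ cls v := by
  rcases hσ.supp u v h with h2 | ⟨h2, h3⟩ | ⟨h2, h3⟩
  · exact hG.bip u v h2
  · rw [h2, h3]; exact hpl
  · rw [h2, h3]; exact hpl.symm

private theorem disjA_no_cross {G : SimpleGraph V} {cls : V → Bool} {x : V → Vec}
    (hG : Cubic G cls) (hx : HRep G cls x) {p1 l1 p2 l2 : V}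
    (h1 : (p1, l1) ∈ Unw G cls x) (h2 : (p2, l2) ∈ Unw G cls x)
    {σ1 σ2 : V → V → ℝ} (hσ1 : Stress (adde G p1 l1) x σ1)
    (hσ2 : Stress (adde G p2 l2) x σ2) :
    crossing σ1 (VS σ1 ∩ VS σ2) = ∅ := by
  classical
  obtain ⟨a1, a2, a3, a4⟩ := mem_Unw.1 h1
  obtain ⟨b1, b2, b3, b4⟩ := mem_Unw.1 h2
  have hc1 : cls p1 ≠ cls l1 := by rw [a1, a2]; decide
  have hc2 : cls p2 ≠ cls l2 := by rw [b1, b2]; decide
  have hp2l2 : p2 ≠ l2 := fun h => hc2 (by rw [h])
  -- the crossing pairs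
  have hcross : ∀ e ∈ crossing σ1 (VS σ1 ∩ VS σ2), σ2 e.1 e.2 = 0 ∧
      e.1 ∈ VS σ1 ∩ VS σ2 ∧ e.2 ∉ VS σ1 ∩ VS σ2 ∧
      ((G.Adj e.1 e.2 ∧ (e.1 = p2 ∨ e.1 = l2)) ∨ e = (p1, l1) ∨ e = (l1, p1)) := by
    rintro ⟨u, v⟩ he
    obtain ⟨hu, hv, huv⟩ := mem_crossing.1 he
    have hv1 : v ∈ VS σ1 := mem_VS.2 ⟨u, by rw [hσ1.symm]; exact huv⟩
    have hv2 : v ∉ VS σ2 := fun h => hv (Finset.mem_inter.2 ⟨hv1, h⟩)
    have hz : σ2 u v = 0 := by
      by_contra h
      exact hv2 (mem_VS.2 ⟨u, by rw [hσ2.symm]; exact h⟩)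
    refine ⟨hz, hu, hv, ?_⟩
    rcases hσ1.supp u v huv with h | ⟨h, h'⟩ | ⟨h, h'⟩
    · left
      refine ⟨h, ?_⟩
      by_contra hcon
      rw [not_or] at hcon
      exact full_nb hG hx hc2 hσ2 (Finset.mem_inter.1 hu).2 hcon.1 hcon.2 v h hz
    · right; left; rw [h, h']
    · right; right; rw [h, h']
  set C := crossing σ1 (VS σ1 ∩ VS σ2) with hC
  -- the three parts
  have hsub : C ⊆ (C.filter fun e => G.Adj e.1 e.2 ∧ e.1 = p2) ∪
      ((C.filter fun e => G.Adj e.1 e.2 ∧ e.1 = l2) ∪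
        (C.filter fun e => e = (p1, l1) ∨ e = (l1, p1))) := by
    intro e he
    obtain ⟨c1, c2, c3, c4⟩ := hcross e he
    simp only [Finset.mem_union, Finset.mem_filter]
    rcases c4 with ⟨c4, c5 | c5⟩ | c4
    · exact Or.inl ⟨he, c4, c5⟩
    · exact Or.inr (Or.inl ⟨he, c4, c5⟩)
    · exact Or.inr (Or.inr ⟨he, c4⟩)
  have k1 : (C.filter fun e => G.Adj e.1 e.2 ∧ e.1 = p2).card ≤ 1 := by
    rw [Finset.card_le_one]
    rintro ⟨u, v⟩ he ⟨u', v'⟩ he'
    simp only [Finset.mem_filter] at he he'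
    obtain ⟨he, g1, g2⟩ := he
    obtain ⟨he', g1', g2'⟩ := he'
    obtain ⟨c1, c2, c3, c4⟩ := hcross _ he
    obtain ⟨c1', c2', c3', c4'⟩ := hcross _ he'
    simp only at c1 c2 c1' c2'
    subst g2
    subst g2'
    rw [most_nb hG hx hc2 hσ2 (Finset.mem_inter.1 c2).2 v v' g1 g1' c1 c1']
  have k2 : (C.filter fun e => G.Adj e.1 e.2 ∧ e.1 = l2).card ≤ 1 := by
    rw [Finset.card_le_one]
    rintro ⟨u, v⟩ he ⟨u', v'⟩ he'
    simp only [Finset.mem_filter] at he he'
    obtain ⟨he, g1, g2⟩ := he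
    obtain ⟨he', g1', g2'⟩ := he'
    obtain ⟨c1, c2, c3, c4⟩ := hcross _ he
    obtain ⟨c1', c2', c3', c4'⟩ := hcross _ he'
    simp only at c1 c2 c1' c2'
    subst g2
    subst g2'
    rw [most_nb hG hx hc2 hσ2 (Finset.mem_inter.1 c2).2 v v' g1 g1' c1 c1']
  have k3 : (C.filter fun e => e = (p1, l1) ∨ e = (l1, p1)).card ≤ 1 := by
    rw [Finset.card_le_one]
    intro e he e' he'
    simp only [Finset.mem_filter] at he he'
    obtain ⟨he, g⟩ := he
    obtain ⟨he', g'⟩ := he'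
    obtain ⟨-, c2, c3, -⟩ := hcross _ he
    obtain ⟨-, c2', c3', -⟩ := hcross _ he'
    rcases g with rfl | rfl <;> rcases g' with rfl | rfl
    · rfl
    · exact absurd c2 c3'
    · exact absurd c2 c3'
    · rfl
  have k4 : C.card ≤ (C.filter fun e => G.Adj e.1 e.2 ∧ e.1 = p2).card +
      ((C.filter fun e => G.Adj e.1 e.2 ∧ e.1 = l2).card +
        (C.filter fun e => e = (p1, l1) ∨ e = (l1, p1)).card) :=
    (Finset.card_le_card hsub).trans ((Finset.card_union_le _ _).trans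
      (Nat.add_le_add_left (Finset.card_union_le _ _) _))
  have hne := disjA_ne hx
  have hb := disjA_bip hG hc1 hσ1
  by_cases hle : C.card ≤ 2
  · exact cross_le_two hσ1.symm hb hne hx.ind _ (fun u _ => hσ1.eq u) hle
  · exfalso
    have h3 : C.card = 3 := by omega
    have e1 : (C.filter fun e => G.Adj e.1 e.2 ∧ e.1 = p2).card = 1 := by omega
    have e2 : (C.filter fun e => G.Adj e.1 e.2 ∧ e.1 = l2).card = 1 := by omega
    obtain ⟨⟨u, v⟩, hu⟩ := Finset.card_pos.1 (by omega :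
      0 < (C.filter fun e => G.Adj e.1 e.2 ∧ e.1 = p2).card)
    obtain ⟨⟨u', v'⟩, hu'⟩ := Finset.card_pos.1 (by omega :
      0 < (C.filter fun e => G.Adj e.1 e.2 ∧ e.1 = l2).card)
    simp only [Finset.mem_filter] at hu hu'
    obtain ⟨m1, m2, m3⟩ := hu
    obtain ⟨m1', m2', m3'⟩ := hu'
    rcases cross_three hσ1.symm hb hne hx.ind _ (fun u _ => hσ1.eq u) h3 with
      ⟨w, -, hw⟩ | ⟨w, -, hw⟩
    · have q1 := hw _ m1
      have q2 := hw _ m1'
      simp only at q1 q2
      apply hp2l2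
      rw [← m3, ← m3', q1, q2]
    · have q1 := hw _ m1
      have q2 := hw _ m1'
      simp only at q1 q2
      have r1 := hG.bip _ _ m2
      have r2 := hG.bip _ _ m2'
      rw [m3, q1, b1] at r1
      rw [m3', q2, b2] at r2
      cases hw' : cls w
      · rw [hw'] at r2; exact r2 rfl
      · rw [hw'] at r1; exact r1 rfl

/-- Notes 1.3 (ii), (iii): if the supports meet, both are everything.
`X = VS σ1 ∩ VS σ2`, nonempty. A crossing σ1-pair `(u, v)` has `v ∈ VS σ1`, `v ∉ VS σ2`, so `σ2 u v = 0`; if it is an edge of `G` then `u ∈ {p2, l2}` by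
`full_nb` and it is the only unstressed edge there (`most_nb`); otherwise it is `(p1, l1)` or `(l1, p1)`. So there are at most 3 crossing pairs
(`(p2, v_p)`, `(l2, v_l)`, and one of `(p1, l1)`, `(l1, p1)`); if there were 3, `cross_three` gives a common end, impossible (the first two are edges of `G`,
`p2, l2` are not adjacent). So there are none (`cross_le_two`); the same for σ2; `closed_set` gives `VS σ1 = X = VS σ2`.
If `VS σ1` is not everything then `blob` gives a `G`-neighbour `v` of `p1` outside `VS σ1 = VS σ2`, `σ2 p1 v = 0`; `full_nb` for σ2 gives `p1 ∈ {p2, l2}`, so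
`p1 = p2`; same for `l1 = l2`. -/
theorem meet_univ {G : SimpleGraph V} {cls : V → Bool} {x : V → Vec} (hG : Cubic G cls) (hx : HRep G cls x)
    (hun : Unstressed G x) {p1 l1 p2 l2 : V} (h1 : (p1, l1) ∈ Unw G cls x) (h2 : (p2, l2) ∈ Unw G cls x)
    (hne : (p1, l1) ≠ (p2, l2)) {σ1 σ2 : V → V → ℝ} (hσ1 : Stress (adde G p1 l1) x σ1) (hne1 : σ1 p1 l1 ≠ 0)
    (hσ2 : Stress (adde G p2 l2) x σ2) (hne2 : σ2 p2 l2 ≠ 0) (hmeet : ¬ Disjoint (VS σ1) (VS σ2)) :
    VS σ1 = univ ∧ VS σ2 = univ := by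
  classical
  obtain ⟨a1, a2, a3, a4⟩ := mem_Unw.1 h1
  obtain ⟨b1, b2, b3, b4⟩ := mem_Unw.1 h2
  have hc1 : cls p1 ≠ cls l1 := by rw [a1, a2]; decide
  have hc2 : cls p2 ≠ cls l2 := by rw [b1, b2]; decide
  have x1 := disjA_no_cross hG hx h1 h2 hσ1 hσ2
  have x2 := disjA_no_cross hG hx h2 h1 hσ2 hσ1
  rw [Finset.inter_comm] at x2
  obtain ⟨w, hw1, hw2⟩ := Finset.not_disjoint_iff.1 hmeet
  have s1 : VS σ1 ⊆ VS σ1 ∩ VS σ2 := by
    rcases closed_set hG hx hun h1 hσ1 hne1 _ x1 with h | h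
    · exact absurd hw1 (Finset.disjoint_left.1 h (Finset.mem_inter.2 ⟨hw1, hw2⟩))
    · exact h
  have s2 : VS σ2 ⊆ VS σ1 ∩ VS σ2 := by
    rcases closed_set hG hx hun h2 hσ2 hne2 _ x2 with h | h
    · exact absurd hw2 (Finset.disjoint_left.1 h (Finset.mem_inter.2 ⟨hw1, hw2⟩))
    · exact h
  have heq : VS σ1 = VS σ2 := by
    apply Finset.Subset.antisymm
    · exact s1.trans Finset.inter_subset_right
    · exact s2.trans Finset.inter_subset_left
  rcases blob hG hx h1 hσ1 hne1 with ⟨h, -⟩ | ⟨-, ⟨v, v1, v2, v3⟩, ⟨w', w1, w2, w3⟩⟩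
  · exact ⟨h, by rw [← heq]; exact h⟩
  · exfalso
    apply hne
    have p1m : p1 ∈ VS σ2 := by
      rw [← heq]; exact mem_VS.2 ⟨l1, hne1⟩
    have l1m : l1 ∈ VS σ2 := by
      rw [← heq]; exact mem_VS.2 ⟨p1, by rw [hσ1.symm]; exact hne1⟩
    have z1 : σ2 p1 v = 0 := by
      by_contra h
      apply v3
      rw [heq]
      exact mem_VS.2 ⟨p1, by rw [hσ2.symm]; exact h⟩
    have z2 : σ2 l1 w' = 0 := by
      by_contra h
      apply w3
      rw [heq]
      exact mem_VS.2 ⟨l1, by rw [hσ2.symm]; exact h⟩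
    have e1 : p1 = p2 := by
      by_contra h
      have h' : p1 ≠ l2 := fun e => by
        rw [e, b2] at a1
        exact absurd a1 (by decide)
      exact full_nb hG hx hc2 hσ2 p1m h h' v v1 z1
    have e2 : l1 = l2 := by
      by_contra h
      have h' : l1 ≠ p2 := fun e => by
        rw [e, b1] at a2
        exact absurd a2 (by decide)
      exact full_nb hG hx hc2 hσ2 l1m h' h w' w1 z2
    rw [e1, e2]

end Pool.Agent.NCfg
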