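import Pool.Agent.Lib.MP_372a40_co.CaseI
import Pool.Agent.Lib.MP_372a40_co.CaseII

/-! # UPPER -/

open Matrix Finset

set_option linter.unusedSectionVars false
set_option linter.unusedVariables false

namespace Pool.Agent.NCfg

variable {V : Type} [Fintype V] [DecidableEq V]

theorem upper {G : SimpleGraph V} {cls : V → Bool} (hG : Cubic G cls) {x0 : V → Vec} (hx0 : HRep G cls x0) :
    ∃ x, HRep G cls x ∧ ((Unw G cls x).card ≤ 1 ∨ 18 * (Unw G cls x).card ≤ Fintype.card V) := by
  by_cases h : ∃ x, HRep G cls x ∧ Unstressed G x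
  · obtain ⟨x, hx, hu⟩ := h
    exact caseI hG hx hu
  · push Not at h
    obtain ⟨x, hx, hu⟩ := caseII hG h hx0
    exact ⟨x, hx, Or.inl (by simp [hu])⟩

end Pool.Agent.NCfg
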