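import Pool.Agent.Lib.MP_372a40_co.Lower
import Pool.Agent.Lib.MP_372a40_co.Upper

/-! # FINAL -/

open Matrix Finset

namespace Pool.Agent.NCfg

theorem upper_config {n : ℕ} (C : Config (Fin n) (Fin n)) (hC : C.Connected) (hR : Nonempty C.Rep) :
    C.u ≤ 1 ∨ 9 * C.u ≤ n := by
  obtain ⟨R⟩ := hR
  obtain ⟨x0, hx0⟩ := C.toHRep R
  obtain ⟨x, hx, h⟩ := upper (C.cubic hC) hx0
  obtain ⟨R', hR'⟩ := C.ofHRep hx
  have hle : C.u ≤ (Unw C.levi Sum.isLeft x).card := by
    rw [← hR']; exact Nat.sInf_le ⟨R', rfl⟩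
  rcases h with h | h
  · left; omega
  · right
    have : Fintype.card (Fin n ⊕ Fin n) = 2 * n := by simp; ring
    omega

/-- `c* = 1/9`: the set of admissible constants has greatest element `1/9`. -/
theorem main : IsGreatest {c : ℝ | 0 ≤ c ∧ Forced c} (1 / 9) := by
  constructor
  · refine ⟨by norm_num, fun N => ?_⟩
    obtain ⟨r0, h⟩ := lower
    obtain ⟨C, h1, h2, h3⟩ := h (max r0 N) (le_max_left _ _)
    refine ⟨9 * max r0 N, ?_, C, h1, h2, ?_⟩
    · have := le_max_right r0 N; omega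
    · have : ((max r0 N : ℕ) : ℝ) ≤ (C.u : ℝ) := by exact_mod_cast h3
      push_cast
      push_cast at this
      linarith
  · rintro c ⟨hc0, hc⟩
    by_contra hlt
    push Not at hlt
    obtain ⟨n, hn, C, h1, h2, h3⟩ := hc 10
    have hu := upper_config C h1 h2
    have hn' : (10 : ℝ) ≤ n := by exact_mod_cast hn
    rcases hu with hu | hu
    · have : (C.u : ℝ) ≤ 1 := by exact_mod_cast hu
      nlinarith
    · have : 9 * (C.u : ℝ) ≤ n := by exact_mod_cast hu
      nlinarith

end Pool.Agent.NCfg
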