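import Pool.Agent.Lib.MP_372a40_co.Defs

/-! # GEODESIC: shortest paths as functions (for TRIPOD) -/

open Finset

namespace Pool.Agent.NCfg

/-- A shortest walk from `a` to the set `A`, as a function `Q : ℕ → V` (take `A = {b}` for a shortest path from `a` to `b`). -/
theorem exists_geodesic {V : Type} (Γ : SimpleGraph V) (a : V) (A : Set V) (h : ∃ b ∈ A, Γ.Reachable a b) :
    ∃ (M : ℕ) (Q : ℕ → V), Q 0 = a ∧ Q M ∈ A ∧ (∀ j < M, Q j ∉ A) ∧ (∀ j < M, Γ.Adj (Q j) (Q (j + 1))) ∧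
      (∀ i j, i < j → j ≤ M → Q i ≠ Q j) ∧
      (∀ i j, i ≤ M → j ≤ M → Γ.Adj (Q i) (Q j) → i = j + 1 ∨ j = i + 1) ∧
      (∀ i, i ≤ M → ∀ b ∈ A, Γ.Adj (Q i) b → M ≤ i + 1) ∧
      (∀ i j z, i ≤ M → j ≤ M → Γ.Adj (Q i) z → Γ.Adj z (Q j) → j ≤ i + 2) := by
  classical
  have hex : ∃ m : ℕ, ∃ b ∈ A, ∃ w : Γ.Walk a b, w.length = m := by
    obtain ⟨b, hb, ⟨w⟩⟩ := h
    exact ⟨w.length, b, hb, w, rfl⟩
  obtain ⟨b, hb, p, hp⟩ := Nat.find_spec hex
  have hmin : ∀ c ∈ A, ∀ w : Γ.Walk a c, p.length ≤ w.length := by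
    intro c hc w
    rw [hp]
    exact Nat.find_min' hex ⟨c, hc, w, rfl⟩
  have key2 : ∀ i, i ≤ p.length → ∀ c ∈ A, ∀ w : Γ.Walk (p.getVert i) c, p.length ≤ i + w.length := by
    intro i hi c hc w
    have h1 := hmin c hc ((p.take i).append w)
    rw [SimpleGraph.Walk.length_append, SimpleGraph.Walk.take_length] at h1
    rw [min_eq_left hi] at h1
    exact h1
  have key : ∀ i j, i ≤ p.length → j ≤ p.length → ∀ w : Γ.Walk (p.getVert i) (p.getVert j),
      j ≤ i + w.length := by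
    intro i j hi hj w
    have h1 := key2 i hi b hb (w.append (p.drop j))
    rw [SimpleGraph.Walk.length_append, SimpleGraph.Walk.drop_length] at h1
    omega
  refine ⟨p.length, p.getVert, p.getVert_zero, ?_, ?_, ?_, ?_, ?_, ?_, ?_⟩
  · rw [SimpleGraph.Walk.getVert_length]
    exact hb
  · intro j hj hA
    have := key2 j hj.le _ hA SimpleGraph.Walk.nil
    simp only [SimpleGraph.Walk.length_nil] at this
    omega
  · intro j hj
    exact p.adj_getVert_succ hj
  · intro i j hij hj heq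
    have := key i j (hij.le.trans hj) hj (SimpleGraph.Walk.nil.copy rfl heq)
    simp only [SimpleGraph.Walk.length_copy, SimpleGraph.Walk.length_nil] at this
    omega
  · intro i j hi hj hadj
    have h1 := key i j hi hj hadj.toWalk
    have h2 := key j i hj hi hadj.symm.toWalk
    simp only [SimpleGraph.Walk.length_cons, SimpleGraph.Walk.length_nil,
      SimpleGraph.Adj.toWalk] at h1 h2
    have h3 : i ≠ j := by
      rintro rfl
      exact hadj.ne rfl
    omega
  · intro i hi c hc hadj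
    have h1 := key2 i hi c hc hadj.toWalk
    simpa [SimpleGraph.Adj.toWalk] using h1
  · intro i j z hi hj h1 h2
    have h3 := key i j hi hj (SimpleGraph.Walk.cons h1 h2.toWalk)
    simpa [SimpleGraph.Adj.toWalk] using h3

end Pool.Agent.NCfg
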