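import Pool.Agent.Lib.MP_372a40_co.Defs

/-! # LINFAM: linear motions of the arms (notes 2.1) -/

open Matrix Finset

set_option linter.unusedSectionVars false
set_option linter.unusedVariables false

namespace Pool.Agent.NCfg

variable {V : Type} [Fintype V] [DecidableEq V]

/-- Linear maps `Lm k j` giving the position of `v k j` when the vertex `p` is at `q` and everything outside the arms is fixed. -/
structure IsLinFam {G : SimpleGraph V} {p w : V} (S : Arms G p w) (x : V → Vec)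
    (Lm : Fin 3 → ℕ → (Vec →ₗ[ℝ] Vec)) : Prop where
  zero : ∀ k, Lm k 0 = LinearMap.id
  base : ∀ k j, j ≤ S.r k → Lm k j (x p) = x (S.v k j)
  edge : ∀ k j, j + 1 ≤ S.r k → ∀ q, Lm k j q ⬝ᵥ Lm k (j + 1) q = 0
  off : ∀ k j, 1 ≤ j → j ≤ S.r k → ∀ q, Lm k j q ⬝ᵥ x (S.m k j) = 0
  ker : ∀ k j, 1 ≤ j → j ≤ S.r k → Lm k j (x (S.m k 1)) = 0

/-- `Lm k (j+1) q = c • (x (m k (j+1)) ⨯₃ Lm k j q)`: `v k j` and `m k (j+1)` are two distinct neighbours of `v k (j+1)`, so
`x (v k (j+1))` is a nonzero multiple of `x (m k (j+1)) ⨯₃ x (v k j)`. -/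
theorem exists_linFam {G : SimpleGraph V} {cls : V → Bool} {x : V → Vec} (hG : Cubic G cls) (hx : HRep G cls x)
    {p w : V} (S : Arms G p w) : ∃ Lm, IsLinFam S x Lm := by
  have hbool : ∀ a b c : Bool, a ≠ c → b ≠ c → a = b := by decide
  have hc : ∀ k j, ∃ c : ℝ, j + 1 ≤ S.r k →
      x (S.v k (j + 1)) = c • (x (S.m k (j + 1)) ⨯₃ x (S.v k j)) := by
    intro k j
    by_cases hj : j + 1 ≤ S.r k
    · have hm : G.Adj (S.v k (j + 1)) (S.m k (j + 1)) := S.moff k (j + 1) (by omega) hj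
      have hv : G.Adj (S.v k j) (S.v k (j + 1)) := S.adj k j (by omega)
      have hne : S.m k (j + 1) ≠ S.v k j := S.mout k (j + 1) (by omega) hj k j (by omega)
      have hcls : cls (S.m k (j + 1)) = cls (S.v k j) :=
        hbool _ _ _ (hG.bip _ _ hm).symm (hG.bip _ _ hv)
      obtain ⟨t, ht⟩ := eq_smul_cross (hx.ind _ _ hne hcls) (hx.inc _ _ hm) (hx.inc _ _ hv.symm)
      exact ⟨t, fun _ => ht⟩
    · exact ⟨0, fun h => absurd h hj⟩
  choose c hc using hc
  let Lm : Fin 3 → ℕ → (Vec →ₗ[ℝ] Vec) := fun k j =>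
    Nat.rec (motive := fun _ => Vec →ₗ[ℝ] Vec) LinearMap.id
      (fun j L => c k j • (crossProduct (x (S.m k (j + 1)))).comp L) j
  have hsucc : ∀ k j q, Lm k (j + 1) q = c k j • (x (S.m k (j + 1)) ⨯₃ Lm k j q) :=
    fun k j q => rfl
  refine ⟨Lm, fun k => rfl, ?_, ?_, ?_, ?_⟩
  · intro k j
    induction j with
    | zero => intro _; rw [S.v0]; rfl
    | succ j ih =>
      intro hj
      rw [hsucc, ih (by omega), ← hc k j hj]
  · intro k j hj q
    rw [hsucc, dotProduct_smul, dot_cross_self, smul_zero]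
  · intro k j h1 hj q
    obtain ⟨i, rfl⟩ : ∃ i, j = i + 1 := ⟨j - 1, by omega⟩
    rw [hsucc, smul_dotProduct, dotProduct_comm, dot_self_cross, smul_zero]
  · intro k j h1 hj
    induction j with
    | zero => omega
    | succ j ih =>
      rw [hsucc]
      rcases Nat.eq_zero_or_pos j with h0 | h0
      · subst h0
        have : Lm k 0 (x (S.m k 1)) = x (S.m k 1) := rfl
        rw [this, zero_add, cross_self, smul_zero]
      · rw [ih (by omega) (by omega), map_zero, smul_zero]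

open Classical in
/-- The positions of all vertices when `p` is at `q`. -/
noncomputable def thetaX {G : SimpleGraph V} {p w : V} (S : Arms G p w) (x : V → Vec)
    (Lm : Fin 3 → ℕ → (Vec →ₗ[ℝ] Vec)) (c : ℝ) (q : Vec) (v : V) : Vec :=
  if v = w then c • (Lm 0 (S.r 0) q ⨯₃ Lm 1 (S.r 1) q)
  else if h : ∃ k j, j ≤ S.r k ∧ v = S.v k j then Lm h.choose h.choose_spec.choose q
  else x v

theorem thetaX_w {G : SimpleGraph V} {p w : V} (S : Arms G p w) (x : V → Vec)
    (Lm : Fin 3 → ℕ → (Vec →ₗ[ℝ] Vec)) (c : ℝ) (q : Vec) :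
    thetaX S x Lm c q w = c • (Lm 0 (S.r 0) q ⨯₃ Lm 1 (S.r 1) q) := by
  simp [thetaX]

theorem thetaX_v {G : SimpleGraph V} {p w : V} (S : Arms G p w) (x : V → Vec)
    (Lm : Fin 3 → ℕ → (Vec →ₗ[ℝ] Vec)) (hL : IsLinFam S x Lm) (c : ℝ) (q : Vec) (k : Fin 3) (j : ℕ) (hj : j ≤ S.r k) :
    thetaX S x Lm c q (S.v k j) = Lm k j q := by
  have hw : S.v k j ≠ w := by
    rcases Nat.eq_zero_or_pos j with h0 | h0
    · subst h0
      rw [S.v0]
      exact S.pw
    · exact (S.vne k j h0 hj).2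
  have hex : ∃ k' j', j' ≤ S.r k' ∧ S.v k j = S.v k' j' := ⟨k, j, hj, rfl⟩
  unfold thetaX
  rw [if_neg hw, dif_pos hex]
  obtain ⟨h1, h2⟩ := hex.choose_spec.choose_spec
  generalize hex.choose_spec.choose = j' at h1 h2 ⊢
  generalize hex.choose = k' at h1 h2 ⊢
  rcases Nat.eq_zero_or_pos j with h0 | h0
  · subst h0
    have h3 : j' = 0 := by
      by_contra h3
      rw [S.v0] at h2
      exact (S.vne k' j' (Nat.pos_of_ne_zero h3) h1).1 h2.symm
    subst h3
    rw [hL.zero, hL.zero]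
  · have h3 : 1 ≤ j' := by
      by_contra h3
      have h4 : j' = 0 := by omega
      subst h4
      rw [S.v0] at h2
      exact (S.vne k j h0 hj).1 h2
    obtain ⟨h4, h5⟩ := S.inj k j k' j' h0 hj h3 h1 h2
    subst h4
    subst h5
    rfl

theorem thetaX_out {G : SimpleGraph V} {p w : V} (S : Arms G p w) (x : V → Vec)
    (Lm : Fin 3 → ℕ → (Vec →ₗ[ℝ] Vec)) (c : ℝ) (q : Vec) (v : V) (hv : ∀ k j, j ≤ S.r k + 1 → S.v k j ≠ v) :
    thetaX S x Lm c q v = x v := by
  have hw : v ≠ w := by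
    intro h
    exact hv 0 (S.r 0 + 1) le_rfl (by rw [S.vw, h])
  have hex : ¬ ∃ k' j', j' ≤ S.r k' ∧ v = S.v k' j' := by
    rintro ⟨k', j', h1, h2⟩
    exact hv k' j' (by omega) h2.symm
  unfold thetaX
  rw [if_neg hw, dif_neg hex]

theorem thetaX_continuous {G : SimpleGraph V} {p w : V} (S : Arms G p w) (x : V → Vec)
    (Lm : Fin 3 → ℕ → (Vec →ₗ[ℝ] Vec)) (c : ℝ) : Continuous (fun q => thetaX S x Lm c q) := by
  have hcont : ∀ k j, Continuous (fun q => Lm k j q) := fun k j =>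
    LinearMap.continuous_of_finiteDimensional _
  refine continuous_pi fun v => ?_
  unfold thetaX
  by_cases hw : v = w
  · simp only [if_pos hw]
    have h0 := hcont 0 (S.r 0)
    have h1 := hcont 1 (S.r 1)
    have h0' : ∀ i, Continuous (fun q => Lm 0 (S.r 0) q i) := fun i => (continuous_apply i).comp h0
    have h1' : ∀ i, Continuous (fun q => Lm 1 (S.r 1) q i) := fun i => (continuous_apply i).comp h1
    refine Continuous.const_smul ?_ c
    refine continuous_pi fun i => ?_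
    simp only [cross_apply]
    fin_cases i
    · exact ((h0' 1).mul (h1' 2)).sub ((h0' 2).mul (h1' 1))
    · exact ((h0' 2).mul (h1' 0)).sub ((h0' 0).mul (h1' 2))
    · exact ((h0' 0).mul (h1' 1)).sub ((h0' 1).mul (h1' 0))
  · simp only [if_neg hw]
    by_cases hex : ∃ k' j', j' ≤ S.r k' ∧ v = S.v k' j'
    · simp only [dif_pos hex]
      exact hcont _ _
    · simp only [dif_neg hex]
      exact continuous_const

end Pool.Agent.NCfg
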