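import Pool.Agent.Lib.MP_372a40_co.NeckRep
import Pool.Agent.Lib.MP_372a40_co.Conv

/-! # LOWER: long necklaces have `u ≥ n / 9` -/

open Matrix Finset

set_option linter.unusedSectionVars false
set_option linter.unusedVariables false

namespace Pool.Agent.NCfg

section transport

variable {P L P' L' : Type}

/-- Relabelling a configuration. -/
private def lowTr (C : Config P L) (e : P ≃ P') (f : L ≃ L') : Config P' L' where
  inc p l := C.inc (e.symm p) (f.symm l)
  line_three := by
    intro l
    have h : {p | C.inc (e.symm p) (f.symm l)} = e '' {p | C.inc p (f.symm l)} := by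
      ext p
      simp only [Set.mem_setOf_eq, Set.mem_image]
      constructor
      · intro h
        exact ⟨e.symm p, h, e.apply_symm_apply p⟩
      · rintro ⟨q, hq, rfl⟩
        rwa [e.symm_apply_apply]
    rw [h, Set.ncard_image_of_injective _ e.injective]
    exact C.line_three _
  point_three := by
    intro p
    have h : {l | C.inc (e.symm p) (f.symm l)} = f '' {l | C.inc (e.symm p) l} := by
      ext l
      simp only [Set.mem_setOf_eq, Set.mem_image]
      constructor
      · intro h
        exact ⟨f.symm l, h, f.apply_symm_apply l⟩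
      · rintro ⟨q, hq, rfl⟩
        rwa [f.symm_apply_apply]
    rw [h, Set.ncard_image_of_injective _ f.injective]
    exact C.point_three _
  linear := by
    intro p q hpq l m h1 h2 h3 h4
    have h5 := C.linear (e.symm p) (e.symm q) (fun h => hpq (e.symm.injective h)) _ _ h1 h2 h3 h4
    exact f.symm.injective h5

private theorem lowTr_connected (C : Config P L) (e : P ≃ P') (f : L ≃ L')
    (hC : C.Connected) : (lowTr C e f).Connected := by
  unfold Config.Connected at hC ⊢
  have h : C.levi ≃g (lowTr C e f).levi :=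
    { toEquiv := Equiv.sumCongr e f
      map_rel_iff' := by
        intro u v
        cases u <;> cases v <;> simp [Config.levi, lowTr] }
  exact (SimpleGraph.Iso.connected_iff h).1 hC

private def lowRep (C : Config P L) (e : P ≃ P') (f : L ≃ L') (R : C.Rep) :
    (lowTr C e f).Rep where
  pt p := R.pt (e.symm p)
  ln l := R.ln (f.symm l)
  pt_inj := R.pt_inj.comp e.symm.injective
  ln_inj := R.ln_inj.comp f.symm.injective
  ln_nonempty l := R.ln_nonempty _
  ln_dim l := R.ln_dim _
  inc_mem p l h := R.inc_mem _ _ h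

private def lowRepInv (C : Config P L) (e : P ≃ P') (f : L ≃ L') (R : (lowTr C e f).Rep) :
    C.Rep where
  pt p := R.pt (e p)
  ln l := R.ln (f l)
  pt_inj := R.pt_inj.comp e.injective
  ln_inj := R.ln_inj.comp f.injective
  ln_nonempty l := R.ln_nonempty _
  ln_dim l := R.ln_dim _
  inc_mem p l h := R.inc_mem _ _ (by simpa [lowTr] using h)

private theorem lowRepInv_unwanted (C : Config P L) (e : P ≃ P') (f : L ≃ L')
    (R : (lowTr C e f).Rep) : (lowRepInv C e f R).unwanted = R.unwanted := by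
  unfold Config.Rep.unwanted
  have h : {g : P' × L' | R.pt g.1 ∈ R.ln g.2 ∧ ¬ (lowTr C e f).inc g.1 g.2} =
      (Equiv.prodCongr e f) '' {g : P × L | (lowRepInv C e f R).pt g.1 ∈
        (lowRepInv C e f R).ln g.2 ∧ ¬ C.inc g.1 g.2} := by
    ext ⟨p, l⟩
    simp only [Set.mem_setOf_eq, Set.mem_image, Prod.exists]
    constructor
    · rintro ⟨h1, h2⟩
      refine ⟨e.symm p, f.symm l, ⟨?_, h2⟩, by simp⟩
      simpa [lowRepInv] using h1
    · rintro ⟨q, m, ⟨h1, h2⟩, h3⟩
      simp only [Equiv.prodCongr_apply, Prod.map_apply, Prod.mk.injEq] at h3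
      obtain ⟨rfl, rfl⟩ := h3
      exact ⟨h1, by simpa [lowTr] using h2⟩
  rw [h, Set.ncard_image_of_injective _ (Equiv.injective _)]

end transport

private theorem low_unwanted (r : ℕ) (hr : 2 ≤ r) [NeZero r] (R : (neck r hr).Rep) :
    r ≤ R.unwanted := by
  obtain ⟨x, hx, hiff⟩ := (neck r hr).toHRep' R
  have hadj : ∀ p l, neckInc r p l → (neck r hr).levi.Adj (Sum.inl p) (Sum.inr l) :=
    fun p l h => Or.inl ⟨p, l, rfl, rfl, h⟩
  have h1 : ∀ i : ZMod r, R.pt (i, 8) ∈ R.ln (i, 2) := by
    intro i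
    rw [hiff]
    refine pappus (fun a => x (Sum.inl (i, a))) (fun b => x (Sum.inr (i, b))) ?_ ?_ ?_
    · intro a b hab
      exact hx.ind _ _ (by simp [hab]) rfl
    · intro a b hab
      exact hx.ind _ _ (by simp [hab]) rfl
    · intro a b hab hne
      exact hx.inc _ _ (hadj _ _ (Or.inl ⟨rfl, hab, hne⟩))
  have h2 : ∀ i : ZMod r, ¬ neckInc r (i, 8) (i, 2) := by
    rintro i (⟨-, -, h⟩ | ⟨h, -⟩)
    · exact h ⟨rfl, rfl⟩
    · have : Fact (1 < r) := ⟨hr⟩
      simp at h
  have hsub : Set.range (fun i : ZMod r => (((i, 8), (i, 2)) : (ZMod r × Fin 9) × (ZMod r × Fin 9))) ⊆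
      {e | R.pt e.1 ∈ R.ln e.2 ∧ ¬ (neck r hr).inc e.1 e.2} := by
    rintro _ ⟨i, rfl⟩
    exact ⟨h1 i, h2 i⟩
  have hinj : Function.Injective
      (fun i : ZMod r => (((i, 8), (i, 2)) : (ZMod r × Fin 9) × (ZMod r × Fin 9))) := by
    intro i j h
    simp only [Prod.mk.injEq] at h
    exact h.1.1
  calc r = (Set.range (fun i : ZMod r =>
        (((i, 8), (i, 2)) : (ZMod r × Fin 9) × (ZMod r × Fin 9)))).ncard := by
        rw [← Set.image_univ, Set.ncard_image_of_injective _ hinj, Set.ncard_univ,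
          Nat.card_eq_fintype_card, ZMod.card]
    _ ≤ R.unwanted := Set.ncard_le_ncard hsub (Set.toFinite _)

/-- Transport `neck r hr` to `Fin (9 * r)`; connected by `neck_connected`; a representation by `neck_hrep` and `Config.ofHRep`;
by `Config.toHRep'` and `pappus` every representation has the `r` unwanted incidences `((i, 8), (i, 2))`. -/
theorem lower : ∃ r0 : ℕ, ∀ r, r0 ≤ r → ∃ C : Config (Fin (9 * r)) (Fin (9 * r)),
    C.Connected ∧ Nonempty C.Rep ∧ r ≤ C.u := by
  obtain ⟨r0, h0⟩ := neck_hrep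
  refine ⟨max r0 2, fun r hr => ?_⟩
  have hr2 : 2 ≤ r := (le_max_right _ _).trans hr
  have hr0 : r0 ≤ r := (le_max_left _ _).trans hr
  haveI : NeZero r := ⟨by omega⟩
  obtain ⟨a1, a2, a3⟩ := h0 r hr0 hr2
  have hcard : Fintype.card (ZMod r × Fin 9) = 9 * r := by
    rw [Fintype.card_prod, ZMod.card, Fintype.card_fin, mul_comm]
  let e : ZMod r × Fin 9 ≃ Fin (9 * r) := Fintype.equivFinOfCardEq hcard
  have hH : HRep (neck r hr2).levi Sum.isLeft (neckX r) := by
    refine ⟨?_, a2, a3⟩
    rintro u v (⟨p, l, rfl, rfl, h⟩ | ⟨p, l, rfl, rfl, h⟩)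
    · exact a1 p l h
    · rw [dotProduct_comm]
      exact a1 p l h
  obtain ⟨R, -⟩ := (neck r hr2).ofHRep hH
  have hne : Nonempty (lowTr (neck r hr2) e e).Rep := ⟨lowRep _ e e R⟩
  refine ⟨lowTr (neck r hr2) e e, lowTr_connected _ e e (neck_connected r hr2), hne, ?_⟩
  unfold Config.u
  refine le_csInf (Set.range_nonempty _) ?_
  rintro _ ⟨R', rfl⟩
  simp only
  rw [← lowRepInv_unwanted]
  exact low_unwanted r hr2 _

end Pool.Agent.NCfg
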