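import Pool.Agent.Lib.MP_372a40_co.Defs

/-! # NEAR: open conditions -/

open Matrix Finset Topology

set_option linter.unusedSectionVars false
set_option linter.unusedVariables false

namespace Pool.Agent.NCfg

variable {V : Type} [Fintype V] [DecidableEq V]

theorem HRep.ne_zero {G : SimpleGraph V} {cls : V → Bool} {x : V → Vec} (hx : HRep G cls x) (u : V) : x u ≠ 0 := by
  have h := hx.aff u
  intro h0
  rw [h0] at h
  cases hc : cls u <;> simp [hc, Aff] at h

/-- Non-incidences persist under small perturbations. -/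
theorem near_unw (G : SimpleGraph V) (cls : V → Bool) (x : V → Vec) :
    ∀ᶠ x' in 𝓝 x, Unw G cls x' ⊆ Unw G cls x := by
  have h : ∀ p l : V, ∀ᶠ x' in 𝓝 x, x p ⬝ᵥ x l ≠ 0 → x' p ⬝ᵥ x' l ≠ 0 := by
    intro p l
    by_cases h0 : x p ⬝ᵥ x l = 0
    · exact Filter.Eventually.of_forall fun x' h1 => absurd h0 h1
    · have hc : Continuous fun x' : V → Vec => x' p ⬝ᵥ x' l :=
        Continuous.dotProduct (continuous_apply p) (continuous_apply l)
      filter_upwards [hc.continuousAt.eventually_ne h0] with x' h1 _
      exact h1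
  filter_upwards [Filter.eventually_all.2 fun p => Filter.eventually_all.2 fun l => h p l]
    with x' hx'
  rintro ⟨p, l⟩ hpl
  rw [mem_Unw] at hpl ⊢
  refine ⟨hpl.1, hpl.2.1, hpl.2.2.1, ?_⟩
  by_contra h0
  exact hx' p l h0 hpl.2.2.2

/-- The open conditions of a representation persist. -/
theorem near_rep {G : SimpleGraph V} {cls : V → Bool} {x : V → Vec} (hx : HRep G cls x) :
    ∀ᶠ x' in 𝓝 x, (∀ u v, G.Adj u v → x' u ⬝ᵥ x' v = 0) → HRep G cls x' := by
  have h1 : ∀ u v : V, ∀ᶠ x' in 𝓝 x, u ≠ v → cls u = cls v → x' u ⨯₃ x' v ≠ 0 := by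
    intro u v
    by_cases h0 : x u ⨯₃ x v = 0
    · exact Filter.Eventually.of_forall fun x' h1 h2 => absurd h0 (hx.ind u v h1 h2)
    · have hc : Continuous fun x' : V → Vec => x' u ⨯₃ x' v := by
        simp only [cross_apply]
        fun_prop
      filter_upwards [hc.continuousAt.eventually_ne h0] with x' h2 _ _
      exact h2
  have h2 : ∀ v : V, ∀ᶠ x' in 𝓝 x, Aff (cls v) (x' v) := by
    intro v
    have hc : ∀ i : Fin 3, Continuous fun x' : V → Vec => x' v i := fun i =>
      (continuous_apply i).comp (continuous_apply v)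
    have h3 := hx.aff v
    cases hcls : cls v with
    | true =>
      rw [hcls] at h3
      exact (hc 2).continuousAt.eventually_ne h3
    | false =>
      rw [hcls] at h3
      rcases h3 with h3 | h3
      · filter_upwards [(hc 0).continuousAt.eventually_ne h3] with x' h4
        exact Or.inl h4
      · filter_upwards [(hc 1).continuousAt.eventually_ne h3] with x' h4
        exact Or.inr h4
  filter_upwards [Filter.eventually_all.2 fun u => Filter.eventually_all.2 fun v => h1 u v,
    Filter.eventually_all.2 h2] with x' h3 h4 h5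
  exact ⟨h5, h3, h4⟩

/-- Being unstressed is an open condition (compactness of the unit sphere of the space of all `σ : V → V → ℝ`, or openness of
linear independence). -/
theorem near_unstressed {G : SimpleGraph V} {x : V → Vec} (hun : Unstressed G x) :
    ∀ᶠ x' in 𝓝 x, Unstressed G x' := by
  have hK : IsCompact (Metric.sphere (0 : V → V → ℝ) 1) := isCompact_sphere 0 1
  have hP : ∀ σ ∈ Metric.sphere (0 : V → V → ℝ) 1, ∀ᶠ z : (V → Vec) × (V → V → ℝ) in 𝓝 (x, σ),
      ¬ Stress G.Adj z.1 z.2 := by
    intro σ hσ
    have hc : ∀ u v : V, Continuous fun z : (V → Vec) × (V → V → ℝ) => z.2 u v := fun u v =>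
      (continuous_apply v).comp ((continuous_apply u).comp continuous_snd)
    by_cases h1 : ∀ u v, σ u v = σ v u
    · by_cases h2 : ∀ u v, σ u v ≠ 0 → G.Adj u v
      · by_cases h3 : ∀ u, ∑ v, σ u v • x v = 0
        · exfalso
          have h4 := hun σ ⟨h1, h2, h3⟩
          have h5 : σ = 0 := by
            ext u v
            exact h4 u v
          rw [h5] at hσ
          simp at hσ
        · push Not at h3
          obtain ⟨u, hu⟩ := h3
          have hc2 : Continuous fun z : (V → Vec) × (V → V → ℝ) => ∑ v, z.2 u v • z.1 v :=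
            continuous_finsetSum _ fun v _ => (hc u v).smul
              ((continuous_apply v).comp continuous_fst)
          filter_upwards [hc2.continuousAt.eventually_ne hu] with z hz hS
          exact hz (hS.eq u)
      · push Not at h2
        obtain ⟨u, v, h3, h4⟩ := h2
        filter_upwards [(hc u v).continuousAt.eventually_ne h3] with z hz hS
        exact h4 (hS.supp u v hz)
    · push Not at h1
      obtain ⟨u, v, h2⟩ := h1
      have hc2 : Continuous fun z : (V → Vec) × (V → V → ℝ) => z.2 u v - z.2 v u :=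
        (hc u v).sub (hc v u)
      filter_upwards [hc2.continuousAt.eventually_ne (sub_ne_zero.2 h2)] with z hz hS
      exact hz (sub_eq_zero.2 (hS.symm u v))
  filter_upwards [hK.eventually_forall_of_forall_eventually
    (P := fun x' σ => ¬ Stress G.Adj x' σ) hP] with x' hx' σ hσ
  by_contra hne
  push Not at hne
  obtain ⟨u, v, huv⟩ := hne
  have h0 : σ ≠ 0 := by
    rintro rfl
    exact huv rfl
  have hn : ‖σ‖ ≠ 0 := norm_ne_zero_iff.2 h0
  refine hx' (‖σ‖⁻¹ • σ) ?_ ⟨?_, ?_, ?_⟩
  · rw [mem_sphere_zero_iff_norm, norm_smul, norm_inv, norm_norm, inv_mul_cancel₀ hn]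
  · intro a b
    simp only [Pi.smul_apply, hσ.symm a b]
  · intro a b hab
    refine hσ.supp a b fun h => hab ?_
    simp only [Pi.smul_apply, h, smul_zero]
  · intro a
    simp only [Pi.smul_apply, smul_assoc]
    rw [← Finset.smul_sum, hσ.eq a, smul_zero]

end Pool.Agent.NCfg
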