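import Pool.Agent.Lib.MP_372a40_co.Necklace

/-! # NECKREP: real representation of long necklaces (notes, section 3) -/

open Matrix Finset Real

set_option linter.unusedSectionVars false
set_option linter.unusedVariables false

namespace Pool.Agent.NCfg

/-- Points of the base drawing of the Pappus configuration (homogeneous). -/
def bp : Fin 9 → Vec
  | 0 => ![4, 3, 1]
  | 1 => ![3, -1, 1]
  | 2 => ![5, -6, 2]
  | 3 => ![10, -8, 1]
  | 4 => ![-5, -3, 1]
  | 5 => ![-1, -9, 2]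
  | 6 => ![1, -3, 1]
  | 7 => ![1, -2, 1]
  | 8 => ![1, 1, 1]

/-- Lines of the base drawing: `v 0 * X + v 1 * Y + v 2 * Z = 0`. -/
def bl : Fin 9 → Vec
  | 0 => ![4, -1, -13]
  | 1 => ![1, 3, 14]
  | 2 => ![1, 0, -1]
  | 3 => ![1, -1, -4]
  | 4 => ![0, 1, 3]
  | 5 => ![5, -3, -11]
  | 6 => ![2, 3, 4]
  | 7 => ![2, -3, 1]
  | 8 => ![1, 1, -2]

/-- Rotation by `t` of the first two coordinates. -/
noncomputable def rot (t : ℝ) (v : Vec) : Vec := ![cos t * v 0 - sin t * v 1, sin t * v 0 + cos t * v 1, v 2]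

/-- Homogeneous coordinates of the necklace. With `τ = tan (π / r)` and `t = 2 π i / r`: the point `(i, a)` is the rotation by `t` of
`(x, τ y, z)` and the line `(i, b)` is the rotation by `t` of `(τ α, β, τ δ)`. -/
noncomputable def neckX (r : ℕ) : (ZMod r × Fin 9) ⊕ (ZMod r × Fin 9) → Vec
  | Sum.inl (i, a) => rot (2 * π * (i.val : ℝ) / r) ![bp a 0, tan (π / r) * bp a 1, bp a 2]
  | Sum.inr (i, b) => rot (2 * π * (i.val : ℝ) / r) ![tan (π / r) * bl b 0, bl b 1, tan (π / r) * bl b 2]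

theorem neckRep_sq (t : ℝ) (v : Vec) : (rot t v 0) ^ 2 + (rot t v 1) ^ 2 = v 0 ^ 2 + v 1 ^ 2 := by
  simp only [rot, cons_val_zero, cons_val_one]
  have := sin_sq_add_cos_sq t
  linear_combination (v 0 ^ 2 + v 1 ^ 2) * this

theorem neckRep_two (t : ℝ) (v : Vec) : rot t v 2 = v 2 := by
  simp [rot]

/-- parallel vectors have proportional norms -/
theorem neckRep_par {v w : Vec} (h : v ⨯₃ w = 0) :
    v 1 * w 2 = v 2 * w 1 ∧ v 2 * w 0 = v 0 * w 2 := by
  have h0 := congrFun h 0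
  have h1 := congrFun h 1
  simp only [cross_apply, cons_val_zero, cons_val_one, Pi.zero_apply] at h0 h1
  constructor <;> linarith

theorem neckRep_norm {s t : ℝ} {v w : Vec} (h : rot s v ⨯₃ rot t w = 0) :
    (v 0 ^ 2 + v 1 ^ 2) * w 2 ^ 2 = (w 0 ^ 2 + w 1 ^ 2) * v 2 ^ 2 := by
  obtain ⟨h1, h2⟩ := neckRep_par h
  rw [neckRep_two, neckRep_two] at h1 h2
  rw [← neckRep_sq s v, ← neckRep_sq t w]
  have e1 : (rot s v 1 * w 2) ^ 2 = (v 2 * rot t w 1) ^ 2 := by rw [h1]
  have e2 : (v 2 * rot t w 0) ^ 2 = (rot s v 0 * w 2) ^ 2 := by rw [h2]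
  nlinarith

/-- the same vector rotated by two angles -/
theorem neckRep_angle {s t : ℝ} {v : Vec} (h : rot s v ⨯₃ rot t v = 0) (h2 : v 2 ≠ 0)
    (h01 : v 0 ^ 2 + v 1 ^ 2 ≠ 0) : cos (s - t) = 1 := by
  obtain ⟨e1, e2⟩ := neckRep_par h
  rw [neckRep_two, neckRep_two] at e1 e2
  have f1 : rot s v 1 = rot t v 1 := by
    apply mul_right_cancel₀ h2
    linarith
  have f0 : rot s v 0 = rot t v 0 := by
    apply mul_right_cancel₀ h2
    linarith
  simp only [rot, cons_val_zero, cons_val_one] at f0 f1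
  rw [cos_sub]
  have key : (cos s * cos t + sin s * sin t) * (v 0 ^ 2 + v 1 ^ 2) = 1 * (v 0 ^ 2 + v 1 ^ 2) := by
    have ht := sin_sq_add_cos_sq t
    have e3 : (cos s * cos t + sin s * sin t) * (v 0 ^ 2 + v 1 ^ 2) =
        (cos s * v 0 - sin s * v 1) * (cos t * v 0 - sin t * v 1) +
        (sin s * v 0 + cos s * v 1) * (sin t * v 0 + cos t * v 1) := by ring
    rw [e3, f0, f1]
    linear_combination (v 0 ^ 2 + v 1 ^ 2) * ht
  exact mul_right_cancel₀ h01 key

theorem neckRep_dot (s t : ℝ) (v w : Vec) : rot s v ⬝ᵥ rot t w =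
    cos (t - s) * (v 0 * w 0 + v 1 * w 1) + sin (t - s) * (v 1 * w 0 - v 0 * w 1) + v 2 * w 2 := by
  rw [vec3_dotProduct, cos_sub, sin_sub]
  simp only [rot, cons_val_zero, cons_val_one, Matrix.cons_val]
  ring

/-- base incidences -/
theorem neckRep_base (a b : Fin 9) (h : pap a b) :
    bp a 0 * bl b 0 + bp a 1 * bl b 1 + bp a 2 * bl b 2 = 0 := by
  fin_cases b <;> fin_cases a <;>
    first
      | (exfalso; revert h; decide)
      | (simp [bp, bl]; try norm_num)

theorem neckRep_bp2 (a : Fin 9) : bp a 2 ≠ 0 := by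
  fin_cases a <;> simp [bp]

theorem neckRep_bp0 (a : Fin 9) : bp a 0 ≠ 0 := by
  fin_cases a <;> simp [bp]

theorem neckRep_bl2 (a : Fin 9) : bl a 2 ≠ 0 := by
  fin_cases a <;> simp [bl]

theorem neckRep_bl01 (a : Fin 9) : 0 < bl a 0 ^ 2 + bl a 1 ^ 2 := by
  fin_cases a <;> simp [bl] <;> norm_num

theorem neckRep_pts {T : ℝ} (h0 : 0 < T) (h1 : T < 1 / 400) (a b : Fin 9) (hab : a ≠ b) :
    (bp a 0 ^ 2 + T * bp a 1 ^ 2) * bp b 2 ^ 2 ≠ (bp b 0 ^ 2 + T * bp b 1 ^ 2) * bp a 2 ^ 2 := by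
  intro h
  fin_cases a <;> fin_cases b <;>
    first
      | exact absurd rfl hab
      | (simp [bp] at h; try linarith)

theorem neckRep_lns {T : ℝ} (h0 : 0 < T) (h1 : T < 1 / 400) (a b : Fin 9) (hab : a ≠ b) :
    (T * bl a 0 ^ 2 + bl a 1 ^ 2) * bl b 2 ^ 2 ≠ (T * bl b 0 ^ 2 + bl b 1 ^ 2) * bl a 2 ^ 2 := by
  intro h
  fin_cases a <;> fin_cases b <;>
    first
      | exact absurd rfl hab
      | (simp [bl] at h; try linarith)

/-- different angles -/
theorem neckRep_cos {r : ℕ} (hr : 2 ≤ r) {i j : ZMod r} (hij : i ≠ j) :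
    cos (2 * π * (i.val : ℝ) / r - 2 * π * (j.val : ℝ) / r) ≠ 1 := by
  have : NeZero r := ⟨by omega⟩
  intro h
  rw [cos_eq_one_iff] at h
  obtain ⟨n, hn⟩ := h
  have hr0 : (r : ℝ) ≠ 0 := Nat.cast_ne_zero.2 (by omega)
  have h1 : (n : ℝ) * r = (i.val : ℝ) - j.val := by
    have h2 : (2 * π) * ((n : ℝ) * r) = (2 * π) * ((i.val : ℝ) - j.val) := by
      field_simp at hn
      linear_combination (2 * π) * hn
    exact mul_left_cancel₀ two_pi_pos.ne' h2
  have h3 : (n : ℤ) * r = (i.val : ℤ) - j.val := by exact_mod_cast h1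
  have hi := ZMod.val_lt i
  have hj := ZMod.val_lt j
  have h4 : n = 0 := by
    by_contra hne
    rcases lt_or_gt_of_ne hne with h5 | h5
    · have : n * (r : ℤ) ≤ -1 * r := by
        apply mul_le_mul_of_nonneg_right (by omega) (by omega)
      omega
    · have : 1 * (r : ℤ) ≤ n * r := by
        apply mul_le_mul_of_nonneg_right (by omega) (by omega)
      omega
  rw [h4, zero_mul] at h3
  apply hij
  apply ZMod.val_injective
  omega

theorem neckRep_half {φ : ℝ} (h : cos (φ / 2) ≠ 0) : cos φ + tan (φ / 2) * sin φ = 1 := by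
  have e1 : φ = 2 * (φ / 2) := by ring
  have e2 : cos φ = 2 * cos (φ / 2) ^ 2 - 1 := by
    conv_lhs => rw [e1]
    rw [cos_two_mul]
  have e3 : sin φ = 2 * sin (φ / 2) * cos (φ / 2) := by
    conv_lhs => rw [e1]
    rw [sin_two_mul]
  rw [e2, e3, tan_eq_sin_div_cos]
  have := sin_sq_add_cos_sq (φ / 2)
  field_simp
  linear_combination 2 * this

theorem neckRep_next {r : ℕ} (hr : 2 ≤ r) (i : ZMod r) : ∃ m : ℤ,
    2 * π * ((i + 1).val : ℝ) / r - 2 * π * (i.val : ℝ) / r = 2 * π / r + m * (2 * π) := by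
  have : NeZero r := ⟨by omega⟩
  have h1 : (((i + 1).val : ℤ) : ZMod r) = (((i.val : ℤ) + 1 : ℤ) : ZMod r) := by
    push_cast
    rw [ZMod.natCast_zmod_val, ZMod.natCast_zmod_val]
  rw [ZMod.intCast_eq_intCast_iff_dvd_sub] at h1
  obtain ⟨m, hm⟩ := h1
  refine ⟨-m, ?_⟩
  have hm' : ((i.val : ℝ) + 1) - (i + 1).val = r * m := by exact_mod_cast hm
  have hr0 : (r : ℝ) ≠ 0 := Nat.cast_ne_zero.2 (by omega)
  have h2 : ((i + 1).val : ℝ) = i.val + 1 - r * m := by linarith
  rw [h2]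
  push_cast
  field_simp
  ring

theorem neckRep_small : ∃ r0 : ℕ, 3 ≤ r0 ∧ ∀ r : ℕ, r0 ≤ r → tan (π / r) ^ 2 < 1 / 400 := by
  have h1 : Filter.Tendsto (fun r : ℕ => tan (π / r) ^ 2) Filter.atTop (nhds (tan 0 ^ 2)) := by
    have h2 : Filter.Tendsto (fun r : ℕ => π / (r : ℝ)) Filter.atTop (nhds 0) :=
      tendsto_const_div_atTop_nhds_zero_nat π
    have h3 : ContinuousAt tan 0 := continuousAt_tan.2 (by simp)
    exact (h3.tendsto.comp h2).pow 2
  rw [tan_zero, zero_pow two_ne_zero] at h1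
  have h4 := h1.eventually (gt_mem_nhds (by norm_num : (0 : ℝ) < 1 / 400))
  obtain ⟨r0, hr0⟩ := Filter.eventually_atTop.1 h4
  exact ⟨max 3 r0, le_max_left _ _, fun r hr => hr0 r ((le_max_right _ _).trans hr)⟩

/-- For large `r` this is a representation.  Points `(i,a) ≠ (j,b)` with `a ≠ b` differ because `(x² + τ² y²) / z²` differ for small `τ`; with `a = b` because the
rotation angle differs. Lines: the same with `(τ δ)² / (τ² α² + β²)` (for the line 2 this is `1`). -/
theorem neck_hrep : ∃ r0 : ℕ, ∀ r, r0 ≤ r → ∀ hr : 2 ≤ r,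
    (∀ p l, neckInc r p l → neckX r (Sum.inl p) ⬝ᵥ neckX r (Sum.inr l) = 0) ∧
    (∀ u v : (ZMod r × Fin 9) ⊕ (ZMod r × Fin 9), u ≠ v → u.isLeft = v.isLeft → neckX r u ⨯₃ neckX r v ≠ 0) ∧
    (∀ u : (ZMod r × Fin 9) ⊕ (ZMod r × Fin 9), Aff u.isLeft (neckX r u)) := by
  obtain ⟨r0, hr3, hsm⟩ := neckRep_small
  refine ⟨r0, fun r hr hr2 => ?_⟩
  have hr3' : 3 ≤ r := hr3.trans hr
  have hrpos : (0 : ℝ) < r := by exact_mod_cast (by omega : 0 < r)
  have hr3r : (3 : ℝ) ≤ r := by exact_mod_cast hr3'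
  have ha0 : 0 < π / r := div_pos pi_pos hrpos
  have ha1 : π / r < π / 2 := by
    apply div_lt_div_of_pos_left pi_pos (by norm_num)
    linarith
  have hτ : 0 < tan (π / r) := tan_pos_of_pos_of_lt_pi_div_two ha0 ha1
  have hcos : cos (π / r) ≠ 0 := (cos_pos_of_mem_Ioo ⟨by linarith, ha1⟩).ne'
  have hT0 : 0 < tan (π / r) ^ 2 := by positivity
  have hT1 := hsm r hr
  refine ⟨?_, ?_, ?_⟩
  · rintro ⟨i, a⟩ ⟨j, b⟩ (⟨h1, h2, -⟩ | ⟨h1, h2, h3⟩)
    · simp only at h1 h2
      subst h1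
      simp only [neckX]
      rw [neckRep_dot, sub_self, cos_zero, sin_zero]
      simp only [cons_val_zero, cons_val_one, Matrix.cons_val]
      have := neckRep_base a b h2
      linear_combination tan (π / r) * this
    · simp only at h1 h2 h3
      subst h1; subst h2; subst h3
      simp only [neckX]
      rw [neckRep_dot]
      obtain ⟨m, hm⟩ := neckRep_next hr2 i
      rw [hm, cos_add_int_mul_two_pi, sin_add_int_mul_two_pi]
      simp only [cons_val_zero, cons_val_one, Matrix.cons_val, bp, bl]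
      have e1 : 2 * π / r / 2 = π / r := by ring
      have h4 := neckRep_half (φ := 2 * π / r) (by rw [e1]; exact hcos)
      rw [e1] at h4
      linear_combination tan (π / r) * h4
  · rintro (⟨i, a⟩ | ⟨i, a⟩) (⟨j, b⟩ | ⟨j, b⟩) hne hside hcr
    · simp only [neckX] at hcr
      by_cases hab : a = b
      · subst hab
        have hij : i ≠ j := fun h => hne (by rw [h])
        refine neckRep_cos hr2 hij (neckRep_angle hcr ?_ ?_)
        · simp only [Matrix.cons_val]
          exact neckRep_bp2 a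
        · simp only [cons_val_zero, cons_val_one]
          have := sq_pos_of_ne_zero (neckRep_bp0 a)
          positivity
      · have h1 := neckRep_norm hcr
        simp only [cons_val_zero, cons_val_one, Matrix.cons_val] at h1
        rw [mul_pow, mul_pow] at h1
        exact neckRep_pts hT0 hT1 a b hab h1
    · exact absurd hside (by simp)
    · exact absurd hside (by simp)
    · simp only [neckX] at hcr
      by_cases hab : a = b
      · subst hab
        have hij : i ≠ j := fun h => hne (by rw [h])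
        refine neckRep_cos hr2 hij (neckRep_angle hcr ?_ ?_)
        · simp only [Matrix.cons_val]
          exact mul_ne_zero hτ.ne' (neckRep_bl2 a)
        · simp only [cons_val_zero, cons_val_one]
          intro h0
          rw [mul_pow] at h0
          have g1 : 0 ≤ tan (π / r) ^ 2 * bl a 0 ^ 2 := by positivity
          have g2 : 0 ≤ bl a 1 ^ 2 := sq_nonneg _
          have g3 : bl a 1 ^ 2 = 0 := by linarith
          have g4 : tan (π / r) ^ 2 * bl a 0 ^ 2 = 0 := by linarith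
          have g5 : bl a 0 ^ 2 = 0 := (mul_eq_zero.1 g4).resolve_left hT0.ne'
          have := neckRep_bl01 a
          rw [g3, g5] at this
          simp at this
      · have h1 := neckRep_norm hcr
        simp only [cons_val_zero, cons_val_one, Matrix.cons_val] at h1
        rw [mul_pow, mul_pow, mul_pow, mul_pow] at h1
        apply neckRep_lns hT0 hT1 a b hab
        have h2 : tan (π / r) ^ 2 * ((tan (π / r) ^ 2 * bl a 0 ^ 2 + bl a 1 ^ 2) * bl b 2 ^ 2) =
            tan (π / r) ^ 2 * ((tan (π / r) ^ 2 * bl b 0 ^ 2 + bl b 1 ^ 2) * bl a 2 ^ 2) := by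
          linear_combination h1
        exact mul_left_cancel₀ hT0.ne' h2
  · rintro (⟨i, a⟩ | ⟨i, a⟩)
    · simp only [neckX, Sum.isLeft_inl, Aff]
      rw [neckRep_two]
      simp only [Matrix.cons_val]
      exact neckRep_bp2 a
    · simp only [neckX, Sum.isLeft_inr, Aff]
      by_contra hcon
      rw [not_or, not_not, not_not] at hcon
      have h1 := neckRep_sq (2 * π * (i.val : ℝ) / r)
        ![tan (π / r) * bl a 0, bl a 1, tan (π / r) * bl a 2]
      rw [hcon.1, hcon.2] at h1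
      simp only [cons_val_zero, cons_val_one] at h1
      rw [mul_pow] at h1
      have g1 : 0 ≤ tan (π / r) ^ 2 * bl a 0 ^ 2 := by positivity
      have g2 : 0 ≤ bl a 1 ^ 2 := sq_nonneg _
      have g3 : bl a 1 ^ 2 = 0 := by nlinarith
      have g4 : tan (π / r) ^ 2 * bl a 0 ^ 2 = 0 := by nlinarith
      have g5 : bl a 0 ^ 2 = 0 := (mul_eq_zero.1 g4).resolve_left hT0.ne'
      have := neckRep_bl01 a
      rw [g3, g5] at this
      simp at this

end Pool.Agent.NCfg
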