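import Pool.Agent.Lib.MP_372a40_co.Defs

/-! # PAPPUS: the Pappus configuration and the forced incidence (notes, section 3)

Points `0..8 = A₁ A₂ A₃ B₁ B₂ B₃ C₁ C₂ C₃`; lines `0 = A₁A₂A₃`, `1 = B₁B₂B₃`, `2 = C₁C₂C₃`, `3 = A₂B₃C₁`, `4 = A₃B₂C₁`, `5 = A₁B₃C₂`,
`6 = A₃B₁C₂`, `7 = A₁B₂C₃`, `8 = A₂B₁C₃`. -/

open Matrix Finset

namespace Pool.Agent.NCfg

/-- The points of the lines of the Pappus configuration. -/
def papLine : Fin 9 → List (Fin 9)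
  | 0 => [0, 1, 2]
  | 1 => [3, 4, 5]
  | 2 => [6, 7, 8]
  | 3 => [1, 5, 6]
  | 4 => [2, 4, 6]
  | 5 => [0, 5, 7]
  | 6 => [2, 3, 7]
  | 7 => [0, 4, 8]
  | 8 => [1, 3, 8]

/-- Incidence of point `a` and line `b`. -/
def pap (a b : Fin 9) : Prop := a ∈ papLine b

instance (a b : Fin 9) : Decidable (pap a b) := by unfold pap; infer_instance

private theorem pap_comb {a b c : Vec} (h : a ⨯₃ b ≠ 0) (hc : c ⬝ᵥ (a ⨯₃ b) = 0) :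
    ∃ s t : ℝ, c = s • a + t • b := by
  set n := a ⨯₃ b with hn
  have hnn : n ⬝ᵥ n ≠ 0 := fun h0 => h (dotProduct_self_eq_zero.mp h0)
  have key : (n ⬝ᵥ n) • c = ((c ⨯₃ b) ⬝ᵥ n) • a + ((a ⨯₃ c) ⬝ᵥ n) • b := by
    have e : ∀ i, ((n ⬝ᵥ n) • c) i =
        (((c ⨯₃ b) ⬝ᵥ n) • a + ((a ⨯₃ c) ⬝ᵥ n) • b) i + (c ⬝ᵥ n) * n i := by
      intro i
      rw [hn]
      simp only [cross_apply, vec3_dotProduct, Pi.smul_apply, Pi.add_apply, smul_eq_mul]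
      fin_cases i <;> simp <;> ring
    ext i
    rw [e i, hc, zero_mul, add_zero]
  refine ⟨((c ⨯₃ b) ⬝ᵥ n) / (n ⬝ᵥ n), ((a ⨯₃ c) ⬝ᵥ n) / (n ⬝ᵥ n), ?_⟩
  rw [div_eq_inv_mul, div_eq_inv_mul, mul_smul, mul_smul, ← smul_add, ← key, smul_smul,
    inv_mul_cancel₀ hnn, one_smul]

private theorem pap_e8 (p0 p1 p3 p4 : Vec) :
    (p0 ⨯₃ p4) ⨯₃ (p1 ⨯₃ p3) = (-(p0 ⬝ᵥ (p3 ⨯₃ p4))) • p1 + (p0 ⬝ᵥ (p1 ⨯₃ p4)) • p3 := by
  ext i
  simp only [cross_apply, vec3_dotProduct, Pi.smul_apply, Pi.add_apply, smul_eq_mul]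
  fin_cases i <;> simp <;> ring

private theorem pap_cc (a b c d : Vec) :
    (a ⨯₃ b) ⨯₃ (c ⨯₃ d) = (a ⬝ᵥ (b ⨯₃ d)) • c + (-(a ⬝ᵥ (b ⨯₃ c))) • d := by
  ext i
  simp only [cross_apply, vec3_dotProduct, Pi.smul_apply, Pi.add_apply, smul_eq_mul]
  fin_cases i <;> simp <;> ring

private theorem pap_e7 (p0 p1 p3 p4 : Vec) (α β γ δ : ℝ) :
    (p0 ⨯₃ (γ • p3 + δ • p4)) ⨯₃ ((α • p0 + β • p1) ⨯₃ p3) =
      (-(α * δ * (p0 ⬝ᵥ (p3 ⨯₃ p4)))) • p0 + (-(β * δ * (p0 ⬝ᵥ (p3 ⨯₃ p4)))) • p1 +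
      (β * (γ * (p0 ⬝ᵥ (p1 ⨯₃ p3)) + δ * (p0 ⬝ᵥ (p1 ⨯₃ p4)))) • p3 := by
  have h1 : p0 ⬝ᵥ ((γ • p3 + δ • p4) ⨯₃ p3) = -(δ * (p0 ⬝ᵥ (p3 ⨯₃ p4))) := by
    simp only [cross_apply, vec3_dotProduct, Pi.smul_apply, Pi.add_apply, smul_eq_mul]
    simp
    ring
  have h2 : p0 ⬝ᵥ ((γ • p3 + δ • p4) ⨯₃ (α • p0 + β • p1)) =
      -(β * (γ * (p0 ⬝ᵥ (p1 ⨯₃ p3)) + δ * (p0 ⬝ᵥ (p1 ⨯₃ p4)))) := by
    simp only [cross_apply, vec3_dotProduct, Pi.smul_apply, Pi.add_apply, smul_eq_mul]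
    simp
    ring
  rw [pap_cc, h1, h2]
  ext i
  simp only [Pi.smul_apply, Pi.add_apply, smul_eq_mul]
  ring

private theorem pap_e6 (p0 p1 p3 p4 : Vec) (α β γ δ : ℝ) :
    (p1 ⨯₃ (γ • p3 + δ • p4)) ⨯₃ ((α • p0 + β • p1) ⨯₃ p4) =
      (α * γ * (p1 ⬝ᵥ (p3 ⨯₃ p4))) • p0 + (β * γ * (p1 ⬝ᵥ (p3 ⨯₃ p4))) • p1 +
      (-(α * (γ * (p0 ⬝ᵥ (p1 ⨯₃ p3)) + δ * (p0 ⬝ᵥ (p1 ⨯₃ p4))))) • p4 := by
  have h1 : p1 ⬝ᵥ ((γ • p3 + δ • p4) ⨯₃ p4) = γ * (p1 ⬝ᵥ (p3 ⨯₃ p4)) := by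
    simp only [cross_apply, vec3_dotProduct, Pi.smul_apply, Pi.add_apply, smul_eq_mul]
    simp
    ring
  have h2 : p1 ⬝ᵥ ((γ • p3 + δ • p4) ⨯₃ (α • p0 + β • p1)) =
      α * (γ * (p0 ⬝ᵥ (p1 ⨯₃ p3)) + δ * (p0 ⬝ᵥ (p1 ⨯₃ p4))) := by
    simp only [cross_apply, vec3_dotProduct, Pi.smul_apply, Pi.add_apply, smul_eq_mul]
    simp
    ring
  rw [pap_cc, h1, h2]
  ext i
  simp only [Pi.smul_apply, Pi.add_apply, smul_eq_mul]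
  ring

private theorem pap_det3 (p0 p1 p3 p4 : Vec) (A B C D E F G H : ℝ) :
    (A • p1 + B • p3) ⬝ᵥ ((C • p0 + D • p1 + E • p4) ⨯₃ (F • p0 + G • p1 + H • p3)) =
      -(p0 ⬝ᵥ (p1 ⨯₃ p3)) * A * C * H + (p0 ⬝ᵥ (p1 ⨯₃ p4)) * A * E * F -
      (p1 ⬝ᵥ (p3 ⨯₃ p4)) * A * E * H + (p0 ⬝ᵥ (p1 ⨯₃ p3)) * B * C * G -
      (p0 ⬝ᵥ (p1 ⨯₃ p3)) * B * D * F + (p0 ⬝ᵥ (p3 ⨯₃ p4)) * B * E * F +
      (p1 ⬝ᵥ (p3 ⨯₃ p4)) * B * E * G := by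
  simp only [cross_apply, vec3_dotProduct, Pi.smul_apply, Pi.add_apply, smul_eq_mul]
  simp
  ring

private theorem pap_det (p0 p1 p3 p4 : Vec) (α β γ δ : ℝ) :
    ((p0 ⨯₃ p4) ⨯₃ (p1 ⨯₃ p3)) ⬝ᵥ
      (((p1 ⨯₃ (γ • p3 + δ • p4)) ⨯₃ ((α • p0 + β • p1) ⨯₃ p4)) ⨯₃
        ((p0 ⨯₃ (γ • p3 + δ • p4)) ⨯₃ ((α • p0 + β • p1) ⨯₃ p3))) = 0 := by
  rw [pap_e8, pap_e6, pap_e7, pap_det3]
  ring

/-- Pappus' theorem in the form: distinct points, distinct lines, all 27 incidences but `(8, 2)` hold; then `(8, 2)` holds.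
Nondegeneracy: the `A`'s are not on line 1, the `B`'s are not on line 0 (otherwise two lines would coincide). Write `A₃ = α A₁ + β A₂`,
`B₃ = γ B₁ + δ B₂`, and `C₁, C₂, C₃` as multiples of the cross products of the lines `3, 4`; `5, 6`; `7, 8`, the latter being cross products of points. -/
theorem pappus (P Q : Fin 9 → Vec) (hP : ∀ i j, i ≠ j → P i ⨯₃ P j ≠ 0) (hQ : ∀ i j, i ≠ j → Q i ⨯₃ Q j ≠ 0)
    (hinc : ∀ a b, pap a b → ¬ (a = 8 ∧ b = 2) → P a ⬝ᵥ Q b = 0) : P 8 ⬝ᵥ Q 2 = 0 := by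
  have pi : ∀ a b, pap a b → ¬ (a = 8 ∧ b = 2) → Q b ⬝ᵥ P a = 0 := fun a b h h' => by
    rw [dotProduct_comm]
    exact hinc a b h h'
  -- lines as cross products of points
  have hl : ∀ b a a', a ≠ a' → pap a b → pap a' b → ¬ (a = 8 ∧ b = 2) → ¬ (a' = 8 ∧ b = 2) →
      ∃ t : ℝ, Q b = t • (P a ⨯₃ P a') := fun b a a' h h1 h2 h3 h4 =>
    eq_smul_cross (hP a a' h) (pi a b h1 h3) (pi a' b h2 h4)
  obtain ⟨t3, h3⟩ := hl 3 1 5 (by decide) (by decide) (by decide) (by decide) (by decide)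
  obtain ⟨t4, h4⟩ := hl 4 2 4 (by decide) (by decide) (by decide) (by decide) (by decide)
  obtain ⟨t5, h5⟩ := hl 5 0 5 (by decide) (by decide) (by decide) (by decide) (by decide)
  obtain ⟨t6, h6⟩ := hl 6 2 3 (by decide) (by decide) (by decide) (by decide) (by decide)
  obtain ⟨t7, h7⟩ := hl 7 0 4 (by decide) (by decide) (by decide) (by decide) (by decide)
  obtain ⟨t8, h8⟩ := hl 8 1 3 (by decide) (by decide) (by decide) (by decide) (by decide)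
  obtain ⟨t2, h2⟩ := hl 2 6 7 (by decide) (by decide) (by decide) (by decide) (by decide)
  -- points as cross products of lines
  obtain ⟨k6, g6⟩ := eq_smul_cross (hQ 3 4 (by decide)) (hinc 6 3 (by decide) (by decide))
    (hinc 6 4 (by decide) (by decide))
  obtain ⟨k7, g7⟩ := eq_smul_cross (hQ 5 6 (by decide)) (hinc 7 5 (by decide) (by decide))
    (hinc 7 6 (by decide) (by decide))
  obtain ⟨k8, g8⟩ := eq_smul_cross (hQ 7 8 (by decide)) (hinc 8 7 (by decide) (by decide))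
    (hinc 8 8 (by decide) (by decide))
  -- the points on the first two lines
  obtain ⟨t0, h0⟩ := hl 0 0 1 (by decide) (by decide) (by decide) (by decide) (by decide)
  obtain ⟨t1, h1⟩ := hl 1 3 4 (by decide) (by decide) (by decide) (by decide) (by decide)
  have ht0 : t0 ≠ 0 := by
    rintro rfl
    have := left_ne_of_cross (hQ 0 1 (by decide))
    rw [zero_smul] at h0
    exact this h0
  have ht1 : t1 ≠ 0 := by
    rintro rfl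
    have := left_ne_of_cross (hQ 1 0 (by decide))
    rw [zero_smul] at h1
    exact this h1
  obtain ⟨α, β, hαβ⟩ : ∃ s t : ℝ, P 2 = s • P 0 + t • P 1 := by
    refine pap_comb (hP 0 1 (by decide)) ?_
    have := hinc 2 0 (by decide) (by decide)
    rw [h0, dotProduct_smul, smul_eq_mul] at this
    exact (mul_eq_zero.1 this).resolve_left ht0
  obtain ⟨γ, δ, hγδ⟩ : ∃ s t : ℝ, P 5 = s • P 3 + t • P 4 := by
    refine pap_comb (hP 3 4 (by decide)) ?_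
    have := hinc 5 1 (by decide) (by decide)
    rw [h1, dotProduct_smul, smul_eq_mul] at this
    exact (mul_eq_zero.1 this).resolve_left ht1
  rw [h3, h4] at g6
  rw [h5, h6] at g7
  rw [h7, h8] at g8
  have hdet := pap_det (P 0) (P 1) (P 3) (P 4) α β γ δ
  rw [← hαβ, ← hγδ] at hdet
  simp only [map_smul, LinearMap.smul_apply, smul_smul] at g6 g7 g8
  rw [h2, g8, g6, g7]
  simp only [map_smul, LinearMap.smul_apply, smul_smul, dotProduct_smul, smul_dotProduct,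
    smul_eq_mul, hdet, mul_zero]

end Pool.Agent.NCfg
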