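import Pool.Agent.Lib.MP_372a40_co.Config
import Pool.Agent.Lib.MP_372a40_co.Pappus

/-! # NECKLACE: the necklace configuration (notes, section 3) -/

open Matrix Finset

set_option linter.unusedSectionVars false
set_option linter.unusedVariables false

namespace Pool.Agent.NCfg

/-- Incidence of the necklace of `r` Pappus configurations: inside copy `i` all Pappus incidences but `(8, 2)`; the point `(i, 8)` is on
the line `(i + 1, 2)`. -/
def neckInc (r : ℕ) (p l : ZMod r × Fin 9) : Prop :=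
  (p.1 = l.1 ∧ pap p.2 l.2 ∧ ¬ (p.2 = 8 ∧ l.2 = 2)) ∨ (l.1 = p.1 + 1 ∧ p.2 = 8 ∧ l.2 = 2)

private theorem pap_col : ∀ b : Fin 9, b ≠ 2 → (Finset.univ.filter (fun a : Fin 9 => pap a b)).card = 3 := by
  decide

private theorem pap_row : ∀ a : Fin 9, a ≠ 8 → (Finset.univ.filter (fun b : Fin 9 => pap a b)).card = 3 := by
  decide

private theorem pap_lin : ∀ a a' : Fin 9, a ≠ a' → ∀ b b' : Fin 9, pap a b → pap a' b → pap a b' → pap a' b' → b = b' := by
  decide

private theorem pap_two : ∀ a : Fin 9, pap a 2 ∧ a ≠ 8 ↔ a = 6 ∨ a = 7 := by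
  decide

private theorem pap_eight : ∀ b : Fin 9, pap 8 b ∧ b ≠ 2 ↔ b = 7 ∨ b = 8 := by
  decide

private theorem one_ne {r : ℕ} (hr : 2 ≤ r) : (1 : ZMod r) ≠ 0 := by
  haveI : Fact (1 < r) := ⟨by omega⟩
  exact one_ne_zero

private theorem succ_ne {r : ℕ} (hr : 2 ≤ r) (i : ZMod r) : i + 1 ≠ i := by
  intro h
  apply one_ne hr
  have : i + 1 - i = 0 := by rw [h, sub_self]
  simpa using this

/-- The necklace is a configuration. -/
noncomputable def neck (r : ℕ) (hr : 2 ≤ r) : Config (ZMod r × Fin 9) (ZMod r × Fin 9) where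
  inc := neckInc r
  line_three := by
    rintro ⟨j, b⟩
    by_cases hb : b = 2
    · subst hb
      have h1 : {p | neckInc r p (j, 2)} = {((j : ZMod r), (6 : Fin 9)), (j, 7), (j - 1, 8)} := by
        ext ⟨i, a⟩
        simp only [neckInc, Set.mem_setOf_eq, Set.mem_insert_iff, Set.mem_singleton_iff, Prod.mk.injEq, and_true]
        constructor
        · rintro (⟨h1, h2, h3⟩ | ⟨h1, h2⟩)
          · rcases (pap_two a).1 ⟨h2, h3⟩ with h4 | h4
            · exact Or.inl ⟨h1, h4⟩
            · exact Or.inr (Or.inl ⟨h1, h4⟩)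
          · right; right
            exact ⟨by rw [h1]; ring, h2⟩
        · rintro (⟨h1, h2⟩ | ⟨h1, h2⟩ | ⟨h1, h2⟩)
          · exact Or.inl ⟨h1, (pap_two a).2 (Or.inl h2)⟩
          · exact Or.inl ⟨h1, (pap_two a).2 (Or.inr h2)⟩
          · exact Or.inr ⟨by rw [h1]; ring, h2⟩
      rw [h1, Set.ncard_eq_three]
      refine ⟨_, _, _, ?_, ?_, ?_, rfl⟩
      · intro h; exact absurd (Prod.mk.inj h).2 (by decide)
      · intro h; exact absurd (Prod.mk.inj h).2 (by decide)
      · intro h; exact absurd (Prod.mk.inj h).2 (by decide)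
    · have h1 : {p | neckInc r p (j, b)} =
          (fun a => ((j : ZMod r), a)) '' ((Finset.univ.filter (fun a : Fin 9 => pap a b) : Finset (Fin 9)) : Set (Fin 9)) := by
        ext ⟨i, a⟩
        simp only [neckInc, Set.mem_setOf_eq, Set.mem_image, Finset.coe_filter, Finset.mem_univ, true_and, Prod.mk.injEq]
        constructor
        · rintro (⟨h1, h2, -⟩ | ⟨-, -, h2⟩)
          · exact ⟨a, h2, h1.symm, rfl⟩
          · exact absurd h2 hb
        · rintro ⟨a', h2, h3, rfl⟩
          exact Or.inl ⟨h3.symm, h2, fun h => hb h.2⟩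
      rw [h1, Set.ncard_image_of_injective _ (by intro a a' h; exact (Prod.mk.inj h).2), Set.ncard_coe_finset]
      exact pap_col b hb
  point_three := by
    rintro ⟨i, a⟩
    by_cases ha : a = 8
    · subst ha
      have h1 : {l | neckInc r (i, 8) l} = {((i : ZMod r), (7 : Fin 9)), (i, 8), (i + 1, 2)} := by
        ext ⟨j, b⟩
        simp only [neckInc, Set.mem_setOf_eq, Set.mem_insert_iff, Set.mem_singleton_iff, Prod.mk.injEq, true_and]
        constructor
        · rintro (⟨h1, h2, h3⟩ | ⟨h1, h2⟩)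
          · rcases (pap_eight b).1 ⟨h2, h3⟩ with h4 | h4
            · exact Or.inl ⟨h1.symm, h4⟩
            · exact Or.inr (Or.inl ⟨h1.symm, h4⟩)
          · right; right
            exact ⟨h1, h2⟩
        · rintro (⟨h1, h2⟩ | ⟨h1, h2⟩ | ⟨h1, h2⟩)
          · exact Or.inl ⟨h1.symm, (pap_eight b).2 (Or.inl h2)⟩
          · exact Or.inl ⟨h1.symm, (pap_eight b).2 (Or.inr h2)⟩
          · exact Or.inr ⟨h1, h2⟩
      rw [h1, Set.ncard_eq_three]
      refine ⟨_, _, _, ?_, ?_, ?_, rfl⟩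
      · intro h; exact absurd (Prod.mk.inj h).2 (by decide)
      · intro h; exact absurd (Prod.mk.inj h).2 (by decide)
      · intro h; exact absurd (Prod.mk.inj h).2 (by decide)
    · have h1 : {l | neckInc r (i, a) l} =
          (fun b => ((i : ZMod r), b)) '' ((Finset.univ.filter (fun b : Fin 9 => pap a b) : Finset (Fin 9)) : Set (Fin 9)) := by
        ext ⟨j, b⟩
        simp only [neckInc, Set.mem_setOf_eq, Set.mem_image, Finset.coe_filter, Finset.mem_univ, true_and, Prod.mk.injEq]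
        constructor
        · rintro (⟨h1, h2, -⟩ | ⟨-, h2, -⟩)
          · exact ⟨b, h2, h1, rfl⟩
          · exact absurd h2 ha
        · rintro ⟨b', h2, h3, rfl⟩
          exact Or.inl ⟨h3, h2, fun h => ha h.1⟩
      rw [h1, Set.ncard_image_of_injective _ (by intro a a' h; exact (Prod.mk.inj h).2), Set.ncard_coe_finset]
      exact pap_row a ha
  linear := by
    rintro ⟨i, a⟩ ⟨i', a'⟩ hne ⟨j, b⟩ ⟨j', b'⟩ h1 h2 h3 h4
    simp only [neckInc] at h1 h2 h3 h4
    have hs := succ_ne hr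
    rcases h1 with ⟨e1, p1, n1⟩ | ⟨e1, a1, b1⟩ <;> rcases h2 with ⟨e2, p2, n2⟩ | ⟨e2, a2, b2⟩ <;>
      rcases h3 with ⟨e3, p3, n3⟩ | ⟨e3, a3, b3⟩ <;> rcases h4 with ⟨e4, p4, n4⟩ | ⟨e4, a4, b4⟩
    · -- all in one copy
      have haa : a ≠ a' := by
        rintro rfl
        exact hne (by rw [e1, e2])
      rw [pap_lin a a' haa b b' p1 p2 p3 p4, ← e1, ← e3]
    · exact absurd (e4.symm.trans (e3.symm.trans (e1.trans e2.symm))) (hs _)
    · exact absurd (e3.symm.trans (e4.symm.trans (e2.trans e1.symm))) (hs _)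
    · exact absurd (by rw [a3, a4, e1, e2]) hne
    · exact absurd (e2.symm.trans (e1.symm.trans (e3.trans e4.symm))) (hs _)
    · rw [b2, b4, e2, e4]
    · exact absurd ⟨a3, b2⟩ n1
    · exact absurd ⟨a3, b2⟩ n1
    · exact absurd (e1.symm.trans (e2.symm.trans (e4.trans e3.symm))) (hs _)
    · exact absurd ⟨a4, b1⟩ n2
    · rw [b1, b3, e1, e3]
    · rw [b1, b3, e1, e3]
    · exact absurd (by rw [a1, a2, add_right_cancel (e1.symm.trans e2)]) hne
    · exact absurd (by rw [a1, a2, add_right_cancel (e1.symm.trans e2)]) hne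
    · exact absurd (by rw [a1, a2, add_right_cancel (e1.symm.trans e2)]) hne
    · exact absurd (by rw [a1, a2, add_right_cancel (e1.symm.trans e2)]) hne

private theorem neck_same {r : ℕ} (hr : 2 ≤ r) (i : ZMod r) {a b : Fin 9} (h : pap a b) (h2 : ¬ (a = 8 ∧ b = 2)) :
    (neck r hr).levi.Reachable (Sum.inl (i, a)) (Sum.inr (i, b)) :=
  SimpleGraph.Adj.reachable (Or.inl ⟨(i, a), (i, b), rfl, rfl, Or.inl ⟨rfl, h, h2⟩⟩)

private theorem neck_same' {r : ℕ} (hr : 2 ≤ r) (i : ZMod r) {a a' b : Fin 9} (h : pap a b) (h2 : ¬ (a = 8 ∧ b = 2))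
    (h' : pap a' b) (h2' : ¬ (a' = 8 ∧ b = 2)) :
    (neck r hr).levi.Reachable (Sum.inl (i, a)) (Sum.inl (i, a')) :=
  (neck_same hr i h h2).trans (neck_same hr i h' h2').symm

private theorem neck_pt {r : ℕ} (hr : 2 ≤ r) (i : ZMod r) (a : Fin 9) :
    (neck r hr).levi.Reachable (Sum.inl (i, 0)) (Sum.inl (i, a)) := by
  have h1 : (neck r hr).levi.Reachable (Sum.inl (i, 0)) (Sum.inl (i, 1)) :=
    neck_same' hr i (b := 0) (by decide) (by decide) (by decide) (by decide)
  have h2 : (neck r hr).levi.Reachable (Sum.inl (i, 0)) (Sum.inl (i, 2)) :=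
    neck_same' hr i (b := 0) (by decide) (by decide) (by decide) (by decide)
  have h5 : (neck r hr).levi.Reachable (Sum.inl (i, 0)) (Sum.inl (i, 5)) :=
    neck_same' hr i (b := 5) (by decide) (by decide) (by decide) (by decide)
  have h7 : (neck r hr).levi.Reachable (Sum.inl (i, 0)) (Sum.inl (i, 7)) :=
    neck_same' hr i (b := 5) (by decide) (by decide) (by decide) (by decide)
  have h4 : (neck r hr).levi.Reachable (Sum.inl (i, 0)) (Sum.inl (i, 4)) :=
    neck_same' hr i (b := 7) (by decide) (by decide) (by decide) (by decide)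
  have h8 : (neck r hr).levi.Reachable (Sum.inl (i, 0)) (Sum.inl (i, 8)) :=
    neck_same' hr i (b := 7) (by decide) (by decide) (by decide) (by decide)
  have h6 : (neck r hr).levi.Reachable (Sum.inl (i, 0)) (Sum.inl (i, 6)) :=
    h1.trans (neck_same' hr i (b := 3) (by decide) (by decide) (by decide) (by decide))
  have h3 : (neck r hr).levi.Reachable (Sum.inl (i, 0)) (Sum.inl (i, 3)) :=
    h1.trans (neck_same' hr i (b := 8) (by decide) (by decide) (by decide) (by decide))
  fin_cases a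
  · exact SimpleGraph.Reachable.refl _
  · exact h1
  · exact h2
  · exact h3
  · exact h4
  · exact h5
  · exact h6
  · exact h7
  · exact h8

private theorem exists_pt : ∀ b : Fin 9, ∃ a : Fin 9, pap a b ∧ ¬ (a = 8 ∧ b = 2) := by
  decide

private theorem neck_vert {r : ℕ} (hr : 2 ≤ r) (v : (ZMod r × Fin 9) ⊕ (ZMod r × Fin 9)) :
    ∃ i : ZMod r, (neck r hr).levi.Reachable (Sum.inl (i, 0)) v := by
  rcases v with ⟨i, a⟩ | ⟨i, b⟩
  · exact ⟨i, neck_pt hr i a⟩
  · obtain ⟨a, h1, h2⟩ := exists_pt b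
    exact ⟨i, (neck_pt hr i a).trans (neck_same hr i h1 h2)⟩

private theorem neck_step {r : ℕ} (hr : 2 ≤ r) (i : ZMod r) :
    (neck r hr).levi.Reachable (Sum.inl (i, 0)) (Sum.inl (i + 1, 0)) := by
  have h1 := neck_pt hr i 8
  have h2 : (neck r hr).levi.Reachable (Sum.inl (i, 8)) (Sum.inr (i + 1, 2)) :=
    SimpleGraph.Adj.reachable (Or.inl ⟨(i, 8), (i + 1, 2), rfl, rfl, Or.inr ⟨rfl, rfl, rfl⟩⟩)
  have h3 := neck_pt hr (i + 1) 6
  have h4 : (neck r hr).levi.Reachable (Sum.inl (i + 1, 6)) (Sum.inr (i + 1, 2)) :=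
    neck_same hr (i + 1) (by decide) (by decide)
  exact h1.trans (h2.trans (h4.symm.trans h3.symm))

private theorem neck_nat {r : ℕ} (hr : 2 ≤ r) (n : ℕ) :
    (neck r hr).levi.Reachable (Sum.inl (0, 0)) (Sum.inl ((n : ZMod r), 0)) := by
  induction n with
  | zero => rw [Nat.cast_zero]
  | succ n ih =>
    rw [Nat.cast_succ]
    exact ih.trans (neck_step hr _)

theorem neck_connected (r : ℕ) (hr : 2 ≤ r) : (neck r hr).Connected := by
  haveI : NeZero r := ⟨by omega⟩
  have h : ∀ v, (neck r hr).levi.Reachable (Sum.inl (0, 0)) v := by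
    intro v
    obtain ⟨i, hi⟩ := neck_vert hr v
    have h1 := neck_nat hr i.val
    rw [ZMod.natCast_zmod_val] at h1
    exact h1.trans hi
  haveI : Nonempty ((ZMod r × Fin 9) ⊕ (ZMod r × Fin 9)) := ⟨Sum.inl (0, 0)⟩
  exact ⟨fun u v => (h u).symm.trans (h v)⟩

end Pool.Agent.NCfg
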