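import Pool.Agent.Lib.MP_372a40_co.Near

/-! # PERTURB: breaking an unwanted incidence that carries no stress (notes, section 1) -/

open Matrix Finset Topology

set_option linter.unusedSectionVars false
set_option linter.unusedVariables false

namespace Pool.Agent.NCfg

variable {V : Type} [Fintype V] [DecidableEq V]

/-- The pairs (point, line) of `E⁺`. -/
private def PertP (G : SimpleGraph V) (cls : V → Bool) (p l : V) (e : V × V) : Prop :=
  cls e.1 = true ∧ cls e.2 = false ∧ adde G p l e.1 e.2

private noncomputable def pertPr (u : V) (i : Fin 3) : (V → Vec) →L[ℝ] ℝ :=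
  (ContinuousLinearMap.proj (R := ℝ) (φ := fun _ : Fin 3 => ℝ) i).comp
    (ContinuousLinearMap.proj (R := ℝ) (φ := fun _ : V => Vec) u)

private theorem pertPr_apply (u : V) (i : Fin 3) (δ : V → Vec) : pertPr u i δ = δ u i := rfl

private noncomputable def pertD (x : V → Vec) (e : V × V) : (V → Vec) →L[ℝ] ℝ :=
  ∑ i : Fin 3, (x e.1 i • pertPr e.2 i + x e.2 i • pertPr e.1 i)

private theorem pertD_apply (x : V → Vec) (e : V × V) (δ : V → Vec) :
    pertD x e δ = δ e.1 ⬝ᵥ x e.2 + x e.1 ⬝ᵥ δ e.2 := by
  unfold pertD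
  rw [ContinuousLinearMap.sum_apply]
  simp only [ContinuousLinearMap.add_apply, ContinuousLinearMap.smul_apply, pertPr_apply,
    smul_eq_mul, dotProduct]
  rw [← Finset.sum_add_distrib]
  refine Finset.sum_congr rfl fun i _ => ?_
  ring

private theorem pert_strict (x : V → Vec) (e : V × V) :
    HasStrictFDerivAt (fun x' : V → Vec => x' e.1 ⬝ᵥ x' e.2) (pertD x e) x := by
  have h : HasStrictFDerivAt (fun x' : V → Vec => ∑ i : Fin 3, x' e.1 i * x' e.2 i)
      (pertD x e) x := by
    unfold pertD
    refine HasStrictFDerivAt.fun_sum fun i _ => ?_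
    exact (pertPr e.1 i).hasStrictFDerivAt.mul (pertPr e.2 i).hasStrictFDerivAt
  exact h

private theorem adde_symm' {G : SimpleGraph V} {p l u v : V} (h : adde G p l u v) :
    adde G p l v u := by
  rcases h with h | ⟨h1, h2⟩ | ⟨h1, h2⟩
  · exact Or.inl h.symm
  · exact Or.inr (Or.inr ⟨h2, h1⟩)
  · exact Or.inr (Or.inl ⟨h2, h1⟩)

private theorem pert_surj {G : SimpleGraph V} {cls : V → Bool} {x : V → Vec}
    (hun : Unstressed G x) {p l : V}
    (hno : ∀ σ, Stress (adde G p l) x σ → σ p l = 0)
    [Fintype {e : V × V // PertP G cls p l e}] :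
    (ContinuousLinearMap.pi (fun e : {e : V × V // PertP G cls p l e} => pertD x e.1)).range
      = ⊤ := by
  classical
  by_contra hne
  obtain ⟨f, hf0, hf⟩ := Submodule.exists_le_ker_of_lt_top _ (lt_top_iff_ne_top.2 hne)
  have hfz : ∀ δ : V → Vec, f (fun e : {e : V × V // PertP G cls p l e} => pertD x e.1 δ) = 0 := by
    intro δ
    have : (fun e : {e : V × V // PertP G cls p l e} => pertD x e.1 δ) ∈
        (ContinuousLinearMap.pi
          (fun e : {e : V × V // PertP G cls p l e} => pertD x e.1)).range := ⟨δ, rfl⟩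
    exact hf this
  set c : {e : V × V // PertP G cls p l e} → ℝ := fun e => f (Pi.single e 1) with hc
  have hfc : ∀ g, f g = ∑ e, c e * g e := by
    intro g
    conv_lhs => rw [← Finset.univ_sum_single g]
    rw [map_sum]
    refine Finset.sum_congr rfl fun e _ => ?_
    have : (Pi.single e (g e) : {e : V × V // PertP G cls p l e} → ℝ) = g e • Pi.single e 1 := by
      rw [← Pi.single_smul, smul_eq_mul, mul_one]
    rw [this, map_smul, smul_eq_mul, mul_comm]
  set c' : V × V → ℝ := fun e => if h : PertP G cls p l e then c ⟨e, h⟩ else 0 with hc'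
  have hc'0 : ∀ e, c' e ≠ 0 → PertP G cls p l e := by
    intro e he
    by_contra hn
    exact he (by simp [hc', hn])
  have hsum : ∀ g : V × V → ℝ, ∑ e : {e : V × V // PertP G cls p l e}, c e * g e.1
      = ∑ e : V × V, c' e * g e := by
    intro g
    have h1 : ∑ e : V × V, c' e * g e = ∑ e ∈ univ.filter (fun e => PertP G cls p l e),
        c' e * g e := by
      rw [Finset.sum_filter]
      refine Finset.sum_congr rfl fun e _ => ?_
      split_ifs with h
      · rfl
      · simp [hc', h]
    rw [h1, Finset.sum_subtype (p := fun e => PertP G cls p l e)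
      (univ.filter (fun e => PertP G cls p l e)) (by simp) (fun e => c' e * g e)]
    refine Finset.sum_congr rfl fun e _ => ?_
    simp [hc', e.2]
  have hzero : ∀ δ : V → Vec, ∑ e : V × V, c' e * (δ e.1 ⬝ᵥ x e.2 + x e.1 ⬝ᵥ δ e.2) = 0 := by
    intro δ
    have h1 := hfz δ
    rw [hfc] at h1
    rw [← hsum (fun e => δ e.1 ⬝ᵥ x e.2 + x e.1 ⬝ᵥ δ e.2), ← h1]
    refine Finset.sum_congr rfl fun e _ => ?_
    rw [pertD_apply]
  -- the stress
  set σ : V → V → ℝ := fun u v => c' (u, v) + c' (v, u) with hσ
  have hσsymm : ∀ u v, σ u v = σ v u := fun u v => by simp only [hσ]; ring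
  have hst : Stress (adde G p l) x σ := by
    refine ⟨hσsymm, ?_, ?_⟩
    · intro u v huv
      by_cases h1 : c' (u, v) = 0
      · have h2 : c' (v, u) ≠ 0 := by
          intro h2
          exact huv (by simp [hσ, h1, h2])
        exact adde_symm' (hc'0 _ h2).2.2
      · exact (hc'0 _ h1).2.2
    · intro u
      have key : ∀ d : Vec, d ⬝ᵥ (∑ v, σ u v • x v) = 0 := by
        intro d
        have h1 := hzero (Pi.single u d)
        rw [Fintype.sum_prod_type] at h1
        have h2 : ∑ a : V, ∑ b : V, c' (a, b) *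
            ((Pi.single u d : V → Vec) a ⬝ᵥ x b + x a ⬝ᵥ (Pi.single u d : V → Vec) b)
            = ∑ a : V, ∑ b : V, (c' (a, b) * ((Pi.single u d : V → Vec) a ⬝ᵥ x b)) +
              ∑ a : V, ∑ b : V, c' (b, a) * (x b ⬝ᵥ (Pi.single u d : V → Vec) a) := by
          rw [Finset.sum_comm (f := fun a b => c' (b, a) * (x b ⬝ᵥ (Pi.single u d : V → Vec) a)),
            ← Finset.sum_add_distrib]
          refine Finset.sum_congr rfl fun a _ => ?_
          rw [← Finset.sum_add_distrib]
          refine Finset.sum_congr rfl fun b _ => ?_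
          ring
        simp only at h1
        rw [h2, ← Finset.sum_add_distrib, Finset.sum_eq_single u] at h1
        · rw [← Finset.sum_add_distrib] at h1
          rw [dotProduct_sum, ← h1]
          refine Finset.sum_congr rfl fun v _ => ?_
          rw [Pi.single_eq_same, dotProduct_smul, smul_eq_mul, dotProduct_comm (x v) d]
          simp only [hσ]
          ring
        · intro a _ ha
          rw [Pi.single_eq_of_ne ha]
          simp
        · simp
      exact dotProduct_self_eq_zero.mp (key _)
  have hpl0 := hno σ hst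
  have hstG : Stress G.Adj x σ := by
    refine ⟨hσsymm, ?_, hst.eq⟩
    intro u v huv
    rcases hst.supp u v huv with h | ⟨h1, h2⟩ | ⟨h1, h2⟩
    · exact h
    · exact absurd (by rw [h1, h2]; exact hpl0) huv
    · exact absurd (by rw [h1, h2, hσsymm]; exact hpl0) huv
  have hall := hun σ hstG
  apply hf0
  refine LinearMap.ext fun g => ?_
  rw [hfc, LinearMap.zero_apply]
  refine Finset.sum_eq_zero fun e _ => ?_
  have h1 : c e = c' e.1 := by simp [hc', e.2]
  have h2 : c' (e.1.2, e.1.1) = 0 := by
    by_contra hn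
    have h3 := (hc'0 _ hn).1
    have h4 := e.2.2.1
    simp only at h3
    rw [h4] at h3
    exact Bool.noConfusion h3
  have h3 := hall e.1.1 e.1.2
  simp only [hσ] at h3
  rw [h2, add_zero] at h3
  rw [h1, show c' e.1 = 0 from h3, zero_mul]

/-- Let `E⁺` be the edges of `G` and the pair `(p,l)`, each written as a pair (point, line).
The map `Φ : (V → Vec) → (E⁺ → ℝ)`, `Φ x' (u,v) = x' u ⬝ᵥ x' v` is polynomial, with derivative
`δ ↦ (δ u ⬝ᵥ x v + x u ⬝ᵥ δ v)` at `x`. If this derivative is not surjective there is a nonzero functional `c : E⁺ → ℝ` vanishing on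
the range; `σ u v := c` of the pair (0 if not in `E⁺`) is then a nonzero stress on `adde G p l`; by `hno` it vanishes at `(p,l)`, so it is a
nonzero stress on `G`, against `hun`.  So the derivative is surjective and `Φ` maps neighbourhoods of `x` onto neighbourhoods of `Φ x = 0`
(`HasStrictFDerivAt.map_nhds_eq_of_surj`): arbitrarily near `x` there is `x'` with `Φ x' = ε` at `(p,l)`, `0` elsewhere, `ε ≠ 0`.
Use `near_unw`, `near_rep`, `near_unstressed`. -/
theorem perturb {G : SimpleGraph V} {cls : V → Bool} {x : V → Vec} (hG : Cubic G cls) (hx : HRep G cls x)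
    (hun : Unstressed G x) {p l : V} (hpl : (p, l) ∈ Unw G cls x)
    (hno : ∀ σ, Stress (adde G p l) x σ → σ p l = 0) :
    ∃ x', HRep G cls x' ∧ Unstressed G x' ∧ Unw G cls x' ⊂ Unw G cls x := by
  classical
  obtain ⟨hp, hl, hnadj, hinc⟩ := mem_Unw.1 hpl
  have hP0 : PertP G cls p l (p, l) := ⟨hp, hl, Or.inr (Or.inl ⟨rfl, rfl⟩)⟩
  set Φ : (V → Vec) → ({e : V × V // PertP G cls p l e} → ℝ) :=
    fun x' e => x' e.1.1 ⬝ᵥ x' e.1.2 with hΦ
  have hstrict : HasStrictFDerivAt Φ
      (ContinuousLinearMap.pi (fun e : {e : V × V // PertP G cls p l e} => pertD x e.1)) x := by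
    rw [hasStrictFDerivAt_pi]
    intro e
    exact pert_strict x e.1
  have hmap := hstrict.map_nhds_eq_of_surj (pert_surj hun hno)
  have hΦx : Φ x = 0 := by
    funext e
    rcases e.2.2.2 with h | ⟨h1, h2⟩ | ⟨h1, h2⟩
    · exact hx.inc _ _ h
    · simp only [hΦ, h1, h2, hinc, Pi.zero_apply]
    · simp only [hΦ, h1, h2, dotProduct_comm, hinc, Pi.zero_apply]
  have hS := (near_unw G cls x).and ((near_rep hx).and (near_unstressed hun))
  have hS' := Filter.image_mem_map (m := Φ) hS
  rw [hmap, hΦx] at hS'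
  have hcont : Filter.Tendsto (fun t : ℝ => t •
      (Pi.single ⟨(p, l), hP0⟩ 1 : {e : V × V // PertP G cls p l e} → ℝ)) (𝓝 0) (𝓝 0) := by
    have : Continuous (fun t : ℝ => t •
      (Pi.single ⟨(p, l), hP0⟩ 1 : {e : V × V // PertP G cls p l e} → ℝ)) := by fun_prop
    have h2 := this.tendsto 0
    rwa [zero_smul] at h2
  have hev := hcont hS'
  rw [Filter.mem_map, Metric.mem_nhds_iff] at hev
  obtain ⟨ε, hε, hball⟩ := hev
  have hmem : ε / 2 ∈ Metric.ball (0 : ℝ) ε := by
    rw [Metric.mem_ball, Real.dist_eq, sub_zero, abs_of_pos (by positivity)]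
    linarith
  obtain ⟨x', ⟨hx1, hx2, hx3⟩, hx4⟩ := hball hmem
  have hval : ∀ e : {e : V × V // PertP G cls p l e}, x' e.1.1 ⬝ᵥ x' e.1.2 =
      (ε / 2) * (Pi.single (⟨(p, l), hP0⟩ : {e : V × V // PertP G cls p l e}) (1 : ℝ) :
        {e : V × V // PertP G cls p l e} → ℝ) e := by
    intro e
    have := congrFun hx4 e
    simpa [hΦ] using this
  have hadj1 : ∀ u v, G.Adj u v → cls u = true → cls v = false → x' u ⬝ᵥ x' v = 0 := by
    intro u v huv hu hv
    have h1 := hval ⟨(u, v), hu, hv, Or.inl huv⟩
    rw [Pi.single_eq_of_ne, mul_zero] at h1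
    · exact h1
    · intro he
      have h2 := congrArg Subtype.val he
      simp only [Prod.mk.injEq] at h2
      rw [h2.1, h2.2] at huv
      exact hnadj huv
  have hadj : ∀ u v, G.Adj u v → x' u ⬝ᵥ x' v = 0 := by
    intro u v huv
    have hb := hG.bip u v huv
    cases hu : cls u with
    | true =>
      have hv : cls v = false := by
        cases hv : cls v with
        | true => rw [hu, hv] at hb; exact absurd rfl hb
        | false => rfl
      exact hadj1 u v huv hu hv
    | false =>
      have hv : cls v = true := by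
        cases hv : cls v with
        | true => rfl
        | false => rw [hu, hv] at hb; exact absurd rfl hb
      rw [dotProduct_comm]
      exact hadj1 v u huv.symm hv hu
  refine ⟨x', hx2 hadj, hx3, ?_⟩
  rw [Finset.ssubset_iff_of_subset hx1]
  refine ⟨(p, l), hpl, ?_⟩
  intro hmem'
  have h1 := (mem_Unw.1 hmem').2.2.2
  have h2 := hval ⟨(p, l), hP0⟩
  rw [Pi.single_eq_same, mul_one] at h2
  simp only at h2
  rw [h1] at h2
  linarith

end Pool.Agent.NCfg
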