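import Pool.Agent.Lib.MP_372a40_co.RealM3B

/-! # REALM3A: combinatorial configurations `(m₃)` with `m ≤ 8` (notes 1.2) -/

open Finset

set_option linter.unusedSectionVars false
set_option linter.unusedVariables false

namespace Pool.Agent.NCfg

variable {V : Type} [Fintype V] [DecidableEq V]

/-- The hypotheses of `combi_m3`. -/
private structure R3 (cls : V → Bool) (S : Finset V) (Γ : V → V → Prop) : Prop where
  symm : ∀ u v, Γ u v → Γ v u
  mem : ∀ u v, Γ u v → u ∈ S ∧ v ∈ S ∧ cls u ≠ cls v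
  three : ∀ u ∈ S, ∃ a b c, a ≠ b ∧ a ≠ c ∧ b ≠ c ∧ ∀ v, Γ u v ↔ v = a ∨ v = b ∨ v = c
  lin : ∀ u v, u ≠ v → ∀ a b, Γ u a → Γ v a → Γ u b → Γ v b → a = b

section

variable {cls : V → Bool} {S : Finset V} {Γ : V → V → Prop}

private theorem R3.ne (h : R3 cls S Γ) {v1 v2 u x y : V} (h12 : v1 ≠ v2) (h1 : Γ u v1) (h2 : Γ u v2)
    (hx : Γ v1 x) (hy : Γ v2 y) (hxu : x ≠ u) : x ≠ y := by
  rintro rfl
  exact hxu (h.lin v1 v2 h12 x u hx hy (h.symm _ _ h1) (h.symm _ _ h2))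

private theorem R3.nbr (h : R3 cls S Γ) {u a b c : V} (ha : Γ u a) (hb : Γ u b) (hc : Γ u c)
    (hab : a ≠ b) (hac : a ≠ c) (hbc : b ≠ c) (w : V) : Γ u w ↔ w = a ∨ w = b ∨ w = c := by
  constructor
  · intro hw
    obtain ⟨x, y, z, hxy, hxz, hyz, e⟩ := h.three u (h.mem _ _ ha).1
    rcases (e a).1 ha with rfl | rfl | rfl <;> rcases (e b).1 hb with rfl | rfl | rfl <;>
      rcases (e c).1 hc with rfl | rfl | rfl <;> simp_all <;> tauto
  · rintro (rfl | rfl | rfl) <;> assumption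

private theorem R3.two (h : R3 cls S Γ) {u a : V} (ha : Γ u a) :
    ∃ b c, a ≠ b ∧ a ≠ c ∧ b ≠ c ∧ ∀ w, Γ u w ↔ w = a ∨ w = b ∨ w = c := by
  obtain ⟨x, y, z, hxy, hxz, hyz, e⟩ := h.three u (h.mem _ _ ha).1
  rcases (e a).1 ha with rfl | rfl | rfl
  · exact ⟨y, z, hxy, hxz, hyz, e⟩
  · exact ⟨x, z, hxy.symm, hyz, hxz, fun w => by rw [e]; tauto⟩
  · exact ⟨x, y, hxz.symm, hyz.symm, hxy, fun w => by rw [e]; tauto⟩

private theorem R3.one (h : R3 cls S Γ) {u a b : V} (ha : Γ u a) (hb : Γ u b) (hab : a ≠ b) :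
    ∃ c, a ≠ c ∧ b ≠ c ∧ ∀ w, Γ u w ↔ w = a ∨ w = b ∨ w = c := by
  obtain ⟨x, y, hax, hay, hxy, e⟩ := h.two ha
  rcases (e b).1 hb with rfl | rfl | rfl
  · exact absurd rfl hab
  · exact ⟨y, hay, hxy, e⟩
  · exact ⟨x, hax, hxy.symm, fun w => by rw [e]; tauto⟩

open Classical in
/-- The second neighbourhood. -/
private noncomputable def r3M (S : Finset V) (Γ : V → V → Prop) (u : V) : Finset V :=
  S.filter (fun w => ∃ v, Γ u v ∧ Γ v w)

private theorem R3.mem_M (h : R3 cls S Γ) {u w : V} : w ∈ r3M S Γ u ↔ ∃ v, Γ u v ∧ Γ v w := by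
  classical
  unfold r3M
  rw [Finset.mem_filter]
  constructor
  · exact fun h => h.2
  · rintro ⟨v, h1, h2⟩
    exact ⟨(h.mem _ _ h2).2.1, v, h1, h2⟩

private theorem R3.card_M (h : R3 cls S Γ) {u : V} (hu : u ∈ S) : (r3M S Γ u).card = 7 := by
  classical
  obtain ⟨a, b, c, hab, hac, hbc, e⟩ := h.three u hu
  have ha : Γ u a := by rw [e]; simp
  have hb : Γ u b := by rw [e]; simp
  have hc : Γ u c := by rw [e]; simp
  obtain ⟨a1, a2, h1, h2, h3, ea⟩ := h.two (h.symm _ _ ha)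
  obtain ⟨b1, b2, h4, h5, h6, eb⟩ := h.two (h.symm _ _ hb)
  obtain ⟨c1, c2, h7, h8, h9, ec⟩ := h.two (h.symm _ _ hc)
  have ha1 : Γ a a1 := by rw [ea]; simp
  have ha2 : Γ a a2 := by rw [ea]; simp
  have hb1 : Γ b b1 := by rw [eb]; simp
  have hb2 : Γ b b2 := by rw [eb]; simp
  have hc1 : Γ c c1 := by rw [ec]; simp
  have hc2 : Γ c c2 := by rw [ec]; simp
  have e1 : r3M S Γ u = [u, a1, a2, b1, b2, c1, c2].toFinset := by
    ext w
    rw [h.mem_M]
    simp only [List.toFinset_cons, List.toFinset_nil, Finset.mem_insert, Finset.notMem_empty,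
      or_false]
    constructor
    · rintro ⟨v, hv, hw⟩
      rcases (e v).1 hv with rfl | rfl | rfl
      · rw [ea] at hw; tauto
      · rw [eb] at hw; tauto
      · rw [ec] at hw; tauto
    · rintro (rfl | rfl | rfl | rfl | rfl | rfl | rfl)
      · exact ⟨a, ha, h.symm _ _ ha⟩
      · exact ⟨a, ha, ha1⟩
      · exact ⟨a, ha, ha2⟩
      · exact ⟨b, hb, hb1⟩
      · exact ⟨b, hb, hb2⟩
      · exact ⟨c, hc, hc1⟩
      · exact ⟨c, hc, hc2⟩
  rw [e1, List.toFinset_card_of_nodup]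
  · rfl
  · have n1 := h.ne hab ha hb ha1 hb1 h1.symm
    have n2 := h.ne hab ha hb ha1 hb2 h1.symm
    have n3 := h.ne hab ha hb ha2 hb1 h2.symm
    have n4 := h.ne hab ha hb ha2 hb2 h2.symm
    have n5 := h.ne hac ha hc ha1 hc1 h1.symm
    have n6 := h.ne hac ha hc ha1 hc2 h1.symm
    have n7 := h.ne hac ha hc ha2 hc1 h2.symm
    have n8 := h.ne hac ha hc ha2 hc2 h2.symm
    have n9 := h.ne hbc hb hc hb1 hc1 h4.symm
    have n10 := h.ne hbc hb hc hb1 hc2 h4.symm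
    have n11 := h.ne hbc hb hc hb2 hc1 h5.symm
    have n12 := h.ne hbc hb hc hb2 hc2 h5.symm
    simp only [List.nodup_cons, List.mem_cons, List.not_mem_nil, or_false, not_or, not_false_eq_true,
      List.nodup_nil, and_true]
    exact ⟨⟨h1, h2, h4, h5, h7, h8⟩, ⟨h3, n1, n2, n5, n6⟩, ⟨n3, n4, n7, n8⟩, ⟨h6, n9, n10⟩,
      ⟨n11, n12⟩, h9⟩

private theorem r3_bool {a b c : Bool} (h1 : a ≠ b) (h2 : b ≠ c) : c = a := by
  revert h1 h2; revert a b c; decide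

open Classical in
/-- The class of a vertex. -/
private noncomputable def r3P (cls : V → Bool) (S : Finset V) (t : Bool) : Finset V :=
  S.filter (fun w => cls w = t)

private theorem mem_r3P {t : Bool} {w : V} : w ∈ r3P cls S t ↔ w ∈ S ∧ cls w = t := by
  classical
  unfold r3P
  rw [Finset.mem_filter]

private theorem R3.M_sub (h : R3 cls S Γ) {u : V} : r3M S Γ u ⊆ r3P cls S (cls u) := by
  intro w hw
  rw [h.mem_M] at hw
  obtain ⟨v, h1, h2⟩ := hw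
  rw [mem_r3P]
  exact ⟨(h.mem _ _ h2).2.1, r3_bool (h.mem _ _ h1).2.2 (h.mem _ _ h2).2.2⟩

private theorem R3.card_eq (h : R3 cls S Γ) : (r3P cls S true).card = (r3P cls S false).card := by
  classical
  have key : ∀ t : Bool, ∀ u ∈ r3P cls S t, ((r3P cls S (!t)).filter (fun w => Γ u w)).card = 3 := by
    intro t u hu
    rw [mem_r3P] at hu
    obtain ⟨a, b, c, hab, hac, hbc, e⟩ := h.three u hu.1
    rw [Finset.card_eq_three]
    refine ⟨a, b, c, hab, hac, hbc, ?_⟩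
    ext w
    rw [Finset.mem_filter, mem_r3P, e]
    simp only [Finset.mem_insert, Finset.mem_singleton]
    constructor
    · exact fun h => h.2
    · intro hw
      have hw' := (e w).2 hw
      have h1 := h.mem _ _ hw'
      refine ⟨⟨h1.2.1, ?_⟩, hw⟩
      have h2 := h1.2.2
      rw [hu.2] at h2
      cases t <;> cases hcw : cls w <;> simp_all
  have := Finset.card_mul_eq_card_mul (s := r3P cls S true) (t := r3P cls S false)
    (fun u w => Γ u w) (m := 3) (n := 3) ?_ ?_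
  · omega
  · intro u hu
    exact key true u hu
  · intro w hw
    have := key false w hw
    rw [← this]
    congr 1
    ext u
    simp only [Finset.mem_bipartiteBelow, Finset.mem_filter, Bool.not_false]
    constructor
    · exact fun h' => ⟨h'.1, h.symm _ _ h'.2⟩
    · exact fun h' => ⟨h'.1, h.symm _ _ h'.2⟩

/-- A surjection from `Fin n` onto a set of `n` elements is injective. -/
private theorem r3_inj {n : ℕ} (T : Finset V) (hT : T.card = n) (p : Fin n → V)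
    (hp : ∀ x ∈ T, ∃ i, p i = x) : Function.Injective p := by
  classical
  have h1 : T ⊆ Finset.univ.image p := by
    intro x hx
    obtain ⟨i, rfl⟩ := hp x hx
    exact Finset.mem_image_of_mem p (Finset.mem_univ i)
  have h2 : (Finset.univ.image p).card = (Finset.univ : Finset (Fin n)).card := by
    apply le_antisymm Finset.card_image_le
    rw [Finset.card_univ, Fintype.card_fin]
    have h5 := Finset.card_le_card h1
    omega
  have h3 := Finset.card_image_iff.1 h2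
  intro i j hij
  exact h3 (by simp) (by simp) hij

/-- Seven points. -/
private theorem R3.fano (h : R3 cls S Γ) (hP : (r3P cls S true).card = 7)
    (hL : (r3P cls S false).card = 7) :
    ∃ p q : Fin 7 → V, Function.Injective p ∧ Function.Injective q ∧
      (∀ i, p i ∈ S ∧ cls (p i) = true) ∧
      (∀ i, q i ∈ S ∧ cls (q i) = false) ∧ ∀ j, ∀ i ∈ fanoLine j, Γ (p i) (q j) := by
  classical
  have hM : ∀ u ∈ S, ∀ w ∈ S, cls w = cls u → ∃ v, Γ u v ∧ Γ v w := by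
    intro u hu w hw hc
    have h1 : r3M S Γ u = r3P cls S (cls u) := by
      apply Finset.eq_of_subset_of_card_le h.M_sub
      rw [h.card_M hu]
      cases hcu : cls u
      · exact hL.le
      · exact hP.le
    rw [← h.mem_M, h1, mem_r3P]
    exact ⟨hw, hc⟩
  obtain ⟨l0, hl0⟩ : (r3P cls S false).Nonempty := by
    rw [← Finset.card_pos, hL]; norm_num
  rw [mem_r3P] at hl0
  obtain ⟨a, b, c, hab, hac, hbc, e0⟩ := h.three l0 hl0.1
  have ha : Γ l0 a := by rw [e0]; simp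
  have hb : Γ l0 b := by rw [e0]; simp
  have hc : Γ l0 c := by rw [e0]; simp
  have cl : ∀ {u w : V}, Γ u w → cls u = false → w ∈ S ∧ cls w = true := by
    intro u w huw hu
    have h1 := h.mem _ _ huw
    refine ⟨h1.2.1, ?_⟩
    have h2 := h1.2.2
    rw [hu] at h2
    cases hcw : cls w
    · exact absurd hcw.symm h2
    · rfl
  have cl' : ∀ {u w : V}, Γ u w → cls u = true → w ∈ S ∧ cls w = false := by
    intro u w huw hu
    have h1 := h.mem _ _ huw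
    refine ⟨h1.2.1, ?_⟩
    have h2 := h1.2.2
    rw [hu] at h2
    cases hcw : cls w
    · rfl
    · exact absurd hcw.symm h2
  -- a point outside the line
  obtain ⟨d, hd⟩ : ((r3P cls S true) \ {a, b, c}).Nonempty := by
    rw [← Finset.card_pos]
    have h1 := Finset.le_card_sdiff ({a, b, c} : Finset V) (r3P cls S true)
    have h2 : ({a, b, c} : Finset V).card ≤ 3 := Finset.card_le_three
    omega
  rw [Finset.mem_sdiff, mem_r3P] at hd
  obtain ⟨⟨hdS, hdt⟩, hdn⟩ := hd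
  simp only [Finset.mem_insert, Finset.mem_singleton] at hdn
  have hd0 : ¬ Γ l0 d := by rw [e0]; exact hdn
  have ca := cl ha hl0.2
  have cb := cl hb hl0.2
  have cc := cl hc hl0.2
  obtain ⟨l1, hal1, hl1d⟩ := hM a ca.1 d hdS (by rw [hdt, ca.2])
  obtain ⟨l2, hbl2, hl2d⟩ := hM b cb.1 d hdS (by rw [hdt, cb.2])
  obtain ⟨l3, hcl3, hl3d⟩ := hM c cc.1 d hdS (by rw [hdt, cc.2])
  have n1 : l1 ≠ l0 := by rintro rfl; exact hd0 hl1d
  have n2 : l2 ≠ l0 := by rintro rfl; exact hd0 hl2d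
  have n3 : l3 ≠ l0 := by rintro rfl; exact hd0 hl3d
  obtain ⟨a', ha1, ha2, ea⟩ := h.one (h.symm _ _ ha) hal1 n1.symm
  obtain ⟨b', hb1, hb2, eb⟩ := h.one (h.symm _ _ hb) hbl2 n2.symm
  obtain ⟨c', hc1, hc2, ec⟩ := h.one (h.symm _ _ hc) hcl3 n3.symm
  have haa : Γ a a' := by rw [ea]; simp
  have hbb : Γ b b' := by rw [eb]; simp
  have hcc : Γ c c' := by rw [ec]; simp
  have n12 : l1 ≠ l2 := h.ne hab ha hb hal1 hbl2 n1
  have n13 : l1 ≠ l3 := h.ne hac ha hc hal1 hcl3 n1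
  have n23 : l2 ≠ l3 := h.ne hbc hb hc hbl2 hcl3 n2
  have hda : d ≠ a := fun e => hdn (Or.inl e)
  have hdb : d ≠ b := fun e => hdn (Or.inr (Or.inl e))
  have hdc : d ≠ c := fun e => hdn (Or.inr (Or.inr e))
  obtain ⟨x, hx1, hx2, ex⟩ := h.one hl1d (h.symm _ _ hal1) hda
  obtain ⟨y, hy1, hy2, ey⟩ := h.one hl2d (h.symm _ _ hbl2) hdb
  obtain ⟨z, hz1, hz2, ez⟩ := h.one hl3d (h.symm _ _ hcl3) hdc
  have hx : Γ l1 x := by rw [ex]; simp
  have hy : Γ l2 y := by rw [ey]; simp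
  have hz : Γ l3 z := by rw [ez]; simp
  have cl1 := cl' hal1 ca.2
  have cl2 := cl' hbl2 cb.2
  have cl3 := cl' hcl3 cc.2
  have cx := cl hx cl1.2
  have cy := cl hy cl2.2
  have cz := cl hz cl3.2
  -- the third line through a point of `l0` contains the two missing points
  have third : ∀ {a l1 a' l2 y : V}, Γ l0 a → Γ a l1 → l1 ≠ l0 → Γ l1 d →
      (∀ w, Γ a w ↔ w = l0 ∨ w = l1 ∨ w = a') → a ∈ S ∧ cls a = true → y ∈ S ∧ cls y = true →
      Γ l2 d → l1 ≠ l2 → Γ l2 y → y ≠ d → ¬ Γ l0 y → Γ y a' := by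
    intro a l1 a' l2 y ha hal1 n1 hl1d ea ca cy hl2d n12 hy hyd hy0
    obtain ⟨v, hv, hvy⟩ := hM a ca.1 y cy.1 (by rw [cy.2, ca.2])
    rcases (ea v).1 hv with rfl | rfl | rfl
    · exact absurd hvy hy0
    · exact absurd (h.lin v l2 n12 y d hvy hy hl1d hl2d) hyd
    · exact h.symm _ _ hvy
  have hx0 : ¬ Γ l0 x := fun h' => hx2 (h.lin l0 l1 n1.symm a x ha (h.symm _ _ hal1) h' hx)
  have hy0 : ¬ Γ l0 y := fun h' => hy2 (h.lin l0 l2 n2.symm b y hb (h.symm _ _ hbl2) h' hy)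
  have hz0 : ¬ Γ l0 z := fun h' => hz2 (h.lin l0 l3 n3.symm c z hc (h.symm _ _ hcl3) h' hz)
  have fay := third ha hal1 n1 hl1d ea ca cy hl2d n12 hy hy1.symm hy0
  have faz := third ha hal1 n1 hl1d ea ca cz hl3d n13 hz hz1.symm hz0
  have fbx := third hb hbl2 n2 hl2d eb cb cx hl1d n12.symm hx hx1.symm hx0
  have fbz := third hb hbl2 n2 hl2d eb cb cz hl3d n23 hz hz1.symm hz0
  have fcx := third hc hcl3 n3 hl3d ec cc cx hl1d n13.symm hx hx1.symm hx0
  have fcy := third hc hcl3 n3 hl3d ec cc cy hl2d n23.symm hy hy1.symm hy0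
  have sP : ∀ w ∈ r3P cls S true, w = a ∨ w = b ∨ w = c ∨ w = d ∨ w = x ∨ w = y ∨ w = z := by
    intro w hw
    rw [mem_r3P] at hw
    obtain ⟨v, hv, hvw⟩ := hM d hdS w hw.1 (by rw [hw.2, hdt])
    have ed := h.nbr (h.symm _ _ hl1d) (h.symm _ _ hl2d) (h.symm _ _ hl3d) n12 n13 n23 v
    rcases ed.1 hv with rfl | rfl | rfl
    · rw [ex] at hvw; tauto
    · rw [ey] at hvw; tauto
    · rw [ez] at hvw; tauto
  have sL : ∀ w ∈ r3P cls S false, w = l0 ∨ w = l1 ∨ w = a' ∨ w = l2 ∨ w = b' ∨ w = l3 ∨ w = c' := by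
    intro w hw
    rw [mem_r3P] at hw
    obtain ⟨v, hv, hvw⟩ := hM l0 hl0.1 w hw.1 (by rw [hw.2, hl0.2])
    rcases (e0 v).1 hv with rfl | rfl | rfl
    · rw [ea] at hvw; tauto
    · rw [eb] at hvw; tauto
    · rw [ec] at hvw; tauto
  refine ⟨![a, b, c, d, x, y, z], ![l0, l1, a', l2, b', l3, c'], ?_, ?_, ?_, ?_, ?_⟩
  · apply r3_inj _ hP
    intro w hw
    rcases sP w hw with rfl | rfl | rfl | rfl | rfl | rfl | rfl
    exacts [⟨0, rfl⟩, ⟨1, rfl⟩, ⟨2, rfl⟩, ⟨3, rfl⟩, ⟨4, rfl⟩, ⟨5, rfl⟩, ⟨6, rfl⟩]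
  · apply r3_inj _ hL
    intro w hw
    rcases sL w hw with rfl | rfl | rfl | rfl | rfl | rfl | rfl
    exacts [⟨0, rfl⟩, ⟨1, rfl⟩, ⟨2, rfl⟩, ⟨3, rfl⟩, ⟨4, rfl⟩, ⟨5, rfl⟩, ⟨6, rfl⟩]
  · intro i
    fin_cases i
    exacts [ca, cb, cc, ⟨hdS, hdt⟩, cx, cy, cz]
  · intro i
    fin_cases i
    exacts [hl0, cl1, cl' haa ca.2, cl2, cl' hbb cb.2, cl3, cl' hcc cc.2]
  · intro j i hi
    fin_cases j
    · simp only [fanoLine, List.mem_cons, List.not_mem_nil, or_false] at hi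
      rcases hi with rfl | rfl | rfl
      exacts [h.symm _ _ ha, h.symm _ _ hb, h.symm _ _ hc]
    · simp only [fanoLine, List.mem_cons, List.not_mem_nil, or_false] at hi
      rcases hi with rfl | rfl | rfl
      exacts [hal1, h.symm _ _ hl1d, h.symm _ _ hx]
    · simp only [fanoLine, List.mem_cons, List.not_mem_nil, or_false] at hi
      rcases hi with rfl | rfl | rfl
      exacts [haa, fay, faz]
    · simp only [fanoLine, List.mem_cons, List.not_mem_nil, or_false] at hi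
      rcases hi with rfl | rfl | rfl
      exacts [hbl2, h.symm _ _ hl2d, h.symm _ _ hy]
    · simp only [fanoLine, List.mem_cons, List.not_mem_nil, or_false] at hi
      rcases hi with rfl | rfl | rfl
      exacts [hbb, fbx, fbz]
    · simp only [fanoLine, List.mem_cons, List.not_mem_nil, or_false] at hi
      rcases hi with rfl | rfl | rfl
      exacts [hcl3, h.symm _ _ hl3d, h.symm _ _ hz]
    · simp only [fanoLine, List.mem_cons, List.not_mem_nil, or_false] at hi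
      rcases hi with rfl | rfl | rfl
      exacts [hcc, fcx, fcy]

private theorem r3_mk {Γ : V → V → Prop} {a b c d1 d2 d3 d4 d5 l0 A1 A2 B1 B2 C1 C2 D : V}
    (g0 : Γ a l0 ∧ Γ b l0 ∧ Γ c l0) (g1 : Γ a A1 ∧ Γ d2 A1 ∧ Γ d4 A1)
    (g2 : Γ a A2 ∧ Γ d3 A2 ∧ Γ d5 A2) (g3 : Γ b B1 ∧ Γ d3 B1 ∧ Γ d4 B1)
    (g4 : Γ b B2 ∧ Γ d1 B2 ∧ Γ d5 B2) (g5 : Γ c C1 ∧ Γ d1 C1 ∧ Γ d4 C1)
    (g6 : Γ c C2 ∧ Γ d2 C2 ∧ Γ d5 C2) (g7 : Γ d1 D ∧ Γ d2 D ∧ Γ d3 D) :
    ∀ j, ∀ i ∈ mkLine j,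
      Γ ((![a, b, c, d1, d2, d3, d4, d5] : Fin 8 → V) i)
        ((![l0, A1, A2, B1, B2, C1, C2, D] : Fin 8 → V) j) := by
  intro j i hi
  fin_cases j
  · simp only [mkLine, List.mem_cons, List.not_mem_nil, or_false] at hi
    rcases hi with rfl | rfl | rfl
    exacts [g0.1, g0.2.1, g0.2.2]
  · simp only [mkLine, List.mem_cons, List.not_mem_nil, or_false] at hi
    rcases hi with rfl | rfl | rfl
    exacts [g1.1, g1.2.1, g1.2.2]
  · simp only [mkLine, List.mem_cons, List.not_mem_nil, or_false] at hi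
    rcases hi with rfl | rfl | rfl
    exacts [g2.1, g2.2.1, g2.2.2]
  · simp only [mkLine, List.mem_cons, List.not_mem_nil, or_false] at hi
    rcases hi with rfl | rfl | rfl
    exacts [g3.1, g3.2.1, g3.2.2]
  · simp only [mkLine, List.mem_cons, List.not_mem_nil, or_false] at hi
    rcases hi with rfl | rfl | rfl
    exacts [g4.1, g4.2.1, g4.2.2]
  · simp only [mkLine, List.mem_cons, List.not_mem_nil, or_false] at hi
    rcases hi with rfl | rfl | rfl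
    exacts [g5.1, g5.2.1, g5.2.2]
  · simp only [mkLine, List.mem_cons, List.not_mem_nil, or_false] at hi
    rcases hi with rfl | rfl | rfl
    exacts [g6.1, g6.2.1, g6.2.2]
  · simp only [mkLine, List.mem_cons, List.not_mem_nil, or_false] at hi
    rcases hi with rfl | rfl | rfl
    exacts [g7.1, g7.2.1, g7.2.2]

/-- Eight points: the final step. -/
private theorem R3.mk_build (h : R3 cls S Γ) (hP : (r3P cls S true).card = 8)
    (hL : (r3P cls S false).card = 8) {a b c d1 d2 d3 d4 d5 l0 A1 A2 B1 B2 C1 C2 D : V}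
    (g0 : Γ a l0 ∧ Γ b l0 ∧ Γ c l0) (g1 : Γ a A1 ∧ Γ d2 A1 ∧ Γ d4 A1)
    (g2 : Γ a A2 ∧ Γ d3 A2 ∧ Γ d5 A2) (g3 : Γ b B1 ∧ Γ d3 B1 ∧ Γ d4 B1)
    (g4 : Γ b B2 ∧ Γ d1 B2 ∧ Γ d5 B2) (g5 : Γ c C1 ∧ Γ d1 C1 ∧ Γ d4 C1)
    (g6 : Γ c C2 ∧ Γ d2 C2 ∧ Γ d5 C2) (g7 : Γ d1 D ∧ Γ d2 D ∧ Γ d3 D)
    (ct : cls a = true ∧ cls b = true ∧ cls c = true ∧ cls d1 = true)
    (sP : ∀ w ∈ r3P cls S true, w = a ∨ w = b ∨ w = c ∨ w = d1 ∨ w = d2 ∨ w = d3 ∨ w = d4 ∨ w = d5)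
    (sL : ∀ w ∈ r3P cls S false, w = l0 ∨ w = A1 ∨ w = A2 ∨ w = B1 ∨ w = B2 ∨ w = C1 ∨ w = C2 ∨
      w = D) :
    ∃ p q : Fin 8 → V, Function.Injective p ∧ Function.Injective q ∧
      (∀ i, p i ∈ S ∧ cls (p i) = true) ∧
      (∀ i, q i ∈ S ∧ cls (q i) = false) ∧ ∀ j, ∀ i ∈ mkLine j, Γ (p i) (q j) := by
  have cl : ∀ {u w : V}, Γ u w → cls w = false → u ∈ S ∧ cls u = true := by
    intro u w huw hu
    have h1 := h.mem _ _ huw
    refine ⟨h1.1, ?_⟩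
    have h2 := h1.2.2
    rw [hu] at h2
    cases hcw : cls u
    · exact absurd hcw h2
    · rfl
  have cl' : ∀ {u w : V}, Γ u w → cls u = true → w ∈ S ∧ cls w = false := by
    intro u w huw hu
    have h1 := h.mem _ _ huw
    refine ⟨h1.2.1, ?_⟩
    have h2 := h1.2.2
    rw [hu] at h2
    cases hcw : cls w
    · rfl
    · exact absurd hcw.symm h2
  have k0 := cl' g0.1 ct.1
  have k1 := cl' g1.1 ct.1
  have k2 := cl' g2.1 ct.1
  have k3 := cl' g3.1 ct.2.1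
  have k4 := cl' g4.1 ct.2.1
  have k5 := cl' g5.1 ct.2.2.1
  have k6 := cl' g6.1 ct.2.2.1
  have k7 := cl' g7.1 ct.2.2.2
  refine ⟨![a, b, c, d1, d2, d3, d4, d5], ![l0, A1, A2, B1, B2, C1, C2, D], ?_, ?_, ?_, ?_,
    r3_mk g0 g1 g2 g3 g4 g5 g6 g7⟩
  · apply r3_inj _ hP
    intro w hw
    rcases sP w hw with rfl | rfl | rfl | rfl | rfl | rfl | rfl | rfl
    exacts [⟨0, rfl⟩, ⟨1, rfl⟩, ⟨2, rfl⟩, ⟨3, rfl⟩, ⟨4, rfl⟩, ⟨5, rfl⟩, ⟨6, rfl⟩, ⟨7, rfl⟩]
  · apply r3_inj _ hL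
    intro w hw
    rcases sL w hw with rfl | rfl | rfl | rfl | rfl | rfl | rfl | rfl
    exacts [⟨0, rfl⟩, ⟨1, rfl⟩, ⟨2, rfl⟩, ⟨3, rfl⟩, ⟨4, rfl⟩, ⟨5, rfl⟩, ⟨6, rfl⟩, ⟨7, rfl⟩]
  · intro i
    fin_cases i
    exacts [cl g0.1 k0.2, cl g0.2.1 k0.2, cl g0.2.2 k0.2, cl g7.1 k7.2, cl g7.2.1 k7.2,
      cl g7.2.2 k7.2, cl g1.2.2 k1.2, cl g2.2.2 k2.2]
  · intro i
    fin_cases i
    exacts [k0, k1, k2, k3, k4, k5, k6, k7]

/-- Eight points. -/
private theorem R3.mk8 (h : R3 cls S Γ) (hP : (r3P cls S true).card = 8)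
    (hL : (r3P cls S false).card = 8) :
    ∃ p q : Fin 8 → V, Function.Injective p ∧ Function.Injective q ∧
      (∀ i, p i ∈ S ∧ cls (p i) = true) ∧
      (∀ i, q i ∈ S ∧ cls (q i) = false) ∧ ∀ j, ∀ i ∈ mkLine j, Γ (p i) (q j) := by
  classical
  obtain ⟨l0, hl0⟩ : (r3P cls S false).Nonempty := by
    rw [← Finset.card_pos, hL]; norm_num
  rw [mem_r3P] at hl0
  obtain ⟨a, b, c, hab, hac, hbc, e0⟩ := h.three l0 hl0.1
  have ha : Γ l0 a := by rw [e0]; simp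
  have hb : Γ l0 b := by rw [e0]; simp
  have hc : Γ l0 c := by rw [e0]; simp
  have cl : ∀ {u w : V}, Γ u w → cls u = false → w ∈ S ∧ cls w = true := by
    intro u w huw hu
    have h1 := h.mem _ _ huw
    refine ⟨h1.2.1, ?_⟩
    have h2 := h1.2.2
    rw [hu] at h2
    cases hcw : cls w
    · exact absurd hcw.symm h2
    · rfl
  have cl' : ∀ {u w : V}, Γ u w → cls u = true → w ∈ S ∧ cls w = false := by
    intro u w huw hu
    have h1 := h.mem _ _ huw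
    refine ⟨h1.2.1, ?_⟩
    have h2 := h1.2.2
    rw [hu] at h2
    cases hcw : cls w
    · rfl
    · exact absurd hcw.symm h2
  have ca := cl ha hl0.2
  have cb := cl hb hl0.2
  have cc := cl hc hl0.2
  -- the line disjoint from `l0`
  have hMsub : r3M S Γ l0 ⊆ r3P cls S false := by
    have := h.M_sub (u := l0)
    rwa [hl0.2] at this
  obtain ⟨D, hD⟩ : ∃ D, r3P cls S false \ r3M S Γ l0 = {D} := by
    rw [← Finset.card_eq_one, Finset.card_sdiff_of_subset hMsub, h.card_M hl0.1, hL]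
  have hDm : D ∈ r3P cls S false \ r3M S Γ l0 := by rw [hD]; simp
  rw [Finset.mem_sdiff, mem_r3P, h.mem_M] at hDm
  obtain ⟨⟨hDS, hDf⟩, hDn⟩ := hDm
  have lines : ∀ w, w ∈ S → cls w = false → w = D ∨ Γ a w ∨ Γ b w ∨ Γ c w := by
    intro w hw hcw
    by_cases h1 : w ∈ r3M S Γ l0
    · rw [h.mem_M] at h1
      obtain ⟨v, hv, hvw⟩ := h1
      rcases (e0 v).1 hv with rfl | rfl | rfl <;> tauto
    · left
      have h2 : w ∈ r3P cls S false \ r3M S Γ l0 := by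
        rw [Finset.mem_sdiff, mem_r3P]
        exact ⟨⟨hw, hcw⟩, h1⟩
      rw [hD, Finset.mem_singleton] at h2
      exact h2
  have hDa : ¬ Γ a D := fun h' => hDn ⟨a, ha, h'⟩
  have hDb : ¬ Γ b D := fun h' => hDn ⟨b, hb, h'⟩
  have hDc : ¬ Γ c D := fun h' => hDn ⟨c, hc, h'⟩
  obtain ⟨x1, x2, x3, hx12, hx13, hx23, eD⟩ := h.three D hDS
  have hDx1 : Γ D x1 := by rw [eD]; simp
  have hDx2 : Γ D x2 := by rw [eD]; simp
  have hDx3 : Γ D x3 := by rw [eD]; simp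
  -- the remaining two points
  have hsub : ({a, b, c, x1, x2, x3} : Finset V) ⊆ r3P cls S true := by
    intro w hw
    simp only [Finset.mem_insert, Finset.mem_singleton] at hw
    rw [mem_r3P]
    rcases hw with rfl | rfl | rfl | rfl | rfl | rfl
    exacts [ca, cb, cc, cl hDx1 hDf, cl hDx2 hDf, cl hDx3 hDf]
  have hcard : ({a, b, c, x1, x2, x3} : Finset V).card = 6 := by
    have e1 : ({a, b, c, x1, x2, x3} : Finset V) = [a, b, c, x1, x2, x3].toFinset := by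
      simp
    rw [e1, List.toFinset_card_of_nodup]
    · rfl
    · have na : ∀ {x}, Γ D x → a ≠ x := by rintro x hx rfl; exact hDa (h.symm _ _ hx)
      have nb : ∀ {x}, Γ D x → b ≠ x := by rintro x hx rfl; exact hDb (h.symm _ _ hx)
      have nc : ∀ {x}, Γ D x → c ≠ x := by rintro x hx rfl; exact hDc (h.symm _ _ hx)
      simp only [List.nodup_cons, List.mem_cons, List.not_mem_nil, or_false, not_or,
        not_false_eq_true, List.nodup_nil, and_true]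
      exact ⟨⟨hab, hac, na hDx1, na hDx2, na hDx3⟩, ⟨hbc, nb hDx1, nb hDx2, nb hDx3⟩,
        ⟨nc hDx1, nc hDx2, nc hDx3⟩, ⟨hx12, hx13⟩, hx23⟩
  obtain ⟨d4, d5, hd45, hd⟩ : ∃ d4 d5, d4 ≠ d5 ∧
      r3P cls S true \ ({a, b, c, x1, x2, x3} : Finset V) = {d4, d5} := by
    rw [← Finset.card_eq_two, Finset.card_sdiff_of_subset hsub, hcard, hP]
  have points : ∀ w, w ∈ S → cls w = true → Γ l0 w ∨ Γ D w ∨ w = d4 ∨ w = d5 := by
    intro w hw hcw
    by_cases h1 : w ∈ ({a, b, c, x1, x2, x3} : Finset V)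
    · simp only [Finset.mem_insert, Finset.mem_singleton] at h1
      rw [e0, eD]
      tauto
    · have h2 : w ∈ r3P cls S true \ ({a, b, c, x1, x2, x3} : Finset V) := by
        rw [Finset.mem_sdiff, mem_r3P]
        exact ⟨⟨hw, hcw⟩, h1⟩
      rw [hd] at h2
      simp only [Finset.mem_insert, Finset.mem_singleton] at h2
      tauto
  have outer : ∀ w, (w = d4 ∨ w = d5) → w ∈ S ∧ cls w = true ∧ ¬ Γ l0 w ∧ ¬ Γ D w := by
    intro w hw
    have h2 : w ∈ r3P cls S true \ ({a, b, c, x1, x2, x3} : Finset V) := by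
      rw [hd]
      simpa using hw
    rw [Finset.mem_sdiff, mem_r3P] at h2
    simp only [Finset.mem_insert, Finset.mem_singleton] at h2
    refine ⟨h2.1.1, h2.1.2, ?_, ?_⟩
    · rw [e0]; tauto
    · rw [eD]; tauto
  obtain ⟨s4, t4, n4, m4⟩ := outer d4 (Or.inl rfl)
  obtain ⟨s5, t5, n5, m5⟩ := outer d5 (Or.inr rfl)
  -- an outer point is joined to `a`, `b`, `c`
  have joined : ∀ d, d ∈ S → cls d = true → ¬ Γ l0 d → ¬ Γ D d →
      ∃ A B C, (Γ A a ∧ Γ A d) ∧ (Γ B b ∧ Γ B d) ∧ (Γ C c ∧ Γ C d) := by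
    intro d hdS hdt hd0 hdD
    obtain ⟨m1, m2, m3, h12, h13, h23, ed⟩ := h.three d hdS
    have hm1 : Γ d m1 := by rw [ed]; simp
    have hm2 : Γ d m2 := by rw [ed]; simp
    have hm3 : Γ d m3 := by rw [ed]; simp
    have cl3 : ∀ {m}, Γ d m → Γ a m ∨ Γ b m ∨ Γ c m := by
      intro m hm
      have h1 := cl' hm hdt
      rcases lines m h1.1 h1.2 with h2 | h2
      · rw [h2] at hm
        exact absurd (h.symm _ _ hm) hdD
      · exact h2
    -- two lines through `d` do not meet in another point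
    have no2 : ∀ {x m m'}, Γ l0 x → m ≠ m' → Γ d m → Γ d m' → Γ x m → Γ x m' → False := by
      intro x m m' hx hmm h1 h2 h3 h4
      apply hmm
      refine h.lin x d ?_ m m' h3 h1 h4 h2
      rintro rfl
      exact hd0 hx
    have S' := fun {u v} => h.symm u v
    rcases cl3 hm1 with q1 | q1 | q1 <;> rcases cl3 hm2 with q2 | q2 | q2 <;>
      rcases cl3 hm3 with q3 | q3 | q3
    all_goals first
      | exact (no2 ha h12 hm1 hm2 q1 q2).elim
      | exact (no2 ha h13 hm1 hm3 q1 q3).elim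
      | exact (no2 ha h23 hm2 hm3 q2 q3).elim
      | exact (no2 hb h12 hm1 hm2 q1 q2).elim
      | exact (no2 hb h13 hm1 hm3 q1 q3).elim
      | exact (no2 hb h23 hm2 hm3 q2 q3).elim
      | exact (no2 hc h12 hm1 hm2 q1 q2).elim
      | exact (no2 hc h13 hm1 hm3 q1 q3).elim
      | exact (no2 hc h23 hm2 hm3 q2 q3).elim
      | exact ⟨m1, m2, m3, ⟨S' q1, S' hm1⟩, ⟨S' q2, S' hm2⟩, ⟨S' q3, S' hm3⟩⟩
      | exact ⟨m1, m3, m2, ⟨S' q1, S' hm1⟩, ⟨S' q3, S' hm3⟩, ⟨S' q2, S' hm2⟩⟩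
      | exact ⟨m2, m1, m3, ⟨S' q2, S' hm2⟩, ⟨S' q1, S' hm1⟩, ⟨S' q3, S' hm3⟩⟩
      | exact ⟨m3, m1, m2, ⟨S' q3, S' hm3⟩, ⟨S' q1, S' hm1⟩, ⟨S' q2, S' hm2⟩⟩
      | exact ⟨m2, m3, m1, ⟨S' q2, S' hm2⟩, ⟨S' q3, S' hm3⟩, ⟨S' q1, S' hm1⟩⟩
      | exact ⟨m3, m2, m1, ⟨S' q3, S' hm3⟩, ⟨S' q2, S' hm2⟩, ⟨S' q1, S' hm1⟩⟩
  obtain ⟨A1, B1, C1, ⟨A1a, A1d⟩, ⟨B1b, B1d⟩, ⟨C1c, C1d⟩⟩ := joined d4 s4 t4 n4 m4
  obtain ⟨A2, B2, C2, ⟨A2a, A2d⟩, ⟨B2b, B2d⟩, ⟨C2c, C2d⟩⟩ := joined d5 s5 t5 n5 m5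
  -- the two lines through `a` are different
  have diff : ∀ {a A1 A2}, Γ l0 a → ¬ Γ a D → Γ A1 a → Γ A1 d4 → Γ A2 a → Γ A2 d5 → A1 ≠ A2 := by
    rintro a A1 A2 ha hDa A1a A1d A2a A2d rfl
    have ca := cl ha hl0.2
    have n10 : A1 ≠ l0 := by rintro rfl; exact n4 A1d
    obtain ⟨A', hA1, hA2, ea⟩ := h.one (h.symm _ _ ha) (h.symm _ _ A1a) n10.symm
    have hA : Γ a A' := by rw [ea]; simp
    obtain ⟨x, y, hax, hay, hxy, eA⟩ := h.two (h.symm _ _ hA)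
    have hx : Γ A' x := by rw [eA]; simp
    have hy : Γ A' y := by rw [eA]; simp
    have cA := cl' hA ca.2
    have key : ∀ {x}, Γ A' x → a ≠ x → Γ D x := by
      intro x hx hax
      have cx := cl hx cA.2
      rcases points x cx.1 cx.2 with h1 | h1 | h1 | h1
      · exact absurd (h.lin l0 A' hA1 a x ha (h.symm _ _ hA) h1 hx) hax
      · exact h1
      · rw [h1] at hx
        have h4 : a ≠ d4 := by rintro rfl; exact n4 ha
        exact absurd (h.lin A1 A' hA2 a d4 A1a (h.symm _ _ hA) A1d hx) h4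
      · rw [h1] at hx
        have h4 : a ≠ d5 := by rintro rfl; exact n5 ha
        exact absurd (h.lin A1 A' hA2 a d5 A1a (h.symm _ _ hA) A2d hx) h4
    have h5 : A' ≠ D := by rintro rfl; exact hDa hA
    exact hxy (h.lin A' D h5 x y hx (key hx hax) hy (key hy hay))
  have nA := diff ha hDa A1a A1d A2a A2d
  have nB := diff hb hDb B1b B1d B2b B2d
  have nC := diff hc hDc C1c C1d C2c C2d
  -- the third point is on `D`
  have third : ∀ {a A1 A2 d4 d5}, Γ l0 a → Γ A1 a → Γ A1 d4 → Γ A2 a → Γ A2 d5 → A1 ≠ A2 →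
      ¬ Γ l0 d4 → ¬ Γ l0 d5 → (∀ w, w ∈ S → cls w = true → Γ l0 w ∨ Γ D w ∨ w = d4 ∨ w = d5) →
      ∃ α, Γ A1 α ∧ Γ D α ∧ α ≠ d4 ∧ α ≠ a := by
    intro a A1 A2 d4 d5 ha A1a A1d A2a A2d nA n4 n5 points
    have ca := cl ha hl0.2
    have had : a ≠ d4 := by rintro rfl; exact n4 ha
    obtain ⟨α, h1, h2, e⟩ := h.one A1a A1d had
    have hα : Γ A1 α := by rw [e]; simp
    have cA := cl' (h.symm _ _ A1a) ca.2
    have cα := cl hα cA.2
    have n10 : A1 ≠ l0 := by rintro rfl; exact n4 A1d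
    refine ⟨α, hα, ?_, h2.symm, h1.symm⟩
    rcases points α cα.1 cα.2 with h3 | h3 | h3 | h3
    · exact absurd (h.lin l0 A1 n10.symm a α ha A1a h3 hα) h1
    · exact h3
    · exact absurd h3.symm h2
    · rw [h3] at hα h1
      exact absurd (h.lin A1 A2 nA a d5 A1a A2a hα A2d) h1
  have points' : ∀ w, w ∈ S → cls w = true → Γ l0 w ∨ Γ D w ∨ w = d5 ∨ w = d4 := by
    intro w h1 h2
    rcases points w h1 h2 with h3 | h3 | h3 | h3
    exacts [Or.inl h3, Or.inr (Or.inl h3), Or.inr (Or.inr (Or.inr h3)), Or.inr (Or.inr (Or.inl h3))]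
  obtain ⟨α, A1α, Dα, α4, αa⟩ := third ha A1a A1d A2a A2d nA n4 n5 points
  obtain ⟨β, B1β, Dβ, β4, βb⟩ := third hb B1b B1d B2b B2d nB n4 n5 points
  obtain ⟨γ, C1γ, Dγ, γ4, γc⟩ := third hc C1c C1d C2c C2d nC n4 n5 points
  obtain ⟨α', A2α, Dα', α5, αa'⟩ := third ha A2a A2d A1a A1d nA.symm n5 n4 points'
  obtain ⟨β', B2β, Dβ', β5, βb'⟩ := third hb B2b B2d B1b B1d nB.symm n5 n4 points'
  obtain ⟨γ', C2γ, Dγ', γ5, γc'⟩ := third hc C2c C2d C1c C1d nC.symm n5 n4 points'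
  have nD0 : ∀ {x y}, Γ D x → Γ l0 y → x ≠ y := by
    rintro x y hx hy rfl
    exact hDn ⟨x, hy, h.symm _ _ hx⟩
  have lne : ∀ {x y A B d}, Γ l0 x → Γ l0 y → x ≠ y → Γ A x → Γ B y → Γ A d → ¬ Γ l0 d → A ≠ B := by
    rintro x y A B d hx hy hxy hA hB hd hd0
    exact h.ne hxy hx hy (h.symm _ _ hA) (h.symm _ _ hB) (by rintro rfl; exact hd0 hd)
  have AB := lne ha hb hab A1a B1b A1d n4
  have AC := lne ha hc hac A1a C1c A1d n4
  have BC := lne hb hc hbc B1b C1c B1d n4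
  have AB' := lne ha hb hab A2a B2b A2d n5
  have AC' := lne ha hc hac A2a C2c A2d n5
  have BC' := lne hb hc hbc B2b C2c B2d n5
  have sy := fun {u v} => h.symm u v
  have αβ : α ≠ β := h.ne AB (sy A1d) (sy B1d) A1α B1β α4
  have αγ : α ≠ γ := h.ne AC (sy A1d) (sy C1d) A1α C1γ α4
  have βγ : β ≠ γ := h.ne BC (sy B1d) (sy C1d) B1β C1γ β4
  have αβ' : α' ≠ β' := h.ne AB' (sy A2d) (sy B2d) A2α B2β α5
  have αγ' : α' ≠ γ' := h.ne AC' (sy A2d) (sy C2d) A2α C2γ α5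
  have βγ' : β' ≠ γ' := h.ne BC' (sy B2d) (sy C2d) B2β C2γ β5
  have αα : α' ≠ α := h.ne nA.symm (sy A2a) (sy A1a) A2α A1α αa'
  have ββ : β' ≠ β := h.ne nB.symm (sy B2b) (sy B1b) B2β B1β βb'
  have γγ : γ' ≠ γ := h.ne nC.symm (sy C2c) (sy C1c) C2γ C1γ γc'
  have nD := h.nbr Dα Dβ Dγ αβ αγ βγ
  have hα' := (nD α').1 Dα'
  have hβ' := (nD β').1 Dβ'
  have hγ' := (nD γ').1 Dγ'
  have n10 : ∀ {A d}, Γ A d → ¬ Γ l0 d → l0 ≠ A := by rintro A d h1 h2 rfl; exact h2 h1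
  have la := h.nbr (sy ha) (sy A1a) (sy A2a) (n10 A1d n4) (n10 A2d n5) nA
  have lb := h.nbr (sy hb) (sy B1b) (sy B2b) (n10 B1d n4) (n10 B2d n5) nB
  have lc := h.nbr (sy hc) (sy C1c) (sy C2c) (n10 C1d n4) (n10 C2d n5) nC
  have allL : ∀ w ∈ r3P cls S false, w = l0 ∨ w = A1 ∨ w = A2 ∨ w = B1 ∨ w = B2 ∨ w = C1 ∨
      w = C2 ∨ w = D := by
    intro w hw
    rw [mem_r3P] at hw
    rcases lines w hw.1 hw.2 with h1 | h1 | h1 | h1
    · rw [h1]; simp
    · rcases (la w).1 h1 with h2 | h2 | h2 <;> rw [h2] <;> simp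
    · rcases (lb w).1 h1 with h2 | h2 | h2 <;> rw [h2] <;> simp
    · rcases (lc w).1 h1 with h2 | h2 | h2 <;> rw [h2] <;> simp
  have allP : ∀ w ∈ r3P cls S true, w = a ∨ w = b ∨ w = c ∨ w = α ∨ w = β ∨ w = γ ∨ w = d4 ∨
      w = d5 := by
    intro w hw
    rw [mem_r3P] at hw
    rcases points w hw.1 hw.2 with h1 | h1 | h1 | h1
    · rcases (e0 w).1 h1 with h2 | h2 | h2 <;> rw [h2] <;> simp
    · rcases (nD w).1 h1 with h2 | h2 | h2 <;> rw [h2] <;> simp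
    · rw [h1]; simp
    · rw [h1]; simp
  have cD : ∀ {x}, Γ D x → cls x = true := fun hx => (cl hx hDf).2
  have two : (α' = β ∧ β' = γ ∧ γ' = α) ∨ (α' = γ ∧ β' = α ∧ γ' = β) := by
    rcases hα' with e1 | e1 | e1
    · exact absurd e1 αα
    · rcases hβ' with e2 | e2 | e2
      · rcases hγ' with e3 | e3 | e3
        · exact absurd (e2.trans e3.symm) βγ'
        · exact absurd (e1.trans e3.symm) αγ'
        · exact absurd e3 γγ
      · exact absurd e2 ββ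
      · rcases hγ' with e3 | e3 | e3
        · exact Or.inl ⟨e1, e2, e3⟩
        · exact absurd (e1.trans e3.symm) αγ'
        · exact absurd e3 γγ
    · rcases hβ' with e2 | e2 | e2
      · rcases hγ' with e3 | e3 | e3
        · exact absurd (e2.trans e3.symm) βγ'
        · exact Or.inr ⟨e1, e2, e3⟩
        · exact absurd e3 γγ
      · exact absurd e2 ββ
      · exact absurd (e1.trans e2.symm) αβ'
  rcases two with ⟨e1, e2, e3⟩ | ⟨e1, e2, e3⟩
  · rw [e1] at A2α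
    rw [e2] at B2β
    rw [e3] at C2γ
    refine h.mk_build hP hL (a := a) (b := b) (c := c) (d1 := γ) (d2 := α) (d3 := β) (d4 := d4)
      (d5 := d5) (l0 := l0) (A1 := A1) (A2 := A2) (B1 := B1) (B2 := B2) (C1 := C1) (C2 := C2)
      (D := D) ⟨sy ha, sy hb, sy hc⟩ ⟨sy A1a, sy A1α, sy A1d⟩ ⟨sy A2a, sy A2α, sy A2d⟩
      ⟨sy B1b, sy B1β, sy B1d⟩ ⟨sy B2b, sy B2β, sy B2d⟩ ⟨sy C1c, sy C1γ, sy C1d⟩
      ⟨sy C2c, sy C2γ, sy C2d⟩ ⟨sy Dγ, sy Dα, sy Dβ⟩ ⟨ca.2, cb.2, cc.2, cD Dγ⟩ ?_ allL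
    intro w hw
    rcases allP w hw with h1 | h1 | h1 | h1 | h1 | h1 | h1 | h1 <;> rw [h1] <;> simp
  · rw [e1] at A2α
    rw [e2] at B2β
    rw [e3] at C2γ
    refine h.mk_build hP hL (a := a) (b := b) (c := c) (d1 := β) (d2 := γ) (d3 := α) (d4 := d5)
      (d5 := d4) (l0 := l0) (A1 := A2) (A2 := A1) (B1 := B2) (B2 := B1) (C1 := C2) (C2 := C1)
      (D := D) ⟨sy ha, sy hb, sy hc⟩ ⟨sy A2a, sy A2α, sy A2d⟩ ⟨sy A1a, sy A1α, sy A1d⟩
      ⟨sy B2b, sy B2β, sy B2d⟩ ⟨sy B1b, sy B1β, sy B1d⟩ ⟨sy C2c, sy C2γ, sy C2d⟩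
      ⟨sy C1c, sy C1γ, sy C1d⟩ ⟨sy Dβ, sy Dγ, sy Dα⟩ ⟨ca.2, cb.2, cc.2, cD Dβ⟩ ?_ ?_
    · intro w hw
      rcases allP w hw with h1 | h1 | h1 | h1 | h1 | h1 | h1 | h1 <;> rw [h1] <;> simp
    · intro w hw
      rcases allL w hw with h1 | h1 | h1 | h1 | h1 | h1 | h1 | h1 <;> rw [h1] <;> simp

end

/-- A configuration with fewer than 9 points is the Fano plane or the Möbius-Kantor configuration.
Double counting: `S` has as many points (`cls = true`) as lines, say `m ≤ 8`.  Take a line `{a, b, c}`; every one of `a, b, c` has two further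
lines with two further points each (4 different points), so `m ≥ 7`.
`m = 7`: 4 outer points; the pairs on the lines through `a`, `b`, `c` are three disjoint perfect matchings of the 4 outer points.
`m = 8`: 5 outer points; 7 lines used; the 8th line consists of three outer points `d₁ d₂ d₃`; `d₄, d₅` are each on an `a`-line, a `b`-line and a
`c`-line; each of `a, b, c` misses exactly one outer point, `d₁, d₂, d₃` miss exactly one of `a, b, c` each, so wlog (order of `d₁ d₂ d₃`) `d₁` misses `a`,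
`d₂` misses `b`, `d₃` misses `c`.  `d₄, d₅` are not on a common line (if on an `a`-line, the other `a`-line would be `d₂ d₃`), so `d₄` is joined to each of
`d₁, d₂, d₃`: `a`-line with `d₂` or `d₃` etc.; after swapping `d₄, d₅` the lines are those of `mkLine`. -/
theorem combi_m3 (cls : V → Bool) (S : Finset V) (Γ : V → V → Prop)
    (hsymm : ∀ u v, Γ u v → Γ v u)
    (hΓ : ∀ u v, Γ u v → u ∈ S ∧ v ∈ S ∧ cls u ≠ cls v)
    (h3 : ∀ u ∈ S, ∃ a b c, a ≠ b ∧ a ≠ c ∧ b ≠ c ∧ ∀ v, Γ u v ↔ v = a ∨ v = b ∨ v = c)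
    (hlin : ∀ u v, u ≠ v → ∀ a b, Γ u a → Γ v a → Γ u b → Γ v b → a = b)
    (hne : S.Nonempty) (hlt : S.card < 18) :
    (∃ p q : Fin 7 → V, Function.Injective p ∧ Function.Injective q ∧ (∀ i, p i ∈ S ∧ cls (p i) = true) ∧
      (∀ i, q i ∈ S ∧ cls (q i) = false) ∧ ∀ j, ∀ i ∈ fanoLine j, Γ (p i) (q j)) ∨
    (∃ p q : Fin 8 → V, Function.Injective p ∧ Function.Injective q ∧ (∀ i, p i ∈ S ∧ cls (p i) = true) ∧
      (∀ i, q i ∈ S ∧ cls (q i) = false) ∧ ∀ j, ∀ i ∈ mkLine j, Γ (p i) (q j)) := by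
  classical
  have h : R3 cls S Γ := ⟨hsymm, hΓ, h3, hlin⟩
  have h1 := h.card_eq
  have h2 : (r3P cls S true).card + (r3P cls S false).card = S.card := by
    rw [← Finset.card_filter_add_card_filter_not (s := S) (p := fun w => cls w = true)]
    unfold r3P
    congr 1
    apply congrArg
    apply Finset.filter_congr
    intro w _
    simp
  obtain ⟨u, hu⟩ := hne
  have h4 : 7 ≤ (r3P cls S (cls u)).card := by
    rw [← h.card_M hu]
    exact Finset.card_le_card h.M_sub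
  have h5 : 7 ≤ (r3P cls S true).card := by
    cases hcu : cls u
    · rw [hcu] at h4; omega
    · rw [hcu] at h4; exact h4
  have h6 : (r3P cls S true).card = 7 ∨ (r3P cls S true).card = 8 := by omega
  rcases h6 with h6 | h6
  · exact Or.inl (h.fano h6 (by omega))
  · exact Or.inr (h.mk8 h6 (by omega))

end Pool.Agent.NCfg
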