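import Pool.Agent.Lib.MP_372a40_co.Defs

/-! # REALM3B: the Fano plane and the Möbius-Kantor configuration are not real (notes 1.2) -/

open Matrix Finset

set_option linter.unusedSectionVars false
set_option linter.unusedVariables false

namespace Pool.Agent.NCfg

/-- Fano plane: points `0 1 2 = a b c`, `3 4 5 6 = d₁ d₂ d₃ d₄`; lines `abc, a d₁ d₂, a d₃ d₄, b d₁ d₃, b d₂ d₄, c d₁ d₄, c d₂ d₃`. -/
def fanoLine : Fin 7 → List (Fin 7)
  | 0 => [0, 1, 2]
  | 1 => [0, 3, 4]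
  | 2 => [0, 5, 6]
  | 3 => [1, 3, 5]
  | 4 => [1, 4, 6]
  | 5 => [2, 3, 6]
  | 6 => [2, 4, 5]

/-- Möbius-Kantor configuration: points `0 1 2 = a b c`, `3 .. 7 = d₁ .. d₅`; lines `abc, a d₂ d₄, a d₃ d₅, b d₃ d₄, b d₁ d₅, c d₁ d₄,
c d₂ d₅, d₁ d₂ d₃`. -/
def mkLine : Fin 8 → List (Fin 8)
  | 0 => [0, 1, 2]
  | 1 => [0, 4, 6]
  | 2 => [0, 5, 7]
  | 3 => [1, 5, 6]
  | 4 => [1, 3, 7]
  | 5 => [2, 3, 6]
  | 6 => [2, 4, 7]
  | 7 => [3, 4, 5]

/-- The determinant of three vectors. -/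
private def RBd (a b c : Vec) : ℝ := a ⬝ᵥ (b ⨯₃ c)

private theorem RBd_eq (a b c : Vec) : RBd a b c = a 0 * (b 1 * c 2 - b 2 * c 1) +
    a 1 * (b 2 * c 0 - b 0 * c 2) + a 2 * (b 0 * c 1 - b 1 * c 0) := by
  unfold RBd
  simp only [cross_apply, vec3_dotProduct]
  simp

/-- Three vectors in a plane, two of them independent. -/
private theorem RB_span {Q u w v : Vec} (hQ : Q ≠ 0) (hu : u ⬝ᵥ Q = 0) (hw : w ⬝ᵥ Q = 0)
    (hv : v ⬝ᵥ Q = 0) (huw : u ⨯₃ w ≠ 0) : ∃ x y : ℝ, v = x • u + y • w := by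
  obtain ⟨t, ht⟩ := eq_smul_cross huw (by rw [dotProduct_comm]; exact hu)
    (by rw [dotProduct_comm]; exact hw)
  have ht0 : t ≠ 0 := by
    rintro rfl
    rw [zero_smul] at ht
    exact hQ ht
  have hn : v ⬝ᵥ (u ⨯₃ w) = 0 := by
    rw [ht, dotProduct_smul, smul_eq_mul] at hv
    exact (mul_eq_zero.1 hv).resolve_left ht0
  set n := u ⨯₃ w with hndef
  have hnn : n ⬝ᵥ n ≠ 0 := by
    intro h0
    exact huw (dotProduct_self_eq_zero.mp h0)
  have key : (n ⬝ᵥ n) • v = (v ⬝ᵥ (w ⨯₃ n)) • u + (v ⬝ᵥ (n ⨯₃ u)) • w := by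
    have e : (n ⬝ᵥ n) • v = (v ⬝ᵥ (w ⨯₃ n)) • u + (v ⬝ᵥ (n ⨯₃ u)) • w + (v ⬝ᵥ n) • n := by
      ext i
      rw [hndef]
      simp only [cross_apply, vec3_dotProduct, Pi.smul_apply, Pi.add_apply, smul_eq_mul]
      fin_cases i <;> simp <;> ring
    rw [e, hn, zero_smul, add_zero]
  refine ⟨(n ⬝ᵥ n)⁻¹ * (v ⬝ᵥ (w ⨯₃ n)), (n ⬝ᵥ n)⁻¹ * (v ⬝ᵥ (n ⨯₃ u)), ?_⟩
  rw [mul_smul, mul_smul, ← smul_add, ← key, smul_smul, inv_mul_cancel₀ hnn, one_smul]

/-- Two lines through a point `p`, and one more point on each of them. -/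
private theorem RB_ne {Q Q' p u w : Vec} (hQ : Q ⨯₃ Q' ≠ 0) (hp : p ⬝ᵥ Q = 0) (hu : u ⬝ᵥ Q = 0)
    (hp' : p ⬝ᵥ Q' = 0) (hw : w ⬝ᵥ Q' = 0) (hpu : p ⨯₃ u ≠ 0) (hpw : p ⨯₃ w ≠ 0) :
    RBd p u w ≠ 0 := by
  intro h
  obtain ⟨t, ht⟩ := eq_smul_cross hpu (by rw [dotProduct_comm]; exact hp)
    (by rw [dotProduct_comm]; exact hu)
  have h1 : w ⬝ᵥ (p ⨯₃ u) = 0 := by
    rw [← h, RBd_eq]
    simp only [cross_apply, vec3_dotProduct]
    simp
    ring
  have h2 : w ⬝ᵥ Q = 0 := by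
    rw [ht, dotProduct_smul, h1, smul_zero]
  obtain ⟨s1, hs1⟩ := eq_smul_cross hQ hp hp'
  obtain ⟨s2, hs2⟩ := eq_smul_cross hQ h2 hw
  apply hpw
  rw [hs1, hs2]
  simp

private theorem RB_basis {a b c v : Vec} (h : RBd a b c ≠ 0) :
    ∃ x y z : ℝ, v = x • a + y • b + z • c := by
  have key : RBd a b c • v = RBd v b c • a + RBd a v c • b + RBd a b v • c := by
    ext i
    simp only [RBd_eq, Pi.smul_apply, Pi.add_apply, smul_eq_mul]
    fin_cases i <;> simp <;> ring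
  refine ⟨(RBd a b c)⁻¹ * RBd v b c, (RBd a b c)⁻¹ * RBd a v c, (RBd a b c)⁻¹ * RBd a b v, ?_⟩
  rw [mul_smul, mul_smul, mul_smul, ← smul_add, ← smul_add, ← key, smul_smul, inv_mul_cancel₀ h,
    one_smul]

private theorem RB_ind {a b c : Vec} (h : RBd a b c ≠ 0) {x y z x' y' z' : ℝ}
    (e : x • a + y • b + z • c = x' • a + y' • b + z' • c) : x = x' ∧ y = y' ∧ z = z' := by
  have e0 := congrFun e 0
  have e1 := congrFun e 1
  have e2 := congrFun e 2
  simp only [Pi.smul_apply, Pi.add_apply, smul_eq_mul] at e0 e1 e2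
  rw [RBd_eq] at h
  refine ⟨?_, ?_, ?_⟩
  · apply mul_left_cancel₀ h
    linear_combination (b 1 * c 2 - b 2 * c 1) * e0 + (b 2 * c 0 - b 0 * c 2) * e1 +
      (b 0 * c 1 - b 1 * c 0) * e2
  · apply mul_left_cancel₀ h
    linear_combination (c 1 * a 2 - c 2 * a 1) * e0 + (c 2 * a 0 - c 0 * a 2) * e1 +
      (c 0 * a 1 - c 1 * a 0) * e2
  · apply mul_left_cancel₀ h
    linear_combination (a 1 * b 2 - a 2 * b 1) * e0 + (a 2 * b 0 - a 0 * b 2) * e1 +
      (a 0 * b 1 - a 1 * b 0) * e2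

private theorem RBd_zero {a b : Vec} (y z : ℝ) : RBd (y • a + z • b) a b = 0 := by
  rw [RBd_eq]
  simp only [Pi.smul_apply, Pi.add_apply, smul_eq_mul]
  ring

private theorem RB_smul_cross {a b : Vec} {x : ℝ} (h : a = x • b) : a ⨯₃ b = 0 := by
  rw [h]
  simp

/-- Three distinct lines through no common point etc. `d₁, d₂, d₃` is a basis (`d₁d₂ ∋ a` and `d₁d₃ ∋ b` are different lines);
`d₄ = α d₁ + β d₂ + γ d₃` with nonzero coefficients; `a, b, c` are (up to scalars) `α d₁ + β d₂`, `α d₁ + γ d₃`, `β d₂ + γ d₃`, whose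
determinant is `-2 α β γ det(d₁,d₂,d₃) ≠ 0`, but they are on the line `0`. -/
theorem no_fano (P Q : Fin 7 → Vec) (hP : ∀ i j, i ≠ j → P i ⨯₃ P j ≠ 0) (hQ : ∀ i j, i ≠ j → Q i ⨯₃ Q j ≠ 0)
    (hinc : ∀ b, ∀ a ∈ fanoLine b, P a ⬝ᵥ Q b = 0) : False := by
  have I : ∀ {b a : Fin 7}, a ∈ fanoLine b → P a ⬝ᵥ Q b = 0 := fun {b a} h => hinc b a h
  have hQ0 : ∀ b, Q b ≠ 0 := by
    intro b
    by_cases h : b = 0
    · rw [h]
      exact left_ne_of_cross (hQ 0 1 (by decide))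
    · exact right_ne_of_cross (hQ 0 b (Ne.symm h))
  have hP0 : ∀ b, P b ≠ 0 := by
    intro b
    by_cases h : b = 0
    · rw [h]
      exact left_ne_of_cross (hP 0 1 (by decide))
    · exact right_ne_of_cross (hP 0 b (Ne.symm h))
  have hb : RBd (P 3) (P 4) (P 5) ≠ 0 :=
    RB_ne (hQ 1 3 (by decide)) (I (by decide)) (I (by decide)) (I (by decide)) (I (by decide))
      (hP 3 4 (by decide)) (hP 3 5 (by decide))
  have h1 : RBd (P 6) (P 4) (P 5) ≠ 0 :=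
    RB_ne (hQ 4 2 (by decide)) (I (by decide)) (I (by decide)) (I (by decide)) (I (by decide))
      (hP 6 4 (by decide)) (hP 6 5 (by decide))
  have h2 : RBd (P 6) (P 3) (P 5) ≠ 0 :=
    RB_ne (hQ 5 2 (by decide)) (I (by decide)) (I (by decide)) (I (by decide)) (I (by decide))
      (hP 6 3 (by decide)) (hP 6 5 (by decide))
  have h3 : RBd (P 6) (P 3) (P 4) ≠ 0 :=
    RB_ne (hQ 5 4 (by decide)) (I (by decide)) (I (by decide)) (I (by decide)) (I (by decide))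
      (hP 6 3 (by decide)) (hP 6 4 (by decide))
  obtain ⟨α, β, γ, hd⟩ := RB_basis (v := P 6) hb
  have hα : α ≠ 0 := by
    rintro rfl
    apply h1
    rw [hd, zero_smul, zero_add]
    exact RBd_zero β γ
  have hβ : β ≠ 0 := by
    rintro rfl
    apply h2
    rw [hd, zero_smul, add_zero]
    exact RBd_zero α γ
  have hγ : γ ≠ 0 := by
    rintro rfl
    apply h3
    rw [hd, zero_smul, add_zero]
    exact RBd_zero α β
  obtain ⟨x1, y1, a1⟩ := RB_span (v := P 0) (hQ0 1) (I (by decide)) (I (by decide)) (I (by decide))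
    (hP 3 4 (by decide))
  obtain ⟨x2, y2, a2⟩ := RB_span (v := P 0) (hQ0 2) (I (by decide)) (I (by decide)) (I (by decide))
    (hP 5 6 (by decide))
  obtain ⟨x3, y3, a3⟩ := RB_span (v := P 1) (hQ0 3) (I (by decide)) (I (by decide)) (I (by decide))
    (hP 3 5 (by decide))
  obtain ⟨x4, y4, a4⟩ := RB_span (v := P 1) (hQ0 4) (I (by decide)) (I (by decide)) (I (by decide))
    (hP 4 6 (by decide))
  obtain ⟨x5, y5, a5⟩ := RB_span (v := P 2) (hQ0 5) (I (by decide)) (I (by decide)) (I (by decide))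
    (hP 3 6 (by decide))
  obtain ⟨x6, y6, a6⟩ := RB_span (v := P 2) (hQ0 6) (I (by decide)) (I (by decide)) (I (by decide))
    (hP 4 5 (by decide))
  obtain ⟨x7, y7, a7⟩ := RB_span (v := P 2) (hQ0 0) (I (by decide)) (I (by decide)) (I (by decide))
    (hP 0 1 (by decide))
  have c1 : x1 • P 3 + y1 • P 4 + (0 : ℝ) • P 5
      = (y2 * α) • P 3 + (y2 * β) • P 4 + (x2 + y2 * γ) • P 5 := by
    rw [zero_smul, add_zero, ← a1, a2, hd]
    module
  have c2 : x3 • P 3 + (0 : ℝ) • P 4 + y3 • P 5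
      = (y4 * α) • P 3 + (x4 + y4 * β) • P 4 + (y4 * γ) • P 5 := by
    rw [zero_smul, add_zero, ← a3, a4, hd]
    module
  have c3 : (0 : ℝ) • P 3 + x6 • P 4 + y6 • P 5
      = (x5 + y5 * α) • P 3 + (y5 * β) • P 4 + (y5 * γ) • P 5 := by
    rw [zero_smul, zero_add, ← a6, a5, hd]
    module
  have c4 : (0 : ℝ) • P 3 + x6 • P 4 + y6 • P 5
      = (x7 * x1 + y7 * x3) • P 3 + (x7 * y1) • P 4 + (y7 * y3) • P 5 := by
    rw [zero_smul, zero_add, ← a6, a7, a1, a3]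
    module
  obtain ⟨d1, d2, d3⟩ := RB_ind hb c1
  obtain ⟨d4, d5, d6⟩ := RB_ind hb c2
  obtain ⟨d7, d8, d9⟩ := RB_ind hb c3
  obtain ⟨d10, d11, d12⟩ := RB_ind hb c4
  have e1 : x7 * y2 + y7 * y4 = 0 := by
    apply mul_left_cancel₀ hα
    rw [mul_zero, d10, d1, d4]
    ring
  have e2 : y5 = x7 * y2 := by
    apply mul_left_cancel₀ hβ
    linear_combination -d8 + d11 + x7 * d2
  have e3 : y5 = y7 * y4 := by
    apply mul_left_cancel₀ hγ
    linear_combination -d9 + d12 + y7 * d6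
  have e4 : y5 = 0 := by linarith
  rw [e4] at d7 a5
  apply hP0 2
  rw [a5, show x5 = 0 by linarith]
  simp

/-- Basis `d₄, a, b` (`a d₄` and `b d₄` are different lines). `c = α a + β b`, `d₂ = λ₂ d₄ + s a`, `d₃ = λ₃ d₄ + t b`,
`d₁ = λ₁ d₄ + u c`, all coefficients nonzero; after rescaling `α = β = λᵢ = 1`. `d₅` is on `a d₃`, `b d₁`, `c d₂`, so `d₅ = d₄ + u a + t b`
(up to a scalar) and `u = s + t`. `det (d₁, d₂, d₃) = 0` gives `s² + s t + t² = 0`, so `s = t = 0`, a contradiction.  (No rescaling is needed if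
one carries the parameters along; or use `WLOG`-free homogeneous identities.) -/
theorem no_mk (P Q : Fin 8 → Vec) (hP : ∀ i j, i ≠ j → P i ⨯₃ P j ≠ 0) (hQ : ∀ i j, i ≠ j → Q i ⨯₃ Q j ≠ 0)
    (hinc : ∀ b, ∀ a ∈ mkLine b, P a ⬝ᵥ Q b = 0) : False := by
  have I : ∀ {b a : Fin 8}, a ∈ mkLine b → P a ⬝ᵥ Q b = 0 := fun {b a} h => hinc b a h
  have hQ0 : ∀ b, Q b ≠ 0 := by
    intro b
    by_cases h : b = 0
    · rw [h]
      exact left_ne_of_cross (hQ 0 1 (by decide))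
    · exact right_ne_of_cross (hQ 0 b (Ne.symm h))
  have hb : RBd (P 0) (P 1) (P 6) ≠ 0 :=
    RB_ne (hQ 0 1 (by decide)) (I (by decide)) (I (by decide)) (I (by decide)) (I (by decide))
      (hP 0 1 (by decide)) (hP 0 6 (by decide))
  -- the basis is `a = P 0, b = P 1, d₄ = P 6`
  obtain ⟨α, β, ec⟩ := RB_span (v := P 2) (hQ0 0) (I (by decide)) (I (by decide)) (I (by decide))
    (hP 0 1 (by decide))
  obtain ⟨s, l2, e2⟩ := RB_span (v := P 4) (hQ0 1) (I (by decide)) (I (by decide)) (I (by decide))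
    (hP 0 6 (by decide))
  obtain ⟨t, l3, e3⟩ := RB_span (v := P 5) (hQ0 3) (I (by decide)) (I (by decide)) (I (by decide))
    (hP 1 6 (by decide))
  obtain ⟨u, l1, e1⟩ := RB_span (v := P 3) (hQ0 5) (I (by decide)) (I (by decide)) (I (by decide))
    (hP 2 6 (by decide))
  obtain ⟨p1, q1, f1⟩ := RB_span (v := P 7) (hQ0 2) (I (by decide)) (I (by decide)) (I (by decide))
    (hP 0 5 (by decide))
  obtain ⟨p2, q2, f2⟩ := RB_span (v := P 7) (hQ0 4) (I (by decide)) (I (by decide)) (I (by decide))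
    (hP 1 3 (by decide))
  obtain ⟨p3, q3, f3⟩ := RB_span (v := P 7) (hQ0 6) (I (by decide)) (I (by decide)) (I (by decide))
    (hP 2 4 (by decide))
  obtain ⟨p4, q4, f4⟩ := RB_span (v := P 5) (hQ0 7) (I (by decide)) (I (by decide)) (I (by decide))
    (hP 3 4 (by decide))
  have nα : α ≠ 0 := by
    rintro rfl
    exact hP 2 1 (by decide) (RB_smul_cross (x := β) (by rw [ec]; simp))
  have nβ : β ≠ 0 := by
    rintro rfl
    exact hP 2 0 (by decide) (RB_smul_cross (x := α) (by rw [ec]; simp))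
  have n2 : l2 ≠ 0 := by
    rintro rfl
    exact hP 4 0 (by decide) (RB_smul_cross (x := s) (by rw [e2]; simp))
  have n3 : l3 ≠ 0 := by
    rintro rfl
    exact hP 5 1 (by decide) (RB_smul_cross (x := t) (by rw [e3]; simp))
  have nt : t ≠ 0 := by
    rintro rfl
    exact hP 5 6 (by decide) (RB_smul_cross (x := l3) (by rw [e3]; simp))
  have n1 : l1 ≠ 0 := by
    rintro rfl
    exact hP 3 2 (by decide) (RB_smul_cross (x := u) (by rw [e1]; simp))
  have nq1 : q1 ≠ 0 := by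
    rintro rfl
    exact hP 7 0 (by decide) (RB_smul_cross (x := p1) (by rw [f1]; simp))
  have nq4 : q4 ≠ 0 := by
    rintro rfl
    exact hP 5 3 (by decide) (RB_smul_cross (x := p4) (by rw [f4]; simp))
  obtain ⟨s', hs⟩ : ∃ s', s = l2 * s' := ⟨s / l2, by field_simp⟩
  obtain ⟨t', ht⟩ : ∃ t', t = l3 * t' := ⟨t / l3, by field_simp⟩
  obtain ⟨u', hu⟩ : ∃ u', u = l1 * u' := ⟨u / l1, by field_simp⟩
  have g1 : P 7 = p1 • P 0 + (q1 * t) • P 1 + (q1 * l3) • P 6 := by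
    rw [f1, e3]
    module
  have g2 : P 7 = (q2 * u * α) • P 0 + (p2 + q2 * u * β) • P 1 + (q2 * l1) • P 6 := by
    rw [f2, e1, ec]
    module
  have g3 : P 7 = (p3 * α + q3 * s) • P 0 + (p3 * β) • P 1 + (q3 * l2) • P 6 := by
    rw [f3, e2, ec]
    module
  have g4 : (0 : ℝ) • P 0 + t • P 1 + l3 • P 6
      = (p4 * u * α + q4 * s) • P 0 + (p4 * u * β) • P 1 + (p4 * l1 + q4 * l2) • P 6 := by
    rw [zero_smul, zero_add, ← e3, f4, e1, e2, ec]
    module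
  obtain ⟨h1, h2, h3⟩ := RB_ind hb (g1.symm.trans g2)
  obtain ⟨h4, h5, h6⟩ := RB_ind hb (g1.symm.trans g3)
  obtain ⟨h7, h8, h9⟩ := RB_ind hb g4
  subst hs ht hu
  have nt' : t' ≠ 0 := fun h => nt (by rw [h, mul_zero])
  -- `Λ = q1 * l3 = q2 * l1 = q3 * l2`
  have k1 : u' * α = p1 / (q1 * l3) := by
    rw [eq_div_iff (mul_ne_zero nq1 n3), h1, h3]
    ring
  have k2 : q1 * l3 * (u' * α) = p3 * α + q1 * l3 * s' := by
    linear_combination u' * α * h3 - h1 + h4 - s' * h6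
  have k3 : q1 * l3 * t' = p3 * β := by
    linear_combination h5
  have k4 : u' * α * β = t' * α + s' * β := by
    apply mul_left_cancel₀ (mul_ne_zero nq1 n3)
    linear_combination β * k2 - α * k3
  have m1 : p4 * l1 * (u' * α) = - (q4 * l2 * s') := by
    linear_combination -h7
  have m2 : l3 * t' = p4 * l1 * u' * β := by
    linear_combination h8
  have m3 : q4 * l2 * (t' * α) = p4 * l1 * (s' * β) := by
    linear_combination -α * t' * h9 + α * m2 + p4 * l1 * k4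
  have m4 : p4 * l1 * (t' * α + s' * β) = - (q4 * l2 * (s' * β)) := by
    linear_combination -p4 * l1 * k4 + β * m1
  have m5 : q4 * l2 * ((t' * α) ^ 2 + (t' * α) * (s' * β) + (s' * β) ^ 2) = 0 := by
    linear_combination (t' * α + s' * β) * m3 + s' * β * m4
  have m6 : (t' * α) ^ 2 + (t' * α) * (s' * β) + (s' * β) ^ 2 = 0 :=
    (mul_eq_zero.1 m5).resolve_left (mul_ne_zero nq4 n2)
  have m7 : 0 < (t' * α) ^ 2 := by positivity
  nlinarith [sq_nonneg (t' * α + 2 * (s' * β))]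

end Pool.Agent.NCfg
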