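import Pool.Agent.Lib.MP_372a40_co.Boundary
import Pool.Agent.Lib.MP_372a40_co.Support

/-! # STRESSCUT: a stressed representation forces cyclic 4-edge-connectivity (notes 2.0) -/

open Matrix Finset

set_option linter.unusedSectionVars false
set_option linter.unusedVariables false

namespace Pool.Agent.NCfg

variable {V : Type} [Fintype V] [DecidableEq V]

private theorem sc_ne {cls : V → Bool} {x : V → Vec} (haff : ∀ v, Aff (cls v) (x v)) (u : V) :
    x u ≠ 0 := by
  intro h
  have h1 := haff u
  rw [h] at h1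
  cases hc : cls u <;> rw [hc] at h1 <;> simp [Aff] at h1

private theorem sc_conn {G : SimpleGraph V} (hG : G.Connected) (Y : Finset V) {a b : V}
    (ha : a ∈ Y) (hb : b ∉ Y) : ∃ u v, u ∈ Y ∧ v ∉ Y ∧ G.Adj u v := by
  obtain ⟨W⟩ := hG.preconnected a b
  obtain ⟨d, -, h1, h2⟩ := W.exists_boundary_dart (Y : Set V) ha hb
  exact ⟨d.fst, d.snd, h1, h2, d.adj⟩

private theorem sc_full {G : SimpleGraph V} {cls : V → Bool} {x : V → Vec} (hG : Cubic G cls)
    (hx : HRep G cls x) {σ : V → V → ℝ} (hσ : Stress G.Adj x σ) {u : V} (hu : u ∈ VS σ) {v : V}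
    (huv : G.Adj u v) : σ u v ≠ 0 := by
  have h1 : 3 ≤ (sn σ u).card :=
    three_le_sn (sc_ne hx.aff) hx.ind (fun v hv => hG.bip u v (hσ.supp u v hv)) (hσ.eq u) hu
  have h2 : sn σ u ⊆ nb G u := by
    intro w hw
    rw [mem_sn] at hw
    rw [mem_nb]
    exact hσ.supp u w hw
  have h3 : sn σ u = nb G u := Finset.eq_of_subset_of_card_le h2 (by rw [hG.deg u]; exact h1)
  have h4 : v ∈ sn σ u := by rw [h3, mem_nb]; exact huv
  exact mem_sn.1 h4

/-- A nonzero stress is nonzero on every edge: by `three_le_sn` a vertex carrying stress has all its three edges stressed, so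
`VS σ` is closed under adjacency; `G` is connected. -/
theorem stress_nowhere_zero {G : SimpleGraph V} {cls : V → Bool} {x : V → Vec} (hG : Cubic G cls) (hx : HRep G cls x)
    {σ : V → V → ℝ} (hσ : Stress G.Adj x σ) {u0 v0 : V} (h0 : σ u0 v0 ≠ 0) : ∀ u v, G.Adj u v → σ u v ≠ 0 := by
  intro u v huv
  refine sc_full hG hx hσ ?_ huv
  by_contra hu
  obtain ⟨a, b, ha, hb, hab⟩ := sc_conn hG.conn (VS σ) (mem_VS.2 ⟨v0, h0⟩) hu
  have h1 := sc_full hG hx hσ ha hab
  exact hb (mem_VS.2 ⟨a, by rw [hσ.symm]; exact h1⟩)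

/-- Notes 2.0: the crossing pairs of a nowhere zero stress are the crossing edges; use `cross_le_two`, `cross_three` and connectivity. -/
theorem cut_ge_four {G : SimpleGraph V} {cls : V → Bool} {x : V → Vec} (hG : Cubic G cls) (hx : HRep G cls x)
    (hs : ¬ Unstressed G x) (X : Finset V) (h1 : 2 ≤ X.card) (h2 : 2 ≤ Xᶜ.card) : 4 ≤ cut G X := by
  unfold Unstressed at hs
  push Not at hs
  obtain ⟨σ, hσ, u0, v0, h0⟩ := hs
  have hnz := stress_nowhere_zero hG hx hσ h0
  have hiff : ∀ u v, σ u v ≠ 0 ↔ G.Adj u v := fun u v => ⟨hσ.supp u v, hnz u v⟩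
  have hcut : cut G X = (crossing σ X).card := by
    unfold cut crossing
    congr 1
    ext ⟨u, v⟩
    simp only [Finset.mem_filter, hiff]
  by_contra hlt
  push Not at hlt
  have hbip : ∀ u v, σ u v ≠ 0 → cls u ≠ cls v := fun u v h => hG.bip u v (hσ.supp u v h)
  have hX : X.Nonempty := Finset.card_pos.1 (by omega)
  have hXc : Xᶜ.Nonempty := Finset.card_pos.1 (by omega)
  obtain ⟨a, ha⟩ := hX
  obtain ⟨b, hb⟩ := hXc
  rw [Finset.mem_compl] at hb
  rcases Nat.lt_or_ge (cut G X) 3 with h3 | h3
  · have h4 := cross_le_two hσ.symm hbip (sc_ne hx.aff) hx.ind X (fun u _ => hσ.eq u) (by omega)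
    obtain ⟨u, v, hu, hv, huv⟩ := sc_conn hG.conn X ha hb
    have h5 : (u, v) ∈ crossing σ X := mem_crossing.2 ⟨hu, hv, hnz u v huv⟩
    rw [h4] at h5
    exact absurd h5 (Finset.notMem_empty _)
  · have h4 : (crossing σ X).card = 3 := by omega
    rcases cross_three hσ.symm hbip (sc_ne hx.aff) hx.ind X (fun u _ => hσ.eq u) h4 with
      ⟨u, hu, h5⟩ | ⟨v, hv, h5⟩
    · -- all crossing edges start at `u`
      have h6 : ∀ w, G.Adj u w → w ∉ X := by
        have h7 : (crossing σ X).image Prod.snd ⊆ nb G u := by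
          intro w hw
          rw [Finset.mem_image] at hw
          obtain ⟨⟨c, d⟩, he, rfl⟩ := hw
          have h8 : c = u := h5 _ he
          have h9 := (mem_crossing.1 he).2.2
          rw [mem_nb, ← h8]
          exact hσ.supp _ _ h9
        have h8 : ((crossing σ X).image Prod.snd).card = 3 := by
          rw [Finset.card_image_of_injOn, h4]
          rintro ⟨c, d⟩ hc ⟨c', d'⟩ hc' hdd
          have e1 : c = u := h5 _ hc
          have e2 : c' = u := h5 _ hc'
          simp only at hdd
          rw [e1, e2, hdd]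
        have h9 := Finset.eq_of_subset_of_card_le h7 (by rw [hG.deg u, h8])
        intro w hw
        have h10 : w ∈ (crossing σ X).image Prod.snd := by rw [h9, mem_nb]; exact hw
        rw [Finset.mem_image] at h10
        obtain ⟨⟨c, d⟩, he, rfl⟩ := h10
        exact (mem_crossing.1 he).2.1
      obtain ⟨a', ha'⟩ : (X.erase u).Nonempty := Finset.card_pos.1 (by
        rw [Finset.card_erase_of_mem hu]; omega)
      have hu' : u ∉ X.erase u := Finset.notMem_erase u X
      obtain ⟨c, d, hc, hd, hcd⟩ := sc_conn hG.conn (X.erase u) ha' hu'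
      rw [Finset.mem_erase] at hc
      by_cases hdu : d = u
      · rw [hdu] at hcd
        exact h6 c hcd.symm hc.2
      · have hdX : d ∉ X := fun h => hd (Finset.mem_erase.2 ⟨hdu, h⟩)
        exact hc.1 (h5 (c, d) (mem_crossing.2 ⟨hc.2, hdX, hnz c d hcd⟩))
    · -- all crossing edges end at `v`
      have h6 : ∀ w, G.Adj v w → w ∈ X := by
        have h7 : (crossing σ X).image Prod.fst ⊆ nb G v := by
          intro w hw
          rw [Finset.mem_image] at hw
          obtain ⟨⟨c, d⟩, he, rfl⟩ := hw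
          have h8 : d = v := h5 _ he
          have h9 := (mem_crossing.1 he).2.2
          rw [mem_nb, ← h8]
          exact (hσ.supp _ _ h9).symm
        have h8 : ((crossing σ X).image Prod.fst).card = 3 := by
          rw [Finset.card_image_of_injOn, h4]
          rintro ⟨c, d⟩ hc ⟨c', d'⟩ hc' hdd
          have e1 : d = v := h5 _ hc
          have e2 : d' = v := h5 _ hc'
          simp only at hdd
          rw [e1, e2, hdd]
        have h9 := Finset.eq_of_subset_of_card_le h7 (by rw [hG.deg v, h8])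
        intro w hw
        have h10 : w ∈ (crossing σ X).image Prod.fst := by rw [h9, mem_nb]; exact hw
        rw [Finset.mem_image] at h10
        obtain ⟨⟨c, d⟩, he, rfl⟩ := h10
        exact (mem_crossing.1 he).1
      have hv' : v ∈ Xᶜ := Finset.mem_compl.2 hv
      obtain ⟨b', hb'⟩ : (Xᶜ.erase v).Nonempty := Finset.card_pos.1 (by
        rw [Finset.card_erase_of_mem hv']; omega)
      have hb'' : b' ∉ insert v X := by
        rw [Finset.mem_erase, Finset.mem_compl] at hb'
        rw [Finset.mem_insert, not_or]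
        exact hb'
      obtain ⟨c, d, hc, hd, hcd⟩ := sc_conn hG.conn (insert v X) (Finset.mem_insert_self v X) hb''
      rw [Finset.mem_insert, not_or] at hd
      rcases Finset.mem_insert.1 hc with hc | hc
      · rw [hc] at hcd
        exact hd.2 (h6 d hcd)
      · exact hd.1 (h5 (c, d) (mem_crossing.2 ⟨hc, hd.2, hnz c d hcd⟩))

end Pool.Agent.NCfg
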