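import Pool.Agent.Lib.MP_372a40_co.LinFam
import Pool.Agent.Lib.MP_372a40_co.Near

/-! # THETAINC: incidences of the moved positions (notes 2.1) -/

open Matrix Finset

set_option linter.unusedSectionVars false
set_option linter.unusedVariables false

namespace Pool.Agent.NCfg

variable {V : Type} [Fintype V] [DecidableEq V]

/-- the three kinds of vertices -/
private theorem thetaInc_kind {G : SimpleGraph V} {p w : V} (S : Arms G p w) (v : V) :
    v = w ∨ (∃ k j, j ≤ S.r k ∧ v = S.v k j) ∨ (∀ k j, j ≤ S.r k + 1 → S.v k j ≠ v) := by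
  by_cases h1 : v = w
  · exact Or.inl h1
  · by_cases h2 : ∃ k j, j ≤ S.r k ∧ v = S.v k j
    · exact Or.inr (Or.inl h2)
    · refine Or.inr (Or.inr ?_)
      intro k j hj hv
      rcases Nat.lt_or_ge j (S.r k + 1) with h3 | h3
      · exact h2 ⟨k, j, by omega, hv.symm⟩
      · have : j = S.r k + 1 := by omega
        subst this
        exact h1 (by rw [← hv, S.vw])

/-- `x w` is orthogonal to `x (v k (r k))`, `k = 0, 1, 2`, which are pairwise independent; this gives `c` (`x w` is a nonzero multiple of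
`x (v 0 (r 0)) ⨯₃ x (v 1 (r 1))`) and `Fdet = 0` at `x p`.  Incidences of `thetaX q`: every edge of `G` is outside the arms, or (in one of the two
orders) one of `(v k j, v k (j+1))`, `j ≤ r k`, or `(v k j, m k j)`, `1 ≤ j ≤ r k`; `X_q w` is orthogonal to `Lm 2 (r 2) q` because `Fdet q = 0`. -/
theorem theta_inc {G : SimpleGraph V} {cls : V → Bool} {x : V → Vec} (hG : Cubic G cls) (hx : HRep G cls x)
    {p w : V} (S : Arms G p w) {Lm : Fin 3 → ℕ → (Vec →ₗ[ℝ] Vec)} (hL : IsLinFam S x Lm) :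
    ∃ c : ℝ, c ≠ 0 ∧ thetaX S x Lm c (x p) = x ∧ Fdet (fun k => Lm k (S.r k)) (x p) = 0 ∧
      ∀ q, Fdet (fun k => Lm k (S.r k)) q = 0 → ∀ u v, G.Adj u v →
        thetaX S x Lm c q u ⬝ᵥ thetaX S x Lm c q v = 0 := by
  classical
  have had : ∀ k, G.Adj (S.v k (S.r k)) w := fun k => by
    have := S.adj k (S.r k) (le_refl _)
    rwa [S.vw] at this
  have hclw : ∀ i j, cls (S.v i (S.r i)) = cls (S.v j (S.r j)) := by
    intro i j
    have h1 := hG.bip _ _ (had i)
    have h2 := hG.bip _ _ (had j)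
    cases h3 : cls (S.v i (S.r i)) <;> cases h4 : cls (S.v j (S.r j)) <;>
      cases h5 : cls w <;> simp_all
  have hind : ∀ i j, i ≠ j → x (S.v i (S.r i)) ⨯₃ x (S.v j (S.r j)) ≠ 0 := by
    intro i j hij
    refine hx.ind _ _ ?_ (hclw i j)
    intro h
    exact hij (S.inj i (S.r i) j (S.r j) (S.hr i) (le_refl _) (S.hr j) (le_refl _) h).1
  have horth : ∀ k, x w ⬝ᵥ x (S.v k (S.r k)) = 0 := by
    intro k
    rw [dotProduct_comm]
    exact hx.inc _ _ (had k)
  have hw0 : x w ≠ 0 := hx.ne_zero w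
  obtain ⟨c, hcw⟩ := eq_smul_cross (hind 0 1 (by decide)) (horth 0) (horth 1)
  have hc : c ≠ 0 := by
    rintro rfl
    rw [zero_smul] at hcw
    exact hw0 hcw
  have hb : ∀ k, Lm k (S.r k) (x p) = x (S.v k (S.r k)) := fun k => hL.base k _ (le_refl _)
  refine ⟨c, hc, ?_, ?_, ?_⟩
  · funext v
    rcases thetaInc_kind S v with rfl | ⟨k, j, hj, rfl⟩ | hv
    · rw [thetaX_w, hb, hb, ← hcw]
    · rw [thetaX_v S x Lm hL c _ k j hj, hL.base k j hj]
    · exact thetaX_out S x Lm c _ v hv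
  · show Lm 0 (S.r 0) (x p) ⬝ᵥ (Lm 1 (S.r 1) (x p) ⨯₃ Lm 2 (S.r 2) (x p)) = 0
    rw [hb, hb, hb]
    obtain ⟨s, hs⟩ := eq_smul_cross (hind 1 2 (by decide)) (horth 1) (horth 2)
    have hs0 : s ≠ 0 := by
      rintro rfl
      rw [zero_smul] at hs
      exact hw0 hs
    have h1 : x (S.v 0 (S.r 0)) ⬝ᵥ x w = 0 := by rw [dotProduct_comm]; exact horth 0
    rw [hs, dotProduct_smul, smul_eq_mul] at h1
    exact (mul_eq_zero.1 h1).resolve_left hs0
  · intro q hq
    set X := fun v => thetaX S x Lm c q v with hX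
    have hXw : X w = c • (Lm 0 (S.r 0) q ⨯₃ Lm 1 (S.r 1) q) := thetaX_w S x Lm c q
    have hXv : ∀ k j, j ≤ S.r k → X (S.v k j) = Lm k j q := fun k j hj =>
      thetaX_v S x Lm hL c q k j hj
    have hXo : ∀ v, (∀ k j, j ≤ S.r k + 1 → S.v k j ≠ v) → X v = x v := fun v hv =>
      thetaX_out S x Lm c q v hv
    have hww : ∀ k, X w ⬝ᵥ Lm k (S.r k) q = 0 := by
      intro k
      rw [hXw, smul_dotProduct]
      fin_cases k
      · show c • ((Lm 0 (S.r 0) q ⨯₃ Lm 1 (S.r 1) q) ⬝ᵥ Lm 0 (S.r 0) q) = 0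
        rw [dotProduct_comm, dot_self_cross, smul_zero]
      · show c • ((Lm 0 (S.r 0) q ⨯₃ Lm 1 (S.r 1) q) ⬝ᵥ Lm 1 (S.r 1) q) = 0
        rw [dotProduct_comm, dot_cross_self, smul_zero]
      · show c • ((Lm 0 (S.r 0) q ⨯₃ Lm 1 (S.r 1) q) ⬝ᵥ Lm 2 (S.r 2) q) = 0
        have h1 : Lm 0 (S.r 0) q ⬝ᵥ (Lm 1 (S.r 1) q ⨯₃ Lm 2 (S.r 2) q) = 0 := hq
        rw [dotProduct_comm, triple_product_permutation, h1, smul_zero]
    -- `u` is `w` or on an arm
    have key : ∀ u v, (u = w ∨ ∃ k j, j ≤ S.r k ∧ u = S.v k j) → G.Adj u v → X u ⬝ᵥ X v = 0 := by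
      rintro u v (hu | ⟨k, j, hj, hu⟩) huv
      · rw [hu] at huv ⊢
        obtain ⟨k, rfl⟩ := S.nbw v huv
        rw [hXv k _ (le_refl _)]
        exact hww k
      · rw [hu] at huv ⊢
        rcases Nat.eq_zero_or_pos j with h0 | hpos
        · subst h0
          have huv' := huv
          rw [S.v0] at huv'
          obtain ⟨k', rfl⟩ := S.nbp v huv'
          rw [hXv k 0 (Nat.zero_le _), hXv k' 1 (S.hr k'), hL.zero k, ← hL.zero k']
          exact hL.edge k' 0 (S.hr k') q
        · rcases S.nbv k j hpos hj v huv with rfl | rfl | rfl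
          · rw [hXv k j hj, hXv k (j - 1) (by omega), dotProduct_comm]
            have h1 := hL.edge k (j - 1) (by omega) q
            rwa [Nat.sub_add_cancel hpos] at h1
          · rcases Nat.lt_or_ge j (S.r k) with h3 | h3
            · rw [hXv k j hj, hXv k (j + 1) h3]
              exact hL.edge k j h3 q
            · have hjr : j = S.r k := by omega
              subst hjr
              rw [S.vw, hXv k _ (le_refl _), dotProduct_comm]
              exact hww k
          · rw [hXv k j hj, hXo (S.m k j) (fun k' j' hj' => (S.mout k j hpos hj k' j' hj').symm)]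
            exact hL.off k j hpos hj q
    intro u v huv
    show X u ⬝ᵥ X v = 0
    rcases thetaInc_kind S u with hu | hu | hu
    · exact key u v (Or.inl hu) huv
    · exact key u v (Or.inr hu) huv
    · rcases thetaInc_kind S v with hv | hv | hv
      · rw [dotProduct_comm]
        exact key v u (Or.inl hv) huv.symm
      · rw [dotProduct_comm]
        exact key v u (Or.inr hv) huv.symm
      · rw [hXo u hu, hXo v hv]
        exact hx.inc u v huv

end Pool.Agent.NCfg
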