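import Pool.Agent.Lib.MP_372a40_co.LinFam
import Pool.Agent.Lib.MP_372a40_co.StressCut

/-! # THETASTRESS: at a stressed moved representation the cubic is singular (notes 2.1) -/

open Matrix Finset

set_option linter.unusedSectionVars false
set_option linter.unusedVariables false
set_option linter.unusedSimpArgs false

namespace Pool.Agent.NCfg

variable {V : Type} [Fintype V] [DecidableEq V]

/-- Equilibrium at a vertex all of whose neighbours are among `a, b, c`. -/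
private theorem ts_eq3 {G : SimpleGraph V} {cls : V → Bool} (hG : Cubic G cls) {X : V → Vec}
    {σ : V → V → ℝ} (hσ : Stress G.Adj X σ) {u : V} (f : Fin 3 → V)
    (hf : ∀ v, G.Adj u v → ∃ k, v = f k) : ∑ k, σ u (f k) • X (f k) = 0 := by
  have h1 : nb G u ⊆ Finset.univ.image f := by
    intro v hv
    rw [mem_nb] at hv
    obtain ⟨k, rfl⟩ := hf v hv
    exact Finset.mem_image_of_mem f (Finset.mem_univ k)
  have h2 : (Finset.univ.image f).card ≤ 3 := by
    refine Finset.card_image_le.trans ?_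
    simp
  have h3 : nb G u = Finset.univ.image f :=
    Finset.eq_of_subset_of_card_le h1 (by rw [hG.deg u]; exact h2)
  have hinj : Set.InjOn f (Finset.univ : Finset (Fin 3)) := by
    apply Finset.injOn_of_card_image_eq
    rw [← h3, hG.deg u]
    simp
  have h4 : ∑ v ∈ nb G u, σ u v • X v = ∑ v, σ u v • X v := by
    refine Finset.sum_subset (Finset.subset_univ _) fun v _ hv => ?_
    rw [mem_nb] at hv
    have h5 : σ u v = 0 := by
      by_contra h
      exact hv (hσ.supp u v h)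
    rw [h5, zero_smul]
  rw [hσ.eq u, h3, Finset.sum_image hinj] at h4
  exact h4

private theorem ts_algebra {a : Fin 3 → Vec} {b : Fin 3 → Vec} {ω : Fin 3 → ℝ} (h2 : ω 2 ≠ 0)
    (ha : ∑ k, ω k • a k = 0) {c : ℝ} (hc : c ≠ 0)
    (hb : ∑ k, ω k * (b k ⬝ᵥ (c • (a 0 ⨯₃ a 1))) = 0) :
    b 0 ⬝ᵥ (a 1 ⨯₃ a 2) + a 0 ⬝ᵥ (b 1 ⨯₃ a 2) + a 0 ⬝ᵥ (a 1 ⨯₃ b 2) = 0 := by
  have hi : ∀ i, ω 0 * a 0 i + ω 1 * a 1 i + ω 2 * a 2 i = 0 := by
    intro i
    have := congrFun ha i
    simpa [Fin.sum_univ_three] using this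
  have h0 := hi 0
  have h1 := hi 1
  have h3 := hi 2
  rw [Fin.sum_univ_three] at hb
  simp only [dotProduct_smul, smul_eq_mul] at hb
  have hb' : ω 0 * (b 0 ⬝ᵥ (a 0 ⨯₃ a 1)) + ω 1 * (b 1 ⬝ᵥ (a 0 ⨯₃ a 1)) +
      ω 2 * (b 2 ⬝ᵥ (a 0 ⨯₃ a 1)) = 0 := by
    have : c * (ω 0 * (b 0 ⬝ᵥ (a 0 ⨯₃ a 1)) + ω 1 * (b 1 ⬝ᵥ (a 0 ⨯₃ a 1)) +
      ω 2 * (b 2 ⬝ᵥ (a 0 ⨯₃ a 1))) = 0 := by rw [← hb]; ring
    exact (mul_eq_zero.1 this).resolve_left hc
  have key : ω 2 * (b 0 ⬝ᵥ (a 1 ⨯₃ a 2) + a 0 ⬝ᵥ (b 1 ⨯₃ a 2) + a 0 ⬝ᵥ (a 1 ⨯₃ b 2)) = 0 := by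
    simp only [cross_apply, vec3_dotProduct, Matrix.cons_val_zero, Matrix.cons_val_one,
      Matrix.cons_val_two, Matrix.head_cons, Matrix.tail_cons, Matrix.cons_val] at hb' ⊢
    linear_combination hb' - (b 0 2 * a 1 1 - b 0 1 * a 1 2 + b 1 1 * a 0 2 - b 1 2 * a 0 1) * h0 -
      (b 0 0 * a 1 2 - b 0 2 * a 1 0 + b 1 2 * a 0 0 - b 1 0 * a 0 2) * h1 -
      (b 0 1 * a 1 0 - b 0 0 * a 1 1 + b 1 0 * a 0 1 - b 1 1 * a 0 0) * h3
  exact (mul_eq_zero.1 key).resolve_left h2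

/-- Let `X = thetaX q` and `σ` a nonzero stress of it (nowhere zero on the edges by `stress_nowhere_zero`). For a direction `d` put
`δ v = Lm k j d` at `v = v k j` (`j ≤ r k`), `0` elsewhere. `0 = ∑ v, δ v ⬝ᵥ (∑ u, σ v u • X u)`; the edges inside the arms cancel by polarisation of
`IsLinFam.edge`, the edges `(v k j, m k j)` by `IsLinFam.off`; what remains is `∑ k, σ (v k (r k)) w * (Lm k (r k) d ⬝ᵥ X w) = 0`.
Equilibrium at `w`: `∑ k, σ w (v k (r k)) • Lm k (r k) q = 0`, all three coefficients nonzero; so the three cross products in `dFdet` are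
proportional to the coefficients times `X w / c`. -/
theorem theta_stress {G : SimpleGraph V} {cls : V → Bool} {x : V → Vec} (hG : Cubic G cls)
    {p w : V} (S : Arms G p w) {Lm : Fin 3 → ℕ → (Vec →ₗ[ℝ] Vec)} (hL : IsLinFam S x Lm) {c : ℝ} (hc : c ≠ 0) {q : Vec}
    (hrep : HRep G cls (thetaX S x Lm c q)) (hst : ¬ Unstressed G (thetaX S x Lm c q)) (d : Vec) :
    dFdet (fun k => Lm k (S.r k)) q d = 0 := by
  unfold Unstressed at hst
  push Not at hst
  obtain ⟨σ, hσ, u0, v0, h0⟩ := hst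
  have hnz := stress_nowhere_zero hG hrep hσ h0
  set X := thetaX S x Lm c q with hX
  have hXv : ∀ k j, j ≤ S.r k → X (S.v k j) = Lm k j q := fun k j hj => thetaX_v S x Lm hL c q k j hj
  have hXw : X w = c • (Lm 0 (S.r 0) q ⨯₃ Lm 1 (S.r 1) q) := thetaX_w S x Lm c q
  -- polarisation
  have hpol : ∀ k j, j + 1 ≤ S.r k → Lm k j d ⬝ᵥ Lm k (j + 1) q = -(Lm k (j + 1) d ⬝ᵥ Lm k j q) := by
    intro k j hj
    have e1 := hL.edge k j hj (q + d)
    have e2 := hL.edge k j hj q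
    have e3 := hL.edge k j hj d
    simp only [map_add, add_dotProduct, dotProduct_add] at e1
    have e4 : Lm k j q ⬝ᵥ Lm k (j + 1) d = Lm k (j + 1) d ⬝ᵥ Lm k j q := dotProduct_comm _ _
    linarith
  -- the propagated quantity
  have hrec : ∀ k j, j ≤ S.r k →
      σ (S.v k j) (S.v k (j + 1)) * (Lm k j d ⬝ᵥ X (S.v k (j + 1))) =
        σ p (S.v k 1) * (d ⬝ᵥ X (S.v k 1)) := by
    intro k j
    induction j with
    | zero =>
      intro _
      rw [S.v0 k, hL.zero k]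
      rfl
    | succ j ih =>
      intro hj
      rw [← ih (by omega)]
      have heq := ts_eq3 hG hσ (u := S.v k (j + 1)) ![S.v k j, S.v k (j + 2), S.m k (j + 1)] (by
        intro v hv
        rcases S.nbv k (j + 1) (by omega) hj v hv with h | h | h
        · exact ⟨0, h⟩
        · exact ⟨1, h⟩
        · exact ⟨2, h⟩)
      rw [Fin.sum_univ_three] at heq
      simp only [Matrix.cons_val_zero, Matrix.cons_val_one, Matrix.cons_val_two,
        Matrix.head_cons, Matrix.tail_cons, Matrix.cons_val] at heq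
      have h1 := congrArg (fun z => Lm k (j + 1) d ⬝ᵥ z) heq
      simp only [dotProduct_add, dotProduct_smul, smul_eq_mul, dotProduct_zero] at h1
      have hm : X (S.m k (j + 1)) = x (S.m k (j + 1)) :=
        thetaX_out S x Lm c q _ fun k' j' hj' h => S.mout k (j + 1) (by omega) hj k' j' hj' h.symm
      have h2 : Lm k (j + 1) d ⬝ᵥ X (S.m k (j + 1)) = 0 := by
        rw [hm]
        exact hL.off k (j + 1) (by omega) hj d
      rw [h2, hXv k j (by omega)] at h1
      rw [hXv k (j + 1) hj, hpol k j hj, hσ.symm (S.v k j) (S.v k (j + 1))]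
      linarith
  -- equilibrium at `p`
  have hp := ts_eq3 hG hσ (u := p) (fun k => S.v k 1) S.nbp
  have hp' : ∑ k, σ p (S.v k 1) * (d ⬝ᵥ X (S.v k 1)) = 0 := by
    have h1 := congrArg (fun z => d ⬝ᵥ z) hp
    simp only [Fin.sum_univ_three, dotProduct_add, dotProduct_smul, smul_eq_mul,
      dotProduct_zero] at h1
    rw [Fin.sum_univ_three]
    exact h1
  -- equilibrium at `w`
  have hw := ts_eq3 hG hσ (u := w) (fun k => S.v k (S.r k)) S.nbw
  have hadj : ∀ k, G.Adj (S.v k (S.r k)) w := by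
    intro k
    have := S.adj k (S.r k) le_rfl
    rwa [S.vw k] at this
  unfold dFdet
  refine ts_algebra (a := fun k => Lm k (S.r k) q) (b := fun k => Lm k (S.r k) d)
    (ω := fun k => σ w (S.v k (S.r k))) (hnz _ _ (hadj 2).symm) ?_ hc ?_
  · rw [← hw]
    exact Finset.sum_congr rfl fun k _ => by rw [hXv k (S.r k) le_rfl]
  · rw [← hp']
    refine Finset.sum_congr rfl fun k _ => ?_
    have h1 := hrec k (S.r k) le_rfl
    rw [S.vw k] at h1
    rw [← hXw, ← h1, hσ.symm w]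

end Pool.Agent.NCfg
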