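import Pool.Agent.Lib.MP_372a40_co.ThetaRep
import Pool.Agent.Lib.MP_372a40_co.ThetaStress
import Pool.Agent.Lib.MP_372a40_co.CubicForm

/-! # THETALOCAL: the local lemma (notes 2.3) -/

open Matrix Finset Topology

set_option linter.unusedSectionVars false
set_option linter.unusedVariables false

namespace Pool.Agent.NCfg

variable {V : Type} [Fintype V] [DecidableEq V]

private theorem tl_cls {G : SimpleGraph V} {cls : V → Bool} (hG : Cubic G cls) {a b c : V}
    (h1 : G.Adj a b) (h2 : G.Adj a c) : cls b = cls c := by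
  have e1 := hG.bip a b h1
  have e2 := hG.bip a c h2
  cases h : cls a <;> cases h' : cls b <;> cases h'' : cls c <;> simp_all

/-- two vertices `a ≠ b` adjacent to both... : a vector orthogonal to `x a`, `x b` is a multiple -/
private theorem tl_line {G : SimpleGraph V} {cls : V → Bool} {x : V → Vec} (hx : HRep G cls x)
    {a b u : V} (hab : a ≠ b) (hcls : cls a = cls b) (ha : G.Adj u a) (hb : G.Adj u b) :
    ∃ t : ℝ, x u = t • (x a ⨯₃ x b) :=
  eq_smul_cross (hx.ind a b hab hcls) (hx.inc u a ha) (hx.inc u b hb)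

private theorem tl_triple (a b c : Vec) :
    (a ⨯₃ b) ⨯₃ (a ⨯₃ c) = (a ⬝ᵥ (b ⨯₃ c)) • a := by
  ext i
  simp only [cross_apply, vec3_dotProduct, Pi.smul_apply, smul_eq_mul]
  fin_cases i <;> simp <;> ring

private theorem tl_first {G : SimpleGraph V} {cls : V → Bool} {x : V → Vec} (hG : Cubic G cls)
    (hx : HRep G cls x) {p w : V} (S : Arms G p w) (k : Fin 3) :
    G.Adj (S.v k 1) p ∧ G.Adj (S.v k 1) (S.m k 1) ∧ p ≠ S.m k 1 ∧ cls p = cls (S.m k 1) := by
  have h1 : G.Adj (S.v k 1) p := by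
    have := S.adj k 0 (Nat.zero_le _)
    rw [S.v0 k] at this
    exact this.symm
  have h2 := S.moff k 1 le_rfl (S.hr k)
  refine ⟨h1, h2, ?_, tl_cls hG h1 h2⟩
  intro h
  have h3 := S.mout k 1 le_rfl (S.hr k) k 0 (Nat.zero_le _)
  rw [S.v0 k] at h3
  exact h3 h.symm

private theorem tl_ne {G : SimpleGraph V} {cls : V → Bool} {x : V → Vec} (hG : Cubic G cls)
    (hx : HRep G cls x) {p w : V} (S : Arms G p w) {i j : Fin 3} (hij : i ≠ j) :
    x p ⬝ᵥ (x (S.m i 1) ⨯₃ x (S.m j 1)) ≠ 0 := by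
  intro h
  obtain ⟨a1, a2, a3, a4⟩ := tl_first hG hx S i
  obtain ⟨b1, b2, b3, b4⟩ := tl_first hG hx S j
  obtain ⟨t, ht⟩ := tl_line hx a3 a4 a1 a2
  obtain ⟨t', ht'⟩ := tl_line hx b3 b4 b1 b2
  have hne : S.v i 1 ≠ S.v j 1 := fun e =>
    hij (S.inj i 1 j 1 le_rfl (S.hr i) le_rfl (S.hr j) e).1
  have hind := hx.ind _ _ hne (tl_cls hG a1.symm b1.symm)
  apply hind
  rw [ht, ht']
  simp only [map_smul, LinearMap.smul_apply, tl_triple, h, zero_smul, smul_zero]

private theorem tl_off {G : SimpleGraph V} {cls : V → Bool} {x : V → Vec} (hG : Cubic G cls)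
    (hx : HRep G cls x) {p w l : V} (S : Arms G p w) (k : Fin 3) (hlv : S.v k 1 ≠ l)
    (hcls : cls p ≠ cls l) (hpl : x p ⬝ᵥ x l = 0) : x (S.m k 1) ⬝ᵥ x l ≠ 0 := by
  intro h
  obtain ⟨a1, a2, a3, a4⟩ := tl_first hG hx S k
  obtain ⟨t, ht⟩ := tl_line hx a3 a4 a1 a2
  obtain ⟨t', ht'⟩ : ∃ t : ℝ, x l = t • (x p ⨯₃ x (S.m k 1)) :=
    eq_smul_cross (hx.ind _ _ a3 a4) (by rw [dotProduct_comm]; exact hpl)
      (by rw [dotProduct_comm]; exact h)
  have hc : cls (S.v k 1) = cls l := by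
    have e1 := hG.bip _ _ a1
    cases h : cls p <;> cases h' : cls (S.v k 1) <;> cases h'' : cls l <;> simp_all
  apply hx.ind _ _ hlv hc
  rw [ht, ht']
  simp only [map_smul, LinearMap.smul_apply, cross_self, smul_zero]

private theorem tl_cont {f g : ℝ → Vec} (hf : Continuous f) (hg : Continuous g) :
    Continuous fun s => f s ⬝ᵥ g s := by
  simp only [vec3_dotProduct]
  fun_prop

theorem theta_local {G : SimpleGraph V} {cls : V → Bool} {x : V → Vec} (hG : Cubic G cls)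
    (hall : ∀ x, HRep G cls x → ¬ Unstressed G x) (hx : HRep G cls x) {p w l : V} (S : Arms G p w)
    (hl : ∀ k j, j ≤ S.r k + 1 → S.v k j ≠ l) (hpl : (p, l) ∈ Unw G cls x)
    (hind : x (S.m 0 1) ⬝ᵥ (x (S.m 1 1) ⨯₃ x (S.m 2 1)) ≠ 0) :
    ∃ x', HRep G cls x' ∧ Unw G cls x' ⊂ Unw G cls x := by
  classical
  obtain ⟨hp, hlc, hnadj, hzero⟩ := mem_Unw.1 hpl
  obtain ⟨Lm, hL⟩ := exists_linFam hG hx S
  obtain ⟨c, hc, hb, hF, ι, hι, B, hB, hrep⟩ := theta_rep hG hx S hL
  have hdF : ∀ d, dFdet (fun k => Lm k (S.r k)) (x p) d = 0 := fun d =>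
    theta_stress hG S hL hc (q := x p) (by rw [hb]; exact hx) (by rw [hb]; exact hall x hx) d
  have hstar : ∀ q, Fdet (fun k => Lm k (S.r k)) q = 0 → (∀ i, B i q q ≠ 0) →
      ∀ d, dFdet (fun k => Lm k (S.r k)) q d = 0 := fun q hq hBq d =>
    theta_stress hG S hL hc (hrep q hq hBq) (hall _ (hrep q hq hBq)) d
  obtain ⟨k, hk⟩ := cubic_lemma (fun k => Lm k (S.r k)) (x p) B hF hdF hB hstar
    (fun k => x (S.m k 1)) (fun k => hL.ker k (S.r k) (S.hr k) le_rfl) hind
    (tl_ne hG hx S (by decide)) (tl_ne hG hx S (by decide)) (tl_ne hG hx S (by decide))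
  set y := x (S.m k 1) with hy
  set g : ℝ → V → Vec := fun s => thetaX S x Lm c (x p + s • y) with hg
  have hgc : Continuous g := (thetaX_continuous S x Lm c).comp (by fun_prop)
  have hg0 : g 0 = x := by
    show thetaX S x Lm c (x p + (0 : ℝ) • y) = x
    rw [zero_smul, add_zero, hb]
  have hgu : ∀ u, Continuous fun s => g s u := fun u => (continuous_apply u).comp hgc
  -- (a) nondegeneracy
  have ha : ∀ᶠ s in nhds (0 : ℝ), ∀ i, B i (x p + s • y) (x p + s • y) ≠ 0 := by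
    rw [Filter.eventually_all]
    intro i
    have hcont : Continuous fun s : ℝ => B i (x p + s • y) (x p + s • y) := by
      simp only [map_add, map_smul, LinearMap.add_apply, LinearMap.smul_apply, smul_eq_mul]
      fun_prop
    refine hcont.continuousAt.eventually_ne ?_
    simpa using hB i
  -- (b) no new unwanted incidences
  have hb' : ∀ᶠ s in nhds (0 : ℝ), ∀ u v, x u ⬝ᵥ x v ≠ 0 → g s u ⬝ᵥ g s v ≠ 0 := by
    rw [Filter.eventually_all]
    intro u
    rw [Filter.eventually_all]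
    intro v
    by_cases huv : x u ⬝ᵥ x v = 0
    · exact Filter.Eventually.of_forall fun s h => absurd huv h
    · have h1 : g 0 u ⬝ᵥ g 0 v ≠ 0 := by rw [hg0]; exact huv
      exact ((tl_cont (hgu u) (hgu v)).continuousAt.eventually_ne h1).mono fun s hs _ => hs
  have hall' := (ha.and hb').filter_mono (nhdsWithin_le_nhds (s := {(0 : ℝ)}ᶜ))
  obtain ⟨s, ⟨hsa, hsb⟩, hs0⟩ := (hall'.and eventually_mem_nhdsWithin).exists
  have hs0' : s ≠ 0 := hs0
  have hrs : HRep G cls (g s) := hrep _ (hk s) hsa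
  refine ⟨g s, hrs, ?_⟩
  rw [Finset.ssubset_iff_of_subset]
  · refine ⟨(p, l), hpl, fun h => ?_⟩
    have h1 := (mem_Unw.1 h).2.2.2
    have h2 : g s p = x p + s • y := by
      have := thetaX_v S x Lm hL c (x p + s • y) k 0 (Nat.zero_le _)
      rw [S.v0 k, hL.zero k] at this
      exact this
    have h3 : g s l = x l := thetaX_out S x Lm c _ l hl
    rw [h2, h3, add_dotProduct, hzero, zero_add, smul_dotProduct, smul_eq_mul] at h1
    have h4 := tl_off hG hx S k (hl k 1 (by have := S.hr k; omega)) (by rw [hp, hlc]; decide) hzero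
    exact (mul_ne_zero hs0' h4) h1
  · rintro ⟨u, v⟩ huv
    obtain ⟨e1, e2, e3, e4⟩ := mem_Unw.1 huv
    refine mem_Unw.2 ⟨e1, e2, e3, ?_⟩
    by_contra hne
    exact hsb u v hne e4

end Pool.Agent.NCfg
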