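import Pool.Agent.Lib.MP_372a40_co.LinFam
import Pool.Agent.Lib.MP_372a40_co.Near

/-! # THETAND: nondegeneracy of the moved positions (notes 2.1) -/

open Matrix Finset

set_option linter.unusedSectionVars false
set_option linter.unusedVariables false

namespace Pool.Agent.NCfg

variable {V : Type} [Fintype V] [DecidableEq V]

/-! ### Auxiliary: conditions given by finitely many bilinear forms -/

/-- The condition `P` on `q` is implied by finitely many conditions `B q q ≠ 0` which hold at `p0`. -/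
private def NDP (p0 : Vec) (P : Vec → Prop) : Prop :=
  ∃ l : List (Vec →ₗ[ℝ] Vec →ₗ[ℝ] ℝ), (∀ B ∈ l, B p0 p0 ≠ 0) ∧ ∀ q, (∀ B ∈ l, B q q ≠ 0) → P q

private theorem NDP.mono {p0 : Vec} {P Q : Vec → Prop} (h : NDP p0 P) (hPQ : ∀ q, P q → Q q) :
    NDP p0 Q := by
  obtain ⟨l, h1, h2⟩ := h
  exact ⟨l, h1, fun q hq => hPQ q (h2 q hq)⟩

private theorem NDP.const {p0 : Vec} {P : Vec → Prop} (h : ∀ q, P q) : NDP p0 P :=
  ⟨[], by simp, fun q _ => h q⟩

private theorem NDP.and {p0 : Vec} {P Q : Vec → Prop} (h1 : NDP p0 P) (h2 : NDP p0 Q) :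
    NDP p0 (fun q => P q ∧ Q q) := by
  obtain ⟨l, a1, a2⟩ := h1
  obtain ⟨l', a3, a4⟩ := h2
  refine ⟨l ++ l', ?_, ?_⟩
  · intro B hB
    rcases List.mem_append.1 hB with h | h
    · exact a1 B h
    · exact a3 B h
  · intro q hq
    exact ⟨a2 q fun B hB => hq B (List.mem_append.2 (Or.inl hB)),
      a4 q fun B hB => hq B (List.mem_append.2 (Or.inr hB))⟩

private theorem NDP.forall {ι : Type} [Fintype ι] {p0 : Vec} {P : ι → Vec → Prop}
    (h : ∀ i, NDP p0 (P i)) : NDP p0 (fun q => ∀ i, P i q) := by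
  choose l h1 h2 using h
  refine ⟨(Finset.univ : Finset ι).toList.flatMap l, ?_, ?_⟩
  · intro B hB
    obtain ⟨i, _, hi⟩ := List.mem_flatMap.1 hB
    exact h1 i B hi
  · intro q hq i
    refine h2 i q fun B hB => hq B (List.mem_flatMap.2 ⟨i, ?_, hB⟩)
    simp

private theorem NDP.imp {p0 : Vec} {A : Prop} {P : Vec → Prop} (h : A → NDP p0 P) :
    NDP p0 (fun q => A → P q) := by
  by_cases hA : A
  · exact (h hA).mono fun q hq _ => hq
  · exact NDP.const fun q h' => absurd h' hA

private theorem NDP.bil {p0 : Vec} (f : Vec → Vec → ℝ) (h1 : ∀ a b q, f (a + b) q = f a q + f b q)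
    (h2 : ∀ (t : ℝ) a q, f (t • a) q = t • f a q) (h3 : ∀ q a b, f q (a + b) = f q a + f q b)
    (h4 : ∀ (t : ℝ) q a, f q (t • a) = t • f q a) (h : f p0 p0 ≠ 0) :
    NDP p0 (fun q => f q q ≠ 0) := by
  refine ⟨[LinearMap.mk₂ ℝ f h1 h2 h3 h4], ?_, ?_⟩
  · intro B hB
    rw [List.mem_singleton] at hB
    subst hB
    simpa using h
  · intro q hq
    have := hq _ (List.mem_singleton.2 rfl)
    simpa using this

/-- linear functionals -/
private theorem NDP.lin {p0 : Vec} (f : Vec → ℝ) (h1 : ∀ a b, f (a + b) = f a + f b)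
    (h2 : ∀ (t : ℝ) a, f (t • a) = t * f a) (h : f p0 ≠ 0) :
    NDP p0 (fun q => f q ≠ 0) := by
  refine (NDP.bil (fun a b => f a * f b) ?_ ?_ ?_ ?_ (mul_ne_zero h h)).mono ?_
  · intro a b q
    simp only [h1]; ring
  · intro t a q
    simp only [h2, smul_eq_mul]; ring
  · intro a b q
    simp only [h1]; ring
  · intro t a q
    simp only [h2, smul_eq_mul]; ring
  · intro q hq h0
    exact hq (by simp [h0])

private theorem thetaND_exists_coord {a : Vec} (h : a ≠ 0) : ∃ i, a i ≠ 0 := by
  by_contra hc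
  push Not at hc
  exact h (funext hc)

private theorem thetaND_triple (a b z : Vec) :
    (a ⨯₃ b) ⨯₃ z = (a ⬝ᵥ z) • b - (b ⬝ᵥ z) • a := by
  ext i
  simp only [cross_apply, vec3_dotProduct, Pi.smul_apply, Pi.sub_apply, smul_eq_mul]
  fin_cases i <;> simp <;> ring

/-- the three kinds of vertices -/
private theorem thetaND_kind {G : SimpleGraph V} {p w : V} (S : Arms G p w) (v : V) :
    v = w ∨ (∃ k j, j ≤ S.r k ∧ v = S.v k j) ∨ (∀ k j, j ≤ S.r k + 1 → S.v k j ≠ v) := by
  by_cases h1 : v = w
  · exact Or.inl h1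
  · by_cases h2 : ∃ k j, j ≤ S.r k ∧ v = S.v k j
    · exact Or.inr (Or.inl h2)
    · refine Or.inr (Or.inr ?_)
      intro k j hj hv
      rcases Nat.lt_or_ge j (S.r k + 1) with h3 | h3
      · exact h2 ⟨k, j, by omega, hv.symm⟩
      · have : j = S.r k + 1 := by omega
        subst this
        exact h1 (by rw [← hv, S.vw])

/-- For each pair `u ≠ v` of the same class, and each affine condition, a bilinear form `B` with `B (x p) (x p) ≠ 0` such that `B q q ≠ 0` gives the
condition for `X = thetaX q` (the affine conditions may be used for the pairs):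
* both outside the arms: nothing (`B = ` the constant form of another condition, or no form);
* `u = v k j` an arm vertex (or `p`), `v` outside: a coordinate `i` of `Lm k j q ⨯₃ x v` is linear in `q`, nonzero at `x p`: use `(ℓ q)(ℓ q')`;
* both arm vertices: a coordinate of `Lm k j q ⨯₃ Lm k' j' q'`;
* `u = w`, `v` outside: a coordinate of `(Lm 0 _ q ⨯₃ Lm 1 _ q') ⨯₃ x v`;
* `u = w`, `v = v k j` an arm vertex or `p`: `Lm i (r i) q ⬝ᵥ Lm k j q'` for `i = 0` or `1` (one of them is nonzero at `x p`, otherwise `x v` is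
  orthogonal to `x (v 0 (r 0))` and `x (v 1 (r 1))`, which are independent, and so parallel to `x w`); if `X w` and `X v = Lm k j q` were parallel this
  number would vanish (`X w ≠ 0` and `X v ≠ 0` by the affine conditions);
* affine conditions: a coordinate of `Lm k j q`, resp. of `Lm 0 _ q ⨯₃ Lm 1 _ q'`. -/
theorem theta_nd {G : SimpleGraph V} {cls : V → Bool} {x : V → Vec} (hG : Cubic G cls) (hx : HRep G cls x)
    {p w : V} (S : Arms G p w) {Lm : Fin 3 → ℕ → (Vec →ₗ[ℝ] Vec)} (hL : IsLinFam S x Lm) {c : ℝ} (hc : c ≠ 0)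
    (hbase : thetaX S x Lm c (x p) = x) :
    ∃ (ι : Type) (_ : Fintype ι) (B : ι → (Vec →ₗ[ℝ] Vec →ₗ[ℝ] ℝ)), (∀ i, B i (x p) (x p) ≠ 0) ∧
        ∀ q, (∀ i, B i q q ≠ 0) →
          (∀ u v, u ≠ v → cls u = cls v → thetaX S x Lm c q u ⨯₃ thetaX S x Lm c q v ≠ 0) ∧
          (∀ v, Aff (cls v) (thetaX S x Lm c q v)) := by
  classical
  set X := fun q v => thetaX S x Lm c q v with hXdef
  have hXw : ∀ q, X q w = c • (Lm 0 (S.r 0) q ⨯₃ Lm 1 (S.r 1) q) := fun q => thetaX_w S x Lm c q
  have hXv : ∀ q k j, j ≤ S.r k → X q (S.v k j) = Lm k j q := fun q k j hj =>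
    thetaX_v S x Lm hL c q k j hj
  have hXo : ∀ q v, (∀ k j, j ≤ S.r k + 1 → S.v k j ≠ v) → X q v = x v := fun q v hv =>
    thetaX_out S x Lm c q v hv
  have hX0 : ∀ v, X (x p) v = x v := fun v => congrFun hbase v
  -- coordinates
  have hcoord : ∀ v i, x v i ≠ 0 → NDP (x p) (fun q => X q v i ≠ 0) := by
    intro v i hi
    rcases thetaND_kind S v with rfl | ⟨k, j, hj, rfl⟩ | hv
    · have h0 := hX0 v
      rw [hXw] at h0
      refine (NDP.bil (fun a b => (Lm 0 (S.r 0) a ⨯₃ Lm 1 (S.r 1) b) i) ?_ ?_ ?_ ?_ ?_).mono ?_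
      · intro a b q; simp
      · intro t a q; simp
      · intro a b q; simp
      · intro t a q; simp
      · intro h1
        apply hi
        rw [← h0, Pi.smul_apply, h1, smul_zero]
      · intro q hq
        rw [hXw, Pi.smul_apply]
        exact smul_ne_zero hc hq
    · have h0 := hX0 (S.v k j)
      rw [hXv _ _ _ hj] at h0
      refine (NDP.lin (fun a => Lm k j a i) ?_ ?_ ?_).mono ?_
      · intro a b; simp
      · intro t a; simp
      · rw [h0]; exact hi
      · intro q hq
        rw [hXv _ _ _ hj]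
        exact hq
    · refine NDP.const fun q => ?_
      rw [hXo q v hv]
      exact hi
  -- affine conditions
  have haff : ∀ v, NDP (x p) (fun q => Aff (cls v) (X q v)) := by
    intro v
    have h := hx.aff v
    cases hcv : cls v with
    | true =>
      rw [hcv] at h
      exact hcoord v 2 h
    | false =>
      rw [hcv] at h
      rcases h with h | h
      · exact (hcoord v 0 h).mono fun q hq => Or.inl hq
      · exact (hcoord v 1 h).mono fun q hq => Or.inr hq
  -- pairs of vertices different from `w`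
  have hpair : ∀ u v, u ≠ v → cls u = cls v → u ≠ w → v ≠ w →
      NDP (x p) (fun q => X q u ⨯₃ X q v ≠ 0) := by
    intro u v huv hcl huw hvw
    obtain ⟨i, hi⟩ := thetaND_exists_coord (hx.ind u v huv hcl)
    rcases thetaND_kind S u with h | ⟨k, j, hj, rfl⟩ | hu
    · exact absurd h huw
    · have h0 := hX0 (S.v k j)
      rw [hXv _ _ _ hj] at h0
      rcases thetaND_kind S v with h | ⟨k', j', hj', rfl⟩ | hv
      · exact absurd h hvw
      · have h0' := hX0 (S.v k' j')
        rw [hXv _ _ _ hj'] at h0'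
        refine (NDP.bil (fun a b => (Lm k j a ⨯₃ Lm k' j' b) i) ?_ ?_ ?_ ?_ ?_).mono ?_
        · intro a b q; simp
        · intro t a q; simp
        · intro a b q; simp
        · intro t a q; simp
        · rw [h0, h0']; exact hi
        · intro q hq h1
          rw [hXv _ _ _ hj, hXv _ _ _ hj'] at h1
          apply hq
          rw [h1]; rfl
      · refine (NDP.lin (fun a => (Lm k j a ⨯₃ x v) i) ?_ ?_ ?_).mono ?_
        · intro a b; simp
        · intro t a; simp
        · rw [h0]; exact hi
        · intro q hq h1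
          rw [hXv _ _ _ hj, hXo q v hv] at h1
          apply hq
          rw [h1]; rfl
    · rcases thetaND_kind S v with h | ⟨k', j', hj', rfl⟩ | hv
      · exact absurd h hvw
      · have h0' := hX0 (S.v k' j')
        rw [hXv _ _ _ hj'] at h0'
        refine (NDP.lin (fun a => (x u ⨯₃ Lm k' j' a) i) ?_ ?_ ?_).mono ?_
        · intro a b; simp
        · intro t a; simp
        · rw [h0']; exact hi
        · intro q hq h1
          rw [hXv _ _ _ hj', hXo q u hu] at h1
          apply hq
          rw [h1]; rfl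
      · refine NDP.const fun q => ?_
        rw [hXo q u hu, hXo q v hv]
        exact hx.ind u v huv hcl
  -- pairs with `w`
  have hpw : ∀ v, v ≠ w → cls v = cls w →
      NDP (x p) (fun q => X q w ≠ 0 → X q w ⨯₃ X q v ≠ 0) := by
    intro v hvw hcl
    rcases thetaND_kind S v with h | ⟨k, j, hj, hvk⟩ | hv
    · exact absurd h hvw
    · have h0 := hX0 (S.v k j)
      rw [hXv _ _ _ hj] at h0
      -- the two neighbours of `w`
      have had : ∀ k, G.Adj (S.v k (S.r k)) w := fun k => by
        have := S.adj k (S.r k) (le_refl _)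
        rwa [S.vw] at this
      have hne : S.v 0 (S.r 0) ≠ S.v 1 (S.r 1) := by
        intro h
        have := (S.inj 0 (S.r 0) 1 (S.r 1) (S.hr 0) (le_refl _) (S.hr 1) (le_refl _) h).1
        exact absurd this (by decide)
      have hcl01 : cls (S.v 0 (S.r 0)) = cls (S.v 1 (S.r 1)) := by
        have h1 := hG.bip _ _ (had 0)
        have h2 := hG.bip _ _ (had 1)
        cases h3 : cls (S.v 0 (S.r 0)) <;> cases h4 : cls (S.v 1 (S.r 1)) <;>
          cases h5 : cls w <;> simp_all
      have hind := hx.ind _ _ hne hcl01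
      have hdot : ∃ i : Fin 3, (i = 0 ∨ i = 1) ∧ x v ⬝ᵥ x (S.v i (S.r i)) ≠ 0 := by
        by_contra hcon
        push Not at hcon
        have e0 := hcon 0 (Or.inl rfl)
        have e1 := hcon 1 (Or.inr rfl)
        obtain ⟨t, ht⟩ := eq_smul_cross hind e0 e1
        obtain ⟨s, hs⟩ := eq_smul_cross (c := x w) hind
          (by have := hx.inc _ _ (had 0); rwa [dotProduct_comm] at this)
          (by have := hx.inc _ _ (had 1); rwa [dotProduct_comm] at this)
        apply hx.ind v w hvw hcl
        rw [ht, hs]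
        simp
      obtain ⟨i, hi01, hi⟩ := hdot
      have h0i := hX0 (S.v i (S.r i))
      rw [hXv _ _ _ (le_refl _)] at h0i
      refine (NDP.bil (fun a b => Lm k j a ⬝ᵥ Lm i (S.r i) b) ?_ ?_ ?_ ?_ ?_).mono ?_
      · intro a b q; simp
      · intro t a q; simp
      · intro a b q; simp
      · intro t a q; simp
      · rw [h0, h0i, ← hvk]; exact hi
      · intro q hq hw0 hcr
        apply hq
        have ht := thetaND_triple (X q w) (X q v) (Lm i (S.r i) q)
        rw [hcr] at ht
        have horth : X q w ⬝ᵥ Lm i (S.r i) q = 0 := by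
          rw [hXw, smul_dotProduct]
          rcases hi01 with rfl | rfl
          · rw [dotProduct_comm, dot_self_cross, smul_zero]
          · rw [dotProduct_comm, dot_cross_self, smul_zero]
        rw [horth] at ht
        have h5 : (X q v ⬝ᵥ Lm i (S.r i) q) • X q w = 0 := by
          have h6 : (0 : Vec) = - ((X q v ⬝ᵥ Lm i (S.r i) q) • X q w) := by simpa using ht
          rw [← neg_eq_zero, ← h6]
        have h7 := (smul_eq_zero.1 h5).resolve_right hw0
        rw [hvk, hXv _ _ _ hj] at h7
        exact h7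
    · obtain ⟨i, hi⟩ := thetaND_exists_coord (hx.ind w v (Ne.symm hvw) hcl.symm)
      have h0 := hX0 w
      rw [hXw] at h0
      refine (NDP.bil (fun a b => ((Lm 0 (S.r 0) a ⨯₃ Lm 1 (S.r 1) b) ⨯₃ x v) i) ?_ ?_ ?_ ?_ ?_).mono ?_
      · intro a b q
        simp only [map_add, LinearMap.add_apply, Pi.add_apply]
      · intro t a q
        simp only [map_smul, LinearMap.smul_apply, Pi.smul_apply]
      · intro a b q
        simp only [map_add, LinearMap.add_apply, Pi.add_apply]
      · intro t a q
        simp only [map_smul, LinearMap.smul_apply, Pi.smul_apply]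
      · intro h1
        apply hi
        rw [← h0]
        simp only [LinearMap.map_smul, LinearMap.smul_apply, Pi.smul_apply]
        rw [h1, smul_zero]
      · intro q hq _ h1
        rw [hXw, hXo q v hv] at h1
        apply hq
        simp only [LinearMap.map_smul, LinearMap.smul_apply] at h1
        have h2 := (smul_eq_zero.1 h1).resolve_left hc
        rw [h2]; rfl
  -- assembling
  have hall : NDP (x p) (fun q => (∀ v, Aff (cls v) (X q v)) ∧
      ((∀ u v, u ≠ v → cls u = cls v → u ≠ w → v ≠ w → X q u ⨯₃ X q v ≠ 0) ∧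
      (∀ v, v ≠ w → cls v = cls w → X q w ≠ 0 → X q w ⨯₃ X q v ≠ 0))) := by
    refine NDP.and (NDP.forall haff) (NDP.and ?_ ?_)
    · exact NDP.forall fun u => NDP.forall fun v => NDP.imp fun h1 => NDP.imp fun h2 =>
        NDP.imp fun h3 => NDP.imp fun h4 => hpair u v h1 h2 h3 h4
    · exact NDP.forall fun v => NDP.imp fun h1 => NDP.imp fun h2 => hpw v h1 h2
  obtain ⟨l, hl1, hl2⟩ := hall
  refine ⟨Fin l.length, inferInstance, fun i => l.get i, fun i => hl1 _ (List.get_mem l i), ?_⟩
  intro q hq
  obtain ⟨h1, h2, h3⟩ := hl2 q (by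
    intro B hB
    obtain ⟨i, rfl⟩ := List.mem_iff_get.1 hB
    exact hq i)
  have hw0 : X q w ≠ 0 := by
    have h := h1 w
    intro h0
    rw [h0] at h
    cases hcw : cls w <;> simp [hcw, Aff] at h
  refine ⟨?_, h1⟩
  intro u v huv hcl
  by_cases hu : u = w
  · subst hu
    exact h3 v (Ne.symm huv) hcl.symm hw0
  · by_cases hv : v = w
    · subst hv
      exact cross_comm_ne (h3 u hu hcl hw0)
    · exact h2 u v huv hcl hu hv

end Pool.Agent.NCfg
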