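import Pool.Agent.Lib.MP_372a40_co.ThetaInc
import Pool.Agent.Lib.MP_372a40_co.ThetaND

/-! # When the moved positions are a representation (notes 2.1); no sorry here -/

open Matrix Finset

set_option linter.unusedSectionVars false
set_option linter.unusedVariables false

namespace Pool.Agent.NCfg

variable {V : Type} [Fintype V] [DecidableEq V]

theorem theta_rep {G : SimpleGraph V} {cls : V → Bool} {x : V → Vec} (hG : Cubic G cls) (hx : HRep G cls x)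
    {p w : V} (S : Arms G p w) {Lm : Fin 3 → ℕ → (Vec →ₗ[ℝ] Vec)} (hL : IsLinFam S x Lm) :
    ∃ c : ℝ, c ≠ 0 ∧ thetaX S x Lm c (x p) = x ∧ Fdet (fun k => Lm k (S.r k)) (x p) = 0 ∧
      ∃ (ι : Type) (_ : Fintype ι) (B : ι → (Vec →ₗ[ℝ] Vec →ₗ[ℝ] ℝ)), (∀ i, B i (x p) (x p) ≠ 0) ∧
        ∀ q, Fdet (fun k => Lm k (S.r k)) q = 0 → (∀ i, B i q q ≠ 0) → HRep G cls (thetaX S x Lm c q) := by
  obtain ⟨c, hc, hb, hF, hinc⟩ := theta_inc hG hx S hL
  obtain ⟨ι, hι, B, hB, h⟩ := theta_nd hG hx S hL hc hb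
  exact ⟨c, hc, hb, hF, ι, hι, B, hB, fun q hq hBq => ⟨hinc q hq, (h q hBq).1, (h q hBq).2⟩⟩

end Pool.Agent.NCfg
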