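import Pool.Agent.Lib.MP_372a40_co.Defs

/-! # Abstract transversal lemmas (notes 2.4) -/

open Finset

set_option linter.unusedSectionVars false
set_option linter.unusedVariables false

namespace Pool.Agent.NCfg

variable {W : Type} [Fintype W] [DecidableEq W]

/-- Number of terminals in `X`. -/
noncomputable def tc (τ : Fin 3 → Bool → W) (X : Finset W) : ℕ := by
  classical exact (X.filter (fun v => ∃ i a, v = τ i a)).card

/-- The hypotheses on the graph `H` and its six terminals `τ i a` (three pairs). `cut H X + tc τ X` is `delta(X)` of the notes. -/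
structure TSys (H : SimpleGraph W) (τ : Fin 3 → Bool → W) : Prop where
  conn : H.Connected
  inj : ∀ i a j b, τ i a = τ j b → i = j ∧ a = b
  nadj : ∀ i a j b, ¬ H.Adj (τ i a) (τ j b)
  ncom : ∀ i v, ¬ (H.Adj (τ i false) v ∧ H.Adj (τ i true) v)
  deg : ∀ i a, (nb H (τ i a)).card ≤ 2
  cut3 : ∀ X : Finset W, 2 ≤ X.card → 3 ≤ cut H X + tc τ X
  cut4 : ∀ (X : Finset W) (i : Fin 3), τ i false ∈ X → τ i true ∈ X → 4 ≤ cut H X + tc τ X
  cut2 : ∀ v : W, 2 ≤ cut H {v} + tc τ {v}

/-- The transversal `i ↦ τ i (b i)` is connected in the graph without the other three terminals. -/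
def ConnB (H : SimpleGraph W) (τ : Fin 3 → Bool → W) (b : Fin 3 → Bool) : Prop :=
  ∀ i j, (Reg H {v | ∀ k, v ≠ τ k (!b k)}).Reachable (τ i (b i)) (τ j (b j))

end Pool.Agent.NCfg
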