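import Pool.Agent.Lib.MP_372a40_co.TransAux

/-! # TRANSA: existence of a connected transversal (notes 2.4 (G1)) -/

open Finset

set_option linter.unusedSectionVars false
set_option linter.unusedVariables false

namespace Pool.Agent.NCfg

variable {W : Type} [Fintype W] [DecidableEq W]

theorem transa_univ {H : SimpleGraph W} (hc : H.Connected) (u v : W) : (Reg H Set.univ).Reachable u v := by
  have h : H ≤ Reg H Set.univ := fun a b hab => ⟨hab, trivial, trivial⟩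
  exact (hc.preconnected u v).mono h

/-- The removed vertex `t` has a neighbour in each component of `H \ t`. -/
theorem transa_nbr {H : SimpleGraph W} (hc : H.Connected) {s t : W} (hst : s ≠ t) :
    ∃ u, H.Adj t u ∧ (Reg H {v | v ≠ t}).Reachable s u := by
  obtain ⟨u, w, _, hu, hw, hadj, _, _⟩ := transaux_exit (transa_univ hc s t)
    (fun v => (Reg H {v | v ≠ t}).Reachable s v) (SimpleGraph.Reachable.refl s)
    (fun h => hst (transaux_eq (by simp) h))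
  have hut : u ≠ t := transaux_mem (A := {v | v ≠ t}) hst hu
  have hwt : w = t := by
    by_contra hwt
    exact hw (transaux_step hu hadj hut hwt)
  subst hwt
  exact ⟨u, hadj.symm, hu⟩

theorem transa_E1aux {H : SimpleGraph W} {τ : Fin 3 → Bool → W} (hT : TSys H τ) (j k : Fin 3)
    (hjk : ∀ m, m = 0 ∨ m = j ∨ m = k) (hj : j ≠ 0)
    (hmiss : ∀ a, ¬ (Reg H {v | v ≠ τ 0 true}).Reachable (τ 0 false) (τ j a)) :
    (∃ a, (Reg H {v | v ≠ τ 0 false}).Reachable (τ 0 true) (τ j a)) ∧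
      (∃ a, (Reg H {v | v ≠ τ 0 false}).Reachable (τ 0 true) (τ k a)) := by
  classical
  set s := τ 0 false with hs
  set t := τ 0 true with ht
  have hst : s ≠ t := fun h => absurd (hT.inj _ _ _ _ h).2 (by simp)
  have hjt : ∀ a, τ j a ≠ t := fun a h => hj (hT.inj _ _ _ _ h).1
  have hjs : ∀ a, τ j a ≠ s := fun a h => hj (hT.inj _ _ _ _ h).1
  obtain ⟨u1, hu1a, hu1⟩ := transa_nbr hT.conn hst
  obtain ⟨u2, hu2a, hu2⟩ := transa_nbr hT.conn (hjt false)
  obtain ⟨u3, hu3a, hu3⟩ := transa_nbr hT.conn (hjt true)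
  have h12 : u1 ≠ u2 := by
    rintro rfl
    exact hmiss false (hu1.trans hu2.symm)
  have h13 : u1 ≠ u3 := by
    rintro rfl
    exact hmiss true (hu1.trans hu3.symm)
  have hnb : ∀ v, H.Adj t v → v = u1 ∨ v = u2 := by
    intro v hv
    by_contra hcon
    push Not at hcon
    have hsub : ({v, u1, u2} : Finset W) ⊆ nb H t := by
      intro x hx
      simp only [mem_insert, mem_singleton] at hx
      rw [mem_nb]
      rcases hx with rfl | rfl | rfl <;> assumption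
    have := card_le_card hsub
    rw [card_insert_of_notMem (by simp [hcon.1, hcon.2]), card_pair h12] at this
    have := hT.deg 0 true
    rw [← ht] at this
    omega
  have h23 : u3 = u2 := (hnb u3 hu3a).resolve_left h13.symm
  subst h23
  have hq : (Reg H {v | v ≠ t}).Reachable (τ j false) (τ j true) := hu2.trans hu3.symm
  set X : Finset W := univ.filter (fun v => (Reg H {v | v ≠ t}).Reachable (τ j false) v) with hX
  have memX : ∀ v, v ∈ X ↔ (Reg H {v | v ≠ t}).Reachable (τ j false) v := by intro v; simp [hX]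
  clear_value X
  have hXt : ∀ v ∈ X, v ≠ t := fun v hv => transaux_mem (A := {v | v ≠ t}) (hjt false) ((memX v).mp hv)
  have hXs : ∀ v ∈ X, v ≠ s := by
    rintro v hv rfl
    exact hmiss false (((memX _).mp hv).symm)
  have hcut : cut H X ≤ 1 := by
    unfold cut
    have hsub : ((X ×ˢ Xᶜ).filter (fun e => H.Adj e.1 e.2)) ⊆ {(u3, t)} := by
      rintro ⟨m, r⟩ hmr
      rw [mem_filter, mem_product, mem_compl] at hmr
      obtain ⟨⟨hm, hr⟩, hadj⟩ := hmr
      simp only at hm hr hadj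
      have hrt : r = t := by
        by_contra hrt
        exact hr ((memX r).mpr (transaux_step ((memX m).mp hm) hadj (hXt m hm) hrt))
      subst hrt
      have hmu : m = u3 := by
        rcases hnb m hadj.symm with h | h
        · exfalso
          subst h
          exact hmiss false (hu1.trans ((memX _).mp hm).symm)
        · exact h
      rw [mem_singleton, hmu]
    calc _ ≤ _ := card_le_card hsub
      _ = 1 := card_singleton _
  have h4 := hT.cut4 X j ((memX _).mpr (SimpleGraph.Reachable.refl _)) ((memX _).mpr hq)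
  have htc : 3 ≤ tc τ X := by omega
  have hex : ∃ m a, τ m a ∈ X ∧ m ≠ j := by
    by_contra hcon
    push Not at hcon
    have hsub : X.filter (fun v => ∃ i a, v = τ i a) ⊆ {τ j false, τ j true} := by
      intro v hv
      rw [mem_filter] at hv
      obtain ⟨hv, i, a, rfl⟩ := hv
      have := hcon i a hv
      subst this
      cases a <;> simp
    have h2 := card_le_card hsub
    have h3 : ({τ j false, τ j true} : Finset W).card ≤ 2 := card_le_two
    unfold tc at htc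
    have h4 : (X.filter (fun v => ∃ i a, v = τ i a)).card = _ := rfl
    have h5 : 3 ≤ (X.filter (fun v => ∃ i a, v = τ i a)).card := by convert htc
    omega
  obtain ⟨m, a, hma, hmj⟩ := hex
  have hmk : m = k := by
    rcases hjk m with rfl | h | h
    · exfalso
      cases a
      · exact hXs _ hma rfl
      · exact hXt _ hma rfl
    · exact absurd h hmj
    · exact h
  subst hmk
  have hsub : ∀ w, (Reg H {v | v ≠ t}).Reachable (τ j false) w → w ∈ ({v | v ≠ s} : Set W) :=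
    fun w hw => hXs w ((memX w).mpr hw)
  have hbase : ∀ w ∈ X, (Reg H {v | v ≠ s}).Reachable (τ j false) w :=
    fun w hw => transaux_closed hsub ((memX w).mp hw)
  have hu3X : u3 ∈ X := (memX _).mpr hu2
  have htr : (Reg H {v | v ≠ s}).Reachable t u3 :=
    SimpleGraph.Adj.reachable (G := Reg H {v | v ≠ s}) ⟨hu3a, hst.symm, hXs _ hu3X⟩
  have htj : (Reg H {v | v ≠ s}).Reachable t (τ j false) := htr.trans (hbase _ hu3X).symm
  exact ⟨⟨false, htj⟩, ⟨a, htj.trans (hbase _ hma)⟩⟩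

theorem transa_E1 {H : SimpleGraph W} {τ : Fin 3 → Bool → W} (hT : TSys H τ) :
    ∃ b0, (∃ a, (Reg H {v | v ≠ τ 0 (!b0)}).Reachable (τ 0 b0) (τ 1 a)) ∧
      (∃ a, (Reg H {v | v ≠ τ 0 (!b0)}).Reachable (τ 0 b0) (τ 2 a)) := by
  by_cases h1 : ∃ a, (Reg H {v | v ≠ τ 0 true}).Reachable (τ 0 false) (τ 1 a)
  · by_cases h2 : ∃ a, (Reg H {v | v ≠ τ 0 true}).Reachable (τ 0 false) (τ 2 a)
    · exact ⟨false, h1, h2⟩
    · push Not at h2
      obtain ⟨h3, h4⟩ := transa_E1aux hT 2 1 (by decide) (by decide) h2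
      exact ⟨true, h4, h3⟩
  · push Not at h1
    obtain ⟨h3, h4⟩ := transa_E1aux hT 1 2 (by decide) (by decide) h1
    exact ⟨true, h3, h4⟩

/-- The bad case of E2. -/
theorem transa_E2bad {H : SimpleGraph W} {τ : Fin 3 → Bool → W} (hT : TSys H τ) (b0 b1 a : Bool)
    (hconn : (Reg H {v | v ≠ τ 0 (!b0)}).Reachable (τ 1 (!b1)) (τ 1 b1))
    (hxY : (Reg H ({v | v ≠ τ 0 (!b0)} \ {τ 1 b1})).Reachable (τ 1 (!b1)) (τ 0 b0))
    (hxZ : ¬ (Reg H ({v | v ≠ τ 0 (!b0)} \ {τ 1 (!b1)})).Reachable (τ 1 b1) (τ 0 b0))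
    (hcZ : (Reg H ({v | v ≠ τ 0 (!b0)} \ {τ 1 (!b1)})).Reachable (τ 1 b1) (τ 2 a))
    (hcY : ∀ a, ¬ (Reg H ({v | v ≠ τ 0 (!b0)} \ {τ 1 b1})).Reachable (τ 1 (!b1)) (τ 2 a)) :
    (Reg H {v | v ≠ τ 0 b0 ∧ v ≠ τ 1 (!b1)}).Reachable (τ 0 (!b0)) (τ 1 b1) ∧
      (Reg H {v | v ≠ τ 0 b0 ∧ v ≠ τ 1 (!b1)}).Reachable (τ 0 (!b0)) (τ 2 a) := by
  have ne : ∀ i a j b, (i ≠ j ∨ a ≠ b) → τ i a ≠ τ j b := by
    intro i a j b h h'
    have := hT.inj _ _ _ _ h'
    tauto
  have hst : τ 1 (!b1) ≠ τ 1 b1 := ne _ _ _ _ (Or.inr (by cases b1 <;> simp))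
  have h10 : ∀ a b, τ 1 a ≠ τ 0 b := fun a b => ne _ _ _ _ (Or.inl (by decide))
  have hxy : τ 0 (!b0) ≠ τ 0 b0 := ne _ _ _ _ (Or.inr (by cases b0 <;> simp))
  obtain ⟨m, r, hadj, hr, hmY, hmZ⟩ := yz_lemma hT {v | v ≠ τ 0 (!b0)} 1 (s := τ 1 (!b1)) (t := τ 1 b1)
    (by cases b1 <;> simp) (h10 _ _) (h10 _ _) hconn (α := τ 0 b0) (β := τ 2 a) (ne _ _ _ _ (Or.inl (by decide)))
    (ne _ _ _ _ (Or.inl (by decide))) hxY hxZ hcZ (hcY a) (by
      intro j e h1 h2
      fin_cases j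
      · by_cases he : e = b0
        · subst he; exact hxZ h2
        · have he' : e = !b0 := by cases e <;> cases b0 <;> simp_all
          subst he'
          have := transaux_eq (by simp) h2
          exact h10 _ _ this
      · by_cases he : e = b1
        · subst he
          have := transaux_eq (by simp) h1
          exact hst this
        · have he' : e = !b1 := by cases e <;> cases b1 <;> simp_all
          subst he'
          have := transaux_eq (by simp) h2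
          exact hst this.symm
      · exact hcY e h1)
  have hr' : r = τ 0 (!b0) := by simpa using hr
  subst hr'
  set B : Set W := {v | v ≠ τ 0 b0 ∧ v ≠ τ 1 (!b1)} with hB
  have hsub : ∀ w, (Reg H ({v | v ≠ τ 0 (!b0)} \ {τ 1 (!b1)})).Reachable (τ 1 b1) w → w ∈ B := by
    intro w hw
    refine ⟨?_, ?_⟩
    · rintro rfl; exact hxZ hw
    · have := transaux_mem (A := {v | v ≠ τ 0 (!b0)} \ {τ 1 (!b1)}) ⟨h10 _ _, hst.symm⟩ hw
      exact this.2
  have h1 : (Reg H B).Reachable (τ 1 b1) (τ 0 (!b0)) :=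
    transaux_step (transaux_closed hsub hmZ) hadj (hsub m hmZ) ⟨hxy, (h10 _ _).symm⟩
  exact ⟨h1.symm, h1.symm.trans (transaux_closed hsub hcZ)⟩

theorem transa_E2 {H : SimpleGraph W} {τ : Fin 3 → Bool → W} (hT : TSys H τ) :
    ∃ b0 b1, (Reg H {v | v ≠ τ 0 (!b0) ∧ v ≠ τ 1 (!b1)}).Reachable (τ 0 b0) (τ 1 b1) ∧
      (∃ a, (Reg H {v | v ≠ τ 0 (!b0) ∧ v ≠ τ 1 (!b1)}).Reachable (τ 0 b0) (τ 2 a)) := by
  have ne : ∀ i a j b, (i ≠ j ∨ a ≠ b) → τ i a ≠ τ j b := by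
    intro i a j b h h'
    have := hT.inj _ _ _ _ h'
    tauto
  obtain ⟨b0, ⟨a1, h1⟩, ⟨a2, h2⟩⟩ := transa_E1 hT
  have h10 : ∀ a b, τ 1 a ≠ τ 0 b := fun a b => ne _ _ _ _ (Or.inl (by decide))
  have hxy : τ 0 b0 ≠ τ 0 (!b0) := ne _ _ _ _ (Or.inr (by cases b0 <;> simp))
  have hst : τ 1 a1 ≠ τ 1 (!a1) := ne _ _ _ _ (Or.inr (by cases a1 <;> simp))
  have hsets : ∀ c, ({v | v ≠ τ 0 (!b0)} \ {τ 1 c} : Set W) = {v | v ≠ τ 0 (!b0) ∧ v ≠ τ 1 c} := by
    intro c; ext v; simp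
  by_cases h3 : (Reg H {v | v ≠ τ 0 (!b0)}).Reachable (τ 0 b0) (τ 1 (!a1))
  swap
  · have hsub : ∀ w, (Reg H {v | v ≠ τ 0 (!b0)}).Reachable (τ 0 b0) w →
        w ∈ ({v | v ≠ τ 0 (!b0) ∧ v ≠ τ 1 (!a1)} : Set W) := by
      intro w hw
      refine ⟨transaux_mem (A := {v | v ≠ τ 0 (!b0)}) hxy hw, ?_⟩
      rintro rfl; exact h3 hw
    exact ⟨b0, a1, transaux_closed hsub h1, a2, transaux_closed hsub h2⟩
  have hconn : (Reg H {v | v ≠ τ 0 (!b0)}).Reachable (τ 1 a1) (τ 1 (!a1)) := h1.symm.trans h3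
  have cov := fun {v} hv => yz_cover (H := H) (A := {v | v ≠ τ 0 (!b0)}) (s := τ 1 a1) (t := τ 1 (!a1)) (v := v) hst
    (h10 _ _) (h10 _ _) hv hconn
  have cx := cov h1.symm
  have cc := cov (h1.symm.trans h2)
  by_cases hY : (Reg H ({v | v ≠ τ 0 (!b0)} \ {τ 1 (!a1)})).Reachable (τ 1 a1) (τ 0 b0) ∧
      ∃ a, (Reg H ({v | v ≠ τ 0 (!b0)} \ {τ 1 (!a1)})).Reachable (τ 1 a1) (τ 2 a)
  · obtain ⟨hx, a, ha⟩ := hY
    rw [hsets] at hx ha
    exact ⟨b0, a1, hx.symm, a, hx.symm.trans ha⟩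
  by_cases hZ : (Reg H ({v | v ≠ τ 0 (!b0)} \ {τ 1 a1})).Reachable (τ 1 (!a1)) (τ 0 b0) ∧
      ∃ a, (Reg H ({v | v ≠ τ 0 (!b0)} \ {τ 1 a1})).Reachable (τ 1 (!a1)) (τ 2 a)
  · obtain ⟨hx, a, ha⟩ := hZ
    rw [hsets] at hx ha
    refine ⟨b0, !a1, ?_, a, ?_⟩
    · rw [Bool.not_not]; exact hx.symm
    · rw [Bool.not_not]; exact hx.symm.trans ha
  push Not at hY hZ
  rcases cx with hx | hx
  · have hcY := hY hx
    have hcZ := cc.resolve_left (hcY a2)
    have hxZ : ¬ (Reg H ({v | v ≠ τ 0 (!b0)} \ {τ 1 a1})).Reachable (τ 1 (!a1)) (τ 0 b0) := fun h => hZ h a2 hcZ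
    have := transa_E2bad hT b0 (!a1) a2 (by rw [Bool.not_not]; exact hconn) (by rw [Bool.not_not]; exact hx)
      (by rw [Bool.not_not]; exact hxZ) (by rw [Bool.not_not]; exact hcZ) (by rw [Bool.not_not]; exact hcY)
    refine ⟨!b0, !a1, ?_, a2, ?_⟩
    · rw [Bool.not_not b0]; exact this.1
    · rw [Bool.not_not b0]; exact this.2
  · have hcZ := hZ hx
    have hcY := cc.resolve_right (hcZ a2)
    have hxY : ¬ (Reg H ({v | v ≠ τ 0 (!b0)} \ {τ 1 (!a1)})).Reachable (τ 1 a1) (τ 0 b0) := fun h => hY h a2 hcY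
    have := transa_E2bad hT b0 a1 a2 hconn.symm hx hxY hcY hcZ
    refine ⟨!b0, a1, ?_, a2, ?_⟩
    · rw [Bool.not_not b0]; exact this.1
    · rw [Bool.not_not b0]; exact this.2

theorem transa_connB {H : SimpleGraph W} {τ : Fin 3 → Bool → W} (b0 b1 b2 : Bool) (v : W)
    (h0 : (Reg H {v | v ≠ τ 0 (!b0) ∧ v ≠ τ 1 (!b1) ∧ v ≠ τ 2 (!b2)}).Reachable v (τ 0 b0))
    (h1 : (Reg H {v | v ≠ τ 0 (!b0) ∧ v ≠ τ 1 (!b1) ∧ v ≠ τ 2 (!b2)}).Reachable v (τ 1 b1))
    (h2 : (Reg H {v | v ≠ τ 0 (!b0) ∧ v ≠ τ 1 (!b1) ∧ v ≠ τ 2 (!b2)}).Reachable v (τ 2 b2)) :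
    ConnB H τ ![b0, b1, b2] := by
  have hset : ({v | ∀ k, v ≠ τ k (!(![b0, b1, b2] k))} : Set W) =
      {v | v ≠ τ 0 (!b0) ∧ v ≠ τ 1 (!b1) ∧ v ≠ τ 2 (!b2)} := by
    ext v
    simp [Fin.forall_fin_succ]
  have key : ∀ i, (Reg H {v | ∀ k, v ≠ τ k (!(![b0, b1, b2] k))}).Reachable v (τ i (![b0, b1, b2] i)) := by
    intro i
    rw [hset]
    fin_cases i
    · exact h0
    · exact h1
    · exact h2
  exact fun i j => (key i).symm.trans (key j)

/-- The bad case of E3. -/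
theorem transa_E3bad {H : SimpleGraph W} {τ : Fin 3 → Bool → W} (hT : TSys H τ) (b0 b1 b2 : Bool) (A : Set W)
    (hA : A = {v | v ≠ τ 0 (!b0) ∧ v ≠ τ 1 (!b1)})
    (hconn : (Reg H A).Reachable (τ 2 (!b2)) (τ 2 b2))
    (h0Y : (Reg H (A \ {τ 2 b2})).Reachable (τ 2 (!b2)) (τ 0 b0))
    (h0Z : ¬ (Reg H (A \ {τ 2 (!b2)})).Reachable (τ 2 b2) (τ 0 b0))
    (h1Z : (Reg H (A \ {τ 2 (!b2)})).Reachable (τ 2 b2) (τ 1 b1))
    (h1Y : ¬ (Reg H (A \ {τ 2 b2})).Reachable (τ 2 (!b2)) (τ 1 b1)) : ∃ b, ConnB H τ b := by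
  have ne : ∀ i a j b, (i ≠ j ∨ a ≠ b) → τ i a ≠ τ j b := by
    intro i a j b h h'
    have := hT.inj _ _ _ _ h'
    tauto
  have hst : τ 2 (!b2) ≠ τ 2 b2 := ne _ _ _ _ (Or.inr (by cases b2 <;> simp))
  have h20 : ∀ a b, τ 2 a ≠ τ 0 b := fun a b => ne _ _ _ _ (Or.inl (by decide))
  have h21 : ∀ a b, τ 2 a ≠ τ 1 b := fun a b => ne _ _ _ _ (Or.inl (by decide))
  have h10 : ∀ a b, τ 1 a ≠ τ 0 b := fun a b => ne _ _ _ _ (Or.inl (by decide))
  have hxy0 : τ 0 (!b0) ≠ τ 0 b0 := ne _ _ _ _ (Or.inr (by cases b0 <;> simp))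
  have hxy1 : τ 1 (!b1) ≠ τ 1 b1 := ne _ _ _ _ (Or.inr (by cases b1 <;> simp))
  have h2A : ∀ c, τ 2 c ∈ A := by
    intro c; rw [hA]; exact ⟨h20 _ _, h21 _ _⟩
  obtain ⟨m, r, hadj, hr, hmY, hmZ⟩ := yz_lemma hT A 2 (s := τ 2 (!b2)) (t := τ 2 b2)
    (by cases b2 <;> simp) (h2A _) (h2A _) hconn (α := τ 0 b0) (β := τ 1 b1) (ne _ _ _ _ (Or.inl (by decide)))
    (ne _ _ _ _ (Or.inl (by decide))) h0Y h0Z h1Z h1Y (by
      intro j e h1 h2
      fin_cases j
      · by_cases he : e = b0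
        · subst he; exact h0Z h2
        · have he' : e = !b0 := by cases e <;> cases b0 <;> simp_all
          subst he'
          have := transaux_eq (by rw [hA]; simp) h2
          exact h20 _ _ this
      · by_cases he : e = b1
        · subst he; exact h1Y h1
        · have he' : e = !b1 := by cases e <;> cases b1 <;> simp_all
          subst he'
          have := transaux_eq (by rw [hA]; simp) h2
          exact h21 _ _ this
      · by_cases he : e = b2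
        · subst he
          have := transaux_eq (by simp) h1
          exact hst this
        · have he' : e = !b2 := by cases e <;> cases b2 <;> simp_all
          subst he'
          have := transaux_eq (by simp) h2
          exact hst this.symm)
  have hr' : r = τ 0 (!b0) ∨ r = τ 1 (!b1) := by
    rw [hA] at hr
    by_contra hcon
    push Not at hcon
    exact hr hcon
  rcases hr' with rfl | rfl
  · -- take `Z ∪ {y₀}`
    refine ⟨_, transa_connB (!b0) b1 b2 (τ 2 b2) ?_ ?_ (SimpleGraph.Reachable.refl _)⟩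
    all_goals
      rw [Bool.not_not b0]
      set B : Set W := {v | v ≠ τ 0 b0 ∧ v ≠ τ 1 (!b1) ∧ v ≠ τ 2 (!b2)} with hB
      have hsub : ∀ w, (Reg H (A \ {τ 2 (!b2)})).Reachable (τ 2 b2) w → w ∈ B := by
        intro w hw
        have hm := transaux_mem (A := A \ {τ 2 (!b2)}) ⟨h2A _, hst.symm⟩ hw
        rw [hA] at hm
        refine ⟨?_, hm.1.2, hm.2⟩
        rintro rfl; exact h0Z hw
    · exact transaux_step (transaux_closed hsub hmZ) hadj (hsub m hmZ) ⟨hxy0, (h10 _ _).symm, (h20 _ _).symm⟩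
    · exact transaux_closed hsub h1Z
  · -- take `Y ∪ {y₁}`
    refine ⟨_, transa_connB b0 (!b1) (!b2) (τ 2 (!b2)) ?_ ?_ (SimpleGraph.Reachable.refl _)⟩
    all_goals
      rw [Bool.not_not b1, Bool.not_not b2]
      set B : Set W := {v | v ≠ τ 0 (!b0) ∧ v ≠ τ 1 b1 ∧ v ≠ τ 2 b2} with hB
      have hsub : ∀ w, (Reg H (A \ {τ 2 b2})).Reachable (τ 2 (!b2)) w → w ∈ B := by
        intro w hw
        have hm := transaux_mem (A := A \ {τ 2 b2}) ⟨h2A _, hst⟩ hw
        rw [hA] at hm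
        refine ⟨hm.1.1, ?_, hm.2⟩
        rintro rfl; exact h1Y hw
    · exact transaux_closed hsub h0Y
    · exact transaux_step (transaux_closed hsub hmY) hadj (hsub m hmY) ⟨h10 _ _, hxy1, (h21 _ _).symm⟩

/-- (G1), steps E1, E2, E3 of the notes (use `yz_cover`, `yz_lemma`).
E1: there is `b₀` such that the component of `τ 0 b₀` in `H \ τ 0 (!b₀)` meets the pairs 1 and 2. (If the component `X₁` of `s₀` in `H \ t₀`
misses, say, pair 1, then `t₀` (at most 2 neighbours) has exactly one edge to `X₁` and one edge to the other component `X₂`; `X₂` contains pair 1, so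
`1 + tc X₂ ≥ 4`, so `X₂` meets pair 2; take `t₀`.)
E2: then there are `b₀, b₁` such that the component of `τ 0 b₀` in `H` without `τ 0 (!b₀), τ 1 (!b₁)` contains `τ 1 b₁` and meets pair 2.
E3: then all three. -/
theorem exists_connB {H : SimpleGraph W} {τ : Fin 3 → Bool → W} (hT : TSys H τ) : ∃ b, ConnB H τ b := by
  have ne : ∀ i a j b, (i ≠ j ∨ a ≠ b) → τ i a ≠ τ j b := by
    intro i a j b h h'
    have := hT.inj _ _ _ _ h'
    tauto
  obtain ⟨b0, b1, h01, a2, h2⟩ := transa_E2 hT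
  obtain ⟨A, hA⟩ : ∃ A : Set W, A = {v | v ≠ τ 0 (!b0) ∧ v ≠ τ 1 (!b1)} := ⟨_, rfl⟩
  rw [← hA] at h01 h2
  have h20 : ∀ a b, τ 2 a ≠ τ 0 b := fun a b => ne _ _ _ _ (Or.inl (by decide))
  have h21 : ∀ a b, τ 2 a ≠ τ 1 b := fun a b => ne _ _ _ _ (Or.inl (by decide))
  have h10 : ∀ a b, τ 1 a ≠ τ 0 b := fun a b => ne _ _ _ _ (Or.inl (by decide))
  have hx0 : τ 0 b0 ∈ A := by
    rw [hA]; exact ⟨ne _ _ _ _ (Or.inr (by cases b0 <;> simp)), (h10 _ _).symm⟩
  have h2A : ∀ c, τ 2 c ∈ A := by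
    intro c; rw [hA]; exact ⟨h20 _ _, h21 _ _⟩
  have hst : τ 2 a2 ≠ τ 2 (!a2) := ne _ _ _ _ (Or.inr (by cases a2 <;> simp))
  have hsets : ∀ c, (A \ {τ 2 c} : Set W) = {v | v ≠ τ 0 (!b0) ∧ v ≠ τ 1 (!b1) ∧ v ≠ τ 2 c} := by
    intro c; rw [hA]; ext v; simp [and_assoc]
  by_cases h3 : (Reg H A).Reachable (τ 0 b0) (τ 2 (!a2))
  swap
  · have hsub : ∀ w, (Reg H A).Reachable (τ 0 b0) w → w ∈ A \ {τ 2 (!a2)} := by
      intro w hw
      refine ⟨transaux_mem hx0 hw, ?_⟩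
      rintro rfl; exact h3 hw
    refine ⟨_, transa_connB b0 b1 a2 (τ 0 b0) ?_ ?_ ?_⟩
    · exact SimpleGraph.Reachable.refl _
    · rw [← hsets]; exact transaux_closed hsub h01
    · rw [← hsets]; exact transaux_closed hsub h2
  have hconn : (Reg H A).Reachable (τ 2 a2) (τ 2 (!a2)) := h2.symm.trans h3
  have cov := fun {v} hv => yz_cover (H := H) (A := A) (s := τ 2 a2) (t := τ 2 (!a2)) (v := v) hst
    (h2A _) (h2A _) hv hconn
  have c0 := cov h2.symm
  have c1 := cov (h2.symm.trans h01)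
  by_cases hY : (Reg H (A \ {τ 2 (!a2)})).Reachable (τ 2 a2) (τ 0 b0) ∧
      (Reg H (A \ {τ 2 (!a2)})).Reachable (τ 2 a2) (τ 1 b1)
  · obtain ⟨hx, hx1⟩ := hY
    rw [hsets] at hx hx1
    exact ⟨_, transa_connB b0 b1 a2 (τ 2 a2) hx hx1 (SimpleGraph.Reachable.refl _)⟩
  by_cases hZ : (Reg H (A \ {τ 2 a2})).Reachable (τ 2 (!a2)) (τ 0 b0) ∧
      (Reg H (A \ {τ 2 a2})).Reachable (τ 2 (!a2)) (τ 1 b1)
  · obtain ⟨hx, hx1⟩ := hZ
    rw [hsets] at hx hx1
    refine ⟨_, transa_connB b0 b1 (!a2) (τ 2 (!a2)) ?_ ?_ ?_⟩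
    · rw [Bool.not_not a2]; exact hx
    · rw [Bool.not_not a2]; exact hx1
    · exact SimpleGraph.Reachable.refl _
  push Not at hY hZ
  rcases c0 with hx | hx
  · have h1Y := hY hx
    have h1Z := c1.resolve_left h1Y
    have h0Z : ¬ (Reg H (A \ {τ 2 a2})).Reachable (τ 2 (!a2)) (τ 0 b0) := fun h => hZ h h1Z
    exact transa_E3bad hT b0 b1 (!a2) A hA (by rw [Bool.not_not]; exact hconn) (by rw [Bool.not_not]; exact hx)
      (by rw [Bool.not_not]; exact h0Z) (by rw [Bool.not_not]; exact h1Z) (by rw [Bool.not_not]; exact h1Y)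
  · have h1Z := hZ hx
    have h1Y := c1.resolve_right h1Z
    have h0Y : ¬ (Reg H (A \ {τ 2 (!a2)})).Reachable (τ 2 a2) (τ 0 b0) := fun h => hY h h1Y
    exact transa_E3bad hT b0 b1 a2 A hA hconn.symm hx h0Y h1Y h1Z

end Pool.Agent.NCfg
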