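import Pool.Agent.Lib.MP_372a40_co.Trans

/-! # TRANSAUX: two lemmas for the transversal lemmas (notes 2.4) -/

open Finset

set_option linter.unusedSectionVars false
set_option linter.unusedVariables false

namespace Pool.Agent.NCfg

variable {W : Type} [Fintype W] [DecidableEq W]

/-! ### Elementary facts on reachability in `Reg H A` -/

theorem transaux_induct {H : SimpleGraph W} {A : Set W} {s v : W} (h : (Reg H A).Reachable s v) {P : W → Prop}
    (h0 : P s) (hstep : ∀ u w, (Reg H A).Reachable s u → P u → H.Adj u w → u ∈ A → w ∈ A → P w) : P v := by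
  have h' := (SimpleGraph.reachable_iff_reflTransGen s v).mp h
  induction h' with
  | refl => exact h0
  | tail hab hbc ih =>
    exact hstep _ _ ((SimpleGraph.reachable_iff_reflTransGen _ _).mpr hab)
      (ih ((SimpleGraph.reachable_iff_reflTransGen _ _).mpr hab)) hbc.1 hbc.2.1 hbc.2.2

theorem transaux_step {H : SimpleGraph W} {A : Set W} {s u w : W} (h : (Reg H A).Reachable s u)
    (ha : H.Adj u w) (hu : u ∈ A) (hw : w ∈ A) : (Reg H A).Reachable s w :=
  h.trans (SimpleGraph.Adj.reachable (G := Reg H A) ⟨ha, hu, hw⟩)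

theorem transaux_mem {H : SimpleGraph W} {A : Set W} {s v : W} (hs : s ∈ A) (h : (Reg H A).Reachable s v) : v ∈ A :=
  transaux_induct h hs (fun _ _ _ _ _ _ hw => hw)

theorem transaux_mem' {H : SimpleGraph W} {A : Set W} {s v : W} (hv : v ∈ A) (h : (Reg H A).Reachable s v) : s ∈ A :=
  transaux_mem hv h.symm

theorem transaux_eq {H : SimpleGraph W} {A : Set W} {s v : W} (hv : v ∉ A) (h : (Reg H A).Reachable s v) : s = v :=
  transaux_induct h (P := fun w => w ∉ A → s = w) (fun _ => rfl) (fun _ _ _ _ _ _ hw hw' => absurd hw hw') hv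

theorem transaux_closed {H : SimpleGraph W} {A B : Set W} {s v : W}
    (hB : ∀ w, (Reg H A).Reachable s w → w ∈ B) (h : (Reg H A).Reachable s v) : (Reg H B).Reachable s v :=
  transaux_induct h (SimpleGraph.Reachable.refl s)
    (fun u w hu ih hadj huA hwA => transaux_step ih hadj (hB u hu) (hB w (transaux_step hu hadj huA hwA)))

theorem transaux_exit {H : SimpleGraph W} {A : Set W} {s v : W} (h : (Reg H A).Reachable s v) (P : W → Prop)
    (h0 : P s) (hv : ¬ P v) : ∃ u w, (Reg H A).Reachable s u ∧ P u ∧ ¬ P w ∧ H.Adj u w ∧ u ∈ A ∧ w ∈ A := by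
  by_contra hcon
  push Not at hcon
  exact hv (transaux_induct h h0 (fun u w hu hP hadj huA hwA => by
    by_contra hPw
    exact (hcon u w hu hP hPw hadj huA) hwA))

/-- In a set `A`, every vertex `v` connected to `s` within `A` is connected to `s` within `A \ {t}` or to `t` within `A \ {s}`
(look at the first visit of a path from `v` to `{s, t}`). -/
theorem yz_cover {H : SimpleGraph W} {A : Set W} {s t v : W} (hst : s ≠ t) (hs : s ∈ A) (ht : t ∈ A)
    (hv : (Reg H A).Reachable s v) (hvs : (Reg H A).Reachable s t) :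
    (Reg H (A \ {t})).Reachable s v ∨ (Reg H (A \ {s})).Reachable t v := by
  refine transaux_induct hv (P := fun v => (Reg H (A \ {t})).Reachable s v ∨ (Reg H (A \ {s})).Reachable t v)
    (Or.inl (SimpleGraph.Reachable.refl s)) ?_
  intro u w _ hu hadj huA hwA
  by_cases hws : w = s
  · left; rw [hws]
  by_cases hwt : w = t
  · right; rw [hwt]
  by_cases hus : u = s
  · left
    subst hus
    exact transaux_step (SimpleGraph.Reachable.refl _) hadj ⟨hs, hst⟩ ⟨hwA, hwt⟩
  by_cases hut : u = t
  · right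
    subst hut
    exact transaux_step (SimpleGraph.Reachable.refl _) hadj ⟨ht, hus⟩ ⟨hwA, hws⟩
  rcases hu with hu | hu
  · left; exact transaux_step hu hadj ⟨huA, hut⟩ ⟨hwA, hwt⟩
  · right; exact transaux_step hu hadj ⟨huA, hus⟩ ⟨hwA, hws⟩

/-- Some neighbour of `t` lies in `Y ∩ Z`. -/
theorem transaux_nbr {H : SimpleGraph W} {A : Set W} {s t : W} (hst : s ≠ t) (hs : s ∈ A) (ht : t ∈ A)
    (hna : ¬ H.Adj s t) (hconn : (Reg H A).Reachable s t) :
    ∃ m, H.Adj t m ∧ (Reg H (A \ {t})).Reachable s m ∧ (Reg H (A \ {s})).Reachable t m := by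
  have htY : ¬ (Reg H (A \ {t})).Reachable s t := by
    intro h
    exact hst (transaux_eq (by simp) h)
  obtain ⟨u, w, _, hu, hw, hadj, huA, hwA⟩ := transaux_exit hconn (fun v => (Reg H (A \ {t})).Reachable s v)
    (SimpleGraph.Reachable.refl s) htY
  have hut : u ≠ t := by rintro rfl; exact htY hu
  have hwt : w = t := by
    by_contra hwt
    exact hw (transaux_step hu hadj ⟨huA, hut⟩ ⟨hwA, hwt⟩)
  subst hwt
  have hus : u ≠ s := by rintro rfl; exact hna hadj
  exact ⟨u, hadj.symm, hu, transaux_step (SimpleGraph.Reachable.refl _) hadj.symm ⟨ht, hst.symm⟩ ⟨huA, hus⟩⟩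

/-- Some neighbour of `s` is not in `Z`. -/
theorem transaux_nbr' {H : SimpleGraph W} {A : Set W} {s t α : W} (hst : s ≠ t) (hs : s ∈ A) (ht : t ∈ A)
    (hαs : α ≠ s) (hα : (Reg H (A \ {t})).Reachable s α) (hα' : ¬ (Reg H (A \ {s})).Reachable t α) :
    ∃ a, H.Adj s a ∧ ¬ (Reg H (A \ {s})).Reachable t a := by
  by_contra hcon
  push Not at hcon
  have := transaux_induct hα (P := fun v => v ≠ s → (Reg H (A \ {s})).Reachable t v) (fun h => absurd rfl h) (by
    intro u w hu ih hadj huA hwA hws
    by_cases hus : u = s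
    · subst hus; exact hcon w hadj
    · exact transaux_step (ih hus) hadj ⟨huA.1, hus⟩ ⟨hwA.1, hws⟩)
  exact hα' (this hαs)

/-- The key step of E2 and E3 of the notes. `R` is the set of removed vertices, `A` its complement, `s, t` the two terminals of pair `i`, connected in `A`.
`Y` (`Z`) = the vertices connected to `s` in `A \ {t}` (to `t` in `A \ {s}`). If `α ∈ Y \ Z`, `β ∈ Z \ Y` and `M = Y ∩ Z` contains no terminal then
some removed vertex is adjacent to a vertex of `M`.
Proof: `s, t` are not adjacent, so an `s`-`t` path in `A` has interior vertices; those between the last visit of `s` and the next visit of `t`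
are in `M`; so `M` is nonempty, and if `M = {m}` then `m` is a common neighbour of `s, t`, against `ncom`. So `|M| ≥ 2` and `cut H M + tc τ M ≥ 3`
with `tc τ M = 0`. `s` has at most 2 neighbours, one of them (on a path to `α`) not in `M`, so at most one edge goes from `M` to `s`; the same for `t`, `β`;
the third edge leaving `M` cannot end in `A` (then its end would be in `M`), so it ends in `R`. -/
theorem yz_lemma {H : SimpleGraph W} {τ : Fin 3 → Bool → W} (hT : TSys H τ) (A : Set W) (i : Fin 3) {s t : W}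
    (hst : (s = τ i false ∧ t = τ i true) ∨ (s = τ i true ∧ t = τ i false)) (hs : s ∈ A) (ht : t ∈ A)
    (hconn : (Reg H A).Reachable s t) {α β : W} (hαs : α ≠ s) (hβt : β ≠ t)
    (hα : (Reg H (A \ {t})).Reachable s α) (hα' : ¬ (Reg H (A \ {s})).Reachable t α)
    (hβ : (Reg H (A \ {s})).Reachable t β) (hβ' : ¬ (Reg H (A \ {t})).Reachable s β)
    (hM : ∀ j a, (Reg H (A \ {t})).Reachable s (τ j a) → (Reg H (A \ {s})).Reachable t (τ j a) → False) :
    ∃ m r, H.Adj m r ∧ r ∉ A ∧ (Reg H (A \ {t})).Reachable s m ∧ (Reg H (A \ {s})).Reachable t m := by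
  classical
  have hne : s ≠ t := by
    rcases hst with ⟨h1, h2⟩ | ⟨h1, h2⟩ <;> intro h <;> rw [h1, h2] at h <;> exact absurd (hT.inj _ _ _ _ h).2 (by simp)
  have hna : ¬ H.Adj s t := by
    rcases hst with ⟨h1, h2⟩ | ⟨h1, h2⟩ <;> rw [h1, h2] <;> exact hT.nadj _ _ _ _
  have hds : (nb H s).card ≤ 2 := by
    rcases hst with ⟨h1, h2⟩ | ⟨h1, h2⟩ <;> rw [h1] <;> exact hT.deg _ _
  have hdt : (nb H t).card ≤ 2 := by
    rcases hst with ⟨h1, h2⟩ | ⟨h1, h2⟩ <;> rw [h2] <;> exact hT.deg _ _
  have hnc : ∀ v, ¬ (H.Adj s v ∧ H.Adj t v) := by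
    intro v hv
    rcases hst with ⟨h1, h2⟩ | ⟨h1, h2⟩ <;> rw [h1, h2] at hv
    · exact hT.ncom _ _ hv
    · exact hT.ncom _ _ ⟨hv.2, hv.1⟩
  by_contra hcon
  push Not at hcon
  set M : Finset W := univ.filter (fun v => (Reg H (A \ {t})).Reachable s v ∧ (Reg H (A \ {s})).Reachable t v) with hMdef
  have memM : ∀ v, v ∈ M ↔ (Reg H (A \ {t})).Reachable s v ∧ (Reg H (A \ {s})).Reachable t v := by
    intro v; simp [hMdef]
  clear_value M
  have hsM : s ∉ M := by
    intro h
    have := ((memM s).mp h).2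
    exact hne (transaux_eq (by simp) this).symm
  have htM : t ∉ M := by
    intro h
    have := ((memM t).mp h).1
    exact hne (transaux_eq (by simp) this)
  obtain ⟨m1, hm1a, hm1s, hm1t⟩ := transaux_nbr hne hs ht hna hconn
  obtain ⟨m2, hm2a, hm2t, hm2s⟩ := transaux_nbr hne.symm ht hs (fun h => hna h.symm) hconn.symm
  have hm1 : m1 ∈ M := (memM _).mpr ⟨hm1s, hm1t⟩
  have hm2 : m2 ∈ M := (memM _).mpr ⟨hm2s, hm2t⟩
  have hm12 : m1 ≠ m2 := by rintro rfl; exact hnc _ ⟨hm2a, hm1a⟩
  have hMcard : 2 ≤ M.card := by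
    have : ({m1, m2} : Finset W) ⊆ M := by
      intro x hx
      simp only [mem_insert, mem_singleton] at hx
      rcases hx with rfl | rfl <;> assumption
    calc 2 = ({m1, m2} : Finset W).card := by rw [card_pair hm12]
      _ ≤ _ := card_le_card this
  have htc : tc τ M = 0 := by
    unfold tc
    rw [card_eq_zero]
    apply filter_eq_empty_iff.mpr
    rintro v hv ⟨j, a, rfl⟩
    exact hM j a ((memM _).mp hv).1 ((memM _).mp hv).2
  have h3 := hT.cut3 M hMcard
  rw [htc] at h3
  obtain ⟨a, haadj, haZ⟩ := transaux_nbr' hne hs ht hαs hα hα'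
  obtain ⟨c, hcadj, hcY⟩ := transaux_nbr' hne.symm ht hs hβt hβ hβ'
  have hS : ((nb H s).filter (fun v => v ∈ M)).card ≤ 1 := by
    have hsub : (nb H s).filter (fun v => v ∈ M) ⊆ (nb H s).erase a := by
      intro v hv
      rw [mem_filter] at hv
      rw [mem_erase]
      refine ⟨?_, hv.1⟩
      rintro rfl
      exact haZ ((memM _).mp hv.2).2
    have := card_le_card hsub
    rw [card_erase_of_mem (by simpa using haadj)] at this
    omega
  have hTt : ((nb H t).filter (fun v => v ∈ M)).card ≤ 1 := by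
    have hsub : (nb H t).filter (fun v => v ∈ M) ⊆ (nb H t).erase c := by
      intro v hv
      rw [mem_filter] at hv
      rw [mem_erase]
      refine ⟨?_, hv.1⟩
      rintro rfl
      exact hcY ((memM _).mp hv.2).1
    have := card_le_card hsub
    rw [card_erase_of_mem (by simpa using hcadj)] at this
    omega
  have hcut : cut H M ≤ 2 := by
    unfold cut
    have hsub : ((M ×ˢ Mᶜ).filter (fun e => H.Adj e.1 e.2)) ⊆
        ((nb H s).filter (fun v => v ∈ M)) ×ˢ {s} ∪ ((nb H t).filter (fun v => v ∈ M)) ×ˢ {t} := by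
      rintro ⟨m, r⟩ hmr
      rw [mem_filter, mem_product, mem_compl] at hmr
      obtain ⟨⟨hm, hr⟩, hadj⟩ := hmr
      simp only at hm hr hadj
      have hmm := (memM m).mp hm
      have hrA : r ∈ A := by
        by_contra hrA
        exact hcon m r hadj hrA hmm.1 hmm.2
      have hms : m ≠ s := by rintro rfl; exact hsM hm
      have hmt : m ≠ t := by rintro rfl; exact htM hm
      have hmA : m ∈ A := by
        have : m ∈ A \ {t} := transaux_mem ⟨hs, hne⟩ hmm.1
        exact this.1
      have hrst : r = s ∨ r = t := by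
        by_contra hrst
        push Not at hrst
        apply hr
        rw [memM]
        exact ⟨transaux_step hmm.1 hadj ⟨hmA, hmt⟩ ⟨hrA, hrst.2⟩, transaux_step hmm.2 hadj ⟨hmA, hms⟩ ⟨hrA, hrst.1⟩⟩
      rw [mem_union, mem_product, mem_product, mem_filter, mem_filter, mem_singleton, mem_singleton, mem_nb, mem_nb]
      rcases hrst with rfl | rfl
      · left; exact ⟨⟨hadj.symm, hm⟩, rfl⟩
      · right; exact ⟨⟨hadj.symm, hm⟩, rfl⟩
    calc _ ≤ _ := card_le_card hsub
      _ ≤ _ := card_union_le _ _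
      _ ≤ 2 := by
        rw [card_product, card_product, card_singleton, card_singleton]
        omega
  omega

end Pool.Agent.NCfg
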